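import Pool.Agent.K4H65.DM.Defs

/-!
Weights from multiplicities.
-/

set_option autoImplicit false

namespace Pool.Agent.K4H65.DM

theorem wt_ineq {q s r U : ℝ} (hs : 1 ≤ s) (hsr : s ≤ r) (hU : 0 ≤ U) (hq : 2 * r < q - U)
    (hqU : (r + 1) * U ≤ q) : 2 * s * (s * r) < s * r * q - r * (r * U) := by
  have h1 : s ^ 2 * (2 * r + U) < s ^ 2 * q := by
    apply mul_lt_mul_of_pos_left _ (by positivity)
    linarith
  have h2 : s * (r - s) * ((r + 1) * U) ≤ s * (r - s) * q := by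
    apply mul_le_mul_of_nonneg_left hqU
    apply mul_nonneg (by linarith)
    linarith
  have h3 : 0 ≤ (s - 1) * (r - s) * (r * U) := by
    apply mul_nonneg
    · apply mul_nonneg <;> linarith
    · apply mul_nonneg _ hU
      linarith
  nlinarith

theorem cdiv_le {m g b : ℕ} (hg : 1 ≤ g) (h : m ≤ g * b) : cdiv m g ≤ b := by
  unfold cdiv
  refine Nat.le_of_lt_succ ((Nat.div_lt_iff_lt_mul (by omega)).2 ?_)
  have h1 : b.succ * g = g * b + g := by
    rw [Nat.succ_mul, Nat.mul_comm]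
  omega

theorem cdiv_mul {m g : ℕ} (hg : 1 ≤ g) : m ≤ g * cdiv m g := by
  unfold cdiv
  have h1 := Nat.div_add_mod (m + g - 1) g
  have h2 := Nat.mod_lt (m + g - 1) (show g > 0 by omega)
  omega

theorem cdiv_pos {m g : ℕ} (hg : 1 ≤ g) (hm : 1 ≤ m) : 1 ≤ cdiv m g := by
  by_contra h
  have h1 : cdiv m g = 0 := by omega
  have h2 := cdiv_mul (m := m) hg
  rw [h1] at h2
  omega

theorem cdiv_zero {g : ℕ} : cdiv 0 g = 0 := by
  unfold cdiv
  rcases Nat.eq_zero_or_pos g with h | h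
  · rw [h]
  · exact Nat.div_eq_of_lt (by omega)

/-- Weights from multiplicities; the multiplicity `0` stands for infinity. -/
theorem exists_wts2 {q : ℕ} {m : Fin q → ℕ} {s : ℕ}
    (hsum : 2 * (s : ℝ) < ∑ i, (1 - 1 / (m i : ℝ))) :
    ∃ (A : ℕ) (c : Fin q → ℕ), 0 < A ∧ (∀ i, c i ≤ A) ∧ 2 * s * A < ∑ i, c i ∧
      ∀ i, m i ≠ 0 → ∀ a, m i ≤ a → A + c i * a ≤ A * a := by
  classical
  obtain ⟨B, hB⟩ : ∃ B, B = ∏ i, (if m i = 0 then 1 else m i) := ⟨_, rfl⟩
  have hBpos : 0 < B := by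
    rw [hB]
    refine Finset.prod_pos fun i _ => ?_
    split_ifs with h
    · exact Nat.one_pos
    · exact Nat.pos_of_ne_zero h
  have hdvd : ∀ i, m i ≠ 0 → B = m i * (B / m i) := fun i hi => by
    have h1 : m i ∣ B := by
      rw [hB]
      have h2 := Finset.dvd_prod_of_mem (fun i => if m i = 0 then 1 else m i) (Finset.mem_univ i)
      simp only [hi, if_false] at h2
      exact h2
    exact (Nat.mul_div_cancel' h1).symm
  refine ⟨B, fun i => B - B / m i, hBpos, fun i => Nat.sub_le _ _, ?_, ?_⟩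
  · have hB' : (0 : ℝ) < B := by exact_mod_cast hBpos
    have hc : ∀ i, ((B - B / m i : ℕ) : ℝ) = B * (1 - 1 / (m i : ℝ)) := by
      intro i
      by_cases hi : m i = 0
      · rw [hi]
        simp
      · have hmi : (m i : ℝ) ≠ 0 := by exact_mod_cast hi
        have h4 : (B : ℝ) = m i * ((B / m i : ℕ) : ℝ) := by exact_mod_cast hdvd i hi
        rw [Nat.cast_sub (Nat.div_le_self _ _)]
        have h5 : (((B / m i : ℕ)) : ℝ) = B * (1 / (m i : ℝ)) := by
          rw [mul_one_div, eq_div_iff hmi, mul_comm]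
          exact h4.symm
        rw [h5]
        ring
    have h1 : ((2 * s * B : ℕ) : ℝ) < ((∑ i, (B - B / m i) : ℕ) : ℝ) := by
      rw [Nat.cast_sum, Finset.sum_congr rfl fun i _ => hc i, ← Finset.mul_sum]
      push_cast
      nlinarith
    exact_mod_cast h1
  · intro i hi a ha
    obtain ⟨b, hb⟩ : ∃ b, b = B / m i := ⟨_, rfl⟩
    have h1 := hdvd i hi
    rw [← hb] at h1
    have hBa : B ≤ b * a := by
      calc B = b * m i := by rw [h1]; ring
        _ ≤ b * a := Nat.mul_le_mul_left _ ha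
    show B + (B - B / m i) * a ≤ B * a
    rw [← hb]
    have h3 : b ≤ B := by rw [hb]; exact Nat.div_le_self _ _
    have h2 : (B - b) * a + b * a = B * a := by
      rw [← Nat.add_mul, Nat.sub_add_cancel h3]
    omega

/-- the simplest wide sets -/
theorem wide_of {k : Type} [Field k] {r : ℕ} {S : Finset k} {m : k → ℕ} (hm : ∀ c ∈ S, r < m c)
    (hsum : 2 * (r : ℝ) < ∑ c ∈ S, (1 - 1 / (m c : ℝ))) : Wide r S m := by
  classical
  refine ⟨fun c hc => by have := hm c hc; omega, fun g s hg hs hgs => ?_⟩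
  have hg' : (1 : ℝ) ≤ g := by exact_mod_cast hg
  have hs' : (1 : ℝ) ≤ s := by exact_mod_cast hs
  have hgs' : (g : ℝ) * s ≤ r := by exact_mod_cast hgs
  obtain ⟨U, hU⟩ : ∃ U : ℝ, U = ∑ c ∈ S, 1 / (m c : ℝ) := ⟨_, rfl⟩
  have h0 : ∑ c ∈ S, (1 - 1 / (m c : ℝ)) = S.card - U := by
    rw [hU, Finset.sum_sub_distrib]
    simp
  have h1 : ∑ c ∈ S, (1 - (g : ℝ) / (m c : ℝ)) = S.card - g * U := by
    rw [hU, Finset.mul_sum, Finset.sum_sub_distrib]
    simp [div_eq_mul_inv]
  have h2 : ∑ c ∈ S, (1 - (g : ℝ) / (m c : ℝ)) ≤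
      ∑ c ∈ S, (1 - 1 / (cdiv (m c) g : ℝ)) := by
    refine Finset.sum_le_sum fun c hc => ?_
    have hm0 : 1 ≤ m c := by have := hm c hc; omega
    have h3 : (0 : ℝ) < m c := by exact_mod_cast hm0
    have h4 : (0 : ℝ) < cdiv (m c) g := by exact_mod_cast cdiv_pos hg hm0
    have h5 : (m c : ℝ) ≤ g * cdiv (m c) g := by exact_mod_cast cdiv_mul hg
    have h6 : 1 / (cdiv (m c) g : ℝ) ≤ (g : ℝ) / (m c : ℝ) := by
      rw [div_le_div_iff₀ h4 h3]
      linarith
    linarith
  have hqU : ((r : ℝ) + 1) * U ≤ S.card := by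
    rw [hU, Finset.mul_sum]
    calc ∑ c ∈ S, ((r : ℝ) + 1) * (1 / (m c : ℝ)) ≤ ∑ _c ∈ S, (1 : ℝ) := by
          refine Finset.sum_le_sum fun c hc => ?_
          have h1 : (0 : ℝ) < m c := by
            have := hm c hc
            have h5 : 0 < m c := by omega
            exact_mod_cast h5
          rw [mul_one_div, div_le_one h1]
          exact_mod_cast hm c hc
      _ = S.card := by simp
  have hU0 : 0 ≤ U := by
    rw [hU]
    exact Finset.sum_nonneg fun c _ => by positivity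
  rw [h0] at hsum
  refine lt_of_lt_of_le ?_ h2
  rw [h1]
  have hsr : (s : ℝ) ≤ r := by nlinarith
  have hkey := wt_ineq hs' hsr hU0 hsum hqU
  have hr' : (0 : ℝ) < r := by linarith
  have h3 : 2 * (s : ℝ) * s < s * S.card - r * U := by
    have : (r : ℝ) * (2 * s * s) < r * (s * S.card - r * U) := by linarith
    exact lt_of_mul_lt_mul_left this hr'.le
  have h4 : (g : ℝ) * s * U ≤ r * U := mul_le_mul_of_nonneg_right hgs' hU0
  have h5 : (s : ℝ) * (2 * s) < s * (S.card - g * U) := by nlinarith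
  exact lt_of_mul_lt_mul_left h5 (by linarith)

theorem Wide.mono {k : Type} [Field k] {r r' : ℕ} {S : Finset k} {m : k → ℕ}
    (h : Wide r S m) (hr : r' ≤ r) : Wide r' S m :=
  ⟨h.1, fun g s hg hs hgs => h.2 g s hg hs (hgs.trans hr)⟩

end Pool.Agent.K4H65.DM
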