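import Pool.Agent.K4H65.DM.Contact
import Pool.Agent.K4H65.DM.Wts
import Pool.Agent.Y221.AB.Wei
import Pool.Agent.Y216.EcD

/-!
Algebroid functions with high multiplicities over many points are constant.
-/

set_option autoImplicit false
set_option linter.overlappingInstances false
set_option linter.unusedSectionVars false

open Filter Topology Set FF Polynomial Pool.Agent.TH143.EL Pool.Agent.Y221.AB
open Pool.Agent.Y216 Pool.Agent.Y190.BV Pool.Agent.W919.RC.RCV
open Pool.Agent.W603.LV (Ge)
open Pool.Agent.W602.GT (const_of_algebraic)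
open Pool.Agent.W602.Cov.R (Ent)

namespace Pool.Agent.K4H65.DM

/-! ### the places of the field of meromorphic functions -/

theorem odr_add (x y : MK) (z : ℂ) : min (odr x z) (odr y z) ≤ odr (x + y) z := by
  unfold odr
  rw [meromorphicOrderAt_congr (codis_ev (Fn_add_codis x y) z)]
  exact meromorphicOrderAt_add (Fn_mero x z) (Fn_mero y z)

theorem odr_const {c : ℂ} (hc : c ≠ 0) (z : ℂ) : odr (algebraMap ℂ MK c) z = 0 := by
  rw [odr_zero_iff, (Fn_const c z).self_of_nhds]
  exact hc

theorem odr_zero (z : ℂ) : odr 0 z = ⊤ := by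
  unfold odr
  rw [meromorphicOrderAt_eq_top_iff]
  have := codis_ev (Fn_const_codis 0) z
  rw [map_zero] at this
  exact this

/-- the place of a point -/
noncomputable def plc (z : ℂ) : Place ℂ MK where
  ord x := (odr x z).untop₀
  ord_zero := by rw [odr_zero, WithTop.untop₀_top]
  ord_mul := by
    intro x y hx hy
    rw [odr_mul]
    exact WithTop.untop₀_add (odr_ne_top hx z) (odr_ne_top hy z)
  ord_add := by
    intro x y hx hy hxy
    have h1 := odr_add x y z
    have e1 := odr_ne_top hx z
    have e2 := odr_ne_top hy z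
    have e3 := odr_ne_top hxy z
    obtain ⟨a, ha⟩ := WithTop.ne_top_iff_exists.1 e1
    obtain ⟨b, hb⟩ := WithTop.ne_top_iff_exists.1 e2
    obtain ⟨c, hc⟩ := WithTop.ne_top_iff_exists.1 e3
    rw [← ha, ← hb, ← hc] at h1 ⊢
    rw [← WithTop.coe_min, WithTop.coe_le_coe] at h1
    exact h1
  ord_const := by
    intro c hc
    rw [odr_const hc]
    rfl
  surj := by
    have hm : Meromorphic fun w : ℂ => w - z := fun w =>
      (analyticAt_id.sub analyticAt_const).meromorphicAt
    have h1 : odr (cl _ hm) z = 1 := by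
      rw [odr_cl]
      exact meromorphicOrderAt_id_sub_const (𝕜 := ℂ) (x := z)
    refine ⟨cl _ hm, fun h0 => ?_, ?_⟩
    · rw [h0, odr_zero] at h1
      exact absurd h1 (by decide)
    · rw [h1]
      rfl

theorem plc_ord (z : ℂ) (x : MK) : (plc z).ord x = (odr x z).untop₀ := rfl

theorem plc_entire {g : ℂ → ℂ} (hg : Differentiable ℂ g) (hm : Meromorphic g) {z : ℂ} {n : ℕ}
    (h : analyticOrderAt g z = n) : (plc z).ord (cl g hm) = n := by
  rw [plc_ord, odr_cl, (hg.analyticAt z).meromorphicOrderAt_eq, h]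
  rfl

theorem eval_pol {L : Type} [Field L] {n : ℕ} (y : Fin (n + 1) → L) (t : L) :
    (pol y).eval t = ∑ j, y j * t ^ (j : ℕ) := by
  unfold pol
  rw [Polynomial.eval_finset_sum]
  exact Finset.sum_congr rfl fun j _ => by simp

variable {E : Type} [Field E] [Algebra MK E] [Algebra ℂ E] [IsScalarTower ℂ MK E]
    [FiniteDimensional MK E]

/-- **Algebroid functions with high multiplicities over many points are constant.** -/
theorem algebroid_const {r : ℕ} (hr : Module.finrank MK E ≤ r) {q : ℕ} {a : Fin q → ℂ}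
    (ha : Function.Injective a) {m : Fin q → ℕ} (hm : ∀ i, 1 ≤ m i)
    (hsum : ∀ g s : ℕ, 1 ≤ g → 1 ≤ s → g * s ≤ r →
      2 * (s : ℝ) < ∑ i, (1 - 1 / (cdiv (m i) g : ℝ))) (τ : E)
    (hτ : ∀ (Q : Place ℂ E) (i : Fin q), τ ≠ algebraMap ℂ E (a i) →
      0 < Q.ord (τ - algebraMap ℂ E (a i)) → (m i : ℤ) ≤ Q.ord (τ - algebraMap ℂ E (a i))) :
    ∃ c : ℂ, τ = algebraMap ℂ E c := by
  classical
  by_contra hcon
  push Not at hcon
  have hi : IsIntegral MK τ := Algebra.IsIntegral.isIntegral τ
  obtain ⟨f, hf⟩ : ∃ f, f = minpoly MK τ := ⟨_, rfl⟩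
  have hfm : f.Monic := by rw [hf]; exact minpoly.monic hi
  have hf0 : f ≠ 0 := hfm.ne_zero
  obtain ⟨s, hs⟩ : ∃ s, s = f.natDegree := ⟨_, rfl⟩
  have hs0 : 1 ≤ s := by rw [hs, hf]; exact minpoly.natDegree_pos hi
  have hsd : s ≤ Module.finrank MK E := by
    rw [hs, hf]
    exact minpoly.natDegree_le τ
  obtain ⟨g, hg, -⟩ := norm_sub (K := MK) τ 0
  rw [← hf, ← hs] at hg
  have hfin0 : 0 < Module.finrank MK E := Module.finrank_pos
  have hg1 : 1 ≤ g := by
    rcases Nat.eq_zero_or_pos g with h | h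
    · rw [h, mul_zero] at hg
      omega
    · exact h
  obtain ⟨A, c, hA, hcA, hsumc, hw⟩ := exists_wts2 (hsum g s hg1 hs0 (by
    rw [mul_comm, hg]
    exact hr))
  obtain ⟨p, rfl⟩ : ∃ p, q = p + 1 := by
    rcases q with _ | p
    · simp at hsumc
    · exact ⟨p, rfl⟩
  obtain ⟨u, hu⟩ : ∃ u : Fin (s + 1) → MK, u = fun j : Fin (s + 1) => f.coeff (j : ℕ) :=
    ⟨_, rfl⟩
  have hulast : u (Fin.last s) = 1 := by
    rw [hu]
    simp only [Fin.val_last]
    rw [hs]
    exact hfm.coeff_natDegree
  obtain ⟨e, U, hN⟩ := exists_nrm u hulast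
  obtain ⟨F, hF'⟩ : ∃ F : ℂ → Fin (s + 1) → ℂ, F = fun z j => U j z := ⟨_, rfl⟩
  have hFj : ∀ j, (fun z => F z j) = Fn (e * u j) := by
    intro j
    rw [hF']
    exact hN.eq j
  have hF : ∀ j, Differentiable ℂ fun z => F z j := by
    intro j z
    rw [hFj]
    exact (hN.reg j z).differentiableAt
  have htoK : ∀ j, toK F hF j = e * u j := by
    intro j
    unfold toK
    rw [toM_apply]
    conv_rhs => rw [← cl_Fn (e * u j)]
    rw [cl_eq]
    refine Eventually.of_forall fun z => ?_
    exact congrFun (hFj j) z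
  have hpu : pol u = f := by
    rw [hu]
    exact (eq_pol (F := f) hs.ge).symm
  have hpol : pol (toK F hF) = C e * f := by
    have h1 : toK F hF = fun j => e * u j := funext htoK
    rw [h1, pol_smul, hpu]
  have hnz : ∀ z, F z ≠ 0 := by
    intro z h0
    obtain ⟨i, hi⟩ := hN.nz z
    apply hi
    have := congrFun h0 i
    rw [hF'] at this
    exact this
  -- the values at the points
  obtain ⟨x, hx⟩ : ∃ x : Fin (p + 1) → MK, x = fun i => (C e * f).eval (algebraMap ℂ MK (a i)) :=
    ⟨_, rfl⟩
  have hfa : ∀ i, f.eval (algebraMap ℂ MK (a i)) ≠ 0 := fun i => by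
    rw [hf]
    exact minpoly_eval_ne (hcon (a i))
  have hx0 : ∀ i, x i ≠ 0 := by
    intro i
    rw [hx]
    simp only [eval_mul, eval_C]
    exact mul_ne_zero hN.ne (hfa i)
  have hevi : ∀ i z, evi (fun _ : Fin (p + 1) => (1 : ℂ)) a i (F z) =
      ∑ j, F z j * a i ^ (j : ℕ) := by
    intro i z
    unfold evi bev
    refine Finset.sum_congr rfl fun j _ => ?_
    rw [one_pow, one_mul, mul_comm]
  have hgd : ∀ i, Differentiable ℂ fun z => evi (fun _ : Fin (p + 1) => (1 : ℂ)) a i (F z) :=
    fun i => evi_diff hF i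
  have hgx : ∀ i, toM (mk (fun z => evi (fun _ : Fin (p + 1) => (1 : ℂ)) a i (F z)) (hgd i)) =
      x i := by
    intro i
    have h1 : mk (fun z => evi (fun _ : Fin (p + 1) => (1 : ℂ)) a i (F z)) (hgd i) =
        ∑ j, toE F hF j * algebraMap ℂ Ent (a i) ^ (j : ℕ) := by
      apply ext_ent
      intro z
      rw [evz_mk, hevi, map_sum]
      refine Finset.sum_congr rfl fun j _ => ?_
      rw [map_mul, map_pow, AlgHom.commutes]
      rfl
    rw [h1, map_sum, hx, ← hpol]
    simp only
    rw [eval_pol]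
    refine Finset.sum_congr rfl fun j _ => ?_
    rw [map_mul, map_pow, AlgHom.commutes]
    rfl
  have hgx' : ∀ i, cl (fun z => evi (fun _ : Fin (p + 1) => (1 : ℂ)) a i (F z))
      (mero_entire (hgd i)) = x i := fun i => hgx i
  have hcnt : ∀ z, cnt (plc z) (C e * f) = 0 := by
    intro z
    apply cnt_unique
    · intro j
      rw [coeff_C_mul]
      by_cases hj : j < s + 1
      · have h1 := reg_iff.1 (hN.reg ⟨j, hj⟩ z)
        rw [hu] at h1
        simp only at h1
        by_cases h0 : e * f.coeff j = 0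
        · exact Or.inl h0
        · right
          rw [plc_ord]
          obtain ⟨b, hb⟩ := WithTop.ne_top_iff_exists.1 (odr_ne_top h0 z)
          rw [← hb] at h1 ⊢
          exact_mod_cast h1
      · left
        rw [Polynomial.coeff_eq_zero_of_natDegree_lt (by omega), mul_zero]
    · obtain ⟨i, hi⟩ := hN.nz z
      refine ⟨i, ?_, ?_⟩
      · rw [coeff_C_mul]
        intro h0
        apply hi
        rw [hN.eq i, hu]
        simp only
        rw [h0]
        have := (Fn_const 0 z).self_of_nhds
        rw [map_zero] at this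
        exact this
      · rw [coeff_C_mul, plc_ord]
        have h1 : odr (e * u i) z = 0 := by
          rw [odr_zero_iff, ← hN.eq]
          exact hi
        rw [hu] at h1
        simp only at h1
        rw [h1]
        rfl
  have hctz : ∀ z i (b : ℕ), analyticOrderAt
      (fun z => evi (fun _ : Fin (p + 1) => (1 : ℂ)) a i (F z)) z = b → ct (plc z) f (a i) = b := by
    intro z i b hb
    have h1 := plc_entire (hgd i) (mero_entire (hgd i)) hb
    rw [hgx'] at h1
    have h2 : ct (plc z) (C e * f) (a i) = b := by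
      unfold ct
      rw [hcnt, sub_zero, ← h1, hx]
    rw [ct_mul _ (by rw [eval_C]; exact hN.ne) (hfa i), ct_C _ hN.ne, zero_add] at h2
    exact h2
  have hMlt : Mlt (fun _ : Fin (p + 1) => (1 : ℂ)) a A c F := by
    intro z b hb
    rw [Finset.mul_sum]
    refine Finset.sum_le_sum fun i _ => ?_
    have h1 := hctz z i (b i) (hb i)
    have h2 := contact (K := MK) (E := E) (plc z) (hcon (a i)) (m := m i)
      (fun Q e' _ h => hτ Q i (hcon (a i)) h)
    rw [← hf, h1, ← hs] at h2
    rcases h2 with h2 | h2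
    · have h3 : b i = 0 := by exact_mod_cast h2
      rw [h3]
      simp
    · have h3 : m i ≤ g * b i := by
        have h4 : m i * s ≤ Module.finrank MK E * b i := by exact_mod_cast h2
        rw [← hg] at h4
        refine Nat.le_of_mul_le_mul_right (c := s) ?_ hs0
        calc m i * s ≤ s * g * b i := h4
          _ = g * b i * s := by ring
      have h4 := hw i (by have := cdiv_pos hg1 (hm i); omega) (b i) (cdiv_le hg1 h3)
      rw [Nat.mul_sub, mul_one]
      omega
  have hsq : Sqf (toK F hF) := by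
    refine ⟨?_, ?_⟩
    · rw [hpol]
      have h1 : Irreducible (C e * f) := by
        rw [irreducible_isUnit_mul (Polynomial.isUnit_C.2 (isUnit_iff_ne_zero.2 hN.ne)), hf]
        exact minpoly.irreducible hi
      exact h1.squarefree
    · rw [hpol, natDegree_C_mul hN.ne]
      omega
  have hne : ∀ i, ∃ z, evi (fun _ : Fin (p + 1) => (1 : ℂ)) a i (F z) ≠ 0 := by
    intro i
    by_contra h
    push Not at h
    apply hx0 i
    rw [← hgx' i, cl_eq_zero]
    exact Eventually.of_forall h
  have hconst := entire_main (u := fun _ : Fin (p + 1) => (1 : ℂ)) (v := a)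
    (fun i j hij => by
      rw [one_mul, one_mul]
      exact fun h => hij (ha h.symm)) hcA hsumc hF hnz hne hsq hMlt
  -- the coefficients are constant
  obtain ⟨z0, hz0⟩ : ∃ z0, F z0 (Fin.last s) ≠ 0 := by
    by_contra h
    push Not at h
    have h1 : e * u (Fin.last s) ≠ 0 := by
      rw [hulast, mul_one]
      exact hN.ne
    obtain ⟨z, hz⟩ := (Fn_ne_codis h1).exists
    apply hz
    rw [← hFj]
    exact h z
  have hcoef : ∀ j, ∃ b : ℂ, f.coeff j = algebraMap ℂ MK b := by
    intro j
    by_cases hj : j < s + 1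
    · refine ⟨F z0 ⟨j, hj⟩ / F z0 (Fin.last s), ?_⟩
      have h1 : ∀ z, F z ⟨j, hj⟩ = F z0 ⟨j, hj⟩ / F z0 (Fin.last s) * F z (Fin.last s) := by
        intro z
        obtain ⟨t, ht⟩ := hconst z0 z
        rw [ht, Pi.smul_apply, Pi.smul_apply, smul_eq_mul, smul_eq_mul]
        field_simp
      have h2 : toE F hF ⟨j, hj⟩ = algebraMap ℂ Ent (F z0 ⟨j, hj⟩ / F z0 (Fin.last s)) *
          toE F hF (Fin.last s) := by
        apply ext_ent
        intro z
        rw [map_mul, AlgHom.commutes]
        exact h1 z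
      have h3 := congrArg toM h2
      rw [map_mul, AlgHom.commutes] at h3
      have h4 := htoK ⟨j, hj⟩
      have h5 := htoK (Fin.last s)
      unfold toK at h4 h5
      rw [h4, h5, hulast, mul_one, hu] at h3
      simp only at h3
      have h6 := mul_left_cancel₀ hN.ne (h3.trans (mul_comm _ _))
      exact h6
    · exact ⟨0, by rw [Polynomial.coeff_eq_zero_of_natDegree_lt (by omega), map_zero]⟩
  have hlift : f ∈ Polynomial.lifts (algebraMap ℂ MK) := by
    rw [Polynomial.lifts_iff_coeff_lifts]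
    intro j
    obtain ⟨b, hb⟩ := hcoef j
    exact ⟨b, hb.symm⟩
  obtain ⟨g, hg⟩ := (Polynomial.mem_lifts _).1 hlift
  have hg0 : g ≠ 0 := by
    rintro rfl
    rw [Polynomial.map_zero] at hg
    exact hf0 hg.symm
  have halg : IsAlgebraic ℂ τ := by
    refine ⟨g, hg0, ?_⟩
    have h1 := minpoly.aeval MK τ
    rw [← hf, ← hg, Polynomial.aeval_map_algebraMap] at h1
    exact h1
  obtain ⟨b, hb⟩ := const_of_algebraic halg
  exact hcon b hb

end Pool.Agent.K4H65.DM
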