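import Pool.Agent.TH466.QG.Strong
import Pool.Agent.Y221.BD.Defs
import Pool.Agent.K4H65.DM.Ent

/-!
Entire curves in the varieties dominated by a variety with functions whose specializations over
finite extensions of the field of meromorphic functions are constant.
-/

set_option autoImplicit false
set_option maxHeartbeats 400000
set_option linter.overlappingInstances false
set_option linter.unusedSectionVars false

open FF IntermediateField Filter

namespace Pool.Agent.K4H65.DM

open Pool.Agent.W602.GT Pool.Agent.TH466.QG Pool.Agent.TH143.EL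
open Pool.Agent.Y221.BD (EntireCurve PseudoBrody)

/-- values of forms at the point of the field of meromorphic functions -/
theorem val_cl {M : ℕ} {f : Fin (M + 1) → ℂ → ℂ} (hf : ∀ i, Meromorphic (f i))
    (G : MvPolynomial (Fin (M + 1)) ℂ) :
    val (fun i => cl (f i) (hf i)) G =
      cl (fun t => MvPolynomial.eval (fun i => f i t) G) (mero_eval hf G) := by
  unfold Pool.Agent.W602.GT.val
  let u : Fin (M + 1) → MerS := fun i => ⟨f i, hf i⟩
  have h1 : ((Ideal.Quotient.mkₐ ℂ MJ).comp (MvPolynomial.aeval u)) =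
      MvPolynomial.aeval (fun i => cl (f i) (hf i)) := by
    apply MvPolynomial.algHom_ext
    intro i
    rw [AlgHom.comp_apply, MvPolynomial.aeval_X, MvPolynomial.aeval_X]
    rfl
  rw [← h1, AlgHom.comp_apply]
  change Ideal.Quotient.mk MJ _ = Ideal.Quotient.mk MJ _
  congr 1
  apply Subtype.ext
  funext t
  have h2 : (evS t).comp (MvPolynomial.aeval u) = MvPolynomial.aeval (fun i => f i t) := by
    apply MvPolynomial.algHom_ext
    intro i
    rw [AlgHom.comp_apply, MvPolynomial.aeval_X, MvPolynomial.aeval_X]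
    rfl
  have h3 := DFunLike.congr_fun h2 G
  rw [AlgHom.comp_apply] at h3
  exact h3.trans (by rw [MvPolynomial.aeval_eq_eval])

/-- the coordinates of the generic point of a field generated by functions -/
theorem coords_cons {k K' : Type} [Field k] [Field K'] [Algebra k K'] {n : ℕ} (t : Fin n → K') :
    coords k (Fin.cons 1 (fun p => (⟨t p, IntermediateField.subset_adjoin k _ ⟨p, rfl⟩⟩ :
      IntermediateField.adjoin k (Set.range t))) :
        Fin (n + 1) → IntermediateField.adjoin k (Set.range t)) = ⊤ := by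
  set K := IntermediateField.adjoin k (Set.range t) with hK
  set y : Fin (n + 1) → K :=
    Fin.cons 1 (fun p => (⟨t p, IntermediateField.subset_adjoin k _ ⟨p, rfl⟩⟩ : K)) with hy
  rw [eq_top_iff]
  rintro ⟨z, hz⟩ -
  have h1 : ∀ w (hw : w ∈ IntermediateField.adjoin k (Set.range t)), (⟨w, hw⟩ : K) ∈ coords k y := by
    intro w hw
    induction hw using IntermediateField.adjoin_induction with
    | mem x hx =>
      obtain ⟨p, rfl⟩ := hx
      refine IntermediateField.subset_adjoin k _ ⟨p.succ, 0, ?_, ?_⟩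
      · rw [hy, Fin.cons_zero]
        exact one_ne_zero
      · rw [hy, Fin.cons_zero, Fin.cons_succ, div_one]
    | algebraMap c => exact (coords k y).algebraMap_mem c
    | add x x' hx hx' h h' => exact (coords k y).add_mem h h'
    | inv x hx h => exact (coords k y).inv_mem h
    | mul x x' hx hx' h h' => exact (coords k y).mul_mem h h'
  exact h1 z hz

/-- **Entire curves.** -/
theorem brody_abs {K' L : Type} [Field K'] [Field L] [Algebra ℂ K'] [Algebra ℂ L]
    [Algebra L K'] [IsScalarTower ℂ L K'] [FiniteDimensional L K'] {r : ℕ}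
    (hr : Module.finrank L K' ≤ r) {M : ℕ} {x : Fin (M + 1) → L} (hx : x ≠ 0)
    (hgen : coords ℂ x = ⊤) {n : ℕ} (t : Fin n → K')
    (halg : Algebra.IsAlgebraic (IntermediateField.adjoin ℂ (Set.range t)) K')
    {Θ : Set K'} (hΘ : Θ.Finite)
    (hmain : ∀ (E : Type) [Field E] [Algebra MK E] [Algebra ℂ E] [IsScalarTower ℂ MK E]
      [FiniteDimensional MK E], Module.finrank MK E ≤ r → ∀ S : Sp ℂ K' E,
      (∀ ϑ ∈ Θ, ∃ z, S.T ϑ z) → ∀ t' : Fin n → E, (∀ p, S.T (t p) (t' p)) →
        ∀ p, ∃ c : ℂ, t' p = algebraMap ℂ E c) : PseudoBrody x := by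
  classical
  obtain ⟨i1, hi1'⟩ := Function.ne_iff.1 hx
  have hi1 : x i1 ≠ 0 := hi1'
  let K := IntermediateField.adjoin ℂ (Set.range t)
  let y : Fin (n + 1) → K :=
    Fin.cons 1 (fun p => (⟨t p, IntermediateField.subset_adjoin ℂ _ ⟨p, rfl⟩⟩ : K))
  have hygen : coords ℂ y = ⊤ := coords_cons t
  have hy0 : y 0 ≠ 0 := by
    change (1 : K) ≠ 0
    exact one_ne_zero
  obtain ⟨Θ2, hΘ2, halgs⟩ := alg_spec (K' := K') hygen hy0
    (fun m => algebraMap L K' (x m / x i1))
  obtain ⟨H, hH, hspread⟩ := spread (K' := K') (adjoin_norm hgen hi1)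
    (Θ := Θ ∪ (algebraMap K K' '' Θ2 ∪ Set.range t))
    (hΘ.union ((hΘ2.image _).union (Set.finite_range t)))
  refine ⟨MvPolynomial.X i1 * hz i1 H, ?_, ?_, ?_⟩
  · obtain ⟨d, hd⟩ := hz_form i1 H
    exact ⟨1 + d, (MvPolynomial.isHomogeneous_X ℂ i1).mul hd⟩
  · change MvPolynomial.aeval x _ ≠ 0
    rw [map_mul, MvPolynomial.aeval_X]
    refine mul_ne_zero hi1 ?_
    change val x _ ≠ 0
    rw [val_hz H hi1]
    exact mul_ne_zero (pow_ne_zero _ hi1) hH
  intro f hf t0
  by_contra hft
  have hmer : ∀ i, Meromorphic (f i) := fun i t =>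
    ((hf.hol i).analyticAt t).meromorphicAt
  obtain ⟨z, hzdef⟩ : ∃ z : Fin (M + 1) → MK, z = fun i => cl (f i) (hmer i) := ⟨_, rfl⟩
  have hcont : ∀ G : MvPolynomial (Fin (M + 1)) ℂ,
      Continuous fun t => MvPolynomial.eval (fun i => f i t) G := fun G =>
    (MvPolynomial.continuous_eval G).comp (continuous_pi fun i => (hf.hol i).continuous)
  have hvz : ∀ G, val z G = 0 ↔ ∀ t, MvPolynomial.eval (fun i => f i t) G = 0 := by
    intro G
    rw [hzdef, val_cl hmer G, cl_eq_zero]
    constructor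
    · intro h t
      exact eq_of_codis (g := fun _ => 0) h (hcont G).continuousAt continuousAt_const
    · intro h
      exact Eventually.of_forall h
  have hzR : val z (MvPolynomial.X i1 * hz i1 H) ≠ 0 := by
    intro h0
    exact hft ((hvz _).1 h0 t0)
  change MvPolynomial.aeval z _ ≠ 0 at hzR
  rw [map_mul, MvPolynomial.aeval_X] at hzR
  have hz1 : z i1 ≠ 0 := left_ne_zero_of_mul hzR
  have hzH : MvPolynomial.aeval (fun i => z i / z i1) H ≠ 0 := by
    have h1 : val z (Pool.Agent.TH466.QG.hz i1 H) ≠ 0 := right_ne_zero_of_mul hzR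
    rw [val_hz H hz1] at h1
    exact right_ne_zero_of_mul h1
  have hsp : ∀ G : MvPolynomial (Fin (M + 1)) ℂ,
      MvPolynomial.aeval (fun i => x i / x i1) G = 0 →
      MvPolynomial.aeval (fun i => z i / z i1) G = 0 := by
    intro G hG
    have h1 : val x (Pool.Agent.TH466.QG.hz i1 G) = 0 := by
      rw [val_hz G hi1, hG, mul_zero]
    have h2 := (hvz _).2 (hf.mem _ (hz_form i1 G) h1)
    rw [val_hz G hz1] at h2
    exact (mul_eq_zero.1 h2).resolve_left (pow_ne_zero _ hz1)
  obtain ⟨K'', i1', i2', i3', i4', i5', hrk, S, hSx, hSΘ⟩ := hspread MK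
    (fun i => z i / z i1) hsp hzH
  have hSt : ∀ p, ∃ u, S.T (t p) u := fun p => hSΘ _ (Or.inr (Or.inr ⟨p, rfl⟩))
  choose t' ht' using hSt
  have hcst := hmain K'' (hrk.trans hr) S (fun ϑ hϑ => hSΘ _ (Or.inl hϑ)) t' ht'
  let y' : Fin (n + 1) → K'' := Fin.cons 1 t'
  have hyS : ∀ i, S.T (algebraMap K K' (y i)) (y' i) := by
    intro i
    refine Fin.cases ?_ (fun p => ?_) i
    · change S.T (algebraMap K K' 1) 1
      rw [map_one]
      exact S.one
    · exact ht' p
  have hbot : coords ℂ y' = ⊥ := by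
    rw [eq_bot_iff]
    unfold Pool.Agent.W602.GT.coords
    rw [IntermediateField.adjoin_le_iff]
    have hc : ∀ i, y' i ∈ (⊥ : IntermediateField ℂ K'') := by
      intro i
      refine Fin.cases ?_ (fun p => ?_) i
      · change (1 : K'') ∈ _
        exact (⊥ : IntermediateField ℂ K'').one_mem
      · obtain ⟨c, hc⟩ := hcst p
        change t' p ∈ _
        rw [hc]
        exact (⊥ : IntermediateField ℂ K'').algebraMap_mem c
    rintro _ ⟨i, j, hj, rfl⟩
    exact (⊥ : IntermediateField ℂ K'').div_mem (hc i) (hc j)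
  have hall : ∀ m, ∃ c : ℂ, z m = algebraMap ℂ MK c * z i1 := by
    intro m
    have h1 := halgs K'' S (fun ϑ hϑ => hSΘ _ (Or.inr (Or.inl ⟨ϑ, hϑ, rfl⟩))) y' hyS
      (fun m => algebraMap MK K'' (z m / z i1)) hSx m
    rw [hbot] at h1
    have h2 : IsAlgebraic ℂ (algebraMap MK K'' (z m / z i1)) := h1.restrictScalars ℂ
    obtain ⟨c, hc⟩ := const_of_algebraic h2
    refine ⟨c, ?_⟩
    rw [IsScalarTower.algebraMap_apply ℂ MK K''] at hc
    have h3 := (algebraMap MK K'').injective hc
    rw [← h3]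
    field_simp
  have hallf : ∀ m, ∃ c : ℂ, ∀ t, f m t = c * f i1 t := by
    intro m
    obtain ⟨c, hc⟩ := hall m
    refine ⟨c, fun t => ?_⟩
    rw [hzdef] at hc
    simp only at hc
    rw [← cl_const, cl_mul, cl_eq] at hc
    exact eq_of_codis (f := f m) (g := fun t => c * f i1 t) hc (hf.hol m).continuous.continuousAt
      ((continuous_const.mul (hf.hol i1).continuous).continuousAt)
  obtain ⟨i, j, a, b, hab⟩ := hf.nonconst
  obtain ⟨c, hc⟩ := hallf i
  obtain ⟨c', hc'⟩ := hallf j
  apply hab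
  rw [hc, hc, hc', hc']
  ring

end Pool.Agent.K4H65.DM
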