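import Pool.Agent.K4H65.DM.Log

/-!
Affine varieties which are dominated by varieties with multiple fibres and fibres at infinity: log
general type and degree bounds for affine curves.
-/

set_option autoImplicit false
set_option linter.overlappingInstances false
set_option linter.unusedSectionVars false

open FF Pool.Agent.W603.LV

namespace Pool.Agent.K4H65.DM

open Pool.Agent.W602.GT Pool.Agent.TH466.QG Pool.Agent.Y221.AH Pool.Agent.Y221.PB
open Pool.Agent.W603.PV (pht pht_le hgt_algebraMap)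

/-- `W ⇢ V` maps the affine variety `W`, which is finite over the affine variety with the coordinate
functions `x`, to the complement of the fibres over the points of the sets `B q`: the functions
`1 / (t q - c)`, `c ∈ B q`, are integral over the ring `k[x]`. -/
def OffBoundary {k K' : Type} [Field k] [Field K'] [Algebra k K'] {n M : ℕ} (x : Fin M → K')
    (b : Fin n → Fin 2 → K') (B : Fin n → Finset k) : Prop :=
  ∀ q, ∀ c ∈ B q, b q 1 = 0 ∨ b q 0 / b q 1 ≠ algebraMap k K' c ∧
    IsIntegral (Algebra.adjoin k (Set.range x)) (b q 0 / b q 1 - algebraMap k K' c)⁻¹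

/-- The Lang-Vojta degree bound for the affine variety `X` with the coordinate functions `x`: for
some proper closed subset `G = 0` and some `C`, for all finite sets `S` of points of smooth
projective curves (with the function field `F`) and all morphisms `f` from the curve without `S` to
`X`, with image not contained in `G = 0`, the degree of `f` is at most `C max (2 g - 2 + |S|, 0)`.
The degree is the one of the closure of the image in `P^M`, times the degree of the curve over its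
image. -/
def LangVojtaBound (k : Type) [Field k] {L : Type} [Field L] [Algebra k L] {M : ℕ}
    (x : Fin M → L) : Prop :=
  ∃ G : MvPolynomial (Fin M) k, MvPolynomial.aeval x G ≠ 0 ∧ ∃ C : ℕ,
    ∀ (F : Type) [Field F] [Algebra k F] [IsFF k F] (S : Finset (Place k F)) (f : Fin M → F),
      (∀ H : MvPolynomial (Fin M) k, MvPolynomial.aeval x H = 0 → MvPolynomial.aeval f H = 0) →
      (∀ P : Place k F, P ∉ S → ∀ j, P.Reg (f j)) → MvPolynomial.aeval f G ≠ 0 →
      pht k (Fin.cons 1 f : Fin (M + 1) → F) ≤ C * max (canDeg k F + S.card) 0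

section

variable {k : Type} [Field k] [CharZero k] [IsAlgClosed k] {N n r : ℕ}
    {V : ProdSet k N n} {R : MPoly k N n}
    {B A : Fin n → Finset k} {m : Fin n → k → ℕ}
    (hRh : MHom R) (hV : MultipleFibresOff V R B A m)
    (hwide : ∀ p, WideOff r (B p) (A p) (m p))
    {K' L : Type} [Field K'] [Field L] [Algebra k K'] [Algebra k L] [Algebra L K']
    [IsScalarTower k L K'] [FiniteDimensional L K'] (hr : Module.finrank L K' ≤ r)
    {a : Fin (N + 1) → K'} {b : Fin n → Fin 2 → K'} (hab : V.Mem a b)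
    (hR : MvPolynomial.aeval (Sum.elim a fun v => b v.1 v.2) R ≠ 0)
    (halg : Algebra.IsAlgebraic (IntermediateField.adjoin k
      (Set.range fun p => b p 0 / b p 1)) K')
    {M : ℕ} {x : Fin M → L}
    (hint : OffBoundary (fun j => algebraMap L K' (x j)) b B)

include hRh hV hwide hab hR hint

/-- the contact conditions for a specialization -/
theorem core_off [DecidableEq k] [DecidableEq K'] {i0 : Fin (N + 1)} (hi0 : a i0 ≠ 0)
    {E : Type} [Field E] [Algebra k E] (S : Sp k K' E)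
    (hS : ∀ ϑ ∈ theta R a b i0, ∃ z, S.T ϑ z)
    (hS2 : ∀ q, ∀ c ∈ B q, ∃ z, S.T (b q 0 / b q 1 - algebraMap k K' c)⁻¹ z)
    {t' : Fin n → E} (ht' : ∀ p, S.T (b p 0 / b p 1) (t' p)) {f : Fin M → E}
    (hf : ∀ j, S.T (algebraMap L K' (x j)) (f j)) (Q : Place k E) (hQ : ∀ j, Q.Reg (f j))
    (p : Fin n) {c : k} (hc : c ∈ B p ∪ A p) (hne : t' p ≠ algebraMap k E c)
    (hpos : 0 < Q.ord (t' p - algebraMap k E c)) :
    mInf (B p) (m p) c ≠ 0 ∧ (mInf (B p) (m p) c : ℤ) ≤ Q.ord (t' p - algebraMap k E c) := by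
  classical
  have hB : ∀ q, ∀ c ∈ B q, b q 1 = 0 ∨ t' q ≠ algebraMap k E c ∧
      Q.ord (t' q - algebraMap k E c) ≤ 0 := by
    intro q c hc
    by_cases hq : b q 1 = 0
    · exact Or.inl hq
    right
    obtain ⟨h1, h2⟩ := (hint q c hc).resolve_left hq
    have h3 : S.T (b q 0 / b q 1 - algebraMap k K' c) (t' q - algebraMap k E c) :=
      S.sub (ht' q) (S.const c)
    have h4 : t' q - algebraMap k E c ≠ 0 := S.ne_zero h3 (hS2 q c hc) (sub_ne_zero.2 h1)
    have h5 : S.T (b q 0 / b q 1 - algebraMap k K' c)⁻¹ (t' q - algebraMap k E c)⁻¹ :=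
      S.inv h3 (hS2 q c hc) (sub_ne_zero.2 h1)
    have h6 := sp_integral S hf h2 h5 Q hQ
    refine ⟨sub_ne_zero.1 h4, ?_⟩
    have h7 := h6.resolve_left (inv_ne_zero h4)
    rw [Q.ord_inv] at h7
    omega
  have hnp : b p 1 ≠ 0 := by
    intro hp
    have h1 := ht' p
    rw [hp, div_zero] at h1
    have h2 : t' p = 0 := S.ext h1 S.zero
    rw [h2, zero_sub, Q.ord_neg] at hpos
    have h3 : c ≠ 0 := by
      rintro rfl
      apply hne
      rw [h2, map_zero]
    rw [Q.ord_const h3] at hpos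
    exact lt_irrefl _ hpos
  by_cases hcB : c ∈ B p
  · exfalso
    have h1 := (hB p c hcB).resolve_left hnp
    omega
  · have hcA : c ∈ A p := (Finset.mem_union.1 hc).resolve_left hcB
    have h1 : mInf (B p) (m p) c = m p c := by
      unfold mInf
      rw [if_neg hcB]
    rw [h1]
    refine ⟨by have := (hwide p).2.1 c hcA; omega, ?_⟩
    exact spec_multOff hRh hV hab hR hi0 S hS ht' Q hB p hcA hne hpos

include hr halg

/-- **Log general type.** -/
theorem log_gt {w : ℕ} (htr : Algebra.trdeg k L = w) :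
    LogGeneralType k L w (fun P => ∃ j, ¬ P.Reg (x j)) := by
  classical
  obtain ⟨i0, hi0'⟩ := Function.ne_iff.1 hab.a_ne
  have hi0 : a i0 ≠ 0 := hi0'
  refine gt_field_log (K := L) (E := K') hr htr (fun p => b p 0 / b p 1) (alg_adjoin halg)
    (fun p => B p ∪ A p) (fun p => mInf (B p) (m p)) (fun p => wideOff_sum (hwide p)) _
    (fun P _ hP Q e hQ p c hc h1 h2 => ?_)
  have hPr : ∀ j, P.Reg (x j) := by
    intro j
    by_contra h
    exact hP ⟨j, h⟩
  exact core_off hRh hV hwide hab hR hint hi0 (Sp.idt k K') (fun ϑ _ => ⟨_, rfl⟩)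
    (fun _ _ _ => ⟨_, rfl⟩) (fun p => rfl) (fun j => rfl) Q (fun j => hQ.reg.2 (hPr j)) p hc h1 h2

/-- **Degree bounds for affine curves.** -/
theorem lang_vojta (hgen : IntermediateField.adjoin k (Set.range x) = ⊤) :
    LangVojtaBound k x := by
  classical
  obtain ⟨i0, hi0'⟩ := Function.ne_iff.1 hab.a_ne
  have hi0 : a i0 ≠ 0 := hi0'
  obtain ⟨t, ht⟩ : ∃ t : Fin n → K', t = fun p => b p 0 / b p 1 := ⟨_, rfl⟩
  rw [← ht] at halg
  let K := IntermediateField.adjoin k (Set.range t)
  let y : Fin (n + 1) → K :=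
    Fin.cons 1 (fun p => (⟨t p, IntermediateField.subset_adjoin k _ ⟨p, rfl⟩⟩ : K))
  have hygen : coords k y = ⊤ := coords_cons t
  have hy0 : y 0 ≠ 0 := by
    change (1 : K) ≠ 0
    exact one_ne_zero
  have hkey := fun p => alg_ineq (k := k) (r := r) (A := B p ∪ A p) (m := mInf (B p) (m p))
    (wideOff_sum (hwide p))
  choose C0 hC0 using hkey
  obtain ⟨Θ2, C, hΘ2, halgs⟩ := alg_hgt (K' := K') hygen hy0 (fun m => algebraMap L K' (x m))
  have hfin3 : (⋃ q, ((fun c => (b q 0 / b q 1 - algebraMap k K' c)⁻¹) '' (B q : Set k))).Finite :=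
    Set.finite_iUnion fun q => (Finset.finite_toSet _).image _
  obtain ⟨H, hH, hspread⟩ := spread (K' := K') hgen
    (Θ := theta R a b i0 ∪ ((⋃ q, ((fun c => (b q 0 / b q 1 - algebraMap k K' c)⁻¹) ''
      (B q : Set k))) ∪ (algebraMap K K' '' Θ2 ∪ Set.range t)))
    ((theta_finite R a b i0).union (hfin3.union ((hΘ2.image _).union (Set.finite_range t))))
  refine ⟨H, hH, M * (C * ∑ p, C0 p), ?_⟩
  intro F _ _ _ S0 f hsp hreg hfH
  obtain ⟨K'', i1', i2', i3', i4', i5', hrk, S, hSx, hSΘ⟩ := hspread F f hsp hfH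
  have hSt : ∀ p, ∃ u, S.T (t p) u := fun p => hSΘ _ (Or.inr (Or.inr (Or.inr ⟨p, rfl⟩)))
  choose t' ht' using hSt
  let y' : Fin (n + 1) → K'' := Fin.cons 1 t'
  have hyS : ∀ i, S.T (algebraMap K K' (y i)) (y' i) := by
    intro i
    refine Fin.cases ?_ (fun p => ?_) i
    · change S.T (algebraMap K K' 1) 1
      rw [map_one]
      exact S.one
    · exact ht' p
  have hff : IsFF k K'' := Pool.Agent.W603.PV.isFF_of_finite (F := F)
  obtain ⟨χ, hχ⟩ : ∃ χ : ℤ, χ = max (canDeg k F + S0.card) 0 := ⟨_, rfl⟩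
  have hχ0 : 0 ≤ χ := by rw [hχ]; exact le_max_right _ _
  have ht2 : ∀ p, S.T (b p 0 / b p 1) (t' p) := by
    intro p
    have h3 := ht' p
    rw [ht] at h3
    exact h3
  have hτ : ∀ p, hgt k (t' p) ≤ C0 p * χ := by
    intro p
    rw [hχ]
    refine hC0 p F K'' (hrk.trans hr) S0 (t' p) (fun P hP Q e hQ c hc h1 h2 => ?_)
    exact core_off hRh hV hwide hab hR hint hi0 S (fun ϑ hϑ => hSΘ _ (Or.inl hϑ))
      (fun q c hc => hSΘ _ (Or.inr (Or.inl (Set.mem_iUnion.2 ⟨q, c, hc, rfl⟩)))) ht2 hSx Q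
      (fun j => hQ.reg.2 (hreg P hP j)) p hc h1 h2
  have h1 : pht k y' ≤ (∑ p, (C0 p : ℤ)) * χ := by
    refine (pht_cons_le t').trans ?_
    rw [Finset.sum_mul]
    exact Finset.sum_le_sum fun p _ => hτ p
  have h2 : ∀ j, hgt k (algebraMap F K'' (f j)) ≤ C * pht k y' := fun j =>
    halgs K'' S (fun ϑ hϑ => hSΘ _ (Or.inr (Or.inr (Or.inl ⟨ϑ, hϑ, rfl⟩)))) y' hyS _ hSx j
  have h3 : ∀ j, hgt k (f j) ≤ C * pht k y' := by
    intro j
    have h4 := h2 j
    rw [hgt_algebraMap] at h4
    have h5 : 0 ≤ hgt k (f j) := hgt_nonneg _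
    have h6 : (1 : ℤ) ≤ Module.finrank F K'' := by exact_mod_cast Module.finrank_pos
    nlinarith
  rw [← hχ]
  refine (pht_cons_le f).trans ((Finset.sum_le_sum fun j _ => h3 j).trans ?_)
  rw [Finset.sum_const, nsmul_eq_mul, Finset.card_univ, Fintype.card_fin]
  have h8 : (C : ℤ) * pht k y' ≤ C * ((∑ p, (C0 p : ℤ)) * χ) :=
    mul_le_mul_of_nonneg_left h1 (Nat.cast_nonneg _)
  have h9 := mul_le_mul_of_nonneg_left h8 (by positivity : (0 : ℤ) ≤ (M : ℤ))
  refine h9.trans (le_of_eq ?_)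
  push_cast
  ring

end

end Pool.Agent.K4H65.DM
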