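import Pool.Agent.K4H65.DM.GtField
import Pool.Agent.W602.GT.SpecDefs

/-!
Bogomolov sheaves from functions of high multiplicities in an extension of small degree.
-/

set_option autoImplicit false
set_option linter.overlappingInstances false
set_option linter.unusedSectionVars false

open FF Polynomial Pool.Agent.W603.LV Pool.Agent.W602.GT Pool.Agent.Y190.BV

namespace Pool.Agent.K4H65.DM

section wedge

variable {k K : Type} [Field k] [Field K] [Algebra k K]

/-- the form `dx 1 ∧ ... ∧ dx d` -/
noncomputable def wedge {d : ℕ} (x : Fin d → K) :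
    AlternatingMap K (Derivation k K K) K (Fin d) :=
  (Matrix.detRowAlternating (R := K) (n := Fin d)).compLinearMap
    { toFun := fun D l => D (x l)
      map_add' := fun D D' => by funext l; rfl
      map_smul' := fun c D => by funext l; rfl }

theorem wedge_apply {d : ℕ} (x : Fin d → K) (D : Fin d → Derivation k K K) :
    wedge x D = (Matrix.of fun i l => D i (x l)).det := rfl

/-- derivations vanish on the elements which are algebraic over constants -/
theorem der_zero_of_alg [CharZero k] (D : Derivation k K K) (F0 : IntermediateField k K)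
    (h : ∀ x ∈ F0, D x = 0) {t : K} (ht : IsAlgebraic F0 t) : D t = 0 := by
  have hint : IsIntegral F0 t := ht.isIntegral
  have hchar : CharZero F0 := charZero_of_injective_algebraMap (algebraMap k F0).injective
  let D' : Derivation F0 K K := Derivation.mk'
    { toFun := fun x => D x
      map_add' := fun x y => map_add D x y
      map_smul' := fun c x => by
        have h : D (c : K) = 0 := h c c.2
        change D ((c : K) * x) = (c : K) * D x
        rw [D.leibniz, h]; simp }
    (fun x y => D.leibniz x y)
  have h1 : D' (Polynomial.aeval t (minpoly F0 t)) = 0 := by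
    rw [minpoly.aeval, map_zero]
  rw [Derivation.map_aeval] at h1
  have h2 : Polynomial.aeval t (Polynomial.derivative (minpoly F0 t)) ≠ 0 :=
    (minpoly.irreducible hint).separable.aeval_derivative_ne_zero (minpoly.aeval _ _)
  rw [smul_eq_mul] at h1
  exact (mul_eq_zero.mp h1).resolve_left h2

/-- the constants as a subalgebra -/
theorem der_zero_adjoin [CharZero k] (D : Derivation k K K) (S : Set K) (h : ∀ s ∈ S, D s = 0)
    {t : K} (ht : IsAlgebraic (Algebra.adjoin k S) t) : D t = 0 := by
  have hle : IntermediateField.adjoin k S ≤ consts D := by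
    rw [IntermediateField.adjoin_le_iff]
    exact h
  refine der_zero_of_alg D (IntermediateField.adjoin k S) (fun x hx => hle hx) ?_
  have h1 : Algebra.adjoin k S ≤ (IntermediateField.adjoin k S).toSubalgebra :=
    IntermediateField.algebra_adjoin_le_adjoin k S
  let _ : Algebra (Algebra.adjoin k S) (IntermediateField.adjoin k S) :=
    (Subalgebra.inclusion h1).toRingHom.toAlgebra
  have : IsScalarTower (Algebra.adjoin k S) (IntermediateField.adjoin k S) K :=
    IsScalarTower.of_algebraMap_eq fun x => rfl
  exact ht.extendScalars (Subalgebra.inclusion_injective h1)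

/-- derivations can be prescribed on algebraically independent elements -/
theorem exists_der_part [CharZero k] {d : ℕ} (x : Fin d → K) (hx : AlgebraicIndependent k x)
    (c : Fin d → K) : ∃ D : Derivation k K K, ∀ i, D (x i) = c i := by
  classical
  obtain ⟨t, ht1, ht2⟩ := exists_isTranscendenceBasis_superset (R := k) (s := Set.range x)
    hx.coe_range
  obtain ⟨D, hD⟩ := exists_der (fun y : t => (y : K)) ht2
    (fun y => if h : ∃ i, x i = y then c h.choose else 0)
  refine ⟨D, fun i => ?_⟩
  have h1 := hD ⟨x i, ht1 ⟨i, rfl⟩⟩
  simp only at h1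
  rw [h1, dif_pos ⟨i, rfl⟩]
  have h2 := (⟨i, rfl⟩ : ∃ i', x i' = x i).choose_spec
  rw [hx.injective h2]

end wedge

section

variable {k K L : Type} [Field k] [Field K] [Field L] [Algebra k K] [Algebra k L] [Algebra K L]
  [IsScalarTower k K L]

theorem isAlgebraic_adjoin_field {S : Set L} {t : L} :
    IsAlgebraic (Algebra.adjoin k S) t ↔ IsAlgebraic (IntermediateField.adjoin k S) t := by
  open scoped IntermediateField.algebraAdjoinAdjoin in
  exact IsFractionRing.isAlgebraic_iff (Algebra.adjoin k S) (IntermediateField.adjoin k S) L

/-- norms of the translates of a part of a transcendence basis which is stable up to algebraic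
elements -/
theorem exists_norm_part [FiniteDimensional K L] [IsGalois K L] [Infinite k] {d : ℕ}
    (r : Fin d → L) (hr : AlgebraicIndependent k r)
    (hst : ∀ (s : L ≃ₐ[K] L) j, IsAlgebraic (Algebra.adjoin k (Set.range r)) (s (r j))) :
    ∃ (ii : Fin d → Fin d) (yy : Fin d → k),
      AlgebraicIndependent k (fun l => Algebra.norm K (r (ii l) - algebraMap k L (yy l))) ∧
      (∀ j, IsAlgebraic (Algebra.adjoin k (Set.range fun l => algebraMap K L
        (Algebra.norm K (r (ii l) - algebraMap k L (yy l))))) (r j)) ∧
      ∀ l, IsAlgebraic (Algebra.adjoin k (Set.range r)) (algebraMap K L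
        (Algebra.norm K (r (ii l) - algebraMap k L (yy l)))) := by
  classical
  obtain ⟨M, hM⟩ : ∃ M, M = AlgebraicIndependent.matroid k L := ⟨_, rfl⟩
  have hcl : ∀ (S : Set L) (t : L), t ∈ M.closure S ↔ IsAlgebraic (Algebra.adjoin k S) t := by
    intro S t
    rw [hM, AlgebraicIndependent.matroid_closure_eq]
    exact Subalgebra.mem_algebraicClosure _ _
  obtain ⟨T, hT⟩ : ∃ T : Set L, T = Set.range fun p : Fin d × k =>
    algebraMap K L (Algebra.norm K (r p.1 - algebraMap k L p.2)) := ⟨_, rfl⟩
  have hI : M.Indep (Set.range r) := by
    rw [hM, AlgebraicIndependent.matroid_indep_iff]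
    exact hr.coe_range
  have hTr : T ⊆ M.closure (Set.range r) := by
    rw [hT]
    rintro _ ⟨⟨i, y⟩, rfl⟩
    rw [hM, AlgebraicIndependent.matroid_closure_eq, SetLike.mem_coe]
    simp only
    rw [Pool.Agent.Y190.BV.norm_prod]
    refine prod_mem fun s _ => ?_
    rw [map_sub]
    refine sub_mem ?_ ?_
    · exact (Subalgebra.mem_algebraicClosure _ _).2 (hst s i)
    · have h1 : s (algebraMap k L y) = algebraMap k L y := by
        rw [IsScalarTower.algebraMap_apply k K L]
        exact s.commutes _
      rw [h1]
      refine (Subalgebra.mem_algebraicClosure _ _).2 ?_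
      rw [IsScalarTower.algebraMap_apply k (Algebra.adjoin k (Set.range r)) L]
      exact isAlgebraic_algebraMap _
  have hrT : Set.range r ⊆ M.closure T := by
    rintro _ ⟨i, rfl⟩
    rw [hcl]
    let F1 : IntermediateField k L := IntermediateField.adjoin k T
    let F0 : IntermediateField k K := F1.comap (IsScalarTower.toAlgHom k K L)
    have h1 : IsAlgebraic F0 (r i) := alg_norms F0 (r i) fun y => by
      change algebraMap K L _ ∈ F1
      refine IntermediateField.subset_adjoin k T ?_
      rw [hT]
      exact ⟨(i, y), rfl⟩
    let φ : F0 →+* F1 :=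
      { toFun := fun x => ⟨algebraMap K L x, x.2⟩
        map_one' := Subtype.ext (map_one _)
        map_mul' := fun x y => Subtype.ext (map_mul _ _ _)
        map_zero' := Subtype.ext (map_zero _)
        map_add' := fun x y => Subtype.ext (map_add _ _ _) }
    let _ : Algebra F0 F1 := φ.toAlgebra
    have : IsScalarTower F0 F1 L := IsScalarTower.of_algebraMap_eq fun x => rfl
    have h2 : IsAlgebraic F1 (r i) := h1.extendScalars φ.injective
    exact isAlgebraic_adjoin_field.2 h2
  obtain ⟨J, hJ⟩ := M.exists_isBasis T (by
    rw [hM, AlgebraicIndependent.matroid_e]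
    exact Set.subset_univ _)
  have hJr : M.closure J = M.closure (Set.range r) := by
    rw [hJ.closure_eq_closure]
    apply subset_antisymm
    · have h1 := M.closure_subset_closure hTr
      rwa [M.closure_closure] at h1
    · have h1 := M.closure_subset_closure hrT
      rwa [M.closure_closure] at h1
  have hcard : (Set.range r).encard = J.encard := by
    have h1 : M.IsBasis (Set.range r) (M.closure (Set.range r)) := hI.isBasis_closure
    have h2 : M.IsBasis J (M.closure (Set.range r)) := by
      rw [← hJr]
      exact hJ.indep.isBasis_closure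
    exact h1.encard_eq_encard h2
  have hJd : J.encard = d := by
    rw [← hcard, ← Set.image_univ, hr.injective.encard_image, Set.encard_univ,
      ENat.card_eq_coe_fintype_card, Fintype.card_fin]
  have hJf : J.Finite := Set.finite_of_encard_eq_coe hJd
  have hJn : Nat.card J = d := by
    have h1 : J.ncard = d := by
      rw [Set.ncard, hJd]
      rfl
    exact h1
  have : Finite J := hJf
  let eq := (Finite.equivFinOfCardEq hJn).symm
  have hJT : ∀ l, ∃ p : Fin d × k,
      algebraMap K L (Algebra.norm K (r p.1 - algebraMap k L p.2)) = (eq l : L) := by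
    intro l
    have h1 : (eq l : L) ∈ T := hJ.subset (eq l).2
    rw [hT] at h1
    exact h1
  choose p hp using hJT
  have hJi : AlgebraicIndependent k (fun l => (eq l : L)) := by
    have h1 : AlgebraicIndepOn k id J := by
      have h2 := hJ.indep
      rw [hM, AlgebraicIndependent.matroid_indep_iff] at h2
      exact h2
    exact AlgebraicIndependent.comp h1 eq eq.injective
  have hJr' : Set.range (fun l => (eq l : L)) = J := by
    ext y
    constructor
    · rintro ⟨l, rfl⟩
      exact (eq l).2
    · intro hy
      exact ⟨eq.symm ⟨y, hy⟩, by simp⟩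
  refine ⟨fun l => (p l).1, fun l => (p l).2, ?_, fun j => ?_, fun l => ?_⟩
  · rw [← AlgHom.algebraicIndependent_iff (IsScalarTower.toAlgHom k K L)
      (algebraMap K L).injective]
    have : (⇑(IsScalarTower.toAlgHom k K L) ∘ fun l =>
        Algebra.norm K (r (p l).1 - algebraMap k L (p l).2)) = fun l => (eq l : L) :=
      funext fun l => hp l
    rw [this]
    exact hJi
  · have : (fun l => algebraMap K L (Algebra.norm K (r (p l).1 - algebraMap k L (p l).2))) =
        fun l => (eq l : L) := funext fun l => hp l
    rw [this, hJr', ← hcl, hJr]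
    exact M.subset_closure _ (by
      rw [hM, AlgebraicIndependent.matroid_e]
      exact Set.subset_univ _) ⟨j, rfl⟩
  · rw [← hcl]
    apply hTr
    rw [hT]
    exact ⟨p l, rfl⟩

end

end Pool.Agent.K4H65.DM
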