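import Pool.Agent.K4H65.DM.Bog

/-!
Bogomolov sheaves from functions of high multiplicities in an extension of small degree.
-/

set_option autoImplicit false
set_option linter.overlappingInstances false
set_option linter.unusedSectionVars false

open FF Polynomial Pool.Agent.W603.LV Pool.Agent.W602.GT Pool.Agent.Y190.BV

namespace Pool.Agent.K4H65.DM

section

variable {k K L : Type} [Field k] [Field K] [Field L] [Algebra k K] [Algebra k L] [Algebra K L]
  [IsScalarTower k K L]

/-- the matrix of the values of the derived minimal polynomials, in terms of algebraically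
independent elements -/
theorem mtx_basis [CharZero k] [Algebra.IsSeparable K L] {d : ℕ} (r : Fin d → L) (x : Fin d → K)
    (hrx : ∀ j, IsAlgebraic (Algebra.adjoin k (Set.range fun l => algebraMap K L (x l))) (r j))
    (D0 : Fin d → Derivation k K K) (hD0 : ∀ i l, D0 i (x l) = if i = l then 1 else 0)
    (D : Fin d → Derivation k K K) :
    mtx (fun j => minpoly K (r j)) r D =
      ((Matrix.of fun i l => D i (x l)).map (algebraMap K L)) *
        mtx (fun j => minpoly K (r j)) r D0 := by
  classical
  rw [← mtx_mul]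
  ext i j
  change ev L ((minpoly K (r j)).natDegree + 1) (fun m => D i ((minpoly K (r j)).coeff m)) (r j) =
    ev L ((minpoly K (r j)).natDegree + 1) (fun m => (∑ l, (Matrix.of fun i l => D i (x l)) i l •
      D0 l) ((minpoly K (r j)).coeff m)) (r j)
  obtain ⟨D1, hD1⟩ : ∃ D1 : Derivation k K K,
      D1 = ∑ l, (Matrix.of fun i l => D i (x l)) i l • D0 l := ⟨_, rfl⟩
  rw [← hD1]
  obtain ⟨D', hD'⟩ : ∃ D' : Derivation k K K, D' = D i - D1 := ⟨_, rfl⟩
  have h0 : ∀ l, D' (x l) = 0 := by
    intro l
    have h1 : ∀ (s : Finset (Fin d)) (y : K), (∑ l ∈ s, (Matrix.of fun i l => D i (x l)) i l •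
        D0 l) y = ∑ l ∈ s, D i (x l) * D0 l y := by
      intro s y
      induction s using Finset.induction_on with
      | empty => simp
      | insert i' s hi ih =>
        rw [Finset.sum_insert hi, Finset.sum_insert hi, Derivation.add_apply, ih]
        rfl
    rw [hD', Derivation.sub_apply, hD1, h1, Finset.sum_eq_single l, hD0, if_pos rfl, mul_one,
      sub_self]
    · intro b _ hb
      rw [hD0, if_neg hb, mul_zero]
    · intro h
      exact absurd (Finset.mem_univ l) h
  obtain ⟨E, hE⟩ := exists_ext (L := L) D'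
  have hEr : E (r j) = 0 := der_zero_adjoin E (Set.range fun l => algebraMap K L (x l)) (by
    rintro _ ⟨l, rfl⟩
    rw [hE, h0, map_zero]) (hrx j)
  have h2 := der_ev hE ((minpoly K (r j)).natDegree + 1) (minpoly K (r j)).coeff (r j)
  rw [ev_eq_aeval, minpoly.aeval, map_zero, hEr, mul_zero, add_zero] at h2
  have h3 : D i = D' + D1 := by rw [hD']; simp
  have h4 : ev L ((minpoly K (r j)).natDegree + 1)
      (fun m => D i ((minpoly K (r j)).coeff m)) (r j) =
      ev L ((minpoly K (r j)).natDegree + 1) (fun m => D' ((minpoly K (r j)).coeff m)) (r j) +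
      ev L ((minpoly K (r j)).natDegree + 1) (fun m => D1 ((minpoly K (r j)).coeff m)) (r j) := by
    unfold ev
    rw [← Finset.sum_add_distrib]
    refine Finset.sum_congr rfl fun m _ => ?_
    rw [h3]
    simp only [Derivation.add_apply, map_add, add_mul]
  rw [h4, ← h2, zero_add]

variable [FiniteDimensional K L] [IsGalois K L]

/-- **Bogomolov sheaves**, for a given Galois extension. -/
theorem bog_galois [IsAlgClosed k] [CharZero k] {w d : ℕ} {q : Fin d → ℕ} (r : Fin d → L)
    (hrind : AlgebraicIndependent k r)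
    (hst : ∀ (s : L ≃ₐ[K] L) j, IsAlgebraic (Algebra.adjoin k (Set.range r)) (s (r j)))
    (a : ∀ j, Fin (q j) → k) (ha : ∀ j, Function.Injective (a j)) (A : ℕ) (hA : 0 < A)
    (c : ∀ j, Fin (q j) → ℕ) (hcA : ∀ j i, c j i ≤ A)
    (hbound : ∀ j, 2 * (minpoly K (r j)).natDegree * A < ∑ i, c j i) (Bd : Place k K → Prop)
    (hram : ∀ P : Place k K, Divisorial w P → ¬ Bd P → ∀ j i,
      ct P (minpoly K (r j)) (a j i) = 0 ∨
      (A : ℤ) ≤ ((A : ℤ) - c j i) * ct P (minpoly K (r j)) (a j i)) :
    BogSheaf k K w Bd d := by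
  classical
  have hchK : CharZero K := charZero_of_injective_algebraMap (algebraMap k K).injective
  have hinf : Infinite k := inferInstance
  have hi : ∀ j, IsIntegral K (r j) := fun j => Algebra.IsIntegral.isIntegral _
  have hr : ∀ j (x : k), r j ≠ algebraMap k L x := by
    intro j x h
    have h1 := hrind.transcendental j
    rw [h] at h1
    exact h1 (isAlgebraic_algebraMap x)
  obtain ⟨ii, yy, hind, hrx, hxr⟩ := exists_norm_part (K := K) r hrind hst
  set x : Fin d → K := fun j => Algebra.norm K (r (ii j) - algebraMap k L (yy j)) with hx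
  let ψ : Fin (d + 1) → K := Fin.cases 1 x
  let ω : Fin (d + 1) → (Fin d → Derivation k K K) → K := fun j =>
    frm A c a (fun j => minpoly K (r j)) r (ψ j)
  have hreg : ∀ (b : Bool) (P : Place k K), (b = true → ∀ j i,
      ct P (minpoly K (r j)) (a j i) = 0 ∨
      (A : ℤ) ≤ ((A : ℤ) - c j i) * ct P (minpoly K (r j)) (a j i)) →
      ∀ j D, (∀ i, DKind b P (D i)) → P.Reg (ω j D) := by
    intro b P hb j D hD
    obtain ⟨S, T, _, hT, hsum⟩ := exists_places_over (K' := L) P
    have hSne : S.Nonempty := by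
      by_contra hcon
      rw [Finset.not_nonempty_iff_eq_empty] at hcon
      rw [hcon, Finset.sum_empty] at hsum
      have : 0 < Module.finrank K L := Module.finrank_pos
      omega
    obtain ⟨W, hW⟩ := hSne
    obtain ⟨e, hWP, _⟩ := hT W hW
    rw [← hWP.reg]
    refine ge_frm hWP D hD r a ha A c hcA (fun j i => hr j _) hr hb hbound (ψ j) ?_
    have hTT : ∀ j, 0 ≤ ∑ s : L ≃ₐ[K] L, tau (W.comp (rs s)) (r j) := fun j =>
      Finset.sum_nonneg fun s _ => tau_nonneg _ _
    refine Fin.cases ?_ (fun j => ?_) j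
    · change Ge W _ (algebraMap K L 1)
      rw [map_one]
      refine Ge.one.mono ?_
      have := Finset.sum_nonneg fun j (_ : j ∈ Finset.univ) => hTT j
      omega
    · change Ge W _ (algebraMap K L (x j))
      have hg : Ge W (∑ s : L ≃ₐ[K] L, - tau (W.comp (rs s)) (r (ii j)))
          (algebraMap K L (x j)) := ge_norm _ fun s => ge_sub_const _ (r (ii j)) (yy j)
      rw [Finset.sum_neg_distrib] at hg
      refine hg.mono ?_
      have := Finset.single_le_sum (fun j (_ : j ∈ Finset.univ) => hTT j)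
          (Finset.mem_univ (ii j))
      omega
  -- dual vector fields
  have hD : ∀ i : Fin d, ∃ D : Derivation k K K, ∀ j, D (x j) = if i = j then 1 else 0 :=
    fun i => exists_der_part x hind (fun j => if i = j then 1 else 0)
  choose D0 hD0 using hD
  have hE : ∀ i, ∃ E : Derivation k L L, ∀ x : K, E (algebraMap K L x) =
      algebraMap K L (D0 i x) := fun i => exists_ext (D0 i)
  choose E hE using hE
  have hdet : (Matrix.of fun i j => E i (r j)).det ≠ 0 := by
    intro hl
    obtain ⟨v, hv0, hv⟩ := Matrix.exists_vecMul_eq_zero_iff.2 hl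
    have h1 : ∀ j, (∑ i, v i • E i : Derivation k L L) (algebraMap K L (x j)) = 0 := by
      intro j
      refine der_zero_adjoin _ (Set.range r) ?_ (hxr j)
      rintro _ ⟨l, rfl⟩
      rw [sum_smul_der]
      exact congrFun hv l
    apply hv0
    funext j
    have h2 : (∑ i, v i • E i : Derivation k L L) (algebraMap K L (x j)) = v j := by
      rw [sum_smul_der, Finset.sum_eq_single j]
      · rw [hE, hD0, if_pos rfl, map_one, mul_one]
      · intro i _ hij
        rw [hE, hD0, if_neg hij, map_zero, mul_zero]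
      · intro h
        exact absurd (Finset.mem_univ j) h
    rw [h1] at h2
    exact h2.symm
  have hder : ∀ i j,
      ev L ((minpoly K (r j)).natDegree + 1) (fun m => D0 i ((minpoly K (r j)).coeff m)) (r j) =
        (- Polynomial.aeval (r j) (Polynomial.derivative (minpoly K (r j)))) * E i (r j) := by
    intro i j
    have h1 := der_ev (hE i) ((minpoly K (r j)).natDegree + 1) (minpoly K (r j)).coeff (r j)
    rw [ev_eq_aeval, minpoly.aeval, map_zero] at h1
    have h2 : (∑ m ∈ Finset.range ((minpoly K (r j)).natDegree + 1),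
        algebraMap K L ((minpoly K (r j)).coeff m) * ((m : L) * r j ^ (m - 1))) =
        Polynomial.aeval (r j) (Polynomial.derivative (minpoly K (r j))) := by
      exact sum_derivative _ _
    rw [h2] at h1
    linear_combination -h1
  have hmtx : (mtx (fun j => minpoly K (r j)) r D0).det ≠ 0 := by
    have h1 : mtx (fun j => minpoly K (r j)) r D0 = Matrix.of fun i j =>
        (fun j => - Polynomial.aeval (r j) (Polynomial.derivative (minpoly K (r j)))) j *
          (Matrix.of fun i j => E i (r j)) i j := by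
      ext i j
      exact hder i j
    rw [h1, Matrix.det_mul_row
      (fun j => - Polynomial.aeval (r j) (Polynomial.derivative (minpoly K (r j))))
      (Matrix.of fun i j => E i (r j))]
    refine mul_ne_zero (Finset.prod_ne_zero_iff.2 fun j _ => neg_ne_zero.2 ?_) hdet
    exact (minpoly.irreducible (hi j)).separable.aeval_derivative_ne_zero (minpoly.aeval K (r j))
  obtain ⟨κ, hκ⟩ : ∃ κ, κ = (Algebra.norm K (mtx (fun j => minpoly K (r j)) r D0).det) ^ A :=
    ⟨_, rfl⟩
  have hκ0 : κ ≠ 0 := by
    rw [hκ]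
    exact pow_ne_zero _ (norm_ne hmtx)
  have hden : dnm (K := K) c a r ≠ 0 := Finset.prod_ne_zero_iff.2 fun j _ =>
    Finset.prod_ne_zero_iff.2 fun i _ => pow_ne_zero _ (norm_ne (sub_ne_zero.2 (hr j _)))
  have hfrm : ∀ j D, ω j D = ψ j / dnm c a r * κ * wedge x D ^ (A * Module.finrank K L) := by
    intro j D
    change frm A c a (fun j => minpoly K (r j)) r (ψ j) D = _
    unfold frm
    rw [mtx_basis r x hrx D0 hD0 D, Matrix.det_mul, map_mul]
    have : ((Matrix.of fun i l => D i (x l)).map (algebraMap K L)).det =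
        algebraMap K L (wedge x D) := by
      rw [wedge_apply, RingHom.map_det]; rfl
    rw [this, Algebra.norm_algebraMap, mul_pow, ← pow_mul, mul_comm (Module.finrank K L) A, hκ]
    ring
  refine ⟨wedge x, ?_, A * Module.finrank K L, Nat.mul_pos hA Module.finrank_pos,
    fun j => ψ j / dnm c a r * κ, ?_, ?_, ?_, ?_⟩
  · intro h0
    have h1 : wedge x D0 = 0 := by rw [h0]; rfl
    rw [wedge_apply] at h1
    have h2 : (Matrix.of fun i l => D0 i (x l)) = (1 : Matrix (Fin d) (Fin d) K) := by
      ext i l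
      rw [Matrix.of_apply, hD0, Matrix.one_apply]
    rw [h2, Matrix.det_one] at h1
    exact one_ne_zero h1
  · intro P _ D hD j
    rw [← hfrm]
    exact hreg false P (fun h => absurd h (by simp)) j D hD
  · intro P hP hBd D hD j
    rw [← hfrm]
    exact hreg true P (fun _ => hram P hP hBd) j D hD
  · change (1 : K) / dnm c a r * κ ≠ 0
    exact mul_ne_zero (div_ne_zero one_ne_zero hden) hκ0
  · have h2 : (fun i : Fin d => (ψ i.succ / dnm c a r * κ) / (ψ 0 / dnm c a r * κ)) = x := by
      funext i
      change (x i / dnm c a r * κ) / (1 / dnm c a r * κ) = x i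
      field_simp
    rw [h2]
    exact hind

end

section

variable {k K E : Type} [Field k] [CharZero k] [IsAlgClosed k] [Field K] [Field E] [Algebra k K]
  [Algebra k E] [Algebra K E] [IsScalarTower k K E]

theorem bog_galois_of {L : Type} [Field L] [Algebra k L] [Algebra K L] [Algebra E L]
    [IsScalarTower k K L] [IsScalarTower k E L] [IsScalarTower K E L] [FiniteDimensional K L]
    [IsGalois K L] [FiniteDimensional K E] {r w : ℕ} (hr : Module.finrank K E ≤ r)
    {n : ℕ} (τ : Fin n → E) (htau : ∃ p, Transcendental k (τ p))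
    (A : Fin n → Finset k) (m : Fin n → k → ℕ)
    (hsum : ∀ p, ∀ g s : ℕ, 1 ≤ g → 1 ≤ s → g * s ≤ r →
      2 * (s : ℝ) < ∑ c ∈ A p, (1 - 1 / (cdiv (m p c) g : ℝ))) (Bd : Place k K → Prop)
    (hmult : ∀ P : Place k K, Divisorial w P → ¬ Bd P → ∀ (Q : Place k E) (e : ℕ), Over Q P e →
      ∀ p, ∀ c ∈ A p, τ p ≠ algebraMap k E c → 0 < Q.ord (τ p - algebraMap k E c) →
        m p c ≠ 0 ∧ (m p c : ℤ) ≤ Q.ord (τ p - algebraMap k E c)) :
    ∃ d, 1 ≤ d ∧ BogSheaf k K w Bd d := by
  classical
  have hinf : Infinite k := inferInstance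
  obtain ⟨M, hM⟩ : ∃ M, M = AlgebraicIndependent.matroid k L := ⟨_, rfl⟩
  have hcl : ∀ (S : Set L) (t : L), t ∈ M.closure S ↔ IsAlgebraic (Algebra.adjoin k S) t := by
    intro S t
    rw [hM, AlgebraicIndependent.matroid_closure_eq]
    exact Subalgebra.mem_algebraicClosure _ _
  have hME : ∀ S : Set L, S ⊆ M.E := by
    intro S
    rw [hM, AlgebraicIndependent.matroid_e]
    exact Set.subset_univ _
  obtain ⟨R, hR⟩ : ∃ R : Set L, R = Set.range fun p : (L ≃ₐ[K] L) × Fin n =>
    p.1 (algebraMap E L (τ p.2)) := ⟨_, rfl⟩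
  have hRf : R.Finite := by
    rw [hR]
    exact Set.finite_range _
  obtain ⟨J, hJ⟩ := M.exists_isBasis R (hME R)
  have hJf : J.Finite := hRf.subset hJ.subset
  have : Finite J := hJf
  obtain ⟨d, hd⟩ : ∃ d, d = Nat.card J := ⟨_, rfl⟩
  let eq := (Finite.equivFinOfCardEq hd.symm).symm
  have hJi : AlgebraicIndepOn k id J := by
    have h2 := hJ.indep
    rw [hM, AlgebraicIndependent.matroid_indep_iff] at h2
    exact h2
  let ρ : Fin d → L := fun j => (eq j : L)
  have hρi : AlgebraicIndependent k ρ := AlgebraicIndependent.comp hJi eq eq.injective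
  have hρr : Set.range ρ = J := by
    ext y
    constructor
    · rintro ⟨l, rfl⟩
      exact (eq l).2
    · intro hy
      exact ⟨eq.symm ⟨y, hy⟩, by simp [ρ]⟩
  have hRcl : ∀ t ∈ R, IsAlgebraic (Algebra.adjoin k (Set.range ρ)) t := by
    intro t ht
    rw [hρr, ← hcl, hJ.closure_eq_closure]
    exact M.subset_closure _ (hME R) ht
  have hρR : ∀ j, ∃ p : (L ≃ₐ[K] L) × Fin n, p.1 (algebraMap E L (τ p.2)) = ρ j := by
    intro j
    have h1 : ρ j ∈ R := hJ.subset (eq j).2
    rw [hR] at h1
    exact h1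
  choose pp hpp using hρR
  obtain ⟨g, hg⟩ : ∃ g : Fin d → Fin n, g = fun j => (pp j).2 := ⟨_, rfl⟩
  obtain ⟨x, hxdef⟩ : ∃ x : Fin d → E, x = fun j => τ (g j) := ⟨_, rfl⟩
  have hρx : ∀ j, (pp j).1 (algebraMap E L (x j)) = ρ j := by
    intro j
    rw [hxdef, hg]
    exact hpp j
  have hst : ∀ (s : L ≃ₐ[K] L) j, IsAlgebraic (Algebra.adjoin k (Set.range ρ)) (s (ρ j)) := by
    intro s j
    apply hRcl
    rw [hR]
    refine ⟨((pp j).1.trans s, (pp j).2), ?_⟩
    rw [← hpp j]
    rfl
  have hmp : ∀ j, minpoly K (ρ j) = minpoly K (x j) := by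
    intro j
    rw [← hρx j, minpoly.algEquiv_eq, minpoly.algebraMap_eq (algebraMap E L).injective]
  have hd1 : 1 ≤ d := by
    by_contra hcon
    have hd0 : d = 0 := by omega
    obtain ⟨p, hp⟩ := htau
    have h1 : algebraMap E L (τ p) ∈ R := by
      rw [hR]
      exact ⟨(AlgEquiv.refl, p), rfl⟩
    have h2 := hRcl _ h1
    have h3 : Set.range ρ = ∅ := by
      rw [Set.range_eq_empty_iff]
      rw [hd0]
      infer_instance
    rw [h3, Algebra.adjoin_empty] at h2
    apply hp
    have h4 : IsAlgebraic k (algebraMap E L (τ p)) := h2.restrictScalars k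
    exact (isAlgebraic_algebraMap_iff (algebraMap E L).injective).1 h4
  have hi : ∀ j, IsIntegral K (x j) := fun j => Algebra.IsIntegral.isIntegral _
  have hs1 : ∀ j, 1 ≤ (minpoly K (x j)).natDegree := fun j => minpoly.natDegree_pos (hi j)
  have hγ' : ∀ j, ∃ γ, (minpoly K (x j)).natDegree * γ = Module.finrank K E := fun j => by
    obtain ⟨γ, h1, -⟩ := norm_sub (K := K) (x j) 0
    exact ⟨γ, h1⟩
  choose γ hγ using hγ'
  have hfin0 : 0 < Module.finrank K E := Module.finrank_pos
  have hγ1 : ∀ j, 1 ≤ γ j := by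
    intro j
    have h1 := hγ j
    rcases Nat.eq_zero_or_pos (γ j) with h | h
    · rw [h, mul_zero] at h1
      omega
    · exact h
  let a : ∀ j : Fin d, Fin (A (g j)).card → k := fun j i => ((A (g j)).equivFin.symm i : k)
  have haA : ∀ j i, a j i ∈ A (g j) := fun j i => ((A (g j)).equivFin.symm i).2
  have hainj : ∀ j, Function.Injective (a j) := fun j i i' h =>
    (A (g j)).equivFin.symm.injective (Subtype.ext h)
  have hwts : ∀ j : Fin d, ∃ (B : ℕ) (c : Fin (A (g j)).card → ℕ), 0 < B ∧ (∀ i, c i ≤ B) ∧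
      2 * (minpoly K (x j)).natDegree * B < ∑ i, c i ∧
      ∀ i, cdiv (m (g j) (a j i)) (γ j) ≠ 0 → ∀ b, cdiv (m (g j) (a j i)) (γ j) ≤ b →
        B + c i * b ≤ B * b := by
    intro j
    refine exists_wts2 (m := fun i => cdiv (m (g j) (a j i)) (γ j)) ?_
    refine lt_of_lt_of_eq (hsum (g j) (γ j) _ (hγ1 j) (hs1 j) (by
      rw [mul_comm, hγ]
      exact hr)) ?_
    rw [← Finset.sum_coe_sort (A (g j)) (fun c => (1 - 1 / (cdiv (m (g j) c) (γ j) : ℝ)))]
    exact (Equiv.sum_comp (A (g j)).equivFin.symm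
      (fun c : A (g j) => (1 - 1 / (cdiv (m (g j) (c : k)) (γ j) : ℝ)))).symm
  choose B c hB0 hcB hcsum hwt using hwts
  obtain ⟨T, hT⟩ : ∃ T, T = ∏ j, B j := ⟨_, rfl⟩
  have hTpos : 0 < T := by
    rw [hT]
    exact Finset.prod_pos fun j _ => hB0 j
  have hdvd : ∀ j, ∃ b, T = B j * b := fun j => by
    rw [hT]
    exact Finset.dvd_prod_of_mem _ (Finset.mem_univ j)
  choose b hb using hdvd
  have hb0 : ∀ j, 0 < b j := fun j => by
    rcases Nat.eq_zero_or_pos (b j) with h | h
    · have := hb j
      rw [h, mul_zero] at this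
      omega
    · exact h
  have hxc : ∀ j (y : k), x j ≠ algebraMap k E y := by
    intro j y h
    have h1 := hρi.transcendental j
    rw [← hρx j, h, ← IsScalarTower.algebraMap_apply k E L,
      IsScalarTower.algebraMap_apply k K L, AlgEquiv.commutes,
      ← IsScalarTower.algebraMap_apply k K L] at h1
    exact h1 (isAlgebraic_algebraMap y)
  refine ⟨d, hd1, bog_galois (L := L) ρ hρi hst a hainj T hTpos
    (fun j i => c j i * b j) (fun j i => ?_) (fun j => ?_) _ (fun P hPd hPB j i => ?_)⟩
  · rw [hb j]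
    exact Nat.mul_le_mul_right _ (hcB j i)
  · rw [hmp, ← Finset.sum_mul]
    calc 2 * (minpoly K (x j)).natDegree * T
        = 2 * (minpoly K (x j)).natDegree * B j * b j := by rw [hb j]; ring
      _ < _ := Nat.mul_lt_mul_of_pos_right (hcsum j) (hb0 j)
  · rw [hmp]
    have hmQ : ∀ (Q : Place k E) (e : ℕ), Over Q P e →
        0 < Q.ord (x j - algebraMap k E (a j i)) →
        m (g j) (a j i) ≠ 0 ∧ (m (g j) (a j i) : ℤ) ≤ Q.ord (x j - algebraMap k E (a j i)) := by
      intro Q e hQP hQ
      have hxj : x j = τ (g j) := by rw [hxdef]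
      have h2 := hmult P hPd hPB Q e hQP (g j) (a j i) (haA j i) (by rw [← hxj]; exact hxc j _)
      rw [← hxj] at h2
      exact h2 hQ
    by_cases hm0 : m (g j) (a j i) = 0
    · -- no contact at all
      left
      have h1 := contact (K := K) P (hxc j (a j i))
        (m := (Module.finrank K E * (ct P (minpoly K (x j)) (a j i)).toNat + 1 : ℤ))
        (fun Q e hQP hQ => absurd hm0 (hmQ Q e hQP hQ).1)
      rcases h1 with h1 | h1
      · exact h1
      · exfalso
        have hct : 0 ≤ ct P (minpoly K (x j)) (a j i) := ct_nonneg P (minpoly_eval_ne (hxc j _))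
        rw [Int.toNat_of_nonneg hct] at h1
        have h2 : (1 : ℤ) ≤ (minpoly K (x j)).natDegree := by exact_mod_cast hs1 j
        nlinarith [mul_nonneg (show (0 : ℤ) ≤ Module.finrank K E by positivity) hct]
    have h1 := contact (K := K) P (hxc j (a j i)) (m := (m (g j) (a j i) : ℤ))
      (fun Q e hQP hQ => (hmQ Q e hQP hQ).2)
    rcases h1 with h1 | h1
    · exact Or.inl h1
    right
    have hct : 0 ≤ ct P (minpoly K (x j)) (a j i) := ct_nonneg P (minpoly_eval_ne (hxc j _))
    obtain ⟨u, hu⟩ := Int.eq_ofNat_of_zero_le hct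
    rw [hu] at h1 ⊢
    have h3 : m (g j) (a j i) * (minpoly K (x j)).natDegree ≤ Module.finrank K E * u := by
      exact_mod_cast h1
    have h4 := hwt j i (by have := cdiv_pos (hγ1 j) (Nat.one_le_iff_ne_zero.2 hm0); omega) u (by
      refine cdiv_le (hγ1 j) ?_
      rw [← hγ j] at h3
      refine Nat.le_of_mul_le_mul_right (c := (minpoly K (x j)).natDegree) ?_ (hs1 j)
      calc m (g j) (a j i) * (minpoly K (x j)).natDegree
          ≤ (minpoly K (x j)).natDegree * γ j * u := h3
        _ = γ j * u * (minpoly K (x j)).natDegree := by ring)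
    have h5 := Nat.mul_le_mul_right (b j) h4
    have h6 : (T : ℤ) = B j * b j := by exact_mod_cast hb j
    have h7 : ((B j : ℤ) + c j i * u) * b j ≤ B j * u * b j := by exact_mod_cast h5
    push_cast
    rw [h6]
    linarith

/-- **Not special.** The multiplicity `0` stands for infinity. -/
theorem bog_field_log [FiniteDimensional K E] {r w : ℕ} (hr : Module.finrank K E ≤ r)
    {n : ℕ} (τ : Fin n → E) (htau : ∃ p, Transcendental k (τ p))
    (A : Fin n → Finset k) (m : Fin n → k → ℕ)
    (hsum : ∀ p, ∀ g s : ℕ, 1 ≤ g → 1 ≤ s → g * s ≤ r →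
      2 * (s : ℝ) < ∑ c ∈ A p, (1 - 1 / (cdiv (m p c) g : ℝ))) (Bd : Place k K → Prop)
    (hmult : ∀ P : Place k K, Divisorial w P → ¬ Bd P → ∀ (Q : Place k E) (e : ℕ), Over Q P e →
      ∀ p, ∀ c ∈ A p, τ p ≠ algebraMap k E c → 0 < Q.ord (τ p - algebraMap k E c) →
        m p c ≠ 0 ∧ (m p c : ℤ) ≤ Q.ord (τ p - algebraMap k E c)) :
    ¬ Special k K w Bd := by
  have hF : CharZero K := charZero_of_injective_algebraMap (algebraMap k K).injective
  let L := AlgebraicClosure E
  have h1 : IsScalarTower K E L := inferInstance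
  have h2 : IsScalarTower k E L := inferInstance
  have h3 : IsScalarTower k K L := IsScalarTower.of_algebraMap_eq fun x => by
    rw [IsScalarTower.algebraMap_apply k E L, IsScalarTower.algebraMap_apply K E L,
      IsScalarTower.algebraMap_apply k K E]
  have hLF : Algebra.IsAlgebraic K L := by
    have : Algebra.IsAlgebraic K E := inferInstance
    have : Algebra.IsAlgebraic E L := inferInstance
    exact Algebra.IsAlgebraic.trans K E L
  have hLn : Normal K L := by
    have : IsAlgClosure K L := ⟨inferInstance, hLF⟩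
    exact IsAlgClosure.normal K L
  let M := IntermediateField.normalClosure K E L
  have hMn : Normal K M := inferInstance
  have hMf : FiniteDimensional K M := inferInstance
  have hMg : IsGalois K M := ⟨⟩
  have h4 : IsScalarTower k K M := inferInstance
  have h5 : IsScalarTower K E M := inferInstance
  have h6 : IsScalarTower k E M := IsScalarTower.of_algebraMap_eq fun x => by
    rw [IsScalarTower.algebraMap_apply k K M, IsScalarTower.algebraMap_apply K E M,
      IsScalarTower.algebraMap_apply k K E]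
  obtain ⟨d, hd, hB⟩ := bog_galois_of (L := M) hr τ htau A m hsum Bd hmult
  exact fun hsp => hsp d hd hB

/-- **Not special.** -/
theorem bog_field [FiniteDimensional K E] {r w : ℕ} (hr : Module.finrank K E ≤ r)
    {n : ℕ} (τ : Fin n → E) (htau : ∃ p, Transcendental k (τ p))
    (A : Fin n → Finset k) (m : Fin n → k → ℕ) (hw : ∀ p, Wide r (A p) (m p))
    (hmult : ∀ p, ∀ c ∈ A p, ∀ Q : Place k E, τ p ≠ algebraMap k E c →
      0 < Q.ord (τ p - algebraMap k E c) → (m p c : ℤ) ≤ Q.ord (τ p - algebraMap k E c)) :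
    ¬ Special k K w (fun _ => False) :=
  bog_field_log hr τ htau A m (fun p => (hw p).2) (fun _ => False)
    fun _ _ _ Q _ _ p c hc h1 h2 => ⟨by have := (hw p).1 c hc; omega, hmult p c hc Q h1 h2⟩

end

end Pool.Agent.K4H65.DM
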