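import Pool.Agent.K4H65.DM.Curve
import Pool.Agent.W603.PV.Ext

/-!
The height inequality for algebraic functions on curves with high multiplicities over many points.
-/

set_option autoImplicit false
set_option linter.overlappingInstances false
set_option linter.unusedSectionVars false

open Polynomial FF Pool.Agent.W603.LV Pool.Agent.W603.PV Pool.Agent.W601.VF Pool.Agent.Y216
  Pool.Agent.Y190.BV

namespace Pool.Agent.K4H65.DM

section

variable {k K E : Type} [Field k] [Field K] [Field E] [Algebra k K] [Algebra k E] [Algebra K E]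
  [IsScalarTower k K E]

/-- **Contact orders**; the multiplicity `0` stands for infinity. -/
theorem contact2 [Infinite k] [CharZero k] [FiniteDimensional K E] (P : Place k K) {τ : E} {a : k}
    {m : ℕ} (h0 : τ ≠ algebraMap k E a) {g : ℕ}
    (hg : (minpoly K τ).natDegree * g = Module.finrank K E) (hg1 : 1 ≤ g)
    (hm : ∀ (Q : Place k E) (e : ℕ), Over Q P e → 0 < Q.ord (τ - algebraMap k E a) →
      m ≠ 0 ∧ (m : ℤ) ≤ Q.ord (τ - algebraMap k E a)) :
    ct P (minpoly K τ) a = 0 ∨ m ≠ 0 ∧ (cdiv m g : ℤ) ≤ ct P (minpoly K τ) a := by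
  have hi : IsIntegral K τ := Algebra.IsIntegral.isIntegral τ
  have hs1 : 1 ≤ (minpoly K τ).natDegree := minpoly.natDegree_pos hi
  have hct : 0 ≤ ct P (minpoly K τ) a := ct_nonneg P (minpoly_eval_ne h0)
  by_cases hm0 : m = 0
  · left
    have h1 := contact (K := K) P h0
      (m := (Module.finrank K E * (ct P (minpoly K τ) a) + 1 : ℤ))
      (fun Q e hQP hQ => absurd hm0 (hm Q e hQP hQ).1)
    rcases h1 with h1 | h1
    · exact h1
    · exfalso
      have h2 : (1 : ℤ) ≤ (minpoly K τ).natDegree := by exact_mod_cast hs1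
      nlinarith [mul_nonneg (show (0 : ℤ) ≤ Module.finrank K E by positivity) hct]
  · have h1 := contact (K := K) P h0 (m := (m : ℤ)) (fun Q e hQP hQ => (hm Q e hQP hQ).2)
    rcases h1 with h1 | h1
    · exact Or.inl h1
    refine Or.inr ⟨hm0, ?_⟩
    obtain ⟨u, hu⟩ := Int.eq_ofNat_of_zero_le hct
    rw [hu] at h1 ⊢
    have h3 : m * (minpoly K τ).natDegree ≤ Module.finrank K E * u := by exact_mod_cast h1
    have h4 : cdiv m g ≤ u := by
      refine cdiv_le hg1 ?_
      rw [← hg] at h3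
      refine Nat.le_of_mul_le_mul_right (c := (minpoly K τ).natDegree) ?_ hs1
      calc m * (minpoly K τ).natDegree ≤ (minpoly K τ).natDegree * g * u := h3
        _ = g * u * (minpoly K τ).natDegree := by ring
    exact_mod_cast h4

end

theorem exists_const {k : Type} [Field k] {r : ℕ} {A : Finset k} {m : k → ℕ}
    (hsum : ∀ g s : ℕ, 1 ≤ g → 1 ≤ s → g * s ≤ r →
      2 * (s : ℝ) < ∑ c ∈ A, (1 - 1 / (cdiv (m c) g : ℝ))) :
    ∃ C : ℕ, ∀ g s : ℕ, 1 ≤ g → 1 ≤ s → g * s ≤ r →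
      (s : ℝ) ≤ C * (∑ c ∈ A, (1 - 1 / (cdiv (m c) g : ℝ)) - 2 * s) := by
  classical
  obtain ⟨F, hF⟩ : ∃ F : ℕ × ℕ → ℕ, F = fun p =>
    ⌈(p.2 : ℝ) / (∑ c ∈ A, (1 - 1 / (cdiv (m c) p.1 : ℝ)) - 2 * p.2)⌉₊ := ⟨_, rfl⟩
  refine ⟨∑ p ∈ Finset.range (r + 1) ×ˢ Finset.range (r + 1), F p, fun g s hg hs hgs => ?_⟩
  have hδ : 0 < ∑ c ∈ A, (1 - 1 / (cdiv (m c) g : ℝ)) - 2 * s := by
    have := hsum g s hg hs hgs
    linarith
  have hgr : g < r + 1 := by nlinarith
  have hsr : s < r + 1 := by nlinarith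
  have hmem : ((g, s) : ℕ × ℕ) ∈ Finset.range (r + 1) ×ˢ Finset.range (r + 1) :=
    Finset.mem_product.2 ⟨Finset.mem_range.2 hgr, Finset.mem_range.2 hsr⟩
  have h0 : F (g, s) ≤ ∑ p ∈ Finset.range (r + 1) ×ˢ Finset.range (r + 1), F p :=
    Finset.single_le_sum (f := F) (fun _ _ => Nat.zero_le _) hmem
  have h1 : (F (g, s) : ℝ) ≤
      ((∑ p ∈ Finset.range (r + 1) ×ˢ Finset.range (r + 1), F p : ℕ) : ℝ) := Nat.cast_le.2 h0
  have h3 : (s : ℝ) / (∑ c ∈ A, (1 - 1 / (cdiv (m c) g : ℝ)) - 2 * s) ≤ (F (g, s) : ℝ) := by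
    rw [hF]
    exact Nat.le_ceil _
  have h2 := h3.trans h1
  rwa [div_le_iff₀ hδ] at h2

/-- **The height inequality.** -/
theorem alg_ineq {k : Type} [Field k] [IsAlgClosed k] [CharZero k] {r : ℕ} {A : Finset k}
    {m : k → ℕ} (hsum : ∀ g s : ℕ, 1 ≤ g → 1 ≤ s → g * s ≤ r →
      2 * (s : ℝ) < ∑ c ∈ A, (1 - 1 / (cdiv (m c) g : ℝ))) :
    ∃ C : ℕ, ∀ (K E : Type) [Field K] [Field E] [Algebra k K] [Algebra k E] [Algebra K E]
      [IsScalarTower k K E] [FiniteDimensional K E] [IsFF k K] [IsFF k E],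
      Module.finrank K E ≤ r → ∀ (S : Finset (Place k K)) (τ : E),
      (∀ P : Place k K, P ∉ S → ∀ (Q : Place k E) (e : ℕ), Over Q P e → ∀ c ∈ A,
        τ ≠ algebraMap k E c → 0 < Q.ord (τ - algebraMap k E c) →
          m c ≠ 0 ∧ (m c : ℤ) ≤ Q.ord (τ - algebraMap k E c)) →
      hgt k τ ≤ C * max (canDeg k K + S.card) 0 := by
  classical
  obtain ⟨C, hC⟩ := exists_const hsum
  refine ⟨(r + 1) * (r * C), ?_⟩
  intro K E _ _ _ _ _ _ _ _ _ hr S τ hmult
  obtain ⟨χ, hχ⟩ : ∃ χ : ℤ, χ = max (canDeg k K + S.card) 0 := ⟨_, rfl⟩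
  rw [← hχ]
  have hχ0 : 0 ≤ χ := by rw [hχ]; exact le_max_right _ _
  by_cases hconst : ∃ c : k, τ = algebraMap k E c
  · obtain ⟨c, hc⟩ := hconst
    have h1 : hgt k τ = 0 := by
      rw [hc]
      exact hgt_algebraic (k := k) (isAlgebraic_algebraMap c)
    rw [h1]
    positivity
  push Not at hconst
  have hi : IsIntegral K τ := Algebra.IsIntegral.isIntegral τ
  obtain ⟨f, hf⟩ : ∃ f, f = minpoly K τ := ⟨_, rfl⟩
  have hfm : f.Monic := by rw [hf]; exact minpoly.monic hi
  have hf0 : f ≠ 0 := hfm.ne_zero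
  obtain ⟨s, hs⟩ : ∃ s, s = f.natDegree := ⟨_, rfl⟩
  have hs1 : 1 ≤ s := by rw [hs, hf]; exact minpoly.natDegree_pos hi
  obtain ⟨g, hg, -⟩ := norm_sub (K := K) τ 0
  rw [← hf, ← hs] at hg
  have hfin0 : 0 < Module.finrank K E := Module.finrank_pos
  have hg1 : 1 ≤ g := by
    rcases Nat.eq_zero_or_pos g with h | h
    · rw [h, mul_zero] at hg
      omega
    · exact h
  have hgs : g * s ≤ r := by
    rw [mul_comm, hg]
    exact hr
  have hsr : s ≤ r := by nlinarith
  obtain ⟨u, hu⟩ : ∃ u : Fin (s + 1) → K, u = fun j : Fin (s + 1) => f.coeff (j : ℕ) := ⟨_, rfl⟩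
  have hulast : u (Fin.last s) = 1 := by
    rw [hu]
    simp only [Fin.val_last]
    rw [hs]
    exact hfm.coeff_natDegree
  have hlast : u (Fin.last s) ≠ 0 := by
    rw [hulast]
    exact one_ne_zero
  have hpu : pol u = f := by
    rw [hu]
    exact (eq_pol (F := f) hs.ge).symm
  have hsq : Squarefree (pol u) := by
    rw [hpu, hf]
    exact (minpoly.irreducible hi).squarefree
  have hroot : ∀ b : k, (pol u).eval (algebraMap k K b) ≠ 0 := by
    intro b
    rw [hpu, hf]
    exact minpoly_eval_ne (hconst b)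
  let a : Fin A.card → k := fun i => (A.equivFin.symm i : k)
  have haA : ∀ i, a i ∈ A := fun i => (A.equivFin.symm i).2
  have hainj : Function.Injective a := fun i i' h => A.equivFin.symm.injective (Subtype.ext h)
  have hsumA : ∀ F : k → ℝ, ∑ c ∈ A, F c = ∑ i, F (a i) := by
    intro F
    rw [← Finset.sum_coe_sort A F]
    exact (Equiv.sum_comp A.equivFin.symm (fun c : A => F c)).symm
  have huv : ∀ i j : Fin A.card, i ≠ j → (1 : k) * a j ≠ 1 * a i := by
    intro i j hij h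
    rw [one_mul, one_mul] at h
    exact hij (hainj h.symm)
  have hlv : ∀ i, lv (rnc s (fun _ => 1) a i) u = f.eval (algebraMap k K (a i)) := by
    intro i
    rw [lv_rnc, ← hpu]
    unfold bev pol
    rw [Polynomial.eval_finset_sum]
    refine Finset.sum_congr rfl fun j _ => ?_
    simp
    ring
  have hne : ∀ i, lv (rnc s (fun _ => 1) a i) u ≠ 0 := by
    intro i
    rw [hlv, ← hpu]
    exact hroot _
  have hpord : ∀ P : Place k K, pord P u = cnt P f := by
    intro P
    symm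
    apply cnt_unique
    · intro j
      by_cases hj : j < s + 1
      · have := ge_pord P u ⟨j, hj⟩
        rw [hu] at this ⊢
        exact this
      · left
        exact Polynomial.coeff_eq_zero_of_natDegree_lt (by omega)
    · obtain ⟨j, hj, hjo⟩ := exists_pord P ⟨_, hlast⟩
      rw [hu] at hj hjo
      refine ⟨j, hj, ?_⟩
      rw [hu]
      exact hjo
  obtain ⟨D, hD⟩ := exists_der (k := k) (K := K)
  have hR := res_ne_zero hD hlast hsq hroot
  have hq : s + s ≤ A.card := by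
    have h1 : ∑ c ∈ A, (1 - 1 / (cdiv (m c) g : ℝ)) ≤ A.card := by
      calc ∑ c ∈ A, (1 - 1 / (cdiv (m c) g : ℝ)) ≤ ∑ _c ∈ A, (1 : ℝ) :=
            Finset.sum_le_sum fun i _ => by
              have : (0 : ℝ) ≤ 1 / (cdiv (m i) g : ℝ) := by positivity
              linarith
        _ = A.card := by simp
    have h2 : ((s + s : ℕ) : ℝ) < A.card := by
      have := hsum g s hg1 hs1 hgs
      push_cast
      linarith
    exact_mod_cast h2.le
  have h1 := glob_log (b := s) hD ⟨_, hlast⟩ hne S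
    (fun P _ => rnc_local P hD ⟨_, hlast⟩ huv hq hne hR)
    (fun P _ => rnc_local_log P hD ⟨_, hlast⟩ huv hq hne hR)
    (w := fun i => 1 - 1 / (cdiv (m (a i)) g : ℝ))
    (fun i => by
      have : (0 : ℝ) ≤ 1 / (cdiv (m (a i)) g : ℝ) := by positivity
      linarith)
    (fun P hP i => by
      rw [hlv, hpord]
      change (1 - 1 / (cdiv (m (a i)) g : ℝ)) * ((ct P f (a i) : ℤ) : ℝ) ≤
        ((max (ct P f (a i) - 1) 0 : ℤ) : ℝ)
      have h2 := contact2 (K := K) P (hconst (a i)) (m := m (a i)) (g := g)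
        (by rw [← hf, ← hs]; exact hg) hg1 (fun Q e hQ h => hmult P hP Q e hQ (a i) (haA i)
          (hconst _) h)
      rw [← hf] at h2
      rcases h2 with h2 | ⟨hm0, h2⟩
      · rw [h2]
        simp
      · have h3 : (0 : ℝ) < cdiv (m (a i)) g := by
          exact_mod_cast cdiv_pos hg1 (Nat.one_le_iff_ne_zero.2 hm0)
        have h4 : (cdiv (m (a i)) g : ℝ) ≤ ((ct P f (a i) : ℤ) : ℝ) := by exact_mod_cast h2
        have h5 : 1 ≤ 1 / (cdiv (m (a i)) g : ℝ) * ((ct P f (a i) : ℤ) : ℝ) := by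
          rw [one_div, ← div_eq_inv_mul, le_div_iff₀ h3, one_mul]
          exact h4
        push_cast
        refine le_max_of_le_left ?_
        linarith)
  rw [← hsumA (fun c => 1 - 1 / (cdiv (m c) g : ℝ))] at h1
  have hp0 : 0 ≤ pht k u := pht_nonneg' ⟨_, hlast⟩
  have h2 : (pht k u : ℝ) ≤ C * χ := by
    have hδ : 0 < ∑ c ∈ A, (1 - 1 / (cdiv (m c) g : ℝ)) - 2 * s := by
      have := hsum g s hg1 hs1 hgs
      linarith
    have h3 : ((canDeg k K + S.card : ℤ) : ℝ) ≤ χ := by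
      rw [hχ]
      exact_mod_cast le_max_left _ _
    have h4 := hC g s hg1 hs1 hgs
    have hχr : (0 : ℝ) ≤ χ := by exact_mod_cast hχ0
    have h5 : (∑ c ∈ A, (1 - 1 / (cdiv (m c) g : ℝ)) - 2 * s) * (pht k u : ℝ) ≤
        (∑ c ∈ A, (1 - 1 / (cdiv (m c) g : ℝ)) - 2 * s) * (C * χ) := by
      calc (∑ c ∈ A, (1 - 1 / (cdiv (m c) g : ℝ)) - 2 * s) * (pht k u : ℝ)
          ≤ s * ((canDeg k K + S.card : ℤ) : ℝ) := h1
        _ ≤ s * χ := mul_le_mul_of_nonneg_left h3 (by positivity)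
        _ ≤ (C * (∑ c ∈ A, (1 - 1 / (cdiv (m c) g : ℝ)) - 2 * s)) * χ :=
            mul_le_mul_of_nonneg_right h4 hχr
        _ = _ := by ring
    exact le_of_mul_le_mul_left h5 hδ
  have h3 : pht k u ≤ C * χ := by exact_mod_cast h2
  -- the height of the root
  have hrel : ∑ d ∈ Finset.range (s + 1), algebraMap K E (f.coeff d) * τ ^ d = 0 := by
    have h4 := minpoly.aeval K τ
    rw [← hf, Polynomial.aeval_eq_sum_range, ← hs] at h4
    simpa only [Algebra.smul_def] using h4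
  have h4 := hgt_root (k := k) (fun d => algebraMap K E (f.coeff d)) (D := s) (by
    rw [hs, hfm.coeff_natDegree, map_one]
    exact one_ne_zero) τ hrel
  have h5 : ∀ d, d < s + 1 → hgt k (algebraMap K E (f.coeff d)) ≤ r * (C * χ) := by
    intro d hd
    rw [hgt_algebraMap]
    have h6 : hgt k (f.coeff d) ≤ pht k u := by
      by_cases h0 : f.coeff d = 0
      · rw [h0, hgt_algebraic (k := k) (K := K) (f := 0) isAlgebraic_zero]
        exact hp0
      · have h7 := Pool.Agent.W603.CX.hgt_le_pht (k := k) u (j := ⟨d, hd⟩) (l := Fin.last s)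
          (by rw [hu]; exact h0) hlast
        rw [hulast, div_one, hu] at h7
        rw [hu]
        exact h7
    have h7 : 0 ≤ hgt k (f.coeff d) := hgt_nonneg _
    have h8 : (Module.finrank K E : ℤ) ≤ r := by exact_mod_cast hr
    calc (Module.finrank K E : ℤ) * hgt k (f.coeff d) ≤ r * hgt k (f.coeff d) :=
          mul_le_mul_of_nonneg_right h8 h7
      _ ≤ r * (C * χ) := mul_le_mul_of_nonneg_left (h6.trans h3) (by positivity)
  have h6 : hgt k (algebraMap K E (f.coeff s)) +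
      ∑ d ∈ Finset.range s, hgt k (algebraMap K E (f.coeff d)) ≤
      ∑ _d ∈ Finset.range (s + 1), (r : ℤ) * (C * χ) := by
    rw [Finset.sum_range_succ, add_comm]
    exact add_le_add (Finset.sum_le_sum fun d hd => h5 d (by
      have := Finset.mem_range.1 hd
      omega)) (h5 s (by omega))
  refine h4.trans (h6.trans ?_)
  rw [Finset.sum_const, Finset.card_range, nsmul_eq_mul]
  have h7 : ((s + 1 : ℕ) : ℤ) ≤ (r + 1 : ℕ) := by exact_mod_cast Nat.succ_le_succ hsr
  have h8 : (0 : ℤ) ≤ r * (C * χ) := by positivity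
  refine (mul_le_mul_of_nonneg_right h7 h8).trans (le_of_eq ?_)
  push_cast
  ring

end Pool.Agent.K4H65.DM
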