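import Pool.Agent.K4H65.DM.Main
import Pool.Agent.K4H65.DM.CurveB
import Pool.Agent.Y221.PB.Dom

/-!
Linear degree bounds for the curves, and for the coverings of curves, in the varieties which are
dominated by varieties with multiple fibres.
-/

set_option autoImplicit false
set_option linter.overlappingInstances false
set_option linter.unusedSectionVars false

open FF Pool.Agent.W603.LV

namespace Pool.Agent.K4H65.DM

open Pool.Agent.W602.GT Pool.Agent.TH466.QG Pool.Agent.Y221.AH Pool.Agent.Y221.PB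
open Pool.Agent.W603.PV (pht pht_le)
open Pool.Agent.Y216 (OnVar CurveBound)

/-- the height of the point with the coordinates `1, t 1, ..., t n` -/
theorem pht_cons_le {k E : Type} [Field k] [IsAlgClosed k] [CharZero k] [Field E] [Algebra k E]
    [IsFF k E] {n : ℕ} (t : Fin n → E) :
    pht k (Fin.cons 1 t : Fin (n + 1) → E) ≤ ∑ p, hgt k (t p) := by
  have h0 : (Fin.cons 1 t : Fin (n + 1) → E) 0 ≠ 0 := by
    rw [Fin.cons_zero]
    exact one_ne_zero
  refine (pht_le (Fin.cons 1 t : Fin (n + 1) → E) h0).trans ?_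
  rw [Fin.sum_univ_succ, Fin.cons_zero, div_one, hgt_one, zero_add]
  refine Finset.sum_le_sum fun p _ => ?_
  rw [Fin.cons_succ, div_one]

/-- **Degree bounds.** -/
theorem cover_dm {k : Type} [Field k] [CharZero k] [IsAlgClosed k] {N n ρ r : ℕ}
    {V : ProdSet k N n} {R : MPoly k N n}
    {A : Fin n → Finset k} {m : Fin n → k → ℕ}
    (hRh : MHom R) (hV : MultipleFibres V R A m) (hwide : ∀ p, Wide (ρ * r) (A p) (m p))
    {K' L : Type} [Field K'] [Field L] [Algebra k K'] [Algebra k L] [Algebra L K']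
    [IsScalarTower k L K'] [FiniteDimensional L K'] (hr : Module.finrank L K' ≤ r)
    {a : Fin (N + 1) → K'} {b : Fin n → Fin 2 → K'} (hab : V.Mem a b)
    (hR : MvPolynomial.aeval (Sum.elim a fun v => b v.1 v.2) R ≠ 0)
    (halg : Algebra.IsAlgebraic (IntermediateField.adjoin k
      (Set.range fun p => b p 0 / b p 1)) K')
    {M : ℕ} {x : Fin (M + 1) → L} (hx : x ≠ 0) (hgen : coords k x = ⊤) :
    CoverBound k ρ x := by
  classical
  obtain ⟨i1, hi1'⟩ := Function.ne_iff.1 hx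
  have hi1 : x i1 ≠ 0 := hi1'
  obtain ⟨i0, hi0'⟩ := Function.ne_iff.1 hab.a_ne
  have hi0 : a i0 ≠ 0 := hi0'
  obtain ⟨t, ht⟩ : ∃ t : Fin n → K', t = fun p => b p 0 / b p 1 := ⟨_, rfl⟩
  rw [← ht] at halg
  let K := IntermediateField.adjoin k (Set.range t)
  let y : Fin (n + 1) → K :=
    Fin.cons 1 (fun p => (⟨t p, IntermediateField.subset_adjoin k _ ⟨p, rfl⟩⟩ : K))
  have hygen : coords k y = ⊤ := coords_cons t
  have hy0 : y 0 ≠ 0 := by
    change (1 : K) ≠ 0
    exact one_ne_zero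
  have hkey := fun p => alg_ineq (k := k) (r := ρ * r) (A := A p) (m := m p) (hwide p).2
  choose C0 hC0 using hkey
  obtain ⟨Θ2, C, hΘ2, halgs⟩ := alg_hgt (K' := K') hygen hy0
    (fun m => algebraMap L K' (x m / x i1))
  obtain ⟨H, hH, hspread⟩ := spread (K' := K') (adjoin_norm hgen hi1)
    (Θ := theta R a b i0 ∪ (algebraMap K K' '' Θ2 ∪ Set.range t))
    ((theta_finite R a b i0).union ((hΘ2.image _).union (Set.finite_range t)))
  refine ⟨MvPolynomial.X i1 * hz i1 H, ?_, ?_, (M + 1) * (C * ∑ p, C0 p), ?_⟩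
  · obtain ⟨d, hd⟩ := hz_form i1 H
    exact ⟨1 + d, (MvPolynomial.isHomogeneous_X k i1).mul hd⟩
  · change MvPolynomial.aeval x _ ≠ 0
    rw [map_mul, MvPolynomial.aeval_X]
    refine mul_ne_zero hi1 ?_
    change val x _ ≠ 0
    rw [val_hz H hi1]
    exact mul_ne_zero (pow_ne_zero _ hi1) hH
  intro K0 E _ _ _ _ _ _ _ _ _ hρ z hz hzR
  change MvPolynomial.aeval z _ ≠ 0 at hzR
  rw [map_mul, MvPolynomial.aeval_X] at hzR
  have hz1 : z i1 ≠ 0 := left_ne_zero_of_mul hzR
  have hzH : MvPolynomial.aeval (fun i => z i / z i1) H ≠ 0 := by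
    have h1 : val z (Pool.Agent.TH466.QG.hz i1 H) ≠ 0 := right_ne_zero_of_mul hzR
    rw [val_hz H hz1] at h1
    exact right_ne_zero_of_mul h1
  have hsp : ∀ G : MvPolynomial (Fin (M + 1)) k,
      MvPolynomial.aeval (fun i => x i / x i1) G = 0 →
      MvPolynomial.aeval (fun i => z i / z i1) G = 0 := by
    intro G hG
    have h1 : val x (Pool.Agent.TH466.QG.hz i1 G) = 0 := by
      rw [val_hz G hi1, hG, mul_zero]
    have h2 := hz.2 _ (hz_form i1 G) h1
    rw [val_hz G hz1] at h2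
    exact (mul_eq_zero.1 h2).resolve_left (pow_ne_zero _ hz1)
  obtain ⟨K'', i1', i2', i3', i4', i5', hrk, S, hSx, hSΘ⟩ := hspread E
    (fun i => z i / z i1) hsp hzH
  have hSt : ∀ p, ∃ u, S.T (t p) u := fun p => hSΘ _ (Or.inr (Or.inr ⟨p, rfl⟩))
  choose t' ht' using hSt
  let y' : Fin (n + 1) → K'' := Fin.cons 1 t'
  have hyS : ∀ i, S.T (algebraMap K K' (y i)) (y' i) := by
    intro i
    refine Fin.cases ?_ (fun p => ?_) i
    · change S.T (algebraMap K K' 1) 1
      rw [map_one]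
      exact S.one
    · exact ht' p
  have hff : IsFF k K'' := Pool.Agent.W603.PV.isFF_of_finite (F := E)
  let iA : Algebra K0 K'' := ((algebraMap E K'').comp (algebraMap K0 E)).toAlgebra
  have iT1 : IsScalarTower K0 E K'' := IsScalarTower.of_algebraMap_eq fun _ => rfl
  have iT2 : IsScalarTower k K0 K'' := IsScalarTower.of_algebraMap_eq fun c => by
    change _ = algebraMap E K'' (algebraMap K0 E (algebraMap k K0 c))
    rw [← IsScalarTower.algebraMap_apply k K0 E, ← IsScalarTower.algebraMap_apply k E K'']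
  have iF : FiniteDimensional K0 K'' := FiniteDimensional.trans K0 E K''
  have hfr : Module.finrank K0 K'' ≤ ρ * r := by
    rw [← Module.finrank_mul_finrank K0 E K'']
    exact Nat.mul_le_mul hρ (hrk.trans hr)
  obtain ⟨χ, hχ⟩ : ∃ χ : ℤ, χ = max (canDeg k K0) 0 := ⟨_, rfl⟩
  have hχ0 : 0 ≤ χ := by rw [hχ]; exact le_max_right _ _
  have hτ : ∀ p, hgt k (t' p) ≤ C0 p * χ := by
    intro p
    have h1 := hC0 p K0 K'' hfr ∅ (t' p) (fun P _ Q e _ c hc h1 h2 =>
      ⟨by have := (hwide p).1 c hc; omega,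
        spec_mult hRh hV hab hR hi0 S (fun ϑ hϑ => hSΘ _ (Or.inl hϑ)) (fun q => by
          have h3 := ht' q
          rw [ht] at h3
          exact h3) p hc Q h1 h2⟩)
    rw [Finset.card_empty, Nat.cast_zero, add_zero, ← hχ] at h1
    exact h1
  have h1 : pht k y' ≤ (∑ p, (C0 p : ℤ)) * χ := by
    refine (pht_cons_le t').trans ?_
    rw [Finset.sum_mul]
    exact Finset.sum_le_sum fun p _ => hτ p
  have h2 : ∀ m, hgt k (algebraMap E K'' (z m / z i1)) ≤ C * pht k y' := fun m =>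
    halgs K'' S (fun ϑ hϑ => hSΘ _ (Or.inr (Or.inl ⟨ϑ, hϑ, rfl⟩))) y' hyS _ hSx m
  have hz0 : ∃ j, z j ≠ 0 := ⟨i1, hz1⟩
  have hz1' : algebraMap E K'' (z i1) ≠ 0 := by rwa [Ne, map_eq_zero]
  have h3 : pht k (fun j => algebraMap E K'' (z j)) ≤ (M + 1) * (C * pht k y') := by
    refine (pht_le (fun j => algebraMap E K'' (z j)) hz1').trans ?_
    have h4 : ∀ j, hgt k (algebraMap E K'' (z j) / algebraMap E K'' (z i1)) ≤ C * pht k y' := by
      intro j
      rw [← map_div₀]
      exact h2 j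
    refine (Finset.sum_le_sum fun j _ => h4 j).trans (le_of_eq ?_)
    rw [Finset.sum_const, nsmul_eq_mul, Finset.card_univ, Fintype.card_fin]
    push_cast
    ring
  rw [pht_algebraMap hz0] at h3
  have h5 : 0 ≤ pht k z := pht_nonneg hz0
  have h6 : (1 : ℤ) ≤ Module.finrank E K'' := by exact_mod_cast Module.finrank_pos
  have h7 : pht k z ≤ Module.finrank E K'' * pht k z := by nlinarith
  refine (h7.trans h3).trans ?_
  rw [← hχ]
  have h8 : (C : ℤ) * pht k y' ≤ C * ((∑ p, (C0 p : ℤ)) * χ) :=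
    mul_le_mul_of_nonneg_left h1 (Nat.cast_nonneg _)
  have h9 := mul_le_mul_of_nonneg_left h8 (by positivity : (0 : ℤ) ≤ (M : ℤ) + 1)
  refine h9.trans (le_of_eq ?_)
  push_cast
  ring

end Pool.Agent.K4H65.DM
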