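import Pool.Agent.Y221.FQ.Defs
import Pool.Agent.W602.GT.SpecDefs

/-!
Brody-special projective varieties, and Campana's conjecture for the closed subvarieties of a
projective variety.
-/

set_option autoImplicit false

open FF Pool.Agent.W602.GT

namespace Pool.Agent.K4H65.DM

/-- The projective variety with the generic point `x` (the variety of the forms which vanish at `x`)
is Brody-special: there is a holomorphic map `t ↦ (f t 0 : ... : f t M)` from the complex plane to
this variety with Zariski dense image: a form vanishes at all points of the image if and only if it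
vanishes at `x`. -/
def BrodyDense {M : ℕ} {L : Type} [Field L] [Algebra ℂ L] (x : Fin (M + 1) → L) : Prop :=
  ∃ f : ℂ → Fin (M + 1) → ℂ, (∀ i, Differentiable ℂ fun t => f t i) ∧ (∀ t, f t ≠ 0) ∧
    ∀ G : MvPolynomial (Fin (M + 1)) ℂ, IsForm G → ((∀ t, val (f t) G = 0) ↔ val x G = 0)

/-- Campana's conjecture for all closed subvarieties `Z` of the projective variety `{Φ = 0}`: they
are special if and only if they are Brody-special. (`K` is the function field of `Z`, and `z` its
generic point.) -/
def CampanaFor {M : ℕ} {μ : Type} (Φ : μ → MvPolynomial (Fin (M + 1)) ℂ) : Prop :=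
  ∀ (K : Type) [Field K] [Algebra ℂ K] (w : ℕ) (z : Fin (M + 1) → K), SubVar Φ K w z →
    (Special ℂ K w (fun _ => False) ↔ BrodyDense z)

end Pool.Agent.K4H65.DM
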