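import Pool.Agent.K4H65.DM.Gt

/-!
Function fields which have an extension of small degree with functions of high multiplicities over
many points are of general type.
-/

set_option autoImplicit false
set_option linter.overlappingInstances false
set_option linter.unusedSectionVars false

open FF Polynomial Pool.Agent.W603.LV Pool.Agent.W602.GT Pool.Agent.Y190.BV

namespace Pool.Agent.K4H65.DM

theorem general_of_log {k K : Type} [Field k] [Field K] [Algebra k K] {w : ℕ}
    (h : LogGeneralType k K w (fun _ => False)) : GeneralType k K w := by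
  obtain ⟨h1, N, h2, ω, h3, _, h5, h6⟩ := h
  exact ⟨h1, N, h2, ω, h3, fun P hP => h5 P hP not_false, h6⟩

section

variable {k K E : Type} [Field k] [CharZero k] [IsAlgClosed k] [Field K] [Field E] [Algebra k K]
  [Algebra k E] [Algebra K E] [IsScalarTower k K E]

theorem gt_galois_of {L : Type} [Field L] [Algebra k L] [Algebra K L] [Algebra E L]
    [IsScalarTower k K L] [IsScalarTower k E L] [IsScalarTower K E L] [FiniteDimensional K L]
    [IsGalois K L] [FiniteDimensional K E] {r w : ℕ} (hr : Module.finrank K E ≤ r)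
    (htr : Algebra.trdeg k K = w) {n : ℕ} (τ : Fin n → E)
    (halg : Algebra.IsAlgebraic (Algebra.adjoin k (Set.range τ)) E)
    (A : Fin n → Finset k) (m : Fin n → k → ℕ)
    (hsum : ∀ p, ∀ g s : ℕ, 1 ≤ g → 1 ≤ s → g * s ≤ r →
      2 * (s : ℝ) < ∑ c ∈ A p, (1 - 1 / (cdiv (m p c) g : ℝ))) (Bd : Place k K → Prop)
    (hmult : ∀ P : Place k K, Divisorial w P → ¬ Bd P → ∀ (Q : Place k E) (e : ℕ), Over Q P e →
      ∀ p, ∀ c ∈ A p, τ p ≠ algebraMap k E c → 0 < Q.ord (τ p - algebraMap k E c) →
        m p c ≠ 0 ∧ (m p c : ℤ) ≤ Q.ord (τ p - algebraMap k E c)) :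
    LogGeneralType k K w Bd := by
  classical
  have hinf : Infinite k := inferInstance
  have htrE : Algebra.trdeg k E = w := by rw [trdeg_ext (K := K), htr]
  obtain ⟨x, hx, hxS⟩ := exists_basis_in htrE _ halg
  choose g hg using hxS
  have halgEL : Algebra.IsAlgebraic E L := Algebra.IsAlgebraic.tower_top (K := K) E
  have hbas := hx.algebraMap_comp (A := L)
  have hmp : ∀ j, minpoly K (algebraMap E L (x j)) = minpoly K (x j) := fun j =>
    minpoly.algebraMap_eq (algebraMap E L).injective _
  have hi : ∀ j, IsIntegral K (x j) := fun j => Algebra.IsIntegral.isIntegral _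
  have hs1 : ∀ j, 1 ≤ (minpoly K (x j)).natDegree := fun j => minpoly.natDegree_pos (hi j)
  have hγ' : ∀ j, ∃ γ, (minpoly K (x j)).natDegree * γ = Module.finrank K E := fun j => by
    obtain ⟨γ, h1, -⟩ := norm_sub (K := K) (x j) 0
    exact ⟨γ, h1⟩
  choose γ hγ using hγ'
  have hfin0 : 0 < Module.finrank K E := Module.finrank_pos
  have hγ1 : ∀ j, 1 ≤ γ j := by
    intro j
    have h1 := hγ j
    rcases Nat.eq_zero_or_pos (γ j) with h | h
    · rw [h, mul_zero] at h1
      omega
    · exact h
  let a : ∀ j : Fin w, Fin (A (g j)).card → k := fun j i => ((A (g j)).equivFin.symm i : k)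
  have haA : ∀ j i, a j i ∈ A (g j) := fun j i => ((A (g j)).equivFin.symm i).2
  have hainj : ∀ j, Function.Injective (a j) := fun j i i' h =>
    (A (g j)).equivFin.symm.injective (Subtype.ext h)
  have hwts : ∀ j : Fin w, ∃ (B : ℕ) (c : Fin (A (g j)).card → ℕ), 0 < B ∧ (∀ i, c i ≤ B) ∧
      2 * (minpoly K (x j)).natDegree * B < ∑ i, c i ∧
      ∀ i, cdiv (m (g j) (a j i)) (γ j) ≠ 0 → ∀ b, cdiv (m (g j) (a j i)) (γ j) ≤ b →
        B + c i * b ≤ B * b := by
    intro j
    refine exists_wts2 (m := fun i => cdiv (m (g j) (a j i)) (γ j)) ?_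
    refine lt_of_lt_of_eq (hsum (g j) (γ j) _ (hγ1 j) (hs1 j) (by
      rw [mul_comm, hγ]
      exact hr)) ?_
    rw [← Finset.sum_coe_sort (A (g j)) (fun c => (1 - 1 / (cdiv (m (g j) c) (γ j) : ℝ)))]
    exact (Equiv.sum_comp (A (g j)).equivFin.symm
      (fun c : A (g j) => (1 - 1 / (cdiv (m (g j) (c : k)) (γ j) : ℝ)))).symm
  choose B c hB0 hcB hcsum hwt using hwts
  obtain ⟨T, hT⟩ : ∃ T, T = ∏ j, B j := ⟨_, rfl⟩
  have hTpos : 0 < T := by
    rw [hT]
    exact Finset.prod_pos fun j _ => hB0 j
  have hdvd : ∀ j, ∃ b, T = B j * b := fun j => by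
    rw [hT]
    exact Finset.dvd_prod_of_mem _ (Finset.mem_univ j)
  choose b hb using hdvd
  have hb0 : ∀ j, 0 < b j := fun j => by
    rcases Nat.eq_zero_or_pos (b j) with h | h
    · have := hb j
      rw [h, mul_zero] at this
      omega
    · exact h
  have hxc : ∀ j (y : k), x j ≠ algebraMap k E y := by
    intro j y h
    have h1 := hx.1.transcendental j
    rw [h] at h1
    exact h1 (isAlgebraic_algebraMap y)
  refine gt_galois (L := L) htr (fun j => algebraMap E L (x j)) hbas a hainj T hTpos
    (fun j i => c j i * b j) (fun j i => ?_) (fun j => ?_) _ (fun P hPd hPB j i => ?_)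
  · rw [hb j]
    exact Nat.mul_le_mul_right _ (hcB j i)
  · rw [hmp, ← Finset.sum_mul]
    calc 2 * (minpoly K (x j)).natDegree * T
        = 2 * (minpoly K (x j)).natDegree * B j * b j := by rw [hb j]; ring
      _ < _ := Nat.mul_lt_mul_of_pos_right (hcsum j) (hb0 j)
  · rw [hmp]
    have hmQ : ∀ (Q : Place k E) (e : ℕ), Over Q P e →
        0 < Q.ord (x j - algebraMap k E (a j i)) →
        m (g j) (a j i) ≠ 0 ∧ (m (g j) (a j i) : ℤ) ≤ Q.ord (x j - algebraMap k E (a j i)) := by
      intro Q e hQP hQ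
      have h2 := hmult P hPd hPB Q e hQP (g j) (a j i) (haA j i) (by rw [hg]; exact hxc j _)
      rw [hg] at h2
      exact h2 hQ
    by_cases hm0 : m (g j) (a j i) = 0
    · -- no contact at all
      left
      have h1 := contact (K := K) P (hxc j (a j i))
        (m := (Module.finrank K E * (ct P (minpoly K (x j)) (a j i)).toNat + 1 : ℤ))
        (fun Q e hQP hQ => absurd hm0 (hmQ Q e hQP hQ).1)
      rcases h1 with h1 | h1
      · exact h1
      · exfalso
        have hct : 0 ≤ ct P (minpoly K (x j)) (a j i) := ct_nonneg P (minpoly_eval_ne (hxc j _))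
        rw [Int.toNat_of_nonneg hct] at h1
        have h2 : (1 : ℤ) ≤ (minpoly K (x j)).natDegree := by exact_mod_cast hs1 j
        nlinarith [mul_nonneg (show (0 : ℤ) ≤ Module.finrank K E by positivity) hct]
    have h1 := contact (K := K) P (hxc j (a j i)) (m := (m (g j) (a j i) : ℤ))
      (fun Q e hQP hQ => (hmQ Q e hQP hQ).2)
    rcases h1 with h1 | h1
    · exact Or.inl h1
    right
    have hct : 0 ≤ ct P (minpoly K (x j)) (a j i) := ct_nonneg P (minpoly_eval_ne (hxc j _))
    obtain ⟨u, hu⟩ := Int.eq_ofNat_of_zero_le hct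
    rw [hu] at h1 ⊢
    have h3 : m (g j) (a j i) * (minpoly K (x j)).natDegree ≤ Module.finrank K E * u := by
      exact_mod_cast h1
    have h4 := hwt j i (by have := cdiv_pos (hγ1 j) (Nat.one_le_iff_ne_zero.2 hm0); omega) u (by
      refine cdiv_le (hγ1 j) ?_
      rw [← hγ j] at h3
      refine Nat.le_of_mul_le_mul_right (c := (minpoly K (x j)).natDegree) ?_ (hs1 j)
      calc m (g j) (a j i) * (minpoly K (x j)).natDegree
          ≤ (minpoly K (x j)).natDegree * γ j * u := h3
        _ = γ j * u * (minpoly K (x j)).natDegree := by ring)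
    have h5 := Nat.mul_le_mul_right (b j) h4
    have h6 : (T : ℤ) = B j * b j := by exact_mod_cast hb j
    have h7 : ((B j : ℤ) + c j i * u) * b j ≤ B j * u * b j := by exact_mod_cast h5
    push_cast
    rw [h6]
    linarith

/-- **General type.** The multiplicity `0` stands for infinity. -/
theorem gt_field_log [FiniteDimensional K E] {r w : ℕ} (hr : Module.finrank K E ≤ r)
    (htr : Algebra.trdeg k K = w) {n : ℕ} (τ : Fin n → E)
    (halg : Algebra.IsAlgebraic (Algebra.adjoin k (Set.range τ)) E)
    (A : Fin n → Finset k) (m : Fin n → k → ℕ)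
    (hsum : ∀ p, ∀ g s : ℕ, 1 ≤ g → 1 ≤ s → g * s ≤ r →
      2 * (s : ℝ) < ∑ c ∈ A p, (1 - 1 / (cdiv (m p c) g : ℝ))) (Bd : Place k K → Prop)
    (hmult : ∀ P : Place k K, Divisorial w P → ¬ Bd P → ∀ (Q : Place k E) (e : ℕ), Over Q P e →
      ∀ p, ∀ c ∈ A p, τ p ≠ algebraMap k E c → 0 < Q.ord (τ p - algebraMap k E c) →
        m p c ≠ 0 ∧ (m p c : ℤ) ≤ Q.ord (τ p - algebraMap k E c)) :
    LogGeneralType k K w Bd := by
  have hF : CharZero K := charZero_of_injective_algebraMap (algebraMap k K).injective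
  let L := AlgebraicClosure E
  have h1 : IsScalarTower K E L := inferInstance
  have h2 : IsScalarTower k E L := inferInstance
  have h3 : IsScalarTower k K L := IsScalarTower.of_algebraMap_eq fun x => by
    rw [IsScalarTower.algebraMap_apply k E L, IsScalarTower.algebraMap_apply K E L,
      IsScalarTower.algebraMap_apply k K E]
  have hLF : Algebra.IsAlgebraic K L := by
    have : Algebra.IsAlgebraic K E := inferInstance
    have : Algebra.IsAlgebraic E L := inferInstance
    exact Algebra.IsAlgebraic.trans K E L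
  have hLn : Normal K L := by
    have : IsAlgClosure K L := ⟨inferInstance, hLF⟩
    exact IsAlgClosure.normal K L
  let M := IntermediateField.normalClosure K E L
  have hMn : Normal K M := inferInstance
  have hMf : FiniteDimensional K M := inferInstance
  have hMg : IsGalois K M := ⟨⟩
  have h4 : IsScalarTower k K M := inferInstance
  have h5 : IsScalarTower K E M := inferInstance
  have h6 : IsScalarTower k E M := IsScalarTower.of_algebraMap_eq fun x => by
    rw [IsScalarTower.algebraMap_apply k K M, IsScalarTower.algebraMap_apply K E M,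
      IsScalarTower.algebraMap_apply k K E]
  exact gt_galois_of (L := M) hr htr τ halg A m hsum Bd hmult

/-- **General type.** -/
theorem gt_field [FiniteDimensional K E] {r w : ℕ} (hr : Module.finrank K E ≤ r)
    (htr : Algebra.trdeg k K = w) {n : ℕ} (τ : Fin n → E)
    (halg : Algebra.IsAlgebraic (Algebra.adjoin k (Set.range τ)) E)
    (A : Fin n → Finset k) (m : Fin n → k → ℕ) (hw : ∀ p, Wide r (A p) (m p))
    (hmult : ∀ p, ∀ c ∈ A p, ∀ Q : Place k E, τ p ≠ algebraMap k E c →
      0 < Q.ord (τ p - algebraMap k E c) → (m p c : ℤ) ≤ Q.ord (τ p - algebraMap k E c)) :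
    GeneralType k K w :=
  general_of_log (gt_field_log hr htr τ halg A m (fun p => (hw p).2) (fun _ => False)
    fun _ _ _ Q _ _ p c hc h1 h2 => ⟨by have := (hw p).1 c hc; omega, hmult p c hc Q h1 h2⟩)

end

end Pool.Agent.K4H65.DM
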