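import Pool.Agent.K4H65.DM.Spec
import Pool.Agent.K4H65.DM.Brody
import Pool.Agent.K4H65.DM.GtField

/-!
Varieties dominated by varieties over a closed subset of `P^N × P^1 × ... × P^1` with multiple
fibres.
-/

set_option autoImplicit false
set_option linter.overlappingInstances false
set_option linter.unusedSectionVars false

open FF IntermediateField

namespace Pool.Agent.K4H65.DM

open Pool.Agent.W602.GT Pool.Agent.TH466.QG Pool.Agent.TH143.EL
open Pool.Agent.Y221.BD (EntireCurve PseudoBrody)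

section

variable {k : Type} [Field k] {N n r : ℕ}

/-- sums over finite sets of points -/
theorem sum_equivFin (S : Finset k) (f : k → ℝ) :
    ∑ c ∈ S, f c = ∑ i, f ((S.equivFin.symm i : k)) := by
  rw [← Finset.sum_coe_sort S f]
  exact (Equiv.sum_comp S.equivFin.symm (fun c : S => f c)).symm

theorem coords_cons_eq {k K' : Type} [Field k] [Field K'] [Algebra k K'] {n : ℕ}
    (t : Fin n → K') : coords k (Fin.cons 1 t : Fin (n + 1) → K') =
      IntermediateField.adjoin k (Set.range t) := by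
  apply le_antisymm
  · unfold Pool.Agent.W602.GT.coords
    rw [IntermediateField.adjoin_le_iff]
    have hc : ∀ i, (Fin.cons 1 t : Fin (n + 1) → K') i ∈
        IntermediateField.adjoin k (Set.range t) := by
      intro i
      refine Fin.cases ?_ (fun p => ?_) i
      · exact (IntermediateField.adjoin k (Set.range t)).one_mem
      · exact IntermediateField.subset_adjoin k _ ⟨p, rfl⟩
    rintro _ ⟨i, j, hj, rfl⟩
    exact (IntermediateField.adjoin k (Set.range t)).div_mem (hc i) (hc j)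
  · rw [IntermediateField.adjoin_le_iff]
    rintro _ ⟨p, rfl⟩
    refine IntermediateField.subset_adjoin k _ ⟨p.succ, 0, ?_, ?_⟩
    · rw [Fin.cons_zero]
      exact one_ne_zero
    · rw [Fin.cons_zero, Fin.cons_succ, div_one]

/-- **Entire curves.** -/
theorem brody_dm {V : ProdSet ℂ N n} {R : MPoly ℂ N n} {A : Fin n → Finset ℂ}
    {m : Fin n → ℂ → ℕ} (hRh : MHom R) (hV : MultipleFibres V R A m)
    (hwide : ∀ p, Wide r (A p) (m p))
    {K' L : Type} [Field K'] [Field L] [Algebra ℂ K'] [Algebra ℂ L] [Algebra L K']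
    [IsScalarTower ℂ L K'] [FiniteDimensional L K'] (hr : Module.finrank L K' ≤ r)
    {a : Fin (N + 1) → K'} {b : Fin n → Fin 2 → K'} (hab : V.Mem a b)
    (hR : MvPolynomial.aeval (Sum.elim a fun v => b v.1 v.2) R ≠ 0)
    (halg : Algebra.IsAlgebraic (IntermediateField.adjoin ℂ
      (Set.range fun p => b p 0 / b p 1)) K')
    {M : ℕ} {x : Fin (M + 1) → L} (hx : x ≠ 0) (hgen : coords ℂ x = ⊤) :
    PseudoBrody x := by
  classical
  obtain ⟨i0, hi0'⟩ := Function.ne_iff.1 hab.a_ne
  have hi0 : a i0 ≠ 0 := hi0'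
  refine brody_abs hr hx hgen (fun p => b p 0 / b p 1) halg
    (theta_finite R a b i0) ?_
  intro E _ _ _ _ _ hE S hSΘ t' ht' p
  refine algebroid_const hE (a := fun i => ((A p).equivFin.symm i : ℂ))
    (fun i i' h => (A p).equivFin.symm.injective (Subtype.ext h))
    (m := fun i => m p ((A p).equivFin.symm i : ℂ))
    (fun i => (hwide p).1 _ ((A p).equivFin.symm i).2) (fun g s hg hs hgs => ?_) (t' p)
    (fun Q i h1 h2 => ?_)
  · rw [← sum_equivFin (A p) (fun c => 1 - 1 / (cdiv (m p c) g : ℝ))]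
    exact (hwide p).2 g s hg hs hgs
  · exact spec_mult hRh hV hab hR hi0 S hSΘ ht' p ((A p).equivFin.symm i).2 Q h1 h2

variable [CharZero k] [IsAlgClosed k] {V : ProdSet k N n} {R : MPoly k N n}
  {A : Fin n → Finset k} {m : Fin n → k → ℕ}
  (hRh : MHom R) (hV : MultipleFibres V R A m) (hwide : ∀ p, Wide r (A p) (m p))
  {K' L : Type} [Field K'] [Field L] [Algebra k K'] [Algebra k L] [Algebra L K']
  [IsScalarTower k L K'] [FiniteDimensional L K'] (hr : Module.finrank L K' ≤ r)
  {a : Fin (N + 1) → K'} {b : Fin n → Fin 2 → K'} (hab : V.Mem a b)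
  (hR : MvPolynomial.aeval (Sum.elim a fun v => b v.1 v.2) R ≠ 0)
  (halg : Algebra.IsAlgebraic (IntermediateField.adjoin k
    (Set.range fun p => b p 0 / b p 1)) K')

/-- the identity, as a specialization -/
def Sp.idt (k K' : Type) [Field k] [Field K'] [Algebra k K'] : Sp k K' K' where
  T := fun x y => x = y
  add := by
    rintro x y _ _ rfl rfl
    rfl
  mul := by
    rintro x y _ _ rfl rfl
    rfl
  const := fun c => rfl
  uniq := fun h => h.symm

include hRh hV hwide hr hab hR halg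

/-- **General type.** -/
theorem gt_dm {w : ℕ} (htr : Algebra.trdeg k L = w) : GeneralType k L w := by
  classical
  obtain ⟨i0, hi0'⟩ := Function.ne_iff.1 hab.a_ne
  have hi0 : a i0 ≠ 0 := hi0'
  refine gt_field (K := L) (E := K') hr htr (fun p => b p 0 / b p 1) (alg_adjoin halg) A m
    hwide (fun p c hc Q h1 h2 => ?_)
  exact spec_mult hRh hV hab hR hi0 (Sp.idt k K') (fun ϑ _ => ⟨_, rfl⟩) (fun p => rfl) p hc Q
    h1 h2

/-- **Subvarieties.** -/
theorem strong_dm {M : ℕ} {x : Fin (M + 1) → L} (hx : x ≠ 0) (hgen : coords k x = ⊤) :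
    StronglyGeneral k x := by
  classical
  obtain ⟨i1, hi1'⟩ := Function.ne_iff.1 hx
  have hi1 : x i1 ≠ 0 := hi1'
  obtain ⟨i0, hi0'⟩ := Function.ne_iff.1 hab.a_ne
  have hi0 : a i0 ≠ 0 := hi0'
  obtain ⟨t, ht⟩ : ∃ t : Fin n → K', t = fun p => b p 0 / b p 1 := ⟨_, rfl⟩
  rw [← ht] at halg
  let K := IntermediateField.adjoin k (Set.range t)
  let y : Fin (n + 1) → K :=
    Fin.cons 1 (fun p => (⟨t p, IntermediateField.subset_adjoin k _ ⟨p, rfl⟩⟩ : K))
  have hygen : coords k y = ⊤ := coords_cons t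
  have hy0 : y 0 ≠ 0 := by
    change (1 : K) ≠ 0
    exact one_ne_zero
  obtain ⟨Θ2, hΘ2, halgs⟩ := alg_spec (K' := K') hygen hy0
    (fun m => algebraMap L K' (x m / x i1))
  obtain ⟨H, hH, hspread⟩ := spread (K' := K') (adjoin_norm hgen hi1)
    (Θ := theta R a b i0 ∪ (algebraMap K K' '' Θ2 ∪ Set.range t))
    ((theta_finite R a b i0).union ((hΘ2.image _).union (Set.finite_range t)))
  refine ⟨MvPolynomial.X i1 * hz i1 H, ?_, ?_, ?_⟩
  · obtain ⟨d, hd⟩ := hz_form i1 H
    exact ⟨1 + d, (MvPolynomial.isHomogeneous_X k i1).mul hd⟩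
  · change MvPolynomial.aeval x _ ≠ 0
    rw [map_mul, MvPolynomial.aeval_X]
    refine mul_ne_zero hi1 ?_
    change val x _ ≠ 0
    rw [val_hz H hi1]
    exact mul_ne_zero (pow_ne_zero _ hi1) hH
  intro E _ _ w' z hz hzR hw1 htr
  change MvPolynomial.aeval z _ ≠ 0 at hzR
  rw [map_mul, MvPolynomial.aeval_X] at hzR
  have hz1 : z i1 ≠ 0 := left_ne_zero_of_mul hzR
  have hzH : MvPolynomial.aeval (fun i => z i / z i1) H ≠ 0 := by
    have h1 : val z (Pool.Agent.TH466.QG.hz i1 H) ≠ 0 := right_ne_zero_of_mul hzR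
    rw [val_hz H hz1] at h1
    exact right_ne_zero_of_mul h1
  have hsp : ∀ G : MvPolynomial (Fin (M + 1)) k,
      MvPolynomial.aeval (fun i => x i / x i1) G = 0 →
      MvPolynomial.aeval (fun i => z i / z i1) G = 0 := by
    intro G hG
    have h1 : val x (Pool.Agent.TH466.QG.hz i1 G) = 0 := by
      rw [val_hz G hi1, hG, mul_zero]
    have h2 := hz.spec _ (hz_form i1 G) h1
    rw [val_hz G hz1] at h2
    exact (mul_eq_zero.1 h2).resolve_left (pow_ne_zero _ hz1)
  obtain ⟨K'', i1', i2', i3', i4', i5', hrk, S, hSx, hSΘ⟩ := hspread E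
    (fun i => z i / z i1) hsp hzH
  have hSt : ∀ p, ∃ u, S.T (t p) u := fun p => hSΘ _ (Or.inr (Or.inr ⟨p, rfl⟩))
  choose t' ht' using hSt
  let y' : Fin (n + 1) → K'' := Fin.cons 1 t'
  have hyS : ∀ i, S.T (algebraMap K K' (y i)) (y' i) := by
    intro i
    refine Fin.cases ?_ (fun p => ?_) i
    · change S.T (algebraMap K K' 1) 1
      rw [map_one]
      exact S.one
    · exact ht' p
  have halg1 : Algebra.IsAlgebraic (coords k y') K'' := by
    refine alg_over (adjoin_norm hz.gen hz1) _ fun m => ?_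
    exact halgs K'' S (fun ϑ hϑ => hSΘ _ (Or.inr (Or.inl ⟨ϑ, hϑ, rfl⟩))) y' hyS
      (fun m => algebraMap E K'' (z m / z i1)) hSx m
  have halg2 : Algebra.IsAlgebraic (IntermediateField.adjoin k (Set.range t')) K'' := by
    rw [← coords_cons_eq t']
    exact halg1
  refine gt_field (K := E) (E := K'') (hrk.trans hr) htr t' (alg_adjoin halg2) A m
    hwide (fun p c hc Q h1 h2 => ?_)
  refine spec_mult hRh hV hab hR hi0 S (fun ϑ hϑ => hSΘ _ (Or.inl hϑ)) (fun p => ?_) p hc Q h1 h2
  have h3 := ht' p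
  rw [ht] at h3
  exact h3

end

end Pool.Agent.K4H65.DM
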