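import Pool.Agent.K4H65.DM.BogField
import Pool.Agent.K4H65.DM.Main
import Pool.Agent.K4H65.DM.CampDefs

/-!
Varieties dominated by varieties with multiple fibres are neither special nor Brody-special.
-/

set_option autoImplicit false
set_option linter.overlappingInstances false
set_option linter.unusedSectionVars false

open FF IntermediateField TensorProduct Filter

namespace Pool.Agent.K4H65.DM

open Pool.Agent.W602.GT Pool.Agent.TH466.QG Pool.Agent.TH143.EL

/-- a field which contains an extension and a field of values -/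
theorem exists_comp {k L K' F : Type} [Field k] [Field L] [Field K'] [Field F] [Algebra k L]
    [Algebra k K'] [Algebra L K'] [IsScalarTower k L K'] [FiniteDimensional L K'] [Algebra k F]
    (φ : L →ₐ[k] F) :
    ∃ (E : Type) (_ : Field E) (_ : Algebra F E) (_ : Algebra k E) (_ : IsScalarTower k F E)
      (_ : FiniteDimensional F E) (_ : K' →ₐ[k] E), Module.finrank F E ≤ Module.finrank L K' := by
  let iLF : Algebra L F := φ.toRingHom.toAlgebra
  have hLF : ∀ y : L, algebraMap L F y = φ y := fun y => rfl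
  have hT : Nontrivial (F ⊗[L] K') := inferInstance
  obtain ⟨E, i1, π, hπ⟩ : ∃ (E : Type) (_ : Field E) (π : (F ⊗[L] K') →+* E),
      Function.Surjective π := by
    obtain ⟨m, hm⟩ := Ideal.exists_maximal (F ⊗[L] K')
    exact ⟨(F ⊗[L] K') ⧸ m, Ideal.Quotient.field m, Ideal.Quotient.mk m,
      Ideal.Quotient.mk_surjective⟩
  let i2 : Algebra F E := (π.comp (algebraMap F (F ⊗[L] K'))).toAlgebra
  let i3 : Algebra k E := ((algebraMap F E).comp (algebraMap k F)).toAlgebra
  have i4 : IsScalarTower k F E := IsScalarTower.of_algebraMap_eq fun _ => rfl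
  let q : (F ⊗[L] K') →ₗ[F] E :=
    { toFun := fun x => π x
      map_add' := fun x y => map_add _ _ _
      map_smul' := fun c x => by
        rw [Algebra.smul_def, map_mul, RingHom.id_apply, Algebra.smul_def]
        rfl }
  have hq : Function.Surjective q := hπ
  have hfin : FiniteDimensional F (F ⊗[L] K') := inferInstance
  have i5 : FiniteDimensional F E := Module.Finite.of_surjective q hq
  let ψ : K' →ₐ[k] E :=
    { toRingHom := π.comp
        (Algebra.TensorProduct.includeRight : K' →ₐ[L] (F ⊗[L] K')).toRingHom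
      commutes' := fun c => by
        change π ((1 : F) ⊗ₜ[L] algebraMap k K' c) =
          π (algebraMap F (F ⊗[L] K') (algebraMap k F c))
        congr 1
        rw [IsScalarTower.algebraMap_apply k L K', Algebra.TensorProduct.algebraMap_apply,
          Algebra.algebraMap_self, RingHom.id_apply, ← φ.commutes c, ← hLF,
          Algebra.algebraMap_eq_smul_one (R := L) (A := K'), TensorProduct.tmul_smul,
          TensorProduct.smul_tmul', Algebra.algebraMap_eq_smul_one (R := L) (A := F)] }
  refine ⟨E, i1, i2, i3, i4, i5, ψ, ?_⟩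
  rw [← Module.finrank_baseChange (R := F) (S := L) (M' := K')]
  exact LinearMap.finrank_le_finrank_of_surjective hq

/-- the function field of a variety with a dense point over a field -/
theorem hom_of_dense {k L F : Type} [Field k] [Field L] [Field F] [Algebra k L] [Algebra k F]
    {M : ℕ} {x : Fin (M + 1) → L} (hx : x ≠ 0) (hgen : coords k x = ⊤) {z : Fin (M + 1) → F}
    (h : ∀ G : MvPolynomial (Fin (M + 1)) k, IsForm G → (val z G = 0 ↔ val x G = 0)) :
    Nonempty (L →ₐ[k] F) := by
  classical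
  obtain ⟨i1, hi1'⟩ := Function.ne_iff.1 hx
  have hi1 : x i1 ≠ 0 := hi1'
  have hz1 : z i1 ≠ 0 := by
    intro h0
    apply hi1
    have h1 := (h (MvPolynomial.X i1) ⟨1, MvPolynomial.isHomogeneous_X k i1⟩).1 (by
      unfold Pool.Agent.W602.GT.val
      rw [MvPolynomial.aeval_X, h0])
    unfold Pool.Agent.W602.GT.val at h1
    rwa [MvPolynomial.aeval_X] at h1
  obtain ⟨f1, hf1⟩ : ∃ f1 : MvPolynomial (Fin (M + 1)) k →ₐ[k] L,
      f1 = MvPolynomial.aeval (fun i => x i / x i1) := ⟨_, rfl⟩
  obtain ⟨f2, hf2⟩ : ∃ f2 : MvPolynomial (Fin (M + 1)) k →ₐ[k] F,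
      f2 = MvPolynomial.aeval (fun i => z i / z i1) := ⟨_, rfl⟩
  have hker : ∀ G, f2 G = 0 ↔ f1 G = 0 := by
    intro G
    have h1 := h _ (hz_form i1 G)
    rw [val_hz G hi1, val_hz G hz1] at h1
    rw [hf1, hf2]
    constructor
    · intro h2
      exact (mul_eq_zero.1 (h1.1 (by rw [h2, mul_zero]))).resolve_left (pow_ne_zero _ hi1)
    · intro h2
      exact (mul_eq_zero.1 (h1.2 (by rw [h2, mul_zero]))).resolve_left (pow_ne_zero _ hz1)
  have hwd : ∀ G G', f1 G = f1 G' → f2 G = f2 G' := by
    intro G G' hGG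
    rw [← sub_eq_zero, ← map_sub, hker, map_sub, sub_eq_zero]
    exact hGG
  have hch : ∀ a : f1.range, ∃ G, f1 G = a := fun a => a.2
  choose γ hγ using hch
  let g : f1.range →ₐ[k] F :=
    { toFun := fun a => f2 (γ a)
      map_one' := by
        rw [← map_one f2]
        exact hwd _ _ (by rw [hγ, map_one]; rfl)
      map_mul' := fun a b => by
        rw [← map_mul f2]
        exact hwd _ _ (by rw [hγ, map_mul, hγ, hγ]; rfl)
      map_zero' := by
        rw [← map_zero f2]
        exact hwd _ _ (by rw [hγ, map_zero]; rfl)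
      map_add' := fun a b => by
        rw [← map_add f2]
        exact hwd _ _ (by rw [hγ, map_add, hγ, hγ]; rfl)
      commutes' := fun c => by
        rw [← f2.commutes c]
        exact hwd _ _ (by rw [hγ, f1.commutes]; rfl) }
  have hg : Function.Injective g := by
    rw [injective_iff_map_eq_zero]
    intro a ha
    have h1 : f2 (γ a) = 0 := ha
    rw [hker, hγ] at h1
    exact Subtype.ext h1
  have hrange : f1.range = Algebra.adjoin k (Set.range fun i => x i / x i1) := by
    rw [hf1, Algebra.adjoin_range_eq_range_aeval]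
  have : IsFractionRing f1.range L := IsFractionRing.of_field _ _ fun y => by
    have h1 : y ∈ IntermediateField.adjoin k (Set.range fun i => x i / x i1) := by
      rw [adjoin_norm hgen hi1]
      exact IntermediateField.mem_top
    obtain ⟨a, ha, b, hb, hab⟩ := IntermediateField.mem_adjoin_iff_div.1 h1
    rw [← hrange] at ha hb
    exact ⟨⟨a, ha⟩, ⟨b, hb⟩, hab⟩
  exact ⟨IsFractionRing.liftAlgHom hg⟩

/-- the point over the field of meromorphic functions of a dense entire curve -/
theorem BrodyDense.point {M : ℕ} {L : Type} [Field L] [Algebra ℂ L] {x : Fin (M + 1) → L}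
    (h : BrodyDense x) : ∃ z : Fin (M + 1) → MK,
      ∀ G : MvPolynomial (Fin (M + 1)) ℂ, IsForm G → (val z G = 0 ↔ val x G = 0) := by
  obtain ⟨f0, hhol0, hne, hG⟩ := h
  obtain ⟨f, hf⟩ : ∃ f : Fin (M + 1) → ℂ → ℂ, ∀ i t, f i t = f0 t i := ⟨_, fun _ _ => rfl⟩
  have hff : ∀ t, (fun i => f i t) = f0 t := fun t => funext fun i => hf i t
  have hhol : ∀ i, Differentiable ℂ (f i) := by
    intro i
    have : f i = fun t => f0 t i := funext (hf i)
    rw [this]
    exact hhol0 i
  have hmer : ∀ i, Meromorphic (f i) := fun i t =>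
    ((hhol i).analyticAt t).meromorphicAt
  obtain ⟨z, hzdef⟩ : ∃ z : Fin (M + 1) → MK, z = fun i => cl (f i) (hmer i) := ⟨_, rfl⟩
  have hcont : ∀ T : MvPolynomial (Fin (M + 1)) ℂ,
      Continuous fun t => MvPolynomial.eval (fun i => f i t) T := fun T =>
    (MvPolynomial.continuous_eval T).comp (continuous_pi fun i => (hhol i).continuous)
  have hvz : ∀ T : MvPolynomial (Fin (M + 1)) ℂ, val z T = 0 ↔ ∀ t, val (f0 t) T = 0 := by
    intro T
    rw [hzdef, val_cl hmer T, cl_eq_zero]
    have h1 : ∀ t, MvPolynomial.eval (fun i => f i t) T = val (f0 t) T := by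
      intro t
      rw [hff]
      unfold Pool.Agent.W602.GT.val
      rw [MvPolynomial.aeval_eq_eval]
    constructor
    · intro h t
      rw [← h1]
      exact eq_of_codis (g := fun _ => 0) h (hcont T).continuousAt continuousAt_const
    · intro h
      exact Eventually.of_forall fun t => (h1 t).trans (h t)
  exact ⟨z, fun G hGf => (hvz G).trans (hG G hGf)⟩

section

variable {N n r : ℕ} {V : ProdSet ℂ N n} {R : MPoly ℂ N n}
  {A : Fin n → Finset ℂ} {m : Fin n → ℂ → ℕ}
  (hRh : MHom R) (hV : MultipleFibres V R A m) (hwide : ∀ p, Wide r (A p) (m p))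
  {K' L : Type} [Field K'] [Field L] [Algebra ℂ K'] [Algebra ℂ L] [Algebra L K']
  [IsScalarTower ℂ L K'] [FiniteDimensional L K'] (hr : Module.finrank L K' ≤ r)
  {a : Fin (N + 1) → K'} {b : Fin n → Fin 2 → K'} (hab : V.Mem a b)
  (hR : MvPolynomial.aeval (Sum.elim a fun v => b v.1 v.2) R ≠ 0)
  (hb : ∃ p, Transcendental ℂ (b p 0 / b p 1))

include hRh hV hwide hr hab hR hb

/-- **Not special.** -/
theorem not_special_dm {w : ℕ} : ¬ Special ℂ L w (fun _ => False) := by
  classical
  obtain ⟨i0, hi0'⟩ := Function.ne_iff.1 hab.a_ne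
  have hi0 : a i0 ≠ 0 := hi0'
  refine bog_field (K := L) (E := K') hr (fun p => b p 0 / b p 1) hb A m
    hwide (fun p c hc Q h1 h2 => ?_)
  exact spec_mult hRh hV hab hR hi0 (Sp.idt ℂ K') (fun ϑ _ => ⟨_, rfl⟩) (fun p => rfl) p hc Q
    h1 h2

/-- **Not Brody-special.** -/
theorem not_brody_dm {M : ℕ} {x : Fin (M + 1) → L} (hx : x ≠ 0) (hgen : coords ℂ x = ⊤) :
    ¬ BrodyDense x := by
  classical
  intro hd
  obtain ⟨z, hz⟩ := hd.point
  obtain ⟨φ⟩ := hom_of_dense hx hgen hz
  obtain ⟨E, i1, i2, i3, i4, i5, ψ, hrk⟩ := exists_comp (K' := K') φ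
  obtain ⟨i0, hi0'⟩ := Function.ne_iff.1 hab.a_ne
  have hi0 : a i0 ≠ 0 := hi0'
  let S : Sp ℂ K' E :=
    { T := fun x y => ψ x = y
      add := by
        rintro x y _ _ rfl rfl
        exact map_add _ _ _
      mul := by
        rintro x y _ _ rfl rfl
        exact map_mul _ _ _
      const := fun c => ψ.commutes c
      uniq := fun h => by rw [← h, map_zero] }
  obtain ⟨p, hp⟩ := hb
  have hcst : ∃ c : ℂ, ψ (b p 0 / b p 1) = algebraMap ℂ E c := by
    refine algebroid_const (hrk.trans hr) (a := fun i => ((A p).equivFin.symm i : ℂ))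
      (fun i i' h => (A p).equivFin.symm.injective (Subtype.ext h))
      (m := fun i => m p ((A p).equivFin.symm i : ℂ))
      (fun i => (hwide p).1 _ ((A p).equivFin.symm i).2) (fun g s hg hs hgs => ?_) _
      (fun Q i h1 h2 => ?_)
    · rw [← sum_equivFin (A p) (fun c => 1 - 1 / (cdiv (m p c) g : ℝ))]
      exact (hwide p).2 g s hg hs hgs
    · exact spec_mult hRh hV hab hR hi0 S (fun ϑ _ => ⟨_, rfl⟩)
        (t' := fun p => ψ (b p 0 / b p 1)) (fun p => rfl) p ((A p).equivFin.symm i).2 Q h1 h2
  obtain ⟨c, hc⟩ := hcst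
  have h1 : b p 0 / b p 1 = algebraMap ℂ K' c := ψ.toRingHom.injective (by
    change ψ _ = ψ _
    rw [hc, ψ.commutes])
  rw [h1] at hp
  exact hp (isAlgebraic_algebraMap c)

end

end Pool.Agent.K4H65.DM
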