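import Pool.Agent.K4H65.DM.FinMain
import Pool.Agent.TH182.TC.Core

/-!
Entire curves in the images of finite morphisms from varieties with multiple fibres lie in the
images of the fibres.
-/

set_option autoImplicit false
set_option linter.overlappingInstances false
set_option linter.unusedSectionVars false

open FF IntermediateField Filter

namespace Pool.Agent.K4H65.DM

open Pool.Agent.W602.GT Pool.Agent.Y221.FQ Pool.Agent.TH143.EL Pool.Agent.TH466.QG

variable {m M n : ℕ} {κ μ : Type} {Ψ : κ → MvPolynomial (Fin (m + 1)) ℂ}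
  {Φ : μ → MvPolynomial (Fin (M + 1)) ℂ} {G : Fin (M + 1) → MvPolynomial (Fin (m + 1)) ℂ}

/-- the equations of a fibre -/
noncomputable def fibEq (b : Fin n → LineMap Ψ) (q : Fin n → Fin 2 → ℂ) :
    κ ⊕ (Σ p, (b p).pairs) → MvPolynomial (Fin (m + 1)) ℂ :=
  Sum.elim Ψ fun a => MvPolynomial.C (q a.1 0) * a.2.1.2 - MvPolynomial.C (q a.1 1) * a.2.1.1

theorem fibEq_form (hΨ : ∀ e, IsForm (Ψ e)) (b : Fin n → LineMap Ψ) (q : Fin n → Fin 2 → ℂ) (e) :
    IsForm (fibEq b q e) := by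
  rcases e with e | ⟨p, h, hh⟩
  · exact hΨ e
  · obtain ⟨d, h1, h2⟩ := (b p).form h hh
    refine ⟨d, ?_⟩
    have h3 := (MvPolynomial.isHomogeneous_C (Fin (m + 1)) (q p 0)).mul h2
    have h4 := (MvPolynomial.isHomogeneous_C (Fin (m + 1)) (q p 1)).mul h1
    rw [zero_add] at h3 h4
    exact h3.sub h4

theorem val_fibEq {E : Type} [Field E] [Algebra ℂ E] (b : Fin n → LineMap Ψ)
    (q : Fin n → Fin 2 → ℂ) (p : Fin n) (h : (b p).pairs) (u : Fin (m + 1) → E) :
    val u (fibEq b q (Sum.inr ⟨p, h⟩)) =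
      algebraMap ℂ E (q p 0) * val u h.1.2 - algebraMap ℂ E (q p 1) * val u h.1.1 := by
  unfold fibEq Pool.Agent.W602.GT.val
  rw [Sum.elim_inr, map_sub, map_mul, map_mul, MvPolynomial.aeval_C, MvPolynomial.aeval_C]

theorem mem_fibEq {b : Fin n → LineMap Ψ} {q : Fin n → Fin 2 → ℂ} (hq : ∀ p, q p ≠ 0)
    {x : Fin (m + 1) → ℂ} : x ∈ Cone (fibEq b q) ↔ x ∈ Cone Ψ ∧ ∀ p, (b p).At x (q p) := by
  constructor
  · rintro ⟨h0, h⟩
    refine ⟨⟨h0, fun e => h (Sum.inl e)⟩, fun p => ⟨hq p, fun h' hh' => ?_⟩⟩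
    have h1 := h (Sum.inr ⟨p, h', hh'⟩)
    rw [val_fibEq, sub_eq_zero] at h1
    exact h1
  · rintro ⟨⟨h0, h⟩, h2⟩
    refine ⟨h0, ?_⟩
    rintro (e | ⟨p, h', hh'⟩)
    · exact h e
    · rw [val_fibEq, sub_eq_zero]
      exact (h2 p).eq h' hh'

/-- **The images of the fibres are closed.** -/
theorem closed_fibre (hΨ : ∀ e, IsForm (Ψ e)) (hG : Mor Ψ Φ G) {b : Fin n → LineMap Ψ}
    {q : Fin n → Fin 2 → ℂ} {z : Fin (M + 1) → ℂ} (hz : z ∈ Cone (fibreImage G b q)) :
    ∃ x ∈ Cone Ψ, (∀ p, (b p).At x (q p)) ∧ im G x = z := by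
  obtain ⟨e, he, hGe⟩ := hG.form
  by_cases hq : ∀ p, q p ≠ 0
  · obtain ⟨x, hx, hxz⟩ := surj (F := fibEq b q) (G := G) (fibEq_form hΨ b q)
      (fun x hx0 hx => hG.noBase x hx0 fun a => hx (Sum.inl a)) he hGe (Ω := ℂ) (z := z)
      (fun H hHf hH' => hz.2 ⟨H, hHf, fun x hx hbx => hH' x ((mem_fibEq hq).2 ⟨hx, hbx⟩)⟩)
    have hx0 : x ≠ 0 := by
      rintro rfl
      apply hz.1
      rw [← hxz]
      have h2 : (0 : Fin (m + 1) → ℂ) = fun i => (0 : ℂ) * (0 : Fin (m + 1) → ℂ) i := by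
        funext i
        simp
      rw [h2, im_smul hGe, zero_pow (by omega)]
      funext j
      simp
    obtain ⟨h1, h2⟩ := (mem_fibEq hq).1 ⟨hx0, hx⟩
    exact ⟨x, h1, h2, hxz⟩
  · exfalso
    push Not at hq
    obtain ⟨p, hp⟩ := hq
    have h1 := hz.2 ⟨1, ⟨0, MvPolynomial.isHomogeneous_one _ _⟩, fun x _ h =>
      absurd hp (h p).ne⟩
    have h2 : val z (1 : MvPolynomial (Fin (M + 1)) ℂ) = 1 := map_one _
    change val z (1 : MvPolynomial (Fin (M + 1)) ℂ) = 0 at h1
    rw [h2] at h1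
    exact one_ne_zero h1

theorem fibre_sub (hΨ : ∀ e, IsForm (Ψ e)) (hG : Mor Ψ Φ G) {b : Fin n → LineMap Ψ}
    {q : Fin n → Fin 2 → ℂ} {z : Fin (M + 1) → ℂ} (hz : z ∈ Cone (fibreImage G b q)) :
    z ∈ Cone Φ := by
  obtain ⟨x, hx, -, rfl⟩ := closed_fibre hΨ hG hz
  exact hG.maps x hx

open Pool.Agent.TH182.TC (TorusRigid OnX PS)

theorem torus_fibre (hΨ : ∀ e, IsForm (Ψ e)) (hG : Mor Ψ Φ G) {b : Fin n → LineMap Ψ}
    {q : Fin n → Fin 2 → ℂ} (h : TorusRigid Φ) : TorusRigid (fibreImage G b q) := by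
  intro d l g hg hX hper
  refine h d l g hg (fun z i => ?_) hper
  have h1 : (g z).rep ∈ Cone (fibreImage G b q) := by
    refine ⟨(g z).rep_nonzero, fun e => ?_⟩
    have h2 := hX z e
    unfold Pool.Agent.W602.GT.val
    rw [MvPolynomial.aeval_eq_eval]
    exact h2
  have h2 := (fibre_sub hΨ hG h1).2 i
  unfold Pool.Agent.W602.GT.val at h2
  rw [MvPolynomial.aeval_eq_eval] at h2
  exact h2

variable {r : ℕ} {A : Fin n → Finset ℂ} {mu : Fin n → ℂ → ℕ}

/-- **Entire curves lie in the images of the fibres.** -/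
theorem entire_fibre (hΨ : ∀ e, IsForm (Ψ e)) (hG : Mor Ψ Φ G)
    (hon : Onto Ψ Φ G) (hfib : FibresLe Ψ G r) {b : Fin n → LineMap Ψ}
    (hb : ∀ p, (b p).Multiple (A p) (mu p)) (hwide : ∀ p, Wide r (A p) (mu p))
    {f : ℂ → Fin (M + 1) → ℂ} (hf : Entire Φ f) :
    ∃ q : Fin n → Fin 2 → ℂ, Entire (fibreImage G b q) f := by
  classical
  obtain ⟨f', hf'⟩ : ∃ f' : Fin (M + 1) → ℂ → ℂ, ∀ i t, f' i t = f t i := ⟨_, fun _ _ => rfl⟩
  have hff : ∀ t, (fun i => f' i t) = f t := fun t => funext fun i => hf' i t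
  have hhol : ∀ i, Differentiable ℂ (f' i) := by
    intro i
    have : f' i = fun t => f t i := funext (hf' i)
    rw [this]
    exact hf.hol i
  have hmer : ∀ i, Meromorphic (f' i) := fun i t =>
    ((hhol i).analyticAt t).meromorphicAt
  obtain ⟨z, hzdef⟩ : ∃ z : Fin (M + 1) → MK, z = fun i => cl (f' i) (hmer i) := ⟨_, rfl⟩
  have hcont : ∀ T : MvPolynomial (Fin (M + 1)) ℂ,
      Continuous fun t => MvPolynomial.eval (fun i => f' i t) T := fun T =>
    (MvPolynomial.continuous_eval T).comp (continuous_pi fun i => (hhol i).continuous)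
  have hvz : ∀ T : MvPolynomial (Fin (M + 1)) ℂ, val z T = 0 ↔ ∀ t, val (f t) T = 0 := by
    intro T
    rw [hzdef, val_cl hmer T, cl_eq_zero]
    have h1 : ∀ t, MvPolynomial.eval (fun i => f' i t) T = val (f t) T := by
      intro t
      rw [hff]
      unfold Pool.Agent.W602.GT.val
      rw [MvPolynomial.aeval_eq_eval]
    constructor
    · intro h t
      rw [← h1]
      exact eq_of_codis (g := fun _ => 0) h (hcont T).continuousAt continuousAt_const
    · intro h
      exact Eventually.of_forall fun t => (h1 t).trans (h t)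
  have hz : z ≠ 0 := by
    intro h0
    apply (hf.mem 0).1
    funext i
    have h1 := (hvz (MvPolynomial.X i)).1 (by
      unfold Pool.Agent.W602.GT.val
      rw [MvPolynomial.aeval_X, h0]
      rfl) 0
    unfold Pool.Agent.W602.GT.val at h1
    rw [MvPolynomial.aeval_X] at h1
    exact h1
  have hzΦ : ∀ e, val z (Φ e) = 0 := fun e => (hvz _).2 fun t => (hf.mem t).2 e
  obtain ⟨E, i1, i2, i3, i4, i5, u, i0, c, hrk, hu0, huΨ, hc0, hcz, -⟩ :=
    lift_point hΨ hG hon hfib hz hzΦ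
  have hu : u ≠ 0 := by
    intro h0
    rw [h0] at hu0
    exact zero_ne_one hu0
  have hAt : ∀ p, ∃ t, (b p).At u t := fun p => exists_at (b p) hu huΨ
  choose t ht using hAt
  have hconst : ∀ p, ∃ c : ℂ, t p 0 / t p 1 = algebraMap ℂ E c := by
    intro p
    refine algebroid_const hrk (a := fun i => ((A p).equivFin.symm i : ℂ))
      (fun i i' h => (A p).equivFin.symm.injective (Subtype.ext h))
      (m := fun i => mu p ((A p).equivFin.symm i : ℂ))
      (fun i => (hwide p).1 _ ((A p).equivFin.symm i).2) (fun g s hg hs hgs => ?_) _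
      (fun Q i h1 h2 => ?_)
    · rw [← sum_equivFin (A p) (fun c => 1 - 1 / (cdiv (mu p c) g : ℝ))]
      exact (hwide p).2 g s hg hs hgs
    · exact mult_at (hb p) hu huΨ (ht p) ((A p).equivFin.symm i).2 Q h1 h2
  choose a ha using hconst
  obtain ⟨q, hqd⟩ : ∃ q : Fin n → Fin 2 → ℂ,
      q = fun p => if t p 1 = 0 then ![1, 0] else ![a p, 1] := ⟨_, rfl⟩
  have hq : ∀ p, q p ≠ 0 := by
    intro p h0
    rw [hqd] at h0
    by_cases hp : t p 1 = 0
    · have h1 := congrFun h0 0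
      simp only [hp, if_true] at h1
      simp at h1
    · have h1 := congrFun h0 1
      simp only [hp, if_false] at h1
      simp at h1
  have huq : ∀ e, val u (fibEq b q e) = 0 := by
    rintro (e | ⟨p, h, hh⟩)
    · exact huΨ e
    · rw [val_fibEq, sub_eq_zero]
      have h1 := (ht p).eq h hh
      rw [hqd]
      by_cases hp : t p 1 = 0
      · simp only [hp, if_true]
        have h2 : t p 0 ≠ 0 := by
          intro h2
          apply (ht p).ne
          funext l
          fin_cases l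
          · exact h2
          · exact hp
        rw [hp, zero_mul] at h1
        have h3 := (mul_eq_zero.1 h1).resolve_left h2
        simp [h3]
      · simp only [hp, if_false]
        have h2 := ha p
        rw [div_eq_iff hp] at h2
        simp only [Matrix.cons_val_zero, Matrix.cons_val_one, map_one, one_mul]
        have h3 : t p 1 * (algebraMap ℂ E (a p) * val u h.2) = t p 1 * val u h.1 := by
          rw [← h1, h2]
          ring
        exact mul_left_cancel₀ hp h3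
  refine ⟨q, hf.hol, fun s => ⟨(hf.mem s).1, ?_⟩, hf.nonconst⟩
  rintro ⟨H, hHf, hH⟩
  change val (f s) H = 0
  refine (hvz H).1 (val_prop hcz hHf ?_) s
  rw [val_im]
  refine van_of_cone hu huq fun x hx => ?_
  obtain ⟨h1, h2⟩ := (mem_fibEq hq).1 hx
  rw [← val_im]
  exact hH x h1 h2

end Pool.Agent.K4H65.DM
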