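import Pool.Agent.K4H65.DM.Camp
import Pool.Agent.K4H65.DM.FinTor

/-!
Special and Brody-special subvarieties of the images of finite morphisms from varieties with
multiple fibres.
-/

set_option autoImplicit false
set_option linter.overlappingInstances false
set_option linter.unusedSectionVars false

open FF IntermediateField Filter

namespace Pool.Agent.K4H65.DM

open Pool.Agent.W602.GT Pool.Agent.Y221.FQ Pool.Agent.TH143.EL Pool.Agent.TH466.QG

variable {m M n : ℕ} {κ μ : Type} {Ψ : κ → MvPolynomial (Fin (m + 1)) ℂ}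
  {Φ : μ → MvPolynomial (Fin (M + 1)) ℂ} {G : Fin (M + 1) → MvPolynomial (Fin (m + 1)) ℂ}

/-- the point is in the image of a fibre if the maps to the lines are constant -/
theorem fibre_point {b : Fin n → LineMap Ψ}
    {K E : Type} [Field K] [Field E] [Algebra ℂ K] [Algebra ℂ E] [Algebra K E]
    [IsScalarTower ℂ K E] {z : Fin (M + 1) → K} {u : Fin (m + 1) → E} (hu : u ≠ 0)
    (huΨ : ∀ e, val u (Ψ e) = 0) {c : E} (hcz : ∀ j, algebraMap K E (z j) = c * im G u j)
    {t : Fin n → Fin 2 → E} (ht : ∀ p, (b p).At u (t p))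
    (hconst : ∀ p, ∃ c : ℂ, t p 0 / t p 1 = algebraMap ℂ E c) :
    ∃ q : Fin n → Fin 2 → ℂ, ∀ e, val z (fibreImage G b q e) = 0 := by
  classical
  choose a ha using hconst
  obtain ⟨q, hqd⟩ : ∃ q : Fin n → Fin 2 → ℂ,
      q = fun p => if t p 1 = 0 then ![1, 0] else ![a p, 1] := ⟨_, rfl⟩
  have hq : ∀ p, q p ≠ 0 := by
    intro p h0
    rw [hqd] at h0
    by_cases hp : t p 1 = 0
    · have h1 := congrFun h0 0
      simp only [hp, if_true] at h1
      simp at h1
    · have h1 := congrFun h0 1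
      simp only [hp, if_false] at h1
      simp at h1
  have huq : ∀ e, val u (fibEq b q e) = 0 := by
    rintro (e | ⟨p, h, hh⟩)
    · exact huΨ e
    · rw [val_fibEq, sub_eq_zero]
      have h1 := (ht p).eq h hh
      rw [hqd]
      by_cases hp : t p 1 = 0
      · simp only [hp, if_true]
        have h2 : t p 0 ≠ 0 := by
          intro h2
          apply (ht p).ne
          funext l
          fin_cases l
          · exact h2
          · exact hp
        rw [hp, zero_mul] at h1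
        have h3 := (mul_eq_zero.1 h1).resolve_left h2
        simp [h3]
      · simp only [hp, if_false]
        have h2 := ha p
        rw [div_eq_iff hp] at h2
        simp only [Matrix.cons_val_zero, Matrix.cons_val_one, map_one, one_mul]
        have h3 : t p 1 * (algebraMap ℂ E (a p) * val u h.2) = t p 1 * val u h.1 := by
          rw [← h1, h2]
          ring
        exact mul_left_cancel₀ hp h3
  refine ⟨q, ?_⟩
  rintro ⟨H, hHf, hH⟩
  change val z H = 0
  refine val_prop hcz hHf ?_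
  rw [val_im]
  refine van_of_cone hu huq fun x hx => ?_
  obtain ⟨h1, h2⟩ := (mem_fibEq hq).1 hx
  rw [← val_im]
  exact hH x h1 h2

variable {r : ℕ} {A : Fin n → Finset ℂ} {mu : Fin n → ℂ → ℕ} (hΨ : ∀ e, IsForm (Ψ e))
  (hG : Mor Ψ Φ G) (hon : Onto Ψ Φ G) (hfib : FibresLe Ψ G r) {b : Fin n → LineMap Ψ}
  (hb : ∀ p, (b p).Multiple (A p) (mu p)) (hwide : ∀ p, Wide r (A p) (mu p))

include hΨ hG hon hfib hb hwide

/-- the points over the field of meromorphic functions -/
theorem mero_const {z : Fin (M + 1) → MK} (hz : z ≠ 0) (hzΦ : ∀ e, val z (Φ e) = 0) :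
    ∃ (E : Type) (_ : Field E) (_ : Algebra MK E) (_ : Algebra ℂ E) (_ : IsScalarTower ℂ MK E)
      (u : Fin (m + 1) → E) (i0 : Fin (m + 1)) (c : E) (t : Fin n → Fin 2 → E), u i0 = 1 ∧
      (∀ e, val u (Ψ e) = 0) ∧ c ≠ 0 ∧ (∀ j, algebraMap MK E (z j) = c * im G u j) ∧
      (∀ p, (b p).At u (t p)) ∧ ∀ p, ∃ c : ℂ, t p 0 / t p 1 = algebraMap ℂ E c := by
  classical
  obtain ⟨E, i1, i2, i3, i4, i5, u, i0, c, hrk, hu0, huΨ, hc0, hcz, -⟩ :=
    lift_point hΨ hG hon hfib hz hzΦ
  have hu : u ≠ 0 := by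
    intro h0
    rw [h0] at hu0
    exact zero_ne_one hu0
  have hAt : ∀ p, ∃ t, (b p).At u t := fun p => exists_at (b p) hu huΨ
  choose t ht using hAt
  refine ⟨E, i1, i2, i3, i4, u, i0, c, t, hu0, huΨ, hc0, hcz, ht, fun p => ?_⟩
  refine algebroid_const hrk (a := fun i => ((A p).equivFin.symm i : ℂ))
    (fun i i' h => (A p).equivFin.symm.injective (Subtype.ext h))
    (m := fun i => mu p ((A p).equivFin.symm i : ℂ))
    (fun i => (hwide p).1 _ ((A p).equivFin.symm i).2) (fun g s hg hs hgs => ?_) _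
    (fun Q i h1 h2 => ?_)
  · rw [← sum_equivFin (A p) (fun c => 1 - 1 / (cdiv (mu p c) g : ℝ))]
    exact (hwide p).2 g s hg hs hgs
  · exact mult_at (hb p) hu huΨ (ht p) ((A p).equivFin.symm i).2 Q h1 h2

variable {K : Type} [Field K] [Algebra ℂ K] {w : ℕ} {z : Fin (M + 1) → K}

/-- a point over a field which is special, in coordinates upstairs -/
theorem special_const (hz : SubVar Φ K w z) (hsp : Special ℂ K w (fun _ => False)) :
    ∃ (E : Type) (_ : Field E) (_ : Algebra K E) (_ : Algebra ℂ E) (_ : IsScalarTower ℂ K E)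
      (u : Fin (m + 1) → E) (i0 : Fin (m + 1)) (c : E) (t : Fin n → Fin 2 → E), u i0 = 1 ∧
      (∀ e, val u (Ψ e) = 0) ∧ c ≠ 0 ∧ (∀ j, algebraMap K E (z j) = c * im G u j) ∧
      (∀ p, (b p).At u (t p)) ∧ ∀ p, ∃ c : ℂ, t p 0 / t p 1 = algebraMap ℂ E c := by
  classical
  obtain ⟨E, i1, i2, i3, i4, i5, u, i0, c, hrk, hu0, huΨ, hc0, hcz, -⟩ :=
    lift_point hΨ hG hon hfib hz.ne hz.mem
  have hu : u ≠ 0 := by
    intro h0
    rw [h0] at hu0
    exact zero_ne_one hu0
  have hAt : ∀ p, ∃ t, (b p).At u t := fun p => exists_at (b p) hu huΨ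
  choose t ht using hAt
  refine ⟨E, i1, i2, i3, i4, u, i0, c, t, hu0, huΨ, hc0, hcz, ht, ?_⟩
  by_contra hcon
  push Not at hcon
  obtain ⟨p, hp⟩ := hcon
  refine bog_field (K := K) (E := E) hrk (fun p => t p 0 / t p 1) ⟨p, fun halg => ?_⟩ A mu hwide
    (fun p c hc Q h1 h2 => mult_at (hb p) hu huΨ (ht p) hc Q h1 h2) hsp
  obtain ⟨c, hc⟩ := const_of_algebraic halg
  exact hp c hc

/-- **Special subvarieties.** -/
theorem special_fibre (hz : SubVar Φ K w z) (hsp : Special ℂ K w (fun _ => False)) :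
    ∃ q : Fin n → Fin 2 → ℂ, ∀ e, val z (fibreImage G b q e) = 0 := by
  obtain ⟨E, i1, i2, i3, i4, u, i0, c, t, hu0, huΨ, hc0, hcz, ht, hconst⟩ :=
    special_const hΨ hG hon hfib hb hwide hz hsp
  refine fibre_point ?_ huΨ hcz ht hconst
  rintro rfl
  exact zero_ne_one hu0

/-- **Brody-special subvarieties.** -/
theorem brody_point (hΦ : ∀ e, IsForm (Φ e)) (hz : SubVar Φ K w z) (hbr : BrodyDense z) :
    ∃ z' : Fin (M + 1) → MK, z' ≠ 0 ∧ (∀ e, val z' (Φ e) = 0) ∧
      ∀ H : MvPolynomial (Fin (M + 1)) ℂ, IsForm H → (val z' H = 0 ↔ val z H = 0) := by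
  obtain ⟨z', hz'⟩ := hbr.point
  refine ⟨z', ?_, fun e => (hz' _ (hΦ e)).2 (hz.mem e), hz'⟩
  rintro rfl
  apply hz.ne
  funext i
  have h1 := (hz' (MvPolynomial.X i) ⟨1, MvPolynomial.isHomogeneous_X ℂ i⟩).1 (by
    unfold Pool.Agent.W602.GT.val
    rw [MvPolynomial.aeval_X]
    rfl)
  unfold Pool.Agent.W602.GT.val at h1
  rwa [MvPolynomial.aeval_X] at h1

theorem brody_fibre (hΦ : ∀ e, IsForm (Φ e)) (hz : SubVar Φ K w z) (hbr : BrodyDense z) :
    ∃ q : Fin n → Fin 2 → ℂ, ∀ e, val z (fibreImage G b q e) = 0 := by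
  obtain ⟨z', hz'0, hz'Φ, hz'⟩ := brody_point hΨ hG hon hfib hb hwide hΦ hz hbr
  obtain ⟨E, i1, i2, i3, i4, u, i0, c, t, hu0, huΨ, hc0, hcz, ht, hconst⟩ :=
    mero_const hΨ hG hon hfib hb hwide hz'0 hz'Φ
  obtain ⟨q, hq⟩ := fibre_point (G := G) (b := b) (by
    rintro rfl
    exact zero_ne_one hu0) huΨ hcz ht hconst
  exact ⟨q, fun e => (hz' _ e.2.1).1 (hq e)⟩

/-- **Reduction to the images of the fibres.** -/
theorem campana_fibres (hΦ : ∀ e, IsForm (Φ e)) (h : ∀ q, CampanaFor (fibreImage G b q)) :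
    CampanaFor Φ := by
  intro K _ _ w z hz
  constructor
  · intro hsp
    obtain ⟨q, hq⟩ := special_fibre hΨ hG hon hfib hb hwide hz hsp
    exact (h q K w z ⟨hz.ne, hq, hz.gen, hz.dim⟩).1 hsp
  · intro hbr
    obtain ⟨q, hq⟩ := brody_fibre hΨ hG hon hfib hb hwide hΦ hz hbr
    exact (h q K w z ⟨hz.ne, hq, hz.gen, hz.dim⟩).2 hbr

omit hΨ hG hon hfib hb hwide in
/-- the point is constant if the coordinates upstairs are algebraic over constants -/
theorem coords_const {b : Fin n → LineMap Ψ} (hfin : FiniteFibres b)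
    {K E : Type} [Field K] [Field E] [Algebra ℂ K] [Algebra ℂ E] [Algebra K E]
    [IsScalarTower ℂ K E] {z : Fin (M + 1) → K} (hz : z ≠ 0) {u : Fin (m + 1) → E}
    {i0 : Fin (m + 1)} (hu0 : u i0 = 1)
    (huΨ : ∀ e, val u (Ψ e) = 0) {c : E} (hcz : ∀ j, algebraMap K E (z j) = c * im G u j)
    {t : Fin n → Fin 2 → E} (ht : ∀ p, (b p).At u (t p))
    (hconst : ∀ p, ∃ c : ℂ, t p 0 / t p 1 = algebraMap ℂ E c) :
    ∃ (l : Fin (M + 1)) (a : Fin (M + 1) → ℂ), z l ≠ 0 ∧ ∀ j, z j = algebraMap ℂ K (a j) * z l := by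
  classical
  have hu : u ≠ 0 := by
    rintro rfl
    exact zero_ne_one hu0
  have hbot : IntermediateField.adjoin ℂ (Set.range fun p => t p 0 / t p 1) = ⊥ := by
    rw [eq_bot_iff, IntermediateField.adjoin_le_iff]
    rintro _ ⟨p, rfl⟩
    obtain ⟨c, hc⟩ := hconst p
    change t p 0 / t p 1 ∈ _
    rw [hc]
    exact (⊥ : IntermediateField ℂ E).algebraMap_mem c
  have h2 : ∀ i, ∃ a : ℂ, algebraMap ℂ E a = u i := by
    intro i
    have h3 := hfin E u t hu huΨ ht i i0 (by rw [hu0]; exact one_ne_zero)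
    rw [hbot, hu0, div_one] at h3
    exact alg_mem h3
  choose a ha using h2
  have h3 : ∀ j, im G u j = algebraMap ℂ E (im G a j) := by
    intro j
    have h4 := val_map (Algebra.ofId ℂ E) (G j) a
    have h5 : (fun i => (Algebra.ofId ℂ E) (a i)) = u := funext ha
    rw [h5] at h4
    exact h4.symm
  obtain ⟨l, hl'⟩ := Function.ne_iff.1 hz
  have hl : z l ≠ 0 := hl'
  have hlE : algebraMap K E (z l) ≠ 0 := by
    rw [Ne, map_eq_zero]
    exact hl
  have hul : im G a l ≠ 0 := by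
    intro h0
    have h4 := hcz l
    rw [h3, h0, map_zero, mul_zero] at h4
    exact hlE h4
  refine ⟨l, fun j => im G a j / im G a l, hl, fun j => ?_⟩
  apply (algebraMap K E).injective
  have hul' : algebraMap ℂ E (im G a l) ≠ 0 := by
    rw [Ne, map_eq_zero]
    exact hul
  rw [map_mul, ← IsScalarTower.algebraMap_apply ℂ K E, hcz, hcz, h3, h3, map_div₀]
  field_simp

omit hΨ hG hon hfib hb hwide in
/-- points -/
theorem point_bot (hz : SubVar Φ K w z) {l : Fin (M + 1)} {a : Fin (M + 1) → ℂ} (hl : z l ≠ 0)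
    (h : ∀ j, z j = algebraMap ℂ K (a j) * z l) : (∀ y : K, ∃ c : ℂ, y = algebraMap ℂ K c) ∧
      w = 0 := by
  have h1 : ∀ y : K, ∃ c : ℂ, y = algebraMap ℂ K c := by
    intro y
    have h2 : y ∈ coords ℂ z := by rw [hz.gen]; exact IntermediateField.mem_top
    have h3 : coords ℂ z ≤ ⊥ := by
      unfold Pool.Agent.W602.GT.coords
      rw [IntermediateField.adjoin_le_iff]
      rintro _ ⟨i, j, hj, rfl⟩
      rw [h i, h j, mul_div_mul_right _ _ hl]
      exact (⊥ : IntermediateField ℂ K).div_mem ((⊥ : IntermediateField ℂ K).algebraMap_mem _)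
        ((⊥ : IntermediateField ℂ K).algebraMap_mem _)
    obtain ⟨c, hc⟩ := IntermediateField.mem_bot.1 (h3 h2)
    exact ⟨c, hc.symm⟩
  refine ⟨h1, ?_⟩
  have h4 : Algebra.IsAlgebraic ℂ K := ⟨fun y => by
    obtain ⟨c, rfl⟩ := h1 y
    exact isAlgebraic_algebraMap c⟩
  have h5 := hz.dim
  have h6 : Algebra.trdeg ℂ K = 0 := _root_.trdeg_eq_zero
  rw [h6] at h5
  exact_mod_cast h5.symm

omit hΨ hG hon hfib hb hwide in
/-- points are special and Brody-special -/
theorem point_both (hz : SubVar Φ K w z) {l : Fin (M + 1)} {a : Fin (M + 1) → ℂ} (hl : z l ≠ 0)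
    (h : ∀ j, z j = algebraMap ℂ K (a j) * z l) :
    Special ℂ K w (fun _ => False) ∧ BrodyDense z := by
  obtain ⟨h1, h2⟩ := point_bot hz hl h
  constructor
  · intro p hp hB
    obtain ⟨θ, hθ, -⟩ := hB
    apply hθ
    ext D
    have h3 : D ⟨0, hp⟩ = 0 := by
      ext y
      obtain ⟨c, rfl⟩ := h1 y
      rw [Derivation.map_algebraMap]
      rfl
    exact θ.map_coord_zero ⟨0, hp⟩ h3
  · have hal : a l = 1 := by
      have h3 := h l
      have h4 : (algebraMap ℂ K (a l) - 1) * z l = 0 := by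
        rw [sub_mul, one_mul, ← h3, sub_self]
      have h5 := (mul_eq_zero.1 h4).resolve_right hl
      rw [sub_eq_zero, ← map_one (algebraMap ℂ K)] at h5
      exact (algebraMap ℂ K).injective h5
    refine ⟨fun _ => a, fun i => differentiable_const _, fun _ h0 => ?_, fun G hG => ?_⟩
    · have h3 : a l = 0 := congrFun h0 l
      rw [hal] at h3
      exact one_ne_zero h3
    · obtain ⟨d, hd⟩ := hG
      have h3 : val z G = algebraMap ℂ K (val a G) * z l ^ d := by
        have h4 : z = fun j => z l * algebraMap ℂ K (a j) := funext fun j => by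
          rw [h j, mul_comm]
        have h5 := val_map (Algebra.ofId ℂ K) G a
        have h6 : (fun i => (Algebra.ofId ℂ K) (a i)) = fun i => algebraMap ℂ K (a i) := rfl
        rw [h6] at h5
        have h7 : val z G = z l ^ d * val (fun i => algebraMap ℂ K (a i)) G := by
          conv_lhs => rw [h4]
          exact val_smul hd _ _
        rw [h7, ← h5, mul_comm]
        rfl
      rw [h3]
      constructor
      · intro h4
        rw [h4 0, map_zero, zero_mul]
      · intro h4 _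
        have h5 := (mul_eq_zero.1 h4).resolve_right (pow_ne_zero _ hl)
        rwa [map_eq_zero] at h5

/-- **The case of finite fibres.** -/
theorem point_of (hΦ : ∀ e, IsForm (Φ e)) (hfin : FiniteFibres b) (hz : SubVar Φ K w z)
    (h : Special ℂ K w (fun _ => False) ∨ BrodyDense z) :
    ∃ (l : Fin (M + 1)) (a : Fin (M + 1) → ℂ), z l ≠ 0 ∧ ∀ j, z j = algebraMap ℂ K (a j) * z l := by
  rcases h with hsp | hbr
  · obtain ⟨E, i1, i2, i3, i4, u, i0, c, t, hu0, huΨ, hc0, hcz, ht, hconst⟩ :=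
      special_const hΨ hG hon hfib hb hwide hz hsp
    exact coords_const hfin hz.ne hu0 huΨ hcz ht hconst
  · obtain ⟨z', hz'0, hz'Φ, hz'⟩ := brody_point hΨ hG hon hfib hb hwide hΦ hz hbr
    obtain ⟨E, i1, i2, i3, i4, u, i0, c, t, hu0, huΨ, hc0, hcz, ht, hconst⟩ :=
      mero_const hΨ hG hon hfib hb hwide hz'0 hz'Φ
    obtain ⟨l, a, hl, ha⟩ := coords_const hfin hz'0 hu0 huΨ hcz ht hconst
    refine ⟨l, a, fun h0 => hl ?_, fun j => ?_⟩
    · have h1 := (hz' (MvPolynomial.X l) ⟨1, MvPolynomial.isHomogeneous_X ℂ l⟩).2 (by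
        unfold Pool.Agent.W602.GT.val
        rw [MvPolynomial.aeval_X, h0])
      unfold Pool.Agent.W602.GT.val at h1
      rwa [MvPolynomial.aeval_X] at h1
    · have h1 := (hz' (MvPolynomial.X j - MvPolynomial.C (a j) * MvPolynomial.X l) ⟨1,
        (MvPolynomial.isHomogeneous_X ℂ j).sub (by
          have := (MvPolynomial.isHomogeneous_C (Fin (M + 1)) (a j)).mul
            (MvPolynomial.isHomogeneous_X ℂ l)
          rwa [zero_add] at this)⟩).1 (by
        unfold Pool.Agent.W602.GT.val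
        rw [map_sub, map_mul, MvPolynomial.aeval_X, MvPolynomial.aeval_X, MvPolynomial.aeval_C,
          ha j, sub_self])
      unfold Pool.Agent.W602.GT.val at h1
      rw [map_sub, map_mul, MvPolynomial.aeval_X, MvPolynomial.aeval_X, MvPolynomial.aeval_C,
        sub_eq_zero] at h1
      exact h1

end Pool.Agent.K4H65.DM
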