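import Pool.Agent.K4H65.DM.Norm
import Pool.Agent.Y190.BV.Cont

/-!
The contact orders of the minimal polynomial of an element of a finite extension with constants.
-/

set_option autoImplicit false
set_option linter.overlappingInstances false
set_option linter.unusedSectionVars false

open scoped IntermediateField
open Module FF Polynomial Pool.Agent.W603.LV Pool.Agent.W602.GT Pool.Agent.Y190.BV

namespace Pool.Agent.K4H65.DM

variable {k K E : Type} [Field k] [Field K] [Field E] [Algebra k K] [Algebra k E] [Algebra K E]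
  [IsScalarTower k K E]

theorem minpoly_eval_ne [FiniteDimensional K E] {τ : E} {c : k} (h : τ ≠ algebraMap k E c) :
    (minpoly K τ).eval (algebraMap k K c) ≠ 0 := by
  intro h0
  have hi : IsIntegral K τ := Algebra.IsIntegral.isIntegral τ
  have h1 : X - C (algebraMap k K c) ∣ minpoly K τ := Polynomial.dvd_iff_isRoot.2 h0
  have h2 : Associated (X - C (algebraMap k K c)) (minpoly K τ) :=
    (Polynomial.irreducible_X_sub_C _).associated_of_dvd (minpoly.irreducible hi) h1
  have h3 := Polynomial.eq_of_monic_of_associated (Polynomial.monic_X_sub_C _)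
    (minpoly.monic hi) h2
  have h4 := minpoly.aeval K τ
  rw [← h3, map_sub, aeval_X, aeval_C, sub_eq_zero, ← IsScalarTower.algebraMap_apply] at h4
  exact h h4

/-- the norm of `τ - c` -/
theorem norm_sub [FiniteDimensional K E] (τ : E) (c : K) :
    ∃ g : ℕ, (minpoly K τ).natDegree * g = finrank K E ∧ Algebra.norm K (τ - algebraMap K E c) =
      ((-1) ^ (minpoly K τ).natDegree * (minpoly K τ).eval c) ^ g := by
  have hi : IsIntegral K (τ - algebraMap K E c) := Algebra.IsIntegral.isIntegral _
  have h1 : minpoly K (τ - algebraMap K E c) = (minpoly K τ).comp (X + C c) :=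
    minpoly.sub_algebraMap τ c
  have hdeg : (minpoly K (τ - algebraMap K E c)).natDegree = (minpoly K τ).natDegree := by
    rw [h1, Polynomial.natDegree_comp, Polynomial.natDegree_X_add_C, mul_one]
  refine ⟨finrank K⟮τ - algebraMap K E c⟯ E, ?_, ?_⟩
  · rw [← hdeg, ← IntermediateField.adjoin.finrank hi]
    exact Module.finrank_mul_finrank _ _ _
  · rw [Algebra.norm_eq_norm_adjoin]
    congr 1
    have h2 := Algebra.PowerBasis.norm_gen_eq_coeff_zero_minpoly
      (IntermediateField.adjoin.powerBasis hi)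
    rw [IntermediateField.adjoin.powerBasis_gen, IntermediateField.adjoin.powerBasis_dim,
      IntermediateField.minpoly_gen, hdeg, h1, Polynomial.coeff_zero_eq_eval_zero,
      Polynomial.eval_comp, Polynomial.eval_add, Polynomial.eval_X, Polynomial.eval_C,
      zero_add] at h2
    exact h2

theorem ord_norm_sub [FiniteDimensional K E] (P : Place k K) {τ : E} {c : k}
    (h : τ ≠ algebraMap k E c) :
    ((minpoly K τ).natDegree : ℤ) * P.ord (Algebra.norm K (τ - algebraMap k E c)) =
      finrank K E * P.ord ((minpoly K τ).eval (algebraMap k K c)) := by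
  obtain ⟨g, hg, hn⟩ := norm_sub (K := K) τ (algebraMap k K c)
  rw [← IsScalarTower.algebraMap_apply] at hn
  have h1 : P.ord ((-1 : K) ^ (minpoly K τ).natDegree) = 0 := by
    rw [P.ord_pow, P.ord_neg_one, mul_zero]
  rw [hn, P.ord_pow, P.ord_mul (pow_ne_zero _ (by norm_num)) (minpoly_eval_ne h), h1, zero_add,
    ← hg]
  push_cast
  ring

/-- at a constant which is good for the minimal polynomial there is no contact -/
theorem vv_good [FiniteDimensional K E] {P : Place k K} {Q : Place k E} {e : ℕ}
    (hQ : Over Q P e) {τ : E} {b : k} (hb : τ ≠ algebraMap k E b)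
    (hbP : P.ord ((minpoly K τ).eval (algebraMap k K b)) = cnt P (minpoly K τ)) :
    vv Q τ b = 0 := by
  classical
  by_contra hne
  have hpos : 0 < vv Q τ b := lt_of_le_of_ne (vv_nonneg Q hb) (Ne.symm hne)
  have htau := tau_of_vv Q hb hpos
  unfold vv at hpos
  rw [htau, add_zero] at hpos
  set f := minpoly K τ with hf
  obtain ⟨p, hp0, hp⟩ := P.surj
  have hpc0 : p ^ cnt P f ≠ 0 := zpow_ne_zero _ hp0
  have hpc : P.ord (p ^ cnt P f) = cnt P f := by rw [P.ord_zpow, hp, mul_one]
  set f1 : ℕ → K := fun j => f.coeff j / p ^ cnt P f with hf1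
  have hff1 : f.coeff = fun j => p ^ cnt P f * f1 j := by
    funext j
    simp only [hf1]
    field_simp
  have hf1i : ∀ j, Ge P 0 (f1 j) := by
    intro j
    have h1 : Ge P (0 + cnt P f) (p ^ cnt P f * f1 j) := by
      have := cnt_ge P f j
      rw [hff1] at this
      simpa using this
    exact Ge.of_mul' hpc0 hpc h1
  have hti : Ge Q 0 τ := by
    have := ge_tau Q τ
    rwa [htau, neg_zero] at this
  have h2 := ge_ev_sub Q (n := f.natDegree + 1) f1
    (fun j _ => by
      have := over_ge hQ (hf1i j)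
      simpa using this) hti (Ge.const (P := Q) b)
  have h3 : ev E (f.natDegree + 1) f1 τ = 0 := by
    have h4 : ev E (f.natDegree + 1) f.coeff τ = 0 := by
      rw [ev_eq_aeval]
      exact minpoly.aeval K τ
    rw [hff1, ev_smul] at h4
    exact (mul_eq_zero.1 h4).resolve_left ((_root_.map_ne_zero _).2 hpc0)
  have h5 : p ^ cnt P f * ev K (f.natDegree + 1) f1 (algebraMap k K b) =
      f.eval (algebraMap k K b) := by
    rw [← ev_eq_eval, hff1]
    have := ev_smul (L := K) (f.natDegree + 1) (p ^ cnt P f) f1 (algebraMap k K b)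
    exact this.symm
  have hfb : f.eval (algebraMap k K b) ≠ 0 := minpoly_eval_ne hb
  have h6 : ev K (f.natDegree + 1) f1 (algebraMap k K b) ≠ 0 := by
    intro h0
    rw [h0, mul_zero] at h5
    exact hfb h5.symm
  have h7 : P.ord (ev K (f.natDegree + 1) f1 (algebraMap k K b)) = 0 := by
    have h8 := congrArg P.ord h5
    rw [P.ord_mul hpc0 h6, hpc, hbP] at h8
    omega
  rw [h3, zero_sub, ev_const] at h2
  have h9 := h2.resolve_left (neg_ne_zero.2 ((_root_.map_ne_zero _).2 h6))
  rw [Q.ord_neg, hQ.2, h7, mul_zero] at h9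
  omega

/-- **Contact orders of the minimal polynomial.** -/
theorem contact [Infinite k] [CharZero k] [FiniteDimensional K E] (P : Place k K) {τ : E} {a : k}
    {m : ℤ} (h0 : τ ≠ algebraMap k E a)
    (hm : ∀ (Q : Place k E) (e : ℕ), Over Q P e → 0 < Q.ord (τ - algebraMap k E a) →
      m ≤ Q.ord (τ - algebraMap k E a)) :
    ct P (minpoly K τ) a = 0 ∨
      m * (minpoly K τ).natDegree ≤ finrank K E * ct P (minpoly K τ) a := by
  classical
  set f := minpoly K τ with hf
  have hi : IsIntegral K τ := Algebra.IsIntegral.isIntegral τ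
  have hf0 : f ≠ 0 := minpoly.ne_zero hi
  have hfa : f.eval (algebraMap k K a) ≠ 0 := minpoly_eval_ne h0
  have hct := ct_nonneg P hfa
  by_cases hz : ct P f a = 0
  · exact Or.inl hz
  right
  have hpos : 0 < ct P f a := lt_of_le_of_ne hct (Ne.symm hz)
  obtain ⟨b, hb⟩ := (bad_finite P hf0).infinite_compl.nonempty
  simp only [Set.mem_compl_iff, Set.mem_ofPred_eq, not_not] at hb
  obtain ⟨hfb, hbP⟩ := hb
  have hτb : τ ≠ algebraMap k E b := by
    rintro h
    apply hfb
    have h1 := minpoly.aeval K τ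
    rw [← hf, h, IsScalarTower.algebraMap_apply k K E, Polynomial.aeval_algebraMap_apply,
      Polynomial.coe_aeval_eq_eval] at h1
    exact (map_eq_zero _).1 h1
  have ha0 : τ - algebraMap k E a ≠ 0 := sub_ne_zero.2 h0
  have hb0 : τ - algebraMap k E b ≠ 0 := sub_ne_zero.2 hτb
  set σ : E := (τ - algebraMap k E a) / (τ - algebraMap k E b) with hσ
  have hσ0 : σ ≠ 0 := div_ne_zero ha0 hb0
  have hσo : ∀ (Q : Place k E) (e : ℕ), Over Q P e → Q.ord σ = vv Q τ a := by
    intro Q e hQ
    have h1 := vv_good hQ hτb hbP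
    rw [hσ, Q.ord_div ha0 hb0]
    unfold vv at h1 ⊢
    omega
  have hreg : ∀ (Q : Place k E) (e : ℕ), Over Q P e → Q.Reg σ := by
    intro Q e hQ
    right
    rw [hσo Q e hQ]
    exact vv_nonneg Q h0
  have hN0 : Algebra.norm K σ ≠ 0 := Algebra.norm_ne_zero_iff.2 hσ0
  have hNs : ((f.natDegree : ℕ) : ℤ) * P.ord (Algebra.norm K σ) = finrank K E * ct P f a := by
    have h1 := ord_norm_sub (K := K) P h0
    have h2 := ord_norm_sub (K := K) P hτb
    have hNa : Algebra.norm K (τ - algebraMap k E a) ≠ 0 := Algebra.norm_ne_zero_iff.2 ha0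
    have hNb : Algebra.norm K (τ - algebraMap k E b) ≠ 0 := Algebra.norm_ne_zero_iff.2 hb0
    have h3 : Algebra.norm K σ = Algebra.norm K (τ - algebraMap k E a) /
        Algebra.norm K (τ - algebraMap k E b) := by
      rw [hσ, div_eq_mul_inv, map_mul, Algebra.norm_inv, div_eq_mul_inv]
    rw [h3, P.ord_div hNa hNb, mul_sub, h1, h2, hbP]
    unfold ct
    ring
  have hd : 0 < finrank K E := finrank_pos
  have hs : 0 < f.natDegree := minpoly.natDegree_pos hi
  have hNpos : 0 < P.ord (Algebra.norm K σ) := by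
    by_contra hcon
    push Not at hcon
    have h1 : (0 : ℤ) < finrank K E * ct P f a := mul_pos (by exact_mod_cast hd) hpos
    rw [← hNs] at h1
    have h2 : ((f.natDegree : ℕ) : ℤ) * P.ord (Algebra.norm K σ) ≤ 0 :=
      mul_nonpos_of_nonneg_of_nonpos (by positivity) hcon
    omega
  obtain ⟨Q, e, hQ, hQσ⟩ : ∃ (Q : Place k E) (e : ℕ), Over Q P e ∧ 0 < Q.ord σ := by
    by_contra hcon
    push Not at hcon
    have h1 := (norm_ge P (inv_ne_zero hσ0) (fun R e hR => by
      right
      rw [R.ord_inv]
      have := hcon R e hR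
      omega)).1
    rw [Algebra.norm_inv] at h1
    have h2 := (P.reg_iff (inv_ne_zero hN0)).1 h1
    rw [P.ord_inv] at h2
    omega
  have hQv := hσo Q e hQ
  rw [hQv] at hQσ
  have htau := tau_of_vv Q h0 hQσ
  have hvv : vv Q τ a = Q.ord (τ - algebraMap k E a) := by
    unfold vv
    rw [htau, add_zero]
  have h1 := hm Q e hQ (by rw [← hvv]; exact hQσ)
  have h2 := (norm_ge P hσ0 hreg).2 Q e hQ
  rw [hQv, hvv] at h2
  calc m * f.natDegree ≤ P.ord (Algebra.norm K σ) * f.natDegree :=
        mul_le_mul_of_nonneg_right (h1.trans h2) (by positivity)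
    _ = _ := by rw [← hNs]; ring

end Pool.Agent.K4H65.DM
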