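import Pool.Agent.Y216.RncD
import Pool.Agent.Y221.AH.Hp
import Pool.Agent.W603.LV.Root
import Pool.Agent.W603.CX.Basic
import Pool.Agent.K4H65.DM.Contact
import Pool.Agent.K4H65.DM.Wts

/-!
The height inequality for algebraic functions on curves with high multiplicities over many points.
-/

set_option autoImplicit false
set_option linter.overlappingInstances false
set_option linter.unusedSectionVars false

open Polynomial FF Pool.Agent.W603.LV Pool.Agent.W603.PV Pool.Agent.W601.VF Pool.Agent.Y216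

namespace Pool.Agent.K4H65.DM

variable {k : Type} [Field k] [IsAlgClosed k] [CharZero k] {L : Type} [Field L] [Algebra k L]
  [IsFF k L] {n q : ℕ}

/-- The local estimate for logarithmic vector fields. -/
theorem rnc_local_log (P : Place k L) {D : Derivation k L L} (hD : D ≠ 0) {f : Fin (n + 1) → L}
    (hf : ∃ j, f j ≠ 0) {u v : Fin q → k} (huv : ∀ i j, i ≠ j → u i * v j ≠ u j * v i)
    (hq : n + n ≤ q) (hne : ∀ i, lv (rnc n u v i) f ≠ 0)
    (hR : resultant (pol f) (pol fun j => D (f j)) n n ≠ 0) :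
    2 * n * pord P f + n * (vo P D - 1) + ∑ i, (P.ord (lv (rnc n u v i) f) - pord P f) ≤
      P.ord (resultant (pol f) (pol fun j => D (f j)) n n) := by
  classical
  set π := unif P with hπd
  have hπ : P.ord π = 1 := ord_unif P
  have hπ0 : π ≠ 0 := by
    intro h
    rw [h, P.ord_zero] at hπ; omega
  have hDπ : D π ≠ 0 := der_pi_ne_zero hD P hπ
  obtain ⟨w, hw⟩ : ∃ w, w = D π / π := ⟨_, rfl⟩
  have hw0 : w ≠ 0 := by
    rw [hw]
    exact div_ne_zero hDπ hπ0
  set δ' : Derivation k L L := (D π)⁻¹ • D with hδd'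
  have hδ' : δ' π = 1 := by
    rw [hδd', Derivation.coe_smul, Pi.smul_apply, smul_eq_mul, inv_mul_cancel₀ hDπ]
  set δ : Derivation k L L := w⁻¹ • D with hδd
  have hδδ' : ∀ x, δ x = π * δ' x := by
    intro x
    rw [hδd, hδd', Derivation.coe_smul, Derivation.coe_smul, Pi.smul_apply, Pi.smul_apply,
      smul_eq_mul, smul_eq_mul, hw]
    field_simp
  have hDδ : ∀ x, D x = w * δ x := by
    intro x
    rw [hδd, Derivation.coe_smul, Pi.smul_apply, smul_eq_mul, mul_inv_cancel_left₀ hw0]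
  have hwo : P.ord w = vo P D - 1 := by
    rw [hw, P.ord_div hDπ hπ0, hπ]
    rfl
  have hreg : ∀ {x : L}, Ge P 0 x → Ge P 0 (δ x) := by
    intro x hx
    rw [hδδ']
    have h1 : Ge P 1 π := Or.inr hπ.ge
    exact (h1.mul (der_reg P hπ δ' hδ' hx)).mono (by norm_num)
  set s := pord P f with hs
  set t := π ^ s with ht
  have ht0 : t ≠ 0 := zpow_ne_zero _ hπ0
  have hto : P.ord t = s := by rw [ht, P.ord_zpow, hπ, mul_one]
  obtain ⟨g, hg⟩ : ∃ g : Fin (n + 1) → L, g = fun j => t⁻¹ * f j := ⟨_, rfl⟩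
  have hfg : f = fun j => t * g j := by
    funext j
    rw [hg]
    simp only
    rw [mul_inv_cancel_left₀ ht0]
  have hg0 : ∀ j, Ge P 0 (g j) := by
    intro j
    apply Ge.of_mul' (h := t) (m := s) ht0 hto
    rw [zero_add]
    have : t * g j = f j := by rw [hfg]
    rw [this]
    exact ge_pord P f j
  have hv0 : ∀ j, Ge P 0 (δ (g j)) := fun j => hreg (hg0 j)
  have hg1 : ¬ ∀ j, Ge P 1 (g j) := by
    intro hall
    obtain ⟨j, hj, hjo⟩ := exists_pord P hf
    have hgj : g j ≠ 0 := by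
      rw [hg]
      exact mul_ne_zero (inv_ne_zero ht0) hj
    have h2 := (hall j).resolve_left hgj
    have h3 : P.ord (f j) = s + P.ord (g j) := by
      have e : f j = t * g j := by conv_lhs => rw [hfg]
      rw [e, P.ord_mul ht0 hgj, hto]
    omega
  -- the resultant
  have e3 : resultant (pol f) (pol fun j => D (f j)) n n =
      t ^ n * (t * w) ^ n * resultant (pol g) (pol fun j => δ (g j)) n n := by
    rw [← res_scale g (fun j => δ (g j)) t w (D t * t⁻¹)]
    congr 2
    funext j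
    conv_lhs => rw [hfg]
    rw [D.leibniz, hDδ (g j)]
    simp only [smul_eq_mul]
    field_simp
  obtain ⟨Z, hZ⟩ : ∃ Z, Z = resultant (pol g) (pol fun j => δ (g j)) n n := ⟨_, rfl⟩
  rw [← hZ] at e3
  have hZ0 : Z ≠ 0 := by
    intro h0
    rw [h0, mul_zero] at e3
    exact hR e3
  have e5 := congrArg P.ord e3
  rw [P.ord_mul (mul_ne_zero (pow_ne_zero _ ht0) (pow_ne_zero _ (mul_ne_zero ht0 hw0))) hZ0,
    P.ord_mul (pow_ne_zero _ ht0) (pow_ne_zero _ (mul_ne_zero ht0 hw0)), P.ord_pow, P.ord_pow,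
    P.ord_mul ht0 hw0, hto, hwo] at e5
  -- the values of the linear forms
  have hℓg : ∀ i, lv (rnc n u v i) f = t * lv (rnc n u v i) g := by
    intro i
    conv_lhs => rw [hfg]
    exact lv_scale _ t g
  have hℓg0 : ∀ i, lv (rnc n u v i) g ≠ 0 := fun i h0 => hne i (by rw [hℓg, h0, mul_zero])
  have hℓo : ∀ i, P.ord (lv (rnc n u v i) g) = P.ord (lv (rnc n u v i) f) - s := by
    intro i
    rw [hℓg, P.ord_mul ht0 (hℓg0 i), hto]
    ring
  have hℓge : ∀ i, 0 ≤ P.ord (lv (rnc n u v i) g) := fun i =>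
    one_le_of_ge (hℓg0 i) (lv_ge _ hg0)
  obtain ⟨o, ho⟩ : ∃ o : Fin q → ℤ, o = fun i => P.ord (lv (rnc n u v i) f) - s :=
    ⟨_, rfl⟩
  have h1 : ∀ i, Ge P (o i) (lv (rnc n u v i) g) := by
    intro i
    right
    have := hℓo i
    rw [ho]
    simp only
    omega
  have h2 : ∀ i, Ge P (o i) (lv (rnc n u v i) fun j => δ (g j)) := by
    intro i
    rw [lv_der]
    by_cases h0 : P.ord (lv (rnc n u v i) g) = 0
    · have h1 : o i = 0 := by
        have := hℓo i
        rw [ho]
        simp only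
        omega
      rw [h1]
      exact hreg (Or.inr (hℓge i))
    · right
      obtain ⟨h1, h2⟩ := ord_der P hD h0
      rw [hDδ] at h1 h2
      rw [P.ord_mul hw0 (right_ne_zero_of_mul h1), hwo] at h2
      have := hℓge i
      have := hℓo i
      rw [ho]
      simp only
      omega
  -- at most `n` of them have zeros
  obtain ⟨J, hJ⟩ : ∃ J : Finset (Fin q), J = Finset.univ.filter fun i => 0 <
    P.ord (lv (rnc n u v i) g) := ⟨_, rfl⟩
  have hJc : J.card ≤ n + n := by
    by_contra hcon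
    obtain ⟨T, hTJ, hTc⟩ := Finset.exists_subset_card_eq (s := J) (n := n + 1) (by omega)
    apply hg1
    refine ge_of_indep (A := fun r => rnc n u v (T.orderEmbOfFin hTc r))
      (rnc_genPos huv _ (T.orderEmbOfFin hTc).injective) fun r => ?_
    right
    have := hTJ (T.orderEmbOfFin_mem hTc r)
    rw [hJ, Finset.mem_filter] at this
    omega
  obtain ⟨J', hJJ', -, hJ'c⟩ := Finset.exists_subsuperset_card_eq (Finset.subset_univ J) hJc
    (by rw [Finset.card_univ, Fintype.card_fin]; exact hq)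
  obtain ⟨σ, hσ⟩ : ∃ σ : Fin (n + n) → Fin q, σ = fun r => J'.orderEmbOfFin hJ'c r := ⟨_, rfl⟩
  have hσi : Function.Injective σ := by
    rw [hσ]
    exact (J'.orderEmbOfFin hJ'c).injective
  obtain ⟨W, hW⟩ : ∃ W : Matrix (Fin (n + n)) (Fin (n + n)) L, W = Matrix.projVandermonde
    (fun r => algebraMap k L (v (σ r))) (fun r => algebraMap k L (u (σ r))) := ⟨_, rfl⟩
  have hWd : W = (algebraMap k L).mapMatrix (Matrix.projVandermonde (fun r => v (σ r))
      (fun r => u (σ r))) := by
    rw [hW]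
    exact Matrix.projVandermonde_map (algebraMap k L) _ _
  have hW0 : (Matrix.projVandermonde (fun r => v (σ r)) (fun r => u (σ r))).det ≠ 0 :=
    projVandermonde_ne fun i j hij => by
      have := huv (σ i) (σ j) fun h => hij (hσi h)
      rwa [mul_comm, mul_comm (v (σ i))]
  have hWdet : W.det = algebraMap k L (Matrix.projVandermonde (fun r => v (σ r))
      (fun r => u (σ r))).det := by
    rw [hWd, RingHom.map_det]
  have hWne : W.det ≠ 0 := by
    rw [hWdet]
    exact (_root_.map_ne_zero _).2 hW0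
  have hWo : P.ord W.det = 0 := by
    rw [hWdet]
    exact P.ord_const hW0
  have hGe : Ge P (∑ r, o (σ r)) (W * sylvester (pol g) (pol fun j => δ (g j)) n n).det := by
    refine ge_det' P _ _ fun r c => ?_
    rw [Matrix.mul_apply]
    have hrow : ∀ i, W r i = algebraMap k L (v (σ r)) ^ (i : ℕ) *
        algebraMap k L (u (σ r)) ^ ((Fin.rev i : Fin (n + n)) : ℕ) := fun i => by
      rw [hW, Matrix.projVandermonde_apply]
    simp only [hrow]
    induction c using Fin.addCases with
    | left j =>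
      rw [row_left, ← lv_rnc, ← map_pow, ← map_pow, ← map_mul]
      simpa using (Ge.const (P := P) (v (σ r) ^ (j : ℕ) * u (σ r) ^ (n - 1 - j))).mul (h2 (σ r))
    | right j =>
      rw [row_right, ← lv_rnc, ← map_pow, ← map_pow, ← map_mul]
      simpa using (Ge.const (P := P) (v (σ r) ^ (j : ℕ) * u (σ r) ^ (n - 1 - j))).mul (h1 (σ r))
  rw [Matrix.det_mul] at hGe
  have hZd : (sylvester (pol g) (pol fun j => δ (g j)) n n).det = Z := hZ.symm
  rw [hZd] at hGe
  have h6 := hGe.resolve_left (mul_ne_zero hWne hZ0)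
  rw [P.ord_mul hWne hZ0, hWo, zero_add] at h6
  have h7 : ∑ r, o (σ r) = ∑ i, o i := by
    have h9 : ∑ r, o (σ r) = ∑ i ∈ Finset.univ.map ⟨σ, hσi⟩, o i := by
      rw [Finset.sum_map]
      rfl
    rw [h9]
    refine Finset.sum_subset (Finset.subset_univ _) fun i _ hi => ?_
    have hiJ : i ∉ J := by
      intro hiJ
      apply hi
      have h8 := hJJ' hiJ
      rw [Finset.mem_map]
      have h10 : i ∈ Set.range (J'.orderEmbOfFin hJ'c) := by
        rw [Finset.range_orderEmbOfFin]
        exact h8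
      obtain ⟨r, hr⟩ := h10
      refine ⟨r, Finset.mem_univ _, ?_⟩
      have h11 : σ r = J'.orderEmbOfFin hJ'c r := by rw [hσ]
      exact h11.trans hr
    rw [hJ, Finset.mem_filter, not_and, not_lt] at hiJ
    have h8 := hiJ (Finset.mem_univ _)
    have := hℓo i
    have := hℓge i
    rw [ho]
    simp only
    omega
  rw [h7, ho] at h6
  have h8 : ∑ i, (P.ord (lv (rnc n u v i) f) - s) ≤ P.ord Z := h6
  nlinarith


/-- From local estimates to an inequality for the height. -/
theorem glob_log {b : ℕ} {D : Derivation k L L} (hD : D ≠ 0) {f : Fin (n + 1) → L}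
    (hf : ∃ j, f j ≠ 0) {a : Fin q → Fin (n + 1) → k} (hne : ∀ i, lv (a i) f ≠ 0) {W : L}
    (S : Finset (Place k L))
    (hloc : ∀ P : Place k L, P ∉ S → 2 * b * pord P f + b * vo P D +
      ∑ i, max (P.ord (lv (a i) f) - pord P f - 1) 0 ≤ P.ord W)
    (hlocS : ∀ P : Place k L, P ∈ S → 2 * b * pord P f + b * (vo P D - 1) +
      ∑ i, (P.ord (lv (a i) f) - pord P f) ≤ P.ord W) {w : Fin q → ℝ}
    (hw : ∀ i, w i ≤ 1) (hmult : ∀ (P : Place k L), P ∉ S → ∀ i : Fin q,
      w i * ((P.ord (lv (a i) f) - pord P f : ℤ) : ℝ) ≤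
        ((max (P.ord (lv (a i) f) - pord P f - 1) 0 : ℤ) : ℝ)) :
    (∑ i, w i - 2 * b) * (pht k f : ℝ) ≤ b * ((canDeg k L + S.card : ℤ) : ℝ) := by
  classical
  obtain ⟨T1, hT1⟩ := exists_supp (k := k) Finset.univ f
  obtain ⟨T2, hT2⟩ := exists_supp (k := k) Finset.univ fun i => lv (a i) f
  obtain ⟨T3, hT3⟩ := exists_supp (k := k) (Finset.univ : Finset (Fin 1)) ![W]
  set T : Finset (Place k L) := T1 ∪ T2 ∪ T3 ∪ (vo_finite hD).toFinset ∪ S with hT
  have hTp : ∀ P, pord P f ≠ 0 → P ∈ T := by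
    intro P hP
    obtain ⟨j, _, hj⟩ := exists_pord P hf
    rw [← hj] at hP
    have := hT1 j (Finset.mem_univ _) P hP
    simp [hT, this]
  have hTv : ∀ P, vo P D ≠ 0 → P ∈ T := by
    intro P hP
    simp [hT, hP]
  have hTl : ∀ i, ∀ P : Place k L, P.ord (lv (a i) f) ≠ 0 → P ∈ T := by
    intro i P hP
    have := hT2 i (Finset.mem_univ _) P hP
    simp [hT, this]
  have hTW : ∀ P : Place k L, P.ord W ≠ 0 → P ∈ T := by
    intro P hP
    have := hT3 0 (Finset.mem_univ _) P hP
    simp [hT, this]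
  have hST : S ⊆ T := by
    rw [hT]
    exact Finset.subset_union_right
  have hs3 : ∑ P ∈ T, vo P D = - canDeg k L := canDeg_finset hD T hTv
  have hs4 : ∑ P ∈ T, pord P f = - pht k f := by
    unfold pht
    rw [neg_neg, finsum_eq_sum_of_support_subset (s := T)]
    intro P hP
    exact Finset.mem_coe.2 (hTp P hP)
  have hsa : ∀ i, ∑ P ∈ T, (P.ord (lv (a i) f) - pord P f) = pht k f := by
    intro i
    rw [Finset.sum_sub_distrib, hs4, sum_ord_finset _ T (hTl i)]
    ring
  have hcard : ∑ P ∈ T, (if P ∈ S then (1 : ℤ) else 0) = S.card := by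
    rw [Finset.sum_ite_mem, Finset.inter_eq_right.2 hST]
    simp
  have h1 := Finset.sum_le_sum fun P (_ : P ∈ T) => (show 2 * b * pord P f + b * vo P D
      - b * (if P ∈ S then (1 : ℤ) else 0) +
      ∑ i, (if P ∈ S then (P.ord (lv (a i) f) - pord P f) else
        max (P.ord (lv (a i) f) - pord P f - 1) 0) ≤ P.ord W by
    by_cases hP : P ∈ S
    · have := hlocS P hP
      simp only [hP, if_true]
      linarith
    · have := hloc P hP
      simp only [hP, if_false]
      linarith)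
  rw [sum_ord_finset W T hTW, Finset.sum_add_distrib, Finset.sum_sub_distrib,
    Finset.sum_add_distrib, ← Finset.mul_sum, ← Finset.mul_sum, ← Finset.mul_sum, hs3, hs4,
    hcard] at h1
  have h2 : ∑ P ∈ T, ∑ i, w i * ((P.ord (lv (a i) f) - pord P f : ℤ) : ℝ) =
      (∑ i, w i) * (pht k f : ℝ) := by
    rw [Finset.sum_comm, Finset.sum_mul]
    refine Finset.sum_congr rfl fun i _ => ?_
    rw [← Finset.mul_sum, ← hsa i]
    push_cast
    rfl
  have h3 : ∀ P ∈ T, ∑ i, w i * ((P.ord (lv (a i) f) - pord P f : ℤ) : ℝ) ≤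
      ((∑ i, (if P ∈ S then (P.ord (lv (a i) f) - pord P f) else
        max (P.ord (lv (a i) f) - pord P f - 1) 0) : ℤ) : ℝ) := by
    intro P _
    rw [Int.cast_sum]
    refine Finset.sum_le_sum fun i _ => ?_
    have hge : pord P f ≤ P.ord (lv (a i) f) :=
      one_le_of_ge (hne i) (lv_ge (a i) fun l => ge_pord P f l)
    by_cases hP : P ∈ S
    · simp only [hP, if_true]
      have h4 : (0 : ℝ) ≤ ((P.ord (lv (a i) f) - pord P f : ℤ) : ℝ) := by
        exact_mod_cast (by omega : (0 : ℤ) ≤ P.ord (lv (a i) f) - pord P f)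
      calc w i * ((P.ord (lv (a i) f) - pord P f : ℤ) : ℝ) ≤
          1 * ((P.ord (lv (a i) f) - pord P f : ℤ) : ℝ) :=
            mul_le_mul_of_nonneg_right (hw i) h4
        _ = _ := one_mul _
    · simp only [hP, if_false]
      exact hmult P hP i
  have h7 := Finset.sum_le_sum h3
  rw [h2] at h7
  have h8 : (∑ P ∈ T, ((∑ i, (if P ∈ S then (P.ord (lv (a i) f) - pord P f) else
        max (P.ord (lv (a i) f) - pord P f - 1) 0) : ℤ) : ℝ)) ≤
      2 * b * (pht k f : ℝ) + b * ((canDeg k L + S.card : ℤ) : ℝ) := by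
    have h9 : ∑ P ∈ T, ∑ i, (if P ∈ S then (P.ord (lv (a i) f) - pord P f) else
        max (P.ord (lv (a i) f) - pord P f - 1) 0) ≤
        2 * b * pht k f + b * (canDeg k L + S.card) := by linarith
    exact_mod_cast h9
  linarith

end Pool.Agent.K4H65.DM
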