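import Mathlib
import Pool.Agent.Helper386.D5V.Helper386_FF_Place

/-!
Closed subsets of `P^N × P^1 × ... × P^1` with multiple fibres over points of the lines.
-/

set_option autoImplicit false

open FF

namespace Pool.Agent.K4H65.DM

variable {k : Type} [Field k]

/-- Polynomials in the homogeneous coordinates `a 0, ..., a N` of `P^N` and the homogeneous
coordinates `b p 0, b p 1` of `n` projective lines. -/
abbrev MPoly (k : Type) [Field k] (N n : ℕ) := MvPolynomial (Fin (N + 1) ⊕ Fin n × Fin 2) k

/-- `G` is multihomogeneous: for some `d` and `D`, all its monomials have degree `d` in the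
variables `a i` and degree `D p` in the variables `b p 0, b p 1`. -/
def MHom {N n : ℕ} (G : MPoly k N n) : Prop :=
  ∃ (d : ℕ) (D : Fin n → ℕ), ∀ s ∈ G.support,
    ∑ i, s (Sum.inl i) = d ∧ ∀ p, ∑ l, s (Sum.inr (p, l)) = D p

/-- A closed subset of `P^N × P^1 × ... × P^1` (`n` lines), given by multihomogeneous equations. -/
structure ProdSet (k : Type) [Field k] (N n : ℕ) where
  eqs : Set (MPoly k N n)
  hom : ∀ G ∈ eqs, MHom G

/-- `(a, b)` are homogeneous coordinates of a point of `V` with values in the field `F`. -/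
structure ProdSet.Mem {N n : ℕ} (V : ProdSet k N n) {F : Type} [Field F] [Algebra k F]
    (a : Fin (N + 1) → F) (b : Fin n → Fin 2 → F) : Prop where
  a_ne : a ≠ 0
  b_ne : ∀ p, b p ≠ 0
  eq : ∀ G ∈ V.eqs, MvPolynomial.aeval (Sum.elim a fun v => b v.1 v.2) G = 0

/-- The arcs in `V` which are not contained in `R = 0` meet the fibre of `V` over the point `c` of
the `p`-th line (`c ∈ A p`) with contact order at least `m p c`, unless they do not meet it or are
contained in it. An arc is a point of `V` with values in a field `F ⊃ k` with a discrete valuation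
`P` which is trivial on `k`. (By the valuative criterion, on a smooth projective model of a
component of `V` on which the map to the `p`-th line is a morphism, this holds if all components of
the fibre over `c` have multiplicity at least `m p c`.) -/
def MultipleFibres {N n : ℕ} (V : ProdSet k N n) (R : MPoly k N n) (A : Fin n → Finset k)
    (m : Fin n → k → ℕ) : Prop :=
  ∀ (F : Type) [Field F] [Algebra k F] (P : Place k F) (a : Fin (N + 1) → F)
    (b : Fin n → Fin 2 → F), V.Mem a b →
      MvPolynomial.aeval (Sum.elim a fun v => b v.1 v.2) R ≠ 0 → ∀ p, ∀ c ∈ A p, b p 1 ≠ 0 →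
      b p 0 / b p 1 ≠ algebraMap k F c → 0 < P.ord (b p 0 / b p 1 - algebraMap k F c) →
        (m p c : ℤ) ≤ P.ord (b p 0 / b p 1 - algebraMap k F c)

/-- `⌈m / g⌉` -/
def cdiv (m g : ℕ) : ℕ := (m + g - 1) / g

/-- The set `S` of points of a line with the multiplicities `m` is wide in degree `r`: for all
`g, s ≥ 1` with `g * s ≤ r` the sum of the `1 - 1 / ⌈m c / g⌉` is larger than `2 * s`. This holds for
instance if `m c > r` for all `c` and `∑ (1 - 1 / m c) > 2 * r`, see `wide_of`. -/
def Wide (r : ℕ) (S : Finset k) (m : k → ℕ) : Prop :=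
  (∀ c ∈ S, 1 ≤ m c) ∧ ∀ g s : ℕ, 1 ≤ g → 1 ≤ s → g * s ≤ r →
    2 * (s : ℝ) < ∑ c ∈ S, (1 - 1 / (cdiv (m c) g : ℝ))

end Pool.Agent.K4H65.DM
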