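import Pool.Agent.Y221.FQ.Defs
import Pool.Agent.Helper386.D5V.Helper386_FF_Place

/-!
Morphisms from projective varieties to the projective line, and multiplicities of their fibres.
-/

set_option autoImplicit false

open FF Pool.Agent.W602.GT

namespace Pool.Agent.K4H65.DM

variable {m : ℕ} {κ : Type}

/-- A morphism from the projective variety `{Ψ = 0}` to the projective line: at every point it is
given by some of a set of pairs of forms of the same degree. -/
structure LineMap (Ψ : κ → MvPolynomial (Fin (m + 1)) ℂ) where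
  pairs : Set (MvPolynomial (Fin (m + 1)) ℂ × MvPolynomial (Fin (m + 1)) ℂ)
  form : ∀ h ∈ pairs, ∃ d, h.1.IsHomogeneous d ∧ h.2.IsHomogeneous d
  base : ∀ x ∈ Cone Ψ, ∃ h ∈ pairs, val x h.1 ≠ 0 ∨ val x h.2 ≠ 0
  glue : ∀ h ∈ pairs, ∀ h' ∈ pairs, ∀ x ∈ Cone Ψ,
    val x h.1 * val x h'.2 = val x h'.1 * val x h.2

variable {Ψ : κ → MvPolynomial (Fin (m + 1)) ℂ}

/-- `t 0, t 1` are homogeneous coordinates of the image of the point `u` of `{Ψ = 0}` (with
coordinates in a field `E ⊃ ℂ`). -/
structure LineMap.At (b : LineMap Ψ) {E : Type} [Field E] [Algebra ℂ E] (u : Fin (m + 1) → E)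
    (t : Fin 2 → E) : Prop where
  ne : t ≠ 0
  eq : ∀ h ∈ b.pairs, t 0 * val u h.2 = t 1 * val u h.1

/-- The arcs in `{Ψ = 0}` meet the fibre of `b` over `c ∈ A` with contact order at least `mu c`,
unless they do not meet it or are contained in it. An arc is a point `u` of `{Ψ = 0}` with
coordinates in a field `F ⊃ ℂ` with a discrete valuation `P` which is trivial on `ℂ`. (If `{Ψ = 0}`
is smooth this means that all components of the fibre have multiplicity at least `mu c`.) -/
def LineMap.Multiple (b : LineMap Ψ) (A : Finset ℂ) (mu : ℂ → ℕ) : Prop :=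
  ∀ (F : Type) [Field F] [Algebra ℂ F] (P : Place ℂ F) (u : Fin (m + 1) → F) (t : Fin 2 → F),
    u ≠ 0 → (∀ e, val u (Ψ e) = 0) → b.At u t → ∀ c ∈ A, t 1 ≠ 0 →
      t 0 / t 1 ≠ algebraMap ℂ F c → 0 < P.ord (t 0 / t 1 - algebraMap ℂ F c) →
        (mu c : ℤ) ≤ P.ord (t 0 / t 1 - algebraMap ℂ F c)

/-- The morphism from `{Ψ = 0}` to the product of `n` projective lines has finite fibres, at all
points with coordinates in extension fields `F` of `ℂ`: the ratios of the coordinates of every point
`u` of `{Ψ = 0}` over `F` are algebraic over the field which is generated by the coordinates of its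
images in the lines. -/
def FiniteFibres {n : ℕ} (b : Fin n → LineMap Ψ) : Prop :=
  ∀ (F : Type) [Field F] [Algebra ℂ F] (u : Fin (m + 1) → F) (t : Fin n → Fin 2 → F),
    u ≠ 0 → (∀ e, val u (Ψ e) = 0) → (∀ p, (b p).At u (t p)) → ∀ i j, u j ≠ 0 →
      IsAlgebraic (IntermediateField.adjoin ℂ (Set.range fun p => t p 0 / t p 1)) (u i / u j)

/-- The forms which vanish on the image under `G` of the fibre over the point with the homogeneous
coordinates `q p 0, q p 1` of the morphism `b` from `{Ψ = 0}` to the product of `n` projective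
lines. -/
def fibreImage {n M : ℕ} (G : Fin (M + 1) → MvPolynomial (Fin (m + 1)) ℂ)
    (b : Fin n → LineMap Ψ) (q : Fin n → Fin 2 → ℂ) :
    {H : MvPolynomial (Fin (M + 1)) ℂ // IsForm H ∧ ∀ x ∈ Cone Ψ, (∀ p, (b p).At x (q p)) →
      val (Pool.Agent.Y221.FQ.im G x) H = 0} → MvPolynomial (Fin (M + 1)) ℂ :=
  Subtype.val

end Pool.Agent.K4H65.DM
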