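import Pool.Agent.Y221.FQ.Sub
import Pool.Agent.K4H65.DM.Main
import Pool.Agent.K4H65.DM.FinDefs

/-!
Hyperbolicity of the images of finite morphisms from varieties with multiple fibres.
-/

set_option autoImplicit false
set_option linter.overlappingInstances false
set_option linter.unusedSectionVars false

open FF IntermediateField Filter

namespace Pool.Agent.K4H65.DM

open Pool.Agent.W602.GT Pool.Agent.Y221.FQ Pool.Agent.TH143.EL Pool.Agent.TH466.QG

variable {m M n : ℕ} {κ μ : Type} {Ψ : κ → MvPolynomial (Fin (m + 1)) ℂ}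
  {Φ : μ → MvPolynomial (Fin (M + 1)) ℂ} {G : Fin (M + 1) → MvPolynomial (Fin (m + 1)) ℂ}

theorem exists_at (b : LineMap Ψ) {E : Type} [Field E] [Algebra ℂ E] {u : Fin (m + 1) → E}
    (hu : u ≠ 0) (huΨ : ∀ e, val u (Ψ e) = 0) : ∃ t, b.At u t := by
  have h1 : ∃ h ∈ b.pairs, val u h.1 ≠ 0 ∨ val u h.2 ≠ 0 := by
    by_contra hcon
    push Not at hcon
    obtain ⟨j, hj⟩ := Function.ne_iff.1 hu
    obtain ⟨x, hx, hx0⟩ := specialise (k := ℂ) u (MvPolynomial.X j) (by
      rw [MvPolynomial.aeval_X]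
      exact hj)
    rw [MvPolynomial.aeval_X] at hx
    have hxc : x ∈ Cone Ψ := ⟨fun h0 => hx (congrFun h0 j), fun e => hx0 _ (huΨ e)⟩
    obtain ⟨h, hh, h2⟩ := b.base x hxc
    rcases h2 with h2 | h2
    · exact h2 (hx0 _ (hcon h hh).1)
    · exact h2 (hx0 _ (hcon h hh).2)
  obtain ⟨h, hh, h2⟩ := h1
  refine ⟨![val u h.1, val u h.2], ?_, fun h' hh' => ?_⟩
  · rcases h2 with h2 | h2
    · exact Function.ne_iff.2 ⟨0, h2⟩
    · exact Function.ne_iff.2 ⟨1, h2⟩
  · have h3 := van_of_cone hu huΨ (H := h.1 * h'.2 - h'.1 * h.2) (fun x hx => by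
      unfold Pool.Agent.W602.GT.val
      rw [map_sub, map_mul, map_mul, sub_eq_zero]
      exact b.glue h hh h' hh' x hx)
    unfold Pool.Agent.W602.GT.val at h3 ⊢
    rw [map_sub, map_mul, map_mul, sub_eq_zero] at h3
    simp only [Matrix.cons_val_zero, Matrix.cons_val_one]
    rw [h3]
    ring

/-- the field of the lifted point is algebraic -/
theorem lift_alg' {K E : Type} [Field K] [Field E]
    [Algebra ℂ K] [Algebra ℂ E] [Algebra K E] [IsScalarTower ℂ K E] {z : Fin (M + 1) → K}
    (hgen : coords ℂ z = ⊤) {u : Fin (m + 1) → E} {c : E}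
    (hc0 : c ≠ 0) (hcz : ∀ j, algebraMap K E (z j) = c * im G u j)
    (htop : IntermediateField.adjoin K (Set.range u) = ⊤) {C : IntermediateField ℂ E}
    (hu0 : ∀ i, IsAlgebraic C (u i)) :
    Algebra.IsAlgebraic C E := by
  have hu : ∀ i, u i ∈ algebraicClosure C E := by
    intro i
    rw [mem_algebraicClosure_iff]
    exact hu0 i
  have hval : ∀ T : MvPolynomial (Fin (m + 1)) ℂ, val u T ∈ algebraicClosure C E := by
    intro T
    unfold Pool.Agent.W602.GT.val
    rw [MvPolynomial.aeval_def, MvPolynomial.eval₂_eq']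
    refine sum_mem fun α _ => mul_mem ?_ (prod_mem fun i _ => _root_.pow_mem (hu i) _)
    have h2 : algebraMap ℂ E (MvPolynomial.coeff α T) =
        algebraMap C E (algebraMap ℂ C (MvPolynomial.coeff α T)) := by
      rw [← IsScalarTower.algebraMap_apply]
    rw [h2]
    exact (algebraicClosure C E).algebraMap_mem _
  have hK : ∀ x : K, algebraMap K E x ∈ algebraicClosure C E := by
    intro x
    have h1 : coords ℂ z ≤ ((algebraicClosure C E).restrictScalars ℂ).comap
        (IsScalarTower.toAlgHom ℂ K E) := by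
      unfold Pool.Agent.W602.GT.coords
      rw [IntermediateField.adjoin_le_iff]
      rintro _ ⟨i, j, hj, rfl⟩
      change algebraMap K E (z i / z j) ∈ algebraicClosure C E
      have h2 : algebraMap K E (z i / z j) = im G u i / im G u j := by
        rw [map_div₀, hcz, hcz, mul_div_mul_left _ _ hc0]
      rw [h2]
      exact div_mem (hval _) (hval _)
    exact h1 (by rw [hgen]; exact IntermediateField.mem_top)
  have hle : IntermediateField.adjoin K (Set.range u) ≤
      (algebraicClosure C E).toSubfield.toIntermediateField hK := by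
    rw [IntermediateField.adjoin_le_iff]
    rintro _ ⟨i, rfl⟩
    exact hu i
  rw [htop] at hle
  refine ⟨fun x => ?_⟩
  have h1 : x ∈ algebraicClosure C E := hle (IntermediateField.mem_top (F := K) (x := x))
  rw [mem_algebraicClosure_iff] at h1
  exact h1

/-- the multiplicities of the coordinates on the lines -/
theorem mult_at {b : LineMap Ψ} {A : Finset ℂ} {mu : ℂ → ℕ} (hb : b.Multiple A mu)
    {E : Type} [Field E] [Algebra ℂ E] {u : Fin (m + 1) → E} (hu : u ≠ 0)
    (huΨ : ∀ e, val u (Ψ e) = 0) {t : Fin 2 → E} (ht : b.At u t) {c : ℂ} (hc : c ∈ A)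
    (Q : Place ℂ E) (h1 : t 0 / t 1 ≠ algebraMap ℂ E c)
    (h2 : 0 < Q.ord (t 0 / t 1 - algebraMap ℂ E c)) :
    (mu c : ℤ) ≤ Q.ord (t 0 / t 1 - algebraMap ℂ E c) := by
  by_cases hp : t 1 = 0
  · exfalso
    rw [hp, div_zero, zero_sub, Q.ord_neg] at h2
    have h3 : c ≠ 0 := by
      rintro rfl
      apply h1
      rw [hp, div_zero, map_zero]
    rw [Q.ord_const h3] at h2
    exact lt_irrefl _ h2
  · exact hb E Q u t hu huΨ ht c hc hp h1 h2

variable {r : ℕ} {A : Fin n → Finset ℂ} {mu : Fin n → ℂ → ℕ}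

/-- **Entire curves.** -/
theorem entire_fin (hΨ : ∀ e, IsForm (Ψ e)) (hG : Mor Ψ Φ G)
    (hon : Onto Ψ Φ G) (hfib : FibresLe Ψ G r) {b : Fin n → LineMap Ψ}
    (hb : ∀ p, (b p).Multiple (A p) (mu p)) (hwide : ∀ p, Wide r (A p) (mu p))
    (hfin : FiniteFibres b) {f : ℂ → Fin (M + 1) → ℂ} (hf : Entire Φ f) : False := by
  classical
  obtain ⟨f', hf'⟩ : ∃ f' : Fin (M + 1) → ℂ → ℂ, ∀ i t, f' i t = f t i := ⟨_, fun _ _ => rfl⟩
  have hff : ∀ t, (fun i => f' i t) = f t := fun t => funext fun i => hf' i t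
  have hhol : ∀ i, Differentiable ℂ (f' i) := by
    intro i
    have : f' i = fun t => f t i := funext (hf' i)
    rw [this]
    exact hf.hol i
  have hmer : ∀ i, Meromorphic (f' i) := fun i t =>
    ((hhol i).analyticAt t).meromorphicAt
  obtain ⟨z, hzdef⟩ : ∃ z : Fin (M + 1) → MK, z = fun i => cl (f' i) (hmer i) := ⟨_, rfl⟩
  have hcont : ∀ T : MvPolynomial (Fin (M + 1)) ℂ,
      Continuous fun t => MvPolynomial.eval (fun i => f' i t) T := fun T =>
    (MvPolynomial.continuous_eval T).comp (continuous_pi fun i => (hhol i).continuous)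
  have hvz : ∀ T : MvPolynomial (Fin (M + 1)) ℂ, val z T = 0 ↔ ∀ t, val (f t) T = 0 := by
    intro T
    rw [hzdef, val_cl hmer T, cl_eq_zero]
    have h1 : ∀ t, MvPolynomial.eval (fun i => f' i t) T = val (f t) T := by
      intro t
      rw [hff]
      unfold Pool.Agent.W602.GT.val
      rw [MvPolynomial.aeval_eq_eval]
    constructor
    · intro h t
      rw [← h1]
      exact eq_of_codis (g := fun _ => 0) h (hcont T).continuousAt continuousAt_const
    · intro h
      exact Eventually.of_forall fun t => (h1 t).trans (h t)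
  have hzj : ∀ (a : ℂ) i j, z i = algebraMap ℂ MK a * z j → ∀ t, f t i = a * f t j := by
    intro a i j h t
    have h1 := (hvz (MvPolynomial.X i - MvPolynomial.C a * MvPolynomial.X j)).1 (by
      unfold Pool.Agent.W602.GT.val
      rw [map_sub, map_mul, MvPolynomial.aeval_X, MvPolynomial.aeval_X, MvPolynomial.aeval_C, h,
        sub_self]) t
    unfold Pool.Agent.W602.GT.val at h1
    rw [map_sub, map_mul, MvPolynomial.aeval_X, MvPolynomial.aeval_X, MvPolynomial.aeval_C,
      sub_eq_zero] at h1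
    exact h1
  have hz : z ≠ 0 := by
    intro h0
    apply (hf.mem 0).1
    funext i
    have h1 := hzj 0 i i (by rw [h0]; simp) 0
    rw [h1, zero_mul]
    rfl
  have hzΦ : ∀ e, val z (Φ e) = 0 := fun e => (hvz _).2 fun t => (hf.mem t).2 e
  obtain ⟨E, i1, i2, i3, i4, i5, u, i0, c, hrk, hu0, huΨ, hc0, hcz, -⟩ :=
    lift_point hΨ hG hon hfib hz hzΦ
  have hu : u ≠ 0 := by
    intro h0
    rw [h0] at hu0
    exact zero_ne_one hu0
  have hAt : ∀ p, ∃ t, (b p).At u t := fun p => exists_at (b p) hu huΨ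
  choose t ht using hAt
  have hconst : ∀ p, ∃ c : ℂ, t p 0 / t p 1 = algebraMap ℂ E c := by
    intro p
    refine algebroid_const hrk (a := fun i => ((A p).equivFin.symm i : ℂ))
      (fun i i' h => (A p).equivFin.symm.injective (Subtype.ext h))
      (m := fun i => mu p ((A p).equivFin.symm i : ℂ))
      (fun i => (hwide p).1 _ ((A p).equivFin.symm i).2) (fun g s hg hs hgs => ?_) _
      (fun Q i h1 h2 => ?_)
    · rw [← sum_equivFin (A p) (fun c => 1 - 1 / (cdiv (mu p c) g : ℝ))]
      exact (hwide p).2 g s hg hs hgs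
    · exact mult_at (hb p) hu huΨ (ht p) ((A p).equivFin.symm i).2 Q h1 h2
  have hbot : IntermediateField.adjoin ℂ (Set.range fun p => t p 0 / t p 1) = ⊥ := by
    rw [eq_bot_iff, IntermediateField.adjoin_le_iff]
    rintro _ ⟨p, rfl⟩
    obtain ⟨c, hc⟩ := hconst p
    change t p 0 / t p 1 ∈ _
    rw [hc]
    exact (⊥ : IntermediateField ℂ E).algebraMap_mem c
  have h2 : ∀ i, ∃ a : ℂ, algebraMap ℂ E a = u i := by
    intro i
    have h3 := hfin E u t hu huΨ ht i i0 (by rw [hu0]; exact one_ne_zero)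
    rw [hbot, hu0, div_one] at h3
    exact alg_mem h3
  choose a ha using h2
  have h3 : ∀ j, im G u j = algebraMap ℂ E (im G a j) := by
    intro j
    have h4 := val_map (Algebra.ofId ℂ E) (G j) a
    have h5 : (fun i => (Algebra.ofId ℂ E) (a i)) = u := funext ha
    rw [h5] at h4
    exact h4.symm
  obtain ⟨l, hl'⟩ := Function.ne_iff.1 hz
  have hl : z l ≠ 0 := hl'
  have hlE : algebraMap MK E (z l) ≠ 0 := by
    rw [Ne, map_eq_zero]
    exact hl
  have hul : im G a l ≠ 0 := by
    intro h0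
    have h4 := hcz l
    rw [h3, h0, map_zero, mul_zero] at h4
    exact hlE h4
  have h4 : ∀ j, z j = algebraMap ℂ MK (im G a j / im G a l) * z l := by
    intro j
    apply (algebraMap MK E).injective
    have hul' : algebraMap ℂ E (im G a l) ≠ 0 := by
      rw [Ne, map_eq_zero]
      exact hul
    rw [map_mul, ← IsScalarTower.algebraMap_apply ℂ MK E, hcz, hcz, h3, h3, map_div₀]
    field_simp
  obtain ⟨t1, t2, hli⟩ := hf.nonconst
  rw [LinearIndependent.pair_iff] at hli
  have h5 : ∀ t i, f t i = im G a i / im G a l * f t l := fun t i => hzj _ _ _ (h4 i) t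
  have h6 := hli (f t2 l) (-(f t1 l)) (by
    funext i
    simp only [Pi.add_apply, Pi.smul_apply, smul_eq_mul, Pi.zero_apply]
    rw [h5 t1 i, h5 t2 i]
    ring)
  apply (hf.mem t2).1
  funext i
  rw [h5 t2 i, h6.1, mul_zero]
  rfl

/-- **Subvarieties.** -/
theorem general_fin (hΨ : ∀ e, IsForm (Ψ e)) (hG : Mor Ψ Φ G)
    (hon : Onto Ψ Φ G) (hfib : FibresLe Ψ G r) {b : Fin n → LineMap Ψ}
    (hb : ∀ p, (b p).Multiple (A p) (mu p)) (hwide : ∀ p, Wide r (A p) (mu p))
    (hfin : FiniteFibres b) : AllGeneral Φ := by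
  intro K _ _ w z hw hz
  obtain ⟨E, i1, i2, i3, i4, i5, u, i0, c, hrk, hu0, huΨ, hc0, hcz, htop⟩ :=
    lift_point hΨ hG hon hfib hz.ne hz.mem
  have hu : u ≠ 0 := by
    intro h0
    rw [h0] at hu0
    exact zero_ne_one hu0
  have hAt : ∀ p, ∃ t, (b p).At u t := fun p => exists_at (b p) hu huΨ
  choose t ht using hAt
  have halg := lift_alg' (G := G) (C := IntermediateField.adjoin ℂ
    (Set.range fun p => t p 0 / t p 1)) hz.gen hc0 hcz htop (fun i => by
      have h3 := hfin E u t hu huΨ ht i i0 (by rw [hu0]; exact one_ne_zero)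
      rwa [hu0, div_one] at h3)
  exact gt_field (K := K) (E := E) hrk hz.dim (fun p => t p 0 / t p 1) (alg_adjoin halg) A mu
    hwide (fun p c hc Q h1 h2 => mult_at (hb p) hu huΨ (ht p) hc Q h1 h2)

end Pool.Agent.K4H65.DM
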