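import Pool.Agent.K4H65.DM.Contact
import Pool.Agent.K4H65.DM.Wts

/-!
Function fields over which there is an extension of small degree with functions of high
multiplicities over many points are of general type.
-/

set_option autoImplicit false
set_option linter.overlappingInstances false
set_option linter.unusedSectionVars false

open FF Polynomial Pool.Agent.W603.LV Pool.Agent.W602.GT Pool.Agent.Y190.BV

namespace Pool.Agent.K4H65.DM

section forms

variable {k K L : Type} [Field k] [Field K] [Field L] [Algebra k K] [Algebra k L] [Algebra K L]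
  [IsScalarTower k K L] {w : ℕ}

/-- the matrix of the values of the derived polynomials -/
noncomputable def mtx (f : Fin w → K[X]) (r : Fin w → L) (D : Fin w → Derivation k K K) :
    Matrix (Fin w) (Fin w) L :=
  Matrix.of fun i j => ev L ((f j).natDegree + 1) (fun m => D i ((f j).coeff m)) (r j)

theorem mtx_mul (f : Fin w → K[X]) (r : Fin w → L) (B : Matrix (Fin w) (Fin w) K)
    (D : Fin w → Derivation k K K) :
    mtx f r (fun i => ∑ l, B i l • D l) = (B.map (algebraMap K L)) * mtx f r D := by
  ext i j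
  rw [Matrix.mul_apply]
  change ev L ((f j).natDegree + 1) (fun m => (∑ l, B i l • D l) ((f j).coeff m)) (r j) =
    ∑ l, algebraMap K L (B i l) *
      ev L ((f j).natDegree + 1) (fun m => D l ((f j).coeff m)) (r j)
  have h0 : ∀ (s : Finset (Fin w)) (x : K), (∑ l ∈ s, B i l • D l) x
      = ∑ l ∈ s, B i l * D l x := by
    intro s x
    classical
    induction s using Finset.induction_on with
    | empty => simp
    | insert i s hi ih =>
      rw [Finset.sum_insert hi, Finset.sum_insert hi, Derivation.add_apply, ih]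
      rfl
  unfold ev
  simp only [h0, map_sum, map_mul, Finset.sum_mul, Finset.mul_sum]
  rw [Finset.sum_comm]
  refine Finset.sum_congr rfl fun l _ => Finset.sum_congr rfl fun m _ => ?_
  ring

variable {q : Fin w → ℕ}

/-- the denominator of the forms -/
noncomputable def dnm (c : ∀ j, Fin (q j) → ℕ) (a : ∀ j, Fin (q j) → k) (r : Fin w → L) : K :=
  ∏ j, ∏ i, (Algebra.norm K (r j - algebraMap k L (a j i))) ^ c j i

/-- the forms -/
noncomputable def frm (A : ℕ) (c : ∀ j, Fin (q j) → ℕ) (a : ∀ j, Fin (q j) → k)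
    (f : Fin w → K[X]) (r : Fin w → L) (ψ : K) (D : Fin w → Derivation k K K) : K :=
  ψ / dnm (K := K) c a r * (Algebra.norm K (mtx f r D).det) ^ A

theorem frm_pluri (A : ℕ) (c : ∀ j, Fin (q j) → ℕ) (a : ∀ j, Fin (q j) → k)
    (f : Fin w → K[X]) (r : Fin w → L) (ψ : K) :
    IsPluri (A * Module.finrank K L) (frm (k := k) A c a f r ψ) := by
  intro B D
  unfold frm
  have h1 : Algebra.norm K (mtx f r (fun i => ∑ j, B i j • D j)).det =
      B.det ^ Module.finrank K L * Algebra.norm K (mtx f r D).det := by
    rw [mtx_mul, Matrix.det_mul, map_mul]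
    congr 1
    have : (B.map (algebraMap K L)).det = algebraMap K L B.det := by
      rw [RingHom.map_det]; rfl
    rw [this, Algebra.norm_algebraMap]
  rw [h1, mul_pow, ← pow_mul, mul_comm (Module.finrank K L) A]
  ring

variable [FiniteDimensional K L] [IsGalois K L]

/-- **The forms have no poles.** -/
theorem ge_frm [CharZero k] {W : Place k L} {P : Place k K} {e : ℕ} (hWP : Over W P e)
    {b : Bool} (D : Fin w → Derivation k K K) (hD : ∀ i, DKind b P (D i)) (r : Fin w → L)
    (a : ∀ j, Fin (q j) → k) (ha : ∀ j, Function.Injective (a j)) (A : ℕ)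
    (c : ∀ j, Fin (q j) → ℕ) (hcA : ∀ j i, c j i ≤ A)
    (h0 : ∀ j i, r j ≠ algebraMap k L (a j i)) (hr : ∀ j (x : k), r j ≠ algebraMap k L x)
    (hram : b = true → ∀ j i, ct P (minpoly K (r j)) (a j i) = 0 ∨
      (A : ℤ) ≤ ((A : ℤ) - c j i) * ct P (minpoly K (r j)) (a j i))
    (hbound : ∀ j, 2 * (minpoly K (r j)).natDegree * A < ∑ i, c j i)
    (ψ : K) (hψ : Ge W (- ∑ j, ∑ s : L ≃ₐ[K] L, tau (W.comp (rs s)) (r j)) (algebraMap K L ψ)) :
    Ge W 0 (algebraMap K L (frm A c a (fun j => minpoly K (r j)) r ψ D)) := by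
  classical
  have hinf : Infinite k := inferInstance
  have hi : ∀ j, IsIntegral K (r j) := fun j => Algebra.IsIntegral.isIntegral _
  have hroot : ∀ j, ev L ((minpoly K (r j)).natDegree + 1) (minpoly K (r j)).coeff (r j) = 0 := by
    intro j
    rw [ev_eq_aeval]
    exact minpoly.aeval K (r j)
  have hent : ∀ (s : L ≃ₐ[K] L) (j : Fin w), ∃ N : ℤ,
      (∀ D : Derivation k K K, DKind b P D → Ge (W.comp (rs s)) N
        (ev L ((minpoly K (r j)).natDegree + 1) (fun m => D ((minpoly K (r j)).coeff m)) (r j))) ∧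
      (A : ℤ) * (e * cnt P (minpoly K (r j)) -
          (minpoly K (r j)).natDegree * tau (W.comp (rs s)) (r j)) +
        ∑ i, (c j i : ℤ) * vv (W.comp (rs s)) (r j) (a j i) ≤ A * N := fun s j =>
    entry (over_rs hWP s) (minpoly K (r j)).coeff (fun m _ => cnt_ge P _ m) (a j) (ha j) A (c j)
      (hcA j) (fun i => by
        rw [ev_eq_eval]
        exact minpoly_eval_ne (h0 j i)) (fun hb i => by
        rw [ev_eq_eval]
        have h1 := hram hb j i
        unfold ct at h1
        rcases h1 with h1 | h1
        · left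
          omega
        · right
          exact h1) (r j) (hroot j)
  choose N hN1 hN2 using hent
  have hden0 : dnm (K := K) c a r ≠ 0 := Finset.prod_ne_zero_iff.2 fun j _ =>
    Finset.prod_ne_zero_iff.2 fun i _ => pow_ne_zero _ (norm_ne (sub_ne_zero.2 (h0 j i)))
  have hden : W.ord (algebraMap K L (dnm c a r)) =
      ∑ s : L ≃ₐ[K] L, ∑ j, ∑ i, (c j i : ℤ) *
        (W.comp (rs s)).ord (r j - algebraMap k L (a j i)) := by
    unfold dnm
    rw [map_prod, ord_prod' W _ _ fun j _ => by
      rw [Ne, map_eq_zero]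
      exact Finset.prod_ne_zero_iff.2 fun i _ => pow_ne_zero _
        (norm_ne (sub_ne_zero.2 (h0 j i)))]
    rw [Finset.sum_comm]
    refine Finset.sum_congr rfl fun j _ => ?_
    rw [map_prod, ord_prod' W _ _ fun i _ => by
      rw [Ne, map_eq_zero]
      exact pow_ne_zero _ (norm_ne (sub_ne_zero.2 (h0 j i)))]
    rw [Finset.sum_comm]
    refine Finset.sum_congr rfl fun i _ => ?_
    rw [map_pow, W.ord_pow, ord_norm (sub_ne_zero.2 (h0 j i)), Finset.mul_sum]
  unfold frm
  rw [map_mul, map_div₀, map_pow]
  have h1 := ge_div ((_root_.map_ne_zero (algebraMap K L)).2 hden0) hψ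
  have h2 : Ge W (∑ s : L ≃ₐ[K] L, ∑ j, N s j)
      (algebraMap K L (Algebra.norm K (mtx (fun j => minpoly K (r j)) r D).det)) := by
    refine ge_norm _ fun s => ?_
    refine ge_det _ _ _ (fun i j => N s j) (fun i j => ?_) (fun σ => le_rfl)
    exact hN1 s j (D i) (hD i)
  refine (h1.mul (h2.pow A)).mono ?_
  rw [hden]
  -- the content
  have hcont : ∀ j, - (((minpoly K (r j)).natDegree : ℤ) *
      ∑ s : L ≃ₐ[K] L, tau (W.comp (rs s)) (r j)) ≤
      (Module.finrank K L : ℤ) * (e * cnt P (minpoly K (r j))) := by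
    intro j
    obtain ⟨x, hx⟩ := (bad_finite P (minpoly.ne_zero (hi j))).infinite_compl.nonempty
    simp only [Set.mem_compl_iff, Set.mem_ofPred_eq, not_not] at hx
    have h3 := ord_norm_sub (K := K) P (hr j x)
    rw [hx.2] at h3
    have h4 : (e : ℤ) * P.ord (Algebra.norm K (r j - algebraMap k L x)) =
        ∑ s : L ≃ₐ[K] L, (W.comp (rs s)).ord (r j - algebraMap k L x) := by
      rw [← hWP.2, ord_norm (sub_ne_zero.2 (hr j x))]
    have h5 : - ∑ s : L ≃ₐ[K] L, tau (W.comp (rs s)) (r j) ≤
        ∑ s : L ≃ₐ[K] L, (W.comp (rs s)).ord (r j - algebraMap k L x) := by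
      rw [← Finset.sum_neg_distrib]
      exact Finset.sum_le_sum fun s _ =>
        (ge_sub_const _ (r j) x).resolve_left (sub_ne_zero.2 (hr j x))
    calc - (((minpoly K (r j)).natDegree : ℤ) * ∑ s : L ≃ₐ[K] L, tau (W.comp (rs s)) (r j))
        = ((minpoly K (r j)).natDegree : ℤ) *
            (- ∑ s : L ≃ₐ[K] L, tau (W.comp (rs s)) (r j)) := by ring
      _ ≤ ((minpoly K (r j)).natDegree : ℤ) *
            ∑ s : L ≃ₐ[K] L, (W.comp (rs s)).ord (r j - algebraMap k L x) :=
          mul_le_mul_of_nonneg_left h5 (by positivity)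
      _ = e * (((minpoly K (r j)).natDegree : ℤ) *
            P.ord (Algebra.norm K (r j - algebraMap k L x))) := by rw [← h4]; ring
      _ = _ := by rw [h3]; ring
  have hG : (Fintype.card (L ≃ₐ[K] L) : ℤ) = Module.finrank K L := by
    rw [← Nat.card_eq_fintype_card]
    exact_mod_cast IsGalois.card_aut_eq_finrank K L
  -- the main inequality
  have hmain : ∀ j, (∑ s : L ≃ₐ[K] L, tau (W.comp (rs s)) (r j)) +
      ∑ s : L ≃ₐ[K] L, ∑ i, (c j i : ℤ) *
        (W.comp (rs s)).ord (r j - algebraMap k L (a j i)) ≤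
      ∑ s : L ≃ₐ[K] L, (A : ℤ) * N s j := by
    intro j
    set S := ∑ s : L ≃ₐ[K] L, tau (W.comp (rs s)) (r j) with hS
    have hS0 : 0 ≤ S := Finset.sum_nonneg fun s _ => tau_nonneg _ _
    have h4 : ∀ s : L ≃ₐ[K] L, (A : ℤ) * (e * cnt P (minpoly K (r j))) +
        ((∑ i, (c j i : ℤ)) - A * (minpoly K (r j)).natDegree) * tau (W.comp (rs s)) (r j) +
        ∑ i, (c j i : ℤ) * (W.comp (rs s)).ord (r j - algebraMap k L (a j i)) ≤ A * N s j := by
      intro s
      have h5 := hN2 s j
      have h6 : ∑ i, (c j i : ℤ) * vv (W.comp (rs s)) (r j) (a j i) =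
          ∑ i, (c j i : ℤ) * (W.comp (rs s)).ord (r j - algebraMap k L (a j i)) +
          (∑ i, (c j i : ℤ)) * tau (W.comp (rs s)) (r j) := by
        unfold vv
        simp only [mul_add, Finset.sum_add_distrib, Finset.sum_mul]
      rw [h6] at h5
      linarith
    have h8 := Finset.sum_le_sum fun s (_ : s ∈ Finset.univ) => h4 s
    refine le_trans ?_ h8
    simp only [Finset.sum_add_distrib, Finset.sum_const, Finset.card_univ, nsmul_eq_mul,
      ← Finset.mul_sum]
    rw [hG, ← hS]
    have h9 := mul_le_mul_of_nonneg_left (hcont j) (show (0 : ℤ) ≤ A by positivity)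
    rw [← hS] at h9
    have h10 : (2 * (minpoly K (r j)).natDegree * A : ℤ) + 1 ≤ ∑ i, (c j i : ℤ) := by
      exact_mod_cast hbound j
    have h11 : 0 ≤ ((∑ i, (c j i : ℤ)) - (2 * (minpoly K (r j)).natDegree * A : ℤ) - 1) * S :=
      mul_nonneg (by linarith) hS0
    nlinarith
  have h12 := Finset.sum_le_sum fun j (_ : j ∈ Finset.univ) => hmain j
  rw [Finset.sum_add_distrib] at h12
  have h13 : ∑ j, ∑ s : L ≃ₐ[K] L, (A : ℤ) * N s j = A * ∑ s : L ≃ₐ[K] L, ∑ j, N s j := by
    rw [Finset.sum_comm, Finset.mul_sum]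
    exact Finset.sum_congr rfl fun s _ => (Finset.mul_sum _ _ _).symm
  have h14 : ∑ j, ∑ s : L ≃ₐ[K] L, ∑ i, (c j i : ℤ) *
        (W.comp (rs s)).ord (r j - algebraMap k L (a j i)) =
      ∑ s : L ≃ₐ[K] L, ∑ j, ∑ i, (c j i : ℤ) *
        (W.comp (rs s)).ord (r j - algebraMap k L (a j i)) := Finset.sum_comm
  rw [h13, h14] at h12
  linarith

/-- **General type**, for a given Galois extension and a transcendence basis. -/
theorem gt_galois [IsAlgClosed k] [CharZero k] (htr : Algebra.trdeg k K = w) (r : Fin w → L)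
    (hbas0 : IsTranscendenceBasis k r)
    (a : ∀ j, Fin (q j) → k) (ha : ∀ j, Function.Injective (a j)) (A : ℕ) (hA : 0 < A)
    (c : ∀ j, Fin (q j) → ℕ) (hcA : ∀ j i, c j i ≤ A)
    (hbound : ∀ j, 2 * (minpoly K (r j)).natDegree * A < ∑ i, c j i) (Bd : Place k K → Prop)
    (hram : ∀ P : Place k K, Divisorial w P → ¬ Bd P → ∀ j i,
      ct P (minpoly K (r j)) (a j i) = 0 ∨
      (A : ℤ) ≤ ((A : ℤ) - c j i) * ct P (minpoly K (r j)) (a j i)) :
    LogGeneralType k K w Bd := by
  classical
  have hchK : CharZero K := charZero_of_injective_algebraMap (algebraMap k K).injective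
  have hinf : Infinite k := inferInstance
  have hi : ∀ j, IsIntegral K (r j) := fun j => Algebra.IsIntegral.isIntegral _
  have hr : ∀ j (x : k), r j ≠ algebraMap k L x := by
    intro j x h
    have h1 := hbas0.1.transcendental j
    rw [h] at h1
    exact h1 (isAlgebraic_algebraMap x)
  have hS : Algebra.IsAlgebraic (Algebra.adjoin k (Set.range r)) L := hbas0.isAlgebraic
  obtain ⟨ii, yy, hbas⟩ := exists_norm_basis (K := K) htr r hS
  set x : Fin w → K := fun j => Algebra.norm K (r (ii j) - algebraMap k L (yy j)) with hx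
  let ψ : Fin (w + 1) → K := Fin.cases 1 x
  let ω : Fin (w + 1) → (Fin w → Derivation k K K) → K := fun j =>
    frm A c a (fun j => minpoly K (r j)) r (ψ j)
  have hreg : ∀ (b : Bool) (P : Place k K), (b = true → ∀ j i,
      ct P (minpoly K (r j)) (a j i) = 0 ∨
      (A : ℤ) ≤ ((A : ℤ) - c j i) * ct P (minpoly K (r j)) (a j i)) →
      ∀ j D, (∀ i, DKind b P (D i)) → P.Reg (ω j D) := by
    intro b P hb j D hD
    obtain ⟨S, T, _, hT, hsum⟩ := exists_places_over (K' := L) P
    have hSne : S.Nonempty := by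
      by_contra hcon
      rw [Finset.not_nonempty_iff_eq_empty] at hcon
      rw [hcon, Finset.sum_empty] at hsum
      have : 0 < Module.finrank K L := Module.finrank_pos
      omega
    obtain ⟨W, hW⟩ := hSne
    obtain ⟨e, hWP, _⟩ := hT W hW
    rw [← hWP.reg]
    refine ge_frm hWP D hD r a ha A c hcA (fun j i => hr j _) hr hb hbound (ψ j) ?_
    have hTT : ∀ j, 0 ≤ ∑ s : L ≃ₐ[K] L, tau (W.comp (rs s)) (r j) := fun j =>
      Finset.sum_nonneg fun s _ => tau_nonneg _ _
    refine Fin.cases ?_ (fun j => ?_) j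
    · change Ge W _ (algebraMap K L 1)
      rw [map_one]
      refine Ge.one.mono ?_
      have := Finset.sum_nonneg fun j (_ : j ∈ Finset.univ) => hTT j
      omega
    · change Ge W _ (algebraMap K L (x j))
      have hg : Ge W (∑ s : L ≃ₐ[K] L, - tau (W.comp (rs s)) (r (ii j)))
          (algebraMap K L (x j)) := ge_norm _ fun s => ge_sub_const _ (r (ii j)) (yy j)
      rw [Finset.sum_neg_distrib] at hg
      refine hg.mono ?_
      have := Finset.single_le_sum (fun j (_ : j ∈ Finset.univ) => hTT j)
          (Finset.mem_univ (ii j))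
      omega
  refine ⟨htr, A * Module.finrank K L, Nat.mul_pos hA Module.finrank_pos, ω, fun j => ?_, ?_, ?_,
    ?_⟩
  · exact frm_pluri _ _ _ _ _ _
  · intro P _ j D hD
    exact hreg false P (fun h => absurd h (by simp)) j D hD
  · intro P hP hBd j D hD
    exact hreg true P (fun _ => hram P hP hBd) j D hD
  · -- vector fields on which the forms do not vanish
    have hD : ∀ i : Fin w, ∃ D : Derivation k K K, ∀ j, D (x j) = if i = j then 1 else 0 :=
      fun i => exists_der x hbas (fun j => if i = j then 1 else 0)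
    choose D hD using hD
    have hE : ∀ i, ∃ E : Derivation k L L, ∀ x : K, E (algebraMap K L x) =
        algebraMap K L (D i x) := fun i => exists_ext (D i)
    choose E hE using hE
    have hdet : (Matrix.of fun i j => E i (r j)).det ≠ 0 := by
      intro hl
      obtain ⟨v, hv0, hv⟩ := Matrix.exists_vecMul_eq_zero_iff.2 hl
      have h1 : (∑ i, v i • E i : Derivation k L L) = 0 := by
        apply der_ext r hbas0
        intro j
        rw [sum_smul_der]
        have := congrFun hv j
        exact this
      apply hv0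
      funext j
      have h2 : (∑ i, v i • E i : Derivation k L L) (algebraMap K L (x j)) = v j := by
        rw [sum_smul_der, Finset.sum_eq_single j]
        · rw [hE, hD, if_pos rfl, map_one, mul_one]
        · intro i _ hij
          rw [hE, hD, if_neg hij, map_zero, mul_zero]
        · intro h
          exact absurd (Finset.mem_univ j) h
      rw [h1] at h2
      exact h2.symm
    have hder : ∀ i j,
        ev L ((minpoly K (r j)).natDegree + 1) (fun m => D i ((minpoly K (r j)).coeff m)) (r j) =
          (- Polynomial.aeval (r j) (Polynomial.derivative (minpoly K (r j)))) * E i (r j) := by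
      intro i j
      have h1 := der_ev (hE i) ((minpoly K (r j)).natDegree + 1) (minpoly K (r j)).coeff (r j)
      rw [ev_eq_aeval, minpoly.aeval, map_zero] at h1
      have h2 : (∑ m ∈ Finset.range ((minpoly K (r j)).natDegree + 1),
          algebraMap K L ((minpoly K (r j)).coeff m) * ((m : L) * r j ^ (m - 1))) =
          Polynomial.aeval (r j) (Polynomial.derivative (minpoly K (r j))) := by
        exact sum_derivative _ _
      rw [h2] at h1
      linear_combination -h1
    have hphi : ω 0 D ≠ 0 := by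
      change frm A c a (fun j => minpoly K (r j)) r 1 D ≠ 0
      unfold frm
      have hden : dnm (K := K) c a r ≠ 0 := Finset.prod_ne_zero_iff.2 fun j _ =>
        Finset.prod_ne_zero_iff.2 fun i _ => pow_ne_zero _ (norm_ne (sub_ne_zero.2 (hr j _)))
      refine mul_ne_zero (div_ne_zero one_ne_zero hden) (pow_ne_zero _ (norm_ne ?_))
      have h1 : mtx (fun j => minpoly K (r j)) r D = Matrix.of fun i j =>
          (fun j => - Polynomial.aeval (r j) (Polynomial.derivative (minpoly K (r j)))) j *
            (Matrix.of fun i j => E i (r j)) i j := by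
        ext i j
        exact hder i j
      rw [h1, Matrix.det_mul_row
        (fun j => - Polynomial.aeval (r j) (Polynomial.derivative (minpoly K (r j))))
        (Matrix.of fun i j => E i (r j))]
      refine mul_ne_zero (Finset.prod_ne_zero_iff.2 fun j _ => neg_ne_zero.2 ?_) hdet
      exact (minpoly.irreducible (hi j)).separable.aeval_derivative_ne_zero (minpoly.aeval K (r j))
    refine ⟨D, hphi, ?_⟩
    have h2 : (fun i : Fin w => ω i.succ D / ω 0 D) = x := by
      funext i
      rw [div_eq_iff hphi]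
      change frm A c a (fun j => minpoly K (r j)) r (x i) D =
        x i * frm A c a (fun j => minpoly K (r j)) r 1 D
      unfold frm
      ring
    rw [h2]
    exact hbas.1

end forms

end Pool.Agent.K4H65.DM
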