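import Pool.Agent.K4H65.DM.Bound

/-!
Affine varieties which are dominated by varieties with multiple fibres and fibres at infinity.
-/

set_option autoImplicit false
set_option linter.overlappingInstances false
set_option linter.unusedSectionVars false

open FF Pool.Agent.W603.LV

namespace Pool.Agent.K4H65.DM

open Pool.Agent.W602.GT Pool.Agent.TH466.QG Pool.Agent.Y221.AH Pool.Agent.Y221.PB
open Pool.Agent.W603.PV (pht pht_le hgt_algebraMap)

section

variable {k : Type} [Field k]

/-- The arcs in `V` which are not contained in `R = 0` and do not meet the fibres of `V` over the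
points of the finite sets `B q` of the lines (the fibres at infinity) meet the fibre of `V` over the
point `c` of the `p`-th line (`c ∈ A p`) with contact order at least `m p c`, unless they do not
meet it or are contained in it. An arc is a point of `V` with values in a field `F ⊃ k` with a
discrete valuation `P` which is trivial on `k`. -/
def MultipleFibresOff {N n : ℕ} (V : ProdSet k N n) (R : MPoly k N n) (B A : Fin n → Finset k)
    (m : Fin n → k → ℕ) : Prop :=
  ∀ (F : Type) [Field F] [Algebra k F] (P : Place k F) (a : Fin (N + 1) → F)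
    (b : Fin n → Fin 2 → F), V.Mem a b →
      MvPolynomial.aeval (Sum.elim a fun v => b v.1 v.2) R ≠ 0 →
      (∀ q, ∀ c ∈ B q, b q 1 = 0 ∨ b q 0 / b q 1 ≠ algebraMap k F c ∧
        P.ord (b q 0 / b q 1 - algebraMap k F c) ≤ 0) →
      ∀ p, ∀ c ∈ A p, b p 1 ≠ 0 →
      b p 0 / b p 1 ≠ algebraMap k F c → 0 < P.ord (b p 0 / b p 1 - algebraMap k F c) →
        (m p c : ℤ) ≤ P.ord (b p 0 / b p 1 - algebraMap k F c)

/-- The sets `B` (of points at infinity) and `S` (with the multiplicities `m`) of points of a line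
are wide in degree `r`: they are disjoint, and for all `g, s ≥ 1` with `g * s ≤ r` the sum of the
number of points of `B` and of the `1 - 1 / ⌈m c / g⌉`, `c ∈ S`, is larger than `2 * s`. -/
def WideOff (r : ℕ) (B S : Finset k) (m : k → ℕ) : Prop :=
  Disjoint B S ∧ (∀ c ∈ S, 1 ≤ m c) ∧ ∀ g s : ℕ, 1 ≤ g → 1 ≤ s → g * s ≤ r →
    2 * (s : ℝ) < B.card + ∑ c ∈ S, (1 - 1 / (cdiv (m c) g : ℝ))

/-- the multiplicity `0` stands for infinity -/
noncomputable def mInf (B : Finset k) (m : k → ℕ) (c : k) : ℕ := by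
  classical
  exact if c ∈ B then 0 else m c

theorem wideOff_sum [DecidableEq k] {r : ℕ} {B S : Finset k} {m : k → ℕ} (h : WideOff r B S m) :
    ∀ g s : ℕ, 1 ≤ g → 1 ≤ s → g * s ≤ r →
      2 * (s : ℝ) < ∑ c ∈ B ∪ S, (1 - 1 / (cdiv (mInf B m c) g : ℝ)) := by
  classical
  intro g s hg hs hgs
  refine lt_of_lt_of_eq (h.2.2 g s hg hs hgs) ?_
  rw [Finset.sum_union h.1]
  congr 1
  · rw [Finset.sum_congr rfl fun c hc => show (1 - 1 / (cdiv (mInf B m c) g : ℝ)) = 1 by
      unfold mInf
      rw [if_pos hc, cdiv_zero]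
      simp]
    simp
  · refine Finset.sum_congr rfl fun c hc => ?_
    unfold mInf
    rw [if_neg fun hB => (Finset.disjoint_left.1 h.1) hB hc]

/-- **Specializations of integral elements.** -/
theorem sp_integral {K' E : Type} [Field K'] [Field E] [Algebra k K'] [Algebra k E]
    (S : Sp k K' E) {M : ℕ} {x : Fin M → K'} {f : Fin M → E} (hxf : ∀ j, S.T (x j) (f j))
    {z : K'} {z' : E} (hz : IsIntegral (Algebra.adjoin k (Set.range x)) z) (hzz : S.T z z')
    (Q : Place k E) (hQ : ∀ j, Q.Reg (f j)) : Q.Reg z' := by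
  classical
  obtain ⟨p, hp, he⟩ := hz
  have hG : ∀ i, ∃ G : MvPolynomial (Fin M) k, MvPolynomial.aeval x G = (p.coeff i : K') := by
    intro i
    have h1 : (p.coeff i : K') ∈ Algebra.adjoin k (Set.range x) := (p.coeff i).2
    generalize (p.coeff i : K') = w at h1 ⊢
    rw [Algebra.adjoin_range_eq_range_aeval] at h1
    exact h1
  choose G hG using hG
  have hrel : ∑ i ∈ Finset.range p.natDegree, MvPolynomial.aeval x (G i) * z ^ i +
      z ^ p.natDegree = 0 := by
    rw [Polynomial.eval₂_eq_sum_range, Finset.sum_range_succ, hp.coeff_natDegree, map_one,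
      one_mul] at he
    rw [← he]
    congr 1
    exact Finset.sum_congr rfl fun i _ => by rw [hG]; rfl
  have hrel' : ∑ i ∈ Finset.range p.natDegree, MvPolynomial.aeval f (G i) * z' ^ i +
      z' ^ p.natDegree = 0 := by
    refine S.eq_zero (S.add (S.sum _ fun i _ => S.mul (sp_aeval S hxf (G i)) (S.pow hzz i))
      (S.pow hzz _)) hrel
  have hreg : ∀ H : MvPolynomial (Fin M) k, Ge Q 0 (MvPolynomial.aeval f H) := by
    intro H
    rw [MvPolynomial.aeval_eq_eval₂Hom, MvPolynomial.coe_eval₂Hom, MvPolynomial.eval₂_eq']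
    refine Ge.sum _ _ fun α _ => ?_
    have h1 : Ge Q 0 (∏ i, f i ^ α i) := by
      have := Ge.prod (P := Q) Finset.univ (fun i => f i ^ α i) (fun _ => 0) (fun i _ => by
        have h2 : Ge Q 0 (f i) := hQ i
        have := h2.pow (α i)
        simpa using this)
      simpa using this
    simpa using (Ge.const (P := Q) (MvPolynomial.coeff α H)).mul h1
  by_contra hcon
  have hz0 : z' ≠ 0 := fun h => hcon (Or.inl h)
  have ho : Q.ord z' < 0 := by
    by_contra h
    exact hcon (Or.inr (by omega))
  obtain ⟨o, hoo⟩ : ∃ o, o = Q.ord z' := ⟨_, rfl⟩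
  rw [← hoo] at ho
  have h1 : Ge Q (((p.natDegree : ℤ) - 1) * o)
      (∑ i ∈ Finset.range p.natDegree, MvPolynomial.aeval f (G i) * z' ^ i) := by
    refine Ge.sum _ _ fun i hi => ?_
    have h2 : Ge Q (i * o) (z' ^ i) := by
      right
      rw [Q.ord_pow, hoo]
    refine ((hreg (G i)).mul h2).mono ?_
    have h3 : (i : ℤ) ≤ p.natDegree - 1 := by
      have := Finset.mem_range.1 hi
      omega
    nlinarith
  have h4 : ∑ i ∈ Finset.range p.natDegree, MvPolynomial.aeval f (G i) * z' ^ i =
      - z' ^ p.natDegree := by linear_combination hrel'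
  rw [h4] at h1
  have h5 := h1.neg
  rw [neg_neg] at h5
  have h6 := h5.resolve_left (pow_ne_zero _ hz0)
  rw [Q.ord_pow, ← hoo] at h6
  nlinarith

variable {N n : ℕ}

/-- **Specializations have the same multiplicities.** -/
theorem spec_multOff {V : ProdSet k N n} {R : MPoly k N n} (hRh : MHom R) {B A : Fin n → Finset k}
    {m : Fin n → k → ℕ} (hV : MultipleFibresOff V R B A m)
    {K' : Type} [Field K'] [Algebra k K'] [DecidableEq K']
    {a : Fin (N + 1) → K'}
    {b : Fin n → Fin 2 → K'} (hab : V.Mem a b)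
    (hR : MvPolynomial.aeval (Sum.elim a fun v => b v.1 v.2) R ≠ 0) {i0 : Fin (N + 1)}
    (hi0 : a i0 ≠ 0)
    {E : Type} [Field E] [Algebra k E] (S : Sp k K' E)
    (hS : ∀ ϑ ∈ theta R a b i0, ∃ z, S.T ϑ z) {t' : Fin n → E}
    (ht' : ∀ p, S.T (b p 0 / b p 1) (t' p)) (Q : Place k E)
    (hB : ∀ q, ∀ c ∈ B q, b q 1 = 0 ∨ t' q ≠ algebraMap k E c ∧
      Q.ord (t' q - algebraMap k E c) ≤ 0) (p : Fin n) {c : k} (hc : c ∈ A p)
    (hne : t' p ≠ algebraMap k E c) (hpos : 0 < Q.ord (t' p - algebraMap k E c)) :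
    (m p c : ℤ) ≤ Q.ord (t' p - algebraMap k E c) := by
  classical
  have hS1 : ∀ i, ∃ z, S.T (a i / a i0) z := fun i => hS _ (Or.inl ⟨i, rfl⟩)
  choose a' ha' using hS1
  obtain ⟨v, hv0, hv⟩ := nb_eq b hab.b_ne
  have hia : ∀ i, a i / a i0 = (a i0)⁻¹ * a i := fun i => by rw [div_eq_mul_inv, mul_comm]
  have hnorm : V.Mem (fun i => a i / a i0) (nb b) := by
    have h1 := hab.scale (u := (a i0)⁻¹) (inv_ne_zero hi0) hv0
    convert h1 using 1
    · funext i
      exact hia i
    · funext p l
      exact hv p l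
  have hRn : MvPolynomial.aeval (Sum.elim (fun i => a i / a i0) fun w => nb b w.1 w.2) R ≠ 0 := by
    obtain ⟨d, D, hD⟩ := hRh
    have h1 := aeval_scale hD a b (a i0)⁻¹ v
    have h2 : (fun i => (a i0)⁻¹ * a i) = fun i => a i / a i0 := funext fun i => (hia i).symm
    have h3 : (fun w : Fin n × Fin 2 => v w.1 * b w.1 w.2) = fun w => nb b w.1 w.2 :=
      funext fun w => (hv w.1 w.2).symm
    rw [h2, h3] at h1
    rw [h1]
    exact mul_ne_zero (mul_ne_zero (pow_ne_zero _ (inv_ne_zero hi0))
      (Finset.prod_ne_zero_iff.2 fun p _ => pow_ne_zero _ (hv0 p))) hR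
  let b' : Fin n → Fin 2 → E := fun p => if b p 1 = 0 then ![1, 0] else ![t' p, 1]
  have hsp : ∀ G : MPoly k N n, S.T
      (MvPolynomial.aeval (Sum.elim (fun i => a i / a i0) fun w => nb b w.1 w.2) G)
      (MvPolynomial.aeval (Sum.elim a' fun w => b' w.1 w.2) G) := by
    intro G
    refine sp_aeval S ?_ G
    rintro (i | ⟨q, l⟩)
    · exact ha' i
    · simp only [Sum.elim_inr]
      unfold nb
      by_cases hq : b q 1 = 0
      · simp only [b', hq, if_true]
        fin_cases l
        · exact S.one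
        · exact S.zero
      · simp only [b', hq, if_false]
        fin_cases l
        · exact ht' q
        · exact S.one
  have hmem : V.Mem a' b' := by
    refine ⟨?_, ?_, ?_⟩
    · intro h0
      have h1 := ha' i0
      rw [div_self hi0] at h1
      have h2 : a' i0 = 1 := S.ext h1 S.one
      rw [h0] at h2
      exact zero_ne_one h2
    · intro q h0
      by_cases hq : b q 1 = 0
      · have h1 := congrFun h0 0
        simp only [b', hq, if_true] at h1
        simp at h1
      · have h1 := congrFun h0 1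
        simp only [b', hq, if_false] at h1
        simp at h1
    · intro G hG
      exact S.eq_zero (hsp G) (hnorm.eq G hG)
  have hR' : MvPolynomial.aeval (Sum.elim a' fun w => b' w.1 w.2) R ≠ 0 :=
    S.ne_zero (hsp R) (hS _ (Or.inr rfl)) hRn
  have hq1 : ∀ q, b q 1 ≠ 0 → b' q 0 / b' q 1 = t' q := by
    intro q hq
    simp only [b', hq, if_false]
    simp
  have hq2 : ∀ q, b q 1 = 0 → b' q 1 = 0 := by
    intro q hq
    simp only [b', hq, if_true]
    simp
  by_cases hp : b p 1 = 0
  · exfalso
    have h1 := ht' p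
    rw [hp, div_zero] at h1
    have h2 : t' p = 0 := S.ext h1 S.zero
    rw [h2, zero_sub, Q.ord_neg] at hpos
    have h3 : c ≠ 0 := by
      rintro rfl
      apply hne
      rw [h2, map_zero]
    rw [Q.ord_const h3] at hpos
    exact lt_irrefl _ hpos
  · have h1 := hq1 p hp
    have h2 : b' p 1 ≠ 0 := by
      simp only [b', hp, if_false]
      simp
    have h3 := hV E Q a' b' hmem hR' (fun q c hc => by
      by_cases hq : b q 1 = 0
      · exact Or.inl (hq2 q hq)
      · right
        rw [hq1 q hq]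
        exact (hB q c hc).resolve_left hq) p c hc h2 (by rw [h1]; exact hne)
        (by rw [h1]; exact hpos)
    rwa [h1] at h3

end

end Pool.Agent.K4H65.DM
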