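import Pool.Agent.K4H65.DM.BogField

/-!
General type and Bogomolov sheaves from several functions of high multiplicities, each in an
extension of small degree.
-/

set_option autoImplicit false
set_option linter.overlappingInstances false
set_option linter.unusedSectionVars false

open FF Polynomial Pool.Agent.W603.LV Pool.Agent.W602.GT Pool.Agent.Y190.BV

namespace Pool.Agent.K4H65.DM

section

variable {k K L : Type} [Field k] [CharZero k] [IsAlgClosed k] [Field K] [Field L] [Algebra k K]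
  [Algebra k L] [Algebra K L] [IsScalarTower k K L] [FiniteDimensional K L] [IsGalois K L]

/-- a part of a transcendence basis among the conjugates -/
theorem conj_basis {n : ℕ} (τ : Fin n → L) :
    ∃ (d : ℕ) (ρ : Fin d → L) (s : Fin d → (L ≃ₐ[K] L)) (g : Fin d → Fin n),
      AlgebraicIndependent k ρ ∧ (∀ j, s j (τ (g j)) = ρ j) ∧
      ∀ (t : L ≃ₐ[K] L) p, IsAlgebraic (Algebra.adjoin k (Set.range ρ)) (t (τ p)) := by
  classical
  obtain ⟨M, hM⟩ : ∃ M, M = AlgebraicIndependent.matroid k L := ⟨_, rfl⟩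
  have hcl : ∀ (S : Set L) (t : L), t ∈ M.closure S ↔ IsAlgebraic (Algebra.adjoin k S) t := by
    intro S t
    rw [hM, AlgebraicIndependent.matroid_closure_eq]
    exact Subalgebra.mem_algebraicClosure _ _
  have hME : ∀ S : Set L, S ⊆ M.E := by
    intro S
    rw [hM, AlgebraicIndependent.matroid_e]
    exact Set.subset_univ _
  obtain ⟨R, hR⟩ : ∃ R : Set L, R = Set.range fun p : (L ≃ₐ[K] L) × Fin n => p.1 (τ p.2) :=
    ⟨_, rfl⟩
  have hRf : R.Finite := by
    rw [hR]
    exact Set.finite_range _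
  obtain ⟨J, hJ⟩ := M.exists_isBasis R (hME R)
  have hJf : J.Finite := hRf.subset hJ.subset
  have : Finite J := hJf
  obtain ⟨d, hd⟩ : ∃ d, d = Nat.card J := ⟨_, rfl⟩
  let eq := (Finite.equivFinOfCardEq hd.symm).symm
  have hJi : AlgebraicIndepOn k id J := by
    have h2 := hJ.indep
    rw [hM, AlgebraicIndependent.matroid_indep_iff] at h2
    exact h2
  let ρ : Fin d → L := fun j => (eq j : L)
  have hρi : AlgebraicIndependent k ρ := AlgebraicIndependent.comp hJi eq eq.injective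
  have hρr : Set.range ρ = J := by
    ext y
    constructor
    · rintro ⟨l, rfl⟩
      exact (eq l).2
    · intro hy
      exact ⟨eq.symm ⟨y, hy⟩, by simp [ρ]⟩
  have hρR : ∀ j, ∃ p : (L ≃ₐ[K] L) × Fin n, p.1 (τ p.2) = ρ j := by
    intro j
    have h1 : ρ j ∈ R := hJ.subset (eq j).2
    rw [hR] at h1
    exact h1
  choose pp hpp using hρR
  refine ⟨d, ρ, fun j => (pp j).1, fun j => (pp j).2, hρi, hpp, fun t p => ?_⟩
  rw [hρr, ← hcl, hJ.closure_eq_closure]
  refine M.subset_closure _ (hME R) ?_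
  rw [hR]
  exact ⟨(t, p), rfl⟩

/-- the weights -/
theorem multi_data {n d w : ℕ} (τ : Fin n → L) (A : Fin n → Finset k) (m : Fin n → k → ℕ)
    (γ : Fin n → ℕ) (hγ : ∀ j, 1 ≤ γ j)
    (hsum : ∀ j, 2 * ((minpoly K (τ j)).natDegree : ℝ) <
      ∑ c ∈ A j, (1 - 1 / (cdiv (m j c) (γ j) : ℝ))) (Bd : Place k K → Prop)
    (hct : ∀ P : Place k K, Divisorial w P → ¬ Bd P → ∀ j, ∀ c ∈ A j, τ j ≠ algebraMap k L c →
      ct P (minpoly K (τ j)) c = 0 ∨
        (m j c ≠ 0 ∧ (cdiv (m j c) (γ j) : ℤ) ≤ ct P (minpoly K (τ j)) c))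
    (ρ : Fin d → L) (s : Fin d → (L ≃ₐ[K] L)) (g : Fin d → Fin n)
    (hρi : AlgebraicIndependent k ρ) (hs : ∀ j, s j (τ (g j)) = ρ j) :
    ∃ (q : Fin d → ℕ) (a : ∀ j, Fin (q j) → k) (T : ℕ) (c : ∀ j, Fin (q j) → ℕ),
      (∀ j, Function.Injective (a j)) ∧ 0 < T ∧ (∀ j i, c j i ≤ T) ∧
      (∀ j, 2 * (minpoly K (ρ j)).natDegree * T < ∑ i, c j i) ∧
      ∀ P : Place k K, Divisorial w P → ¬ Bd P → ∀ j i,
        ct P (minpoly K (ρ j)) (a j i) = 0 ∨
        (T : ℤ) ≤ ((T : ℤ) - c j i) * ct P (minpoly K (ρ j)) (a j i) := by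
  classical
  obtain ⟨x, hxdef⟩ : ∃ x : Fin d → L, x = fun j => τ (g j) := ⟨_, rfl⟩
  have hρx : ∀ j, (s j) (x j) = ρ j := by
    intro j
    rw [hxdef]
    exact hs j
  have hmp : ∀ j, minpoly K (ρ j) = minpoly K (x j) := by
    intro j
    rw [← hρx j, minpoly.algEquiv_eq]
  let a : ∀ j : Fin d, Fin (A (g j)).card → k := fun j i => ((A (g j)).equivFin.symm i : k)
  have haA : ∀ j i, a j i ∈ A (g j) := fun j i => ((A (g j)).equivFin.symm i).2
  have hainj : ∀ j, Function.Injective (a j) := fun j i i' h =>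
    (A (g j)).equivFin.symm.injective (Subtype.ext h)
  have hwts : ∀ j : Fin d, ∃ (B : ℕ) (c : Fin (A (g j)).card → ℕ), 0 < B ∧ (∀ i, c i ≤ B) ∧
      2 * (minpoly K (x j)).natDegree * B < ∑ i, c i ∧
      ∀ i, cdiv (m (g j) (a j i)) (γ (g j)) ≠ 0 → ∀ b, cdiv (m (g j) (a j i)) (γ (g j)) ≤ b →
        B + c i * b ≤ B * b := by
    intro j
    refine exists_wts2 (m := fun i => cdiv (m (g j) (a j i)) (γ (g j))) ?_
    have h1 := hsum (g j)
    have h2 : x j = τ (g j) := by rw [hxdef]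
    rw [h2]
    refine lt_of_lt_of_eq h1 ?_
    rw [← Finset.sum_coe_sort (A (g j)) (fun c => (1 - 1 / (cdiv (m (g j) c) (γ (g j)) : ℝ)))]
    exact (Equiv.sum_comp (A (g j)).equivFin.symm
      (fun c : A (g j) => (1 - 1 / (cdiv (m (g j) (c : k)) (γ (g j)) : ℝ)))).symm
  choose B c hB0 hcB hcsum hwt using hwts
  obtain ⟨T, hT⟩ : ∃ T, T = ∏ j, B j := ⟨_, rfl⟩
  have hTpos : 0 < T := by
    rw [hT]
    exact Finset.prod_pos fun j _ => hB0 j
  have hdvd : ∀ j, ∃ b, T = B j * b := fun j => by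
    rw [hT]
    exact Finset.dvd_prod_of_mem _ (Finset.mem_univ j)
  choose b hb using hdvd
  have hb0 : ∀ j, 0 < b j := fun j => by
    rcases Nat.eq_zero_or_pos (b j) with h | h
    · have := hb j
      rw [h, mul_zero] at this
      omega
    · exact h
  have hxc : ∀ j (y : k), x j ≠ algebraMap k L y := by
    intro j y h
    have h1 := hρi.transcendental j
    rw [← hρx j, h, IsScalarTower.algebraMap_apply k K L, AlgEquiv.commutes,
      ← IsScalarTower.algebraMap_apply k K L] at h1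
    exact h1 (isAlgebraic_algebraMap y)
  refine ⟨fun j => (A (g j)).card, a, T, fun j i => c j i * b j, hainj, hTpos,
    fun j i => ?_, fun j => ?_, fun P hPd hPB j i => ?_⟩
  · rw [hb j]
    exact Nat.mul_le_mul_right _ (hcB j i)
  · rw [hmp, ← Finset.sum_mul]
    calc 2 * (minpoly K (x j)).natDegree * T
        = 2 * (minpoly K (x j)).natDegree * B j * b j := by rw [hb j]; ring
      _ < _ := Nat.mul_lt_mul_of_pos_right (hcsum j) (hb0 j)
  · rw [hmp]
    have hxj : x j = τ (g j) := by rw [hxdef]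
    have h1 := hct P hPd hPB (g j) (a j i) (haA j i) (by rw [← hxj]; exact hxc j _)
    rw [← hxj] at h1
    rcases h1 with h1 | ⟨hm0, h1⟩
    · exact Or.inl h1
    right
    have hcne : cdiv (m (g j) (a j i)) (γ (g j)) ≠ 0 := by
      have := cdiv_pos (hγ (g j)) (Nat.one_le_iff_ne_zero.2 hm0)
      omega
    have hct0 : 0 ≤ ct P (minpoly K (x j)) (a j i) := le_trans (by positivity) h1
    obtain ⟨u, hu⟩ := Int.eq_ofNat_of_zero_le hct0
    rw [hu] at h1 ⊢
    have h4 := hwt j i hcne u (by exact_mod_cast h1)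
    have h5 := Nat.mul_le_mul_right (b j) h4
    have h6 : (T : ℤ) = B j * b j := by exact_mod_cast hb j
    have h7 : ((B j : ℤ) + c j i * u) * b j ≤ B j * u * b j := by exact_mod_cast h5
    push_cast
    rw [h6]
    linarith

/-- **Bogomolov sheaves**, from several functions. -/
theorem multi_bog {n w : ℕ} (τ : Fin n → L) (htau : ∃ j, Transcendental k (τ j))
    (A : Fin n → Finset k) (m : Fin n → k → ℕ)
    (γ : Fin n → ℕ) (hγ : ∀ j, 1 ≤ γ j)
    (hsum : ∀ j, 2 * ((minpoly K (τ j)).natDegree : ℝ) <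
      ∑ c ∈ A j, (1 - 1 / (cdiv (m j c) (γ j) : ℝ))) (Bd : Place k K → Prop)
    (hct : ∀ P : Place k K, Divisorial w P → ¬ Bd P → ∀ j, ∀ c ∈ A j, τ j ≠ algebraMap k L c →
      ct P (minpoly K (τ j)) c = 0 ∨
        (m j c ≠ 0 ∧ (cdiv (m j c) (γ j) : ℤ) ≤ ct P (minpoly K (τ j)) c)) :
    ¬ Special k K w Bd := by
  classical
  obtain ⟨d, ρ, s, g, hρi, hs, hcon⟩ := conj_basis (k := k) (K := K) τ
  obtain ⟨q, a, T, c, ha, hT, hcT, hb, hram⟩ := multi_data (w := w) τ A m γ hγ hsum Bd hct ρ s g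
    hρi hs
  have hd1 : 1 ≤ d := by
    by_contra hcon'
    have hd0 : d = 0 := by omega
    obtain ⟨p, hp⟩ := htau
    have h2 := hcon AlgEquiv.refl p
    have h3 : Set.range ρ = ∅ := by
      rw [Set.range_eq_empty_iff]
      rw [hd0]
      infer_instance
    rw [h3, Algebra.adjoin_empty] at h2
    exact hp (h2.restrictScalars k)
  refine fun hsp => hsp d hd1 (bog_galois ρ hρi (fun t j => ?_) a ha T hT c hcT hb Bd hram)
  rw [← hs j]
  exact hcon ((s j).trans t) (g j)

/-- **General type**, from several functions. -/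
theorem multi_gt {n w : ℕ} (htr : Algebra.trdeg k K = w) (τ : Fin n → L)
    (halg : ∀ y : K, IsAlgebraic (Algebra.adjoin k (Set.range τ)) (algebraMap K L y))
    (A : Fin n → Finset k) (m : Fin n → k → ℕ)
    (γ : Fin n → ℕ) (hγ : ∀ j, 1 ≤ γ j)
    (hsum : ∀ j, 2 * ((minpoly K (τ j)).natDegree : ℝ) <
      ∑ c ∈ A j, (1 - 1 / (cdiv (m j c) (γ j) : ℝ))) (Bd : Place k K → Prop)
    (hct : ∀ P : Place k K, Divisorial w P → ¬ Bd P → ∀ j, ∀ c ∈ A j, τ j ≠ algebraMap k L c →
      ct P (minpoly K (τ j)) c = 0 ∨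
        (m j c ≠ 0 ∧ (cdiv (m j c) (γ j) : ℤ) ≤ ct P (minpoly K (τ j)) c)) :
    LogGeneralType k K w Bd := by
  classical
  obtain ⟨d, ρ, s, g, hρi, hs, hcon⟩ := conj_basis (k := k) (K := K) τ
  obtain ⟨M, hM⟩ : ∃ M, M = AlgebraicIndependent.matroid k L := ⟨_, rfl⟩
  have hcl : ∀ (S : Set L) (t : L), t ∈ M.closure S ↔ IsAlgebraic (Algebra.adjoin k S) t := by
    intro S t
    rw [hM, AlgebraicIndependent.matroid_closure_eq]
    exact Subalgebra.mem_algebraicClosure _ _
  have h1 : Set.range τ ⊆ M.closure (Set.range ρ) := by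
    rintro _ ⟨p, rfl⟩
    rw [hcl]
    exact hcon AlgEquiv.refl p
  have h2 : Set.range (algebraMap K L) ⊆ M.closure (Set.range ρ) := by
    rintro _ ⟨y, rfl⟩
    have h3 : algebraMap K L y ∈ M.closure (Set.range τ) := (hcl _ _).2 (halg y)
    have h4 := M.closure_subset_closure h1
    rw [M.closure_closure] at h4
    exact h4 h3
  have h3 : ∀ t : L, IsAlgebraic (Algebra.adjoin k (Set.range ρ)) t := by
    intro t
    rw [← hcl]
    have h4 := M.closure_subset_closure h2
    rw [M.closure_closure] at h4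
    apply h4
    rw [hcl]
    have h5 : IsAlgebraic K t := Algebra.IsAlgebraic.isAlgebraic t
    let φ : K →+* Algebra.adjoin k (Set.range (algebraMap K L)) :=
      { toFun := fun x => ⟨algebraMap K L x, Algebra.subset_adjoin ⟨x, rfl⟩⟩
        map_one' := Subtype.ext (map_one _)
        map_mul' := fun x y => Subtype.ext (map_mul _ _ _)
        map_zero' := Subtype.ext (map_zero _)
        map_add' := fun x y => Subtype.ext (map_add _ _ _) }
    let _ : Algebra K (Algebra.adjoin k (Set.range (algebraMap K L))) := φ.toAlgebra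
    have : IsScalarTower K (Algebra.adjoin k (Set.range (algebraMap K L))) L :=
      IsScalarTower.of_algebraMap_eq fun x => rfl
    exact h5.extendScalars φ.injective
  have hbas : IsTranscendenceBasis k ρ := by
    rw [isTranscendenceBasis_iff_algebraicIndependent_isAlgebraic]
    exact ⟨hρi, ⟨h3⟩⟩
  have hdw : d = w := by
    have h4 := hbas.cardinalMk_eq_trdeg
    rw [trdeg_ext (K := K), htr, Cardinal.mk_fin] at h4
    exact_mod_cast h4
  subst hdw
  obtain ⟨q, a, T, c, ha, hT, hcT, hb, hram⟩ := multi_data (w := d) τ A m γ hγ hsum Bd hct ρ s g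
    hρi hs
  exact gt_galois htr ρ hbas a ha T hT c hcT hb Bd hram

end

section

variable {k K E L : Type} [Field k] [CharZero k] [IsAlgClosed k] [Field K] [Field E] [Field L]
  [Algebra k K] [Algebra k E] [Algebra K E] [IsScalarTower k K E] [FiniteDimensional K E]

/-- the contact orders of a function with multiplicities in an extension -/
theorem ct_of_mult {r : ℕ} (hr : Module.finrank K E ≤ r) {A : Finset k} {m : k → ℕ}
    (hw : Wide r A m) (x : E) (hmult : ∀ c ∈ A, ∀ Q : Place k E, x ≠ algebraMap k E c →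
      0 < Q.ord (x - algebraMap k E c) → (m c : ℤ) ≤ Q.ord (x - algebraMap k E c)) :
    ∃ γ : ℕ, 1 ≤ γ ∧ 2 * ((minpoly K x).natDegree : ℝ) <
      ∑ c ∈ A, (1 - 1 / (cdiv (m c) γ : ℝ)) ∧
      ∀ P : Place k K, ∀ c ∈ A, x ≠ algebraMap k E c →
        ct P (minpoly K x) c = 0 ∨ (m c ≠ 0 ∧ (cdiv (m c) γ : ℤ) ≤ ct P (minpoly K x) c) := by
  classical
  have hinf : Infinite k := inferInstance
  have hi : IsIntegral K x := Algebra.IsIntegral.isIntegral _
  have hs1 : 1 ≤ (minpoly K x).natDegree := minpoly.natDegree_pos hi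
  obtain ⟨γ, hγ, -⟩ := norm_sub (K := K) x 0
  have hfin0 : 0 < Module.finrank K E := Module.finrank_pos
  have hγ1 : 1 ≤ γ := by
    rcases Nat.eq_zero_or_pos γ with h | h
    · rw [h, mul_zero] at hγ
      omega
    · exact h
  refine ⟨γ, hγ1, hw.2 γ _ hγ1 hs1 (by rw [mul_comm, hγ]; exact hr), fun P c hc hxc => ?_⟩
  have hm0 : m c ≠ 0 := by
    have := hw.1 c hc
    omega
  have h1 := contact (K := K) P hxc (m := (m c : ℤ)) (fun Q e hQP hQ => hmult c hc Q hxc hQ)
  rcases h1 with h1 | h1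
  · exact Or.inl h1
  right
  refine ⟨hm0, ?_⟩
  have hct : 0 ≤ ct P (minpoly K x) c := ct_nonneg P (minpoly_eval_ne hxc)
  obtain ⟨u, hu⟩ := Int.eq_ofNat_of_zero_le hct
  rw [hu] at h1 ⊢
  have h3 : m c * (minpoly K x).natDegree ≤ Module.finrank K E * u := by
    exact_mod_cast h1
  have h4 : cdiv (m c) γ ≤ u := by
    refine cdiv_le hγ1 ?_
    rw [← hγ] at h3
    refine Nat.le_of_mul_le_mul_right (c := (minpoly K x).natDegree) ?_ hs1
    calc m c * (minpoly K x).natDegree
        ≤ (minpoly K x).natDegree * γ * u := h3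
      _ = γ * u * (minpoly K x).natDegree := by ring
  exact_mod_cast h4

end

end Pool.Agent.K4H65.DM
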