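import Pool.Agent.Helper386.D5V.Helper399_FF4

/-!
Norms and places: the order of a norm is at least the order of the element at each place above.
-/

set_option autoImplicit false
set_option linter.all false
set_option linter.overlappingInstances false

open Module FF IsDedekindDomain

namespace Pool.Agent.K4H65.DM

section
variable {k K K' : Type*} [Field k] [Field K] [Field K'] [Algebra k K] [Algebra k K'] [Algebra K K']
  [IsScalarTower k K K']

/-- **Norms.** -/
theorem norm_ge [CharZero k] [FiniteDimensional K K'] (P : Place k K) {x : K'} (hx : x ≠ 0)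
    (hreg : ∀ (R : Place k K') (e : ℕ), Over R P e → R.Reg x) :
    P.Reg (Algebra.norm K x) ∧ ∀ (Q : Place k K') (e : ℕ), Over Q P e →
      Q.ord x ≤ P.ord (Algebra.norm K x) := by
  classical
  obtain ⟨t, ht0, ht⟩ := P.surj
  have htr : P.Reg t := Or.inr (by omega)
  have : IsDiscreteValuationRing P.O := P.isDVR
  have : CharZero K := charZero_of_injective_algebraMap (algebraMap k K).injective
  let iA : Algebra P.O K' := ((algebraMap K K').comp P.O.subtype).toAlgebra
  let ik : Algebra k P.O := ((algebraMap k K).codRestrict P.O (fun c => P.reg_const c)).toAlgebra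
  have : IsScalarTower P.O K K' := IsScalarTower.of_algebraMap_eq fun _ => rfl
  have : IsScalarTower k P.O K' := IsScalarTower.of_algebraMap_eq fun c => by
    rw [IsScalarTower.algebraMap_apply k K K']
    rfl
  have hirr : (⟨t, htr⟩ : P.O) ≠ 0 := fun h => ht0 (congrArg Subtype.val h)
  have hspan : Ideal.span {(⟨t, htr⟩ : P.O)} = IsLocalRing.maximalIdeal P.O := by
    apply le_antisymm
    · rw [Ideal.span_le, Set.singleton_subset_iff]
      show (⟨t, htr⟩ : P.O) ∈ IsLocalRing.maximalIdeal P.O
      rw [IsLocalRing.mem_maximalIdeal, mem_nonunits_iff, P.isUnit_O_iff htr]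
      rintro ⟨_, h⟩
      omega
    · rintro ⟨f, hf⟩ hm
      rw [IsLocalRing.mem_maximalIdeal, mem_nonunits_iff, P.isUnit_O_iff hf] at hm
      rw [Ideal.mem_span_singleton]
      by_cases hf0 : f = 0
      · exact ⟨0, Subtype.ext (by simp [hf0])⟩
      · have h2 := (P.reg_iff hf0).1 hf
        have h3 : P.ord f ≠ 0 := fun h => hm ⟨hf0, h⟩
        have h4 : P.Reg (f / t) := by
          right
          rw [P.ord_div hf0 ht0, ht]
          omega
        refine ⟨⟨f / t, h4⟩, Subtype.ext ?_⟩
        show f = t * (f / t)
        field_simp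
  let B := integralClosure P.O K'
  have : IsDedekindDomain B := integralClosure.isDedekindDomain P.O K K'
  have : IsFractionRing B K' := integralClosure.isFractionRing_of_finite_extension K K'
  have hfin : Module.Finite P.O B := IsIntegralClosure.finite P.O K K' B
  have hsc : IsScalarTower k B K' := by
    refine IsScalarTower.of_algebraMap_eq fun c => ?_
    rw [IsScalarTower.algebraMap_apply k P.O B, ← IsScalarTower.algebraMap_apply P.O B K',
      ← IsScalarTower.algebraMap_apply k P.O K']
  have hinj : Function.Injective (algebraMap P.O K') := by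
    rw [IsScalarTower.algebraMap_eq P.O K K']
    exact (algebraMap K K').injective.comp (IsFractionRing.injective P.O K)
  have htf : Module.IsTorsionFree P.O B := by
    have hinj' : Function.Injective (algebraMap P.O B) := by
      intro a b h
      apply hinj
      rw [IsScalarTower.algebraMap_apply P.O B K', IsScalarTower.algebraMap_apply P.O B K', h]
    exact Module.isTorsionFree_iff_algebraMap_injective.2 hinj'
  have hint : Algebra.IsIntegral P.O B := inferInstance
  -- the primes of `B` lie over the maximal ideal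
  have hcomap : ∀ v : HeightOneSpectrum B, v.asIdeal.comap (algebraMap P.O B) =
      IsLocalRing.maximalIdeal P.O := by
    intro v
    have hp := v.isPrime
    have h1 : (v.asIdeal.comap (algebraMap P.O B)).IsPrime := Ideal.IsPrime.comap _
    obtain ⟨b, hb, hb0⟩ := Submodule.exists_mem_ne_zero_of_ne_bot v.ne_bot
    have h2 : v.asIdeal.comap (algebraMap P.O B) ≠ ⊥ :=
      Ideal.comap_ne_bot_of_integral_mem hb0 hb (hint.isIntegral b)
    exact IsLocalRing.eq_maximalIdeal (h1.isMaximal h2)
  have hover : ∀ v : HeightOneSpectrum B,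
      ∃ e, Over (placeOf (k := k) (L := K') v) P e := by
    intro v
    have h1 : (⟨t, htr⟩ : P.O) ∈ v.asIdeal.comap (algebraMap P.O B) := by
      rw [hcomap v, ← hspan]
      exact Ideal.mem_span_singleton_self _
    have h2 := (placeOf_red_eq_zero (k := k) (L := K') v _).2 (Ideal.mem_comap.1 h1)
    have h3 : algebraMap B K' (algebraMap P.O B ⟨t, htr⟩) = algebraMap K K' t := by
      rw [← IsScalarTower.algebraMap_apply P.O B K']
      rfl
    rw [h3, Place.red_eq_zero_iff _ (by rw [← h3]; exact placeOf_reg v _)] at h2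
    have h4 := h2.resolve_left ((_root_.map_ne_zero _).2 ht0)
    refine ⟨_, over_of_reg _ P t ht0 ht (fun f hf => ?_) h4⟩
    have h5 := placeOf_reg (k := k) (L := K') v (algebraMap P.O B ⟨f, hf⟩)
    rw [← IsScalarTower.algebraMap_apply P.O B K'] at h5
    exact h5
  -- `x` is integral
  obtain ⟨b, hb⟩ : ∃ b : B, algebraMap B K' b = x := by
    apply HeightOneSpectrum.mem_integers_of_valuation_le_one K' x
    intro v
    obtain ⟨e, he⟩ := hover v
    have h1 := (Place.reg_iff _ hx).1 (hreg _ e he)
    exact (placeOf_nonneg v hx).1 h1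
  have hnorm : Algebra.norm K x = ((Algebra.intNorm P.O B b : P.O) : K) := by
    have := Algebra.algebraMap_intNorm (A := P.O) (K := K) (L := K') (B := B) b
    rw [hb] at this
    exact this.symm
  refine ⟨by rw [hnorm]; exact (Algebra.intNorm P.O B b).2, fun Q e hQ => ?_⟩
  have hregB : ∀ b : B, Q.Reg (algebraMap B K' b) := fun b =>
    Q.reg_of_isIntegral (A := P.O) (fun a => hQ.reg.2 a.2) b.2
  obtain ⟨v, rfl⟩ := exists_placeOf_eq (B := B) Q hregB
  obtain ⟨n, hn⟩ := Int.eq_ofNat_of_zero_le ((Place.reg_iff _ hx).1 (hreg _ e hQ))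
  rw [hn]
  have hbn : b ∈ v.asIdeal ^ n := by
    rw [← v.intValuation_le_pow_iff_mem]
    have h1 : v.valuation K' x = v.intValuation b := by
      rw [← hb, HeightOneSpectrum.valuation_of_algebraMap]
    have h2 : (placeOf (k := k) (L := K') v).ord x = - WithZero.log (v.valuation K' x) := rfl
    have h3 : v.valuation K' x ≠ 0 := (Valuation.ne_zero_iff _).2 hx
    rw [← h1]
    rw [hn] at h2
    rw [← WithZero.exp_log h3, WithZero.exp_le_exp]
    omega
  have h4 : Algebra.intNorm P.O B b ∈ (IsLocalRing.maximalIdeal P.O) ^ n := by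
    have h5 : Algebra.intNorm P.O B b ∈ Ideal.relNorm P.O (v.asIdeal ^ n) :=
      Ideal.intNorm_mem_spanNorm P.O hbn
    rw [map_pow] at h5
    refine Ideal.pow_right_mono ?_ n h5
    rw [← hcomap v]
    exact Ideal.relNorm_le_comap P.O v.asIdeal
  rw [← hspan, Ideal.span_singleton_pow, Ideal.mem_span_singleton] at h4
  obtain ⟨c, hc⟩ := h4
  have h6 : Algebra.norm K x = t ^ n * (c : K) := by
    rw [hnorm, hc]
    rfl
  have h7 : Algebra.norm K x ≠ 0 := Algebra.norm_ne_zero_iff.2 hx
  have h8 : (c : K) ≠ 0 := by
    intro h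
    rw [h6, h, mul_zero] at h7
    exact h7 rfl
  rw [h6, P.ord_mul (pow_ne_zero _ ht0) h8, P.ord_pow, ht, mul_one]
  have h9 := (P.reg_iff h8).1 c.2
  omega

end

end Pool.Agent.K4H65.DM
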