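import Pool.Agent.K4H65.DM.PowDefs

/-!
Morphisms which are quasi-finite outside a closed subset, and the closed subset of the symmetric
power of the unordered tuples which meet a closed subset.
-/

set_option autoImplicit false

open FF Pool.Agent.W602.GT

namespace Pool.Agent.K4H65.DM

/-- The morphism from `{Ψ = 0}` to the product of `n` projective lines is quasi-finite outside the
closed subset `{Θ = 0}`, at all points with coordinates in extension fields `F` of `ℂ`: the ratios of
the coordinates of every point `u` of `{Ψ = 0}` over `F` which is not in `{Θ = 0}` are algebraic over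
the field which is generated by the coordinates of its images in the lines. -/
def FiniteOff {m n : ℕ} {κ ι : Type} {Ψ : κ → MvPolynomial (Fin (m + 1)) ℂ}
    (b : Fin n → LineMap Ψ) (Θ : ι → MvPolynomial (Fin (m + 1)) ℂ) : Prop :=
  ∀ (F : Type) [Field F] [Algebra ℂ F] (u : Fin (m + 1) → F) (t : Fin n → Fin 2 → F),
    u ≠ 0 → (∀ e, val u (Ψ e) = 0) → (∃ e, val u (Θ e) ≠ 0) → (∀ p, (b p).At u (t p)) →
      ∀ i j, u j ≠ 0 →
        IsAlgebraic (IntermediateField.adjoin ℂ (Set.range fun p => t p 0 / t p 1)) (u i / u j)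

/-- All equations of the closed subset of the symmetric power `Sym^s (V)`, `V = {Υ = 0}`, of the
unordered tuples of `s` points of `V` at least one of which is in `Z = {Θ = 0}`, see
`mem_symMeet`. -/
def symMeet {l : ℕ} {υ ι : Type} (Υ : υ → MvPolynomial (Fin (l + 1)) ℂ)
    (Θ : ι → MvPolynomial (Fin (l + 1)) ℂ) (s : ℕ) :
    {H : MvPolynomial (Fin (symDim l s + 1)) ℂ // IsForm H ∧
      ∀ (v : Fin s → Fin (l + 1) → ℂ) (z : Fin (symDim l s + 1) → ℂ), (∀ i, v i ∈ Cone Υ) →
        (∃ i, v i ∈ Cone Θ) → toForm z = ∏ i, linForm (v i) → val z H = 0} →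
      MvPolynomial (Fin (symDim l s + 1)) ℂ :=
  Subtype.val

end Pool.Agent.K4H65.DM
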