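import Pool.Agent.K4H65.DM.SymAlg

/-!
Special and Brody-special subvarieties of the varieties with multivalued maps to varieties with
multiple fibres, and the case of all the composed maps.
-/

set_option autoImplicit false
set_option linter.overlappingInstances false
set_option linter.unusedSectionVars false

open FF IntermediateField Filter

namespace Pool.Agent.K4H65.DM

open Pool.Agent.W602.GT Pool.Agent.Y221.FQ Pool.Agent.TH143.EL Pool.Agent.TH466.QG

variable {m l M s N : ℕ} {κ υ μ : Type} {Ψ : κ → MvPolynomial (Fin (m + 1)) ℂ}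
  {Υ : υ → MvPolynomial (Fin (l + 1)) ℂ}
  {Φ : μ → MvPolynomial (Fin (M + 1)) ℂ} {G : Fin (M + 1) → MvPolynomial (Fin (m + 1)) ℂ}
  {g : Fin s → PMap Ψ Υ}

/-- the point is constant if the values are constant -/
theorem coords_const_sym (hΨ : ∀ e, IsForm (Ψ e)) (hG : Mor Ψ Φ G) {n : ℕ}
    {b : Fin n → LineMap Ψ} (hfin : FiniteFibres b)
    {K Ω : Type} [Field K] [Field Ω] [Algebra ℂ K] [Algebra ℂ Ω] [Algebra K Ω]
    [IsScalarTower ℂ K Ω] {z : Fin (M + 1) → K} (hz : z ≠ 0) {y : Fin (m + 1) → Ω}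
    (hy0 : y ≠ 0) (hyΨ : ∀ e, val y (Ψ e) = 0) (hyG : im G y = fun j => algebraMap K Ω (z j))
    {t : Fin n → Fin 2 → Ω} (ht : ∀ q, (b q).At y (t q))
    (hconst : ∀ q, ∃ c : ℂ, t q 0 / t q 1 = algebraMap ℂ Ω c) :
    ∃ (l : Fin (M + 1)) (a : Fin (M + 1) → ℂ), z l ≠ 0 ∧ ∀ j, z j = algebraMap ℂ K (a j) * z l := by
  obtain ⟨i0, hi0'⟩ := Function.ne_iff.1 hy0
  have hi0 : y i0 ≠ 0 := hi0'
  obtain ⟨e, -, hGe⟩ := hG.form
  exact coords_const (G := G) (z := z) (u := fun i => (y i0)⁻¹ * y i)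
    (i0 := i0) (c := (y i0) ^ e) hfin hz (inv_mul_cancel₀ hi0) (fun e' => by
      obtain ⟨d, hd⟩ := hΨ e'
      rw [val_smul hd, hyΨ, mul_zero]) (fun j => by
      have h1 := congrFun hyG j
      rw [← h1, im_smul hGe]
      change _ = y i0 ^ e * ((y i0)⁻¹ ^ e * im G y j)
      rw [← mul_assoc, ← mul_pow, mul_inv_cancel₀ hi0, one_pow, one_mul]) (t := t) (fun q => by
      refine ⟨(ht q).ne, fun h' hh' => ?_⟩
      obtain ⟨d, h1, h2⟩ := (b q).form h' hh'
      rw [val_smul h1, val_smul h2]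
      linear_combination ((y i0)⁻¹) ^ d * (ht q).eq h' hh') hconst

/-- the point over the field of meromorphic functions of a Brody-special subvariety -/
theorem brody_point' (hΦ : ∀ e, IsForm (Φ e)) {K : Type} [Field K] [Algebra ℂ K] {w : ℕ}
    {z : Fin (M + 1) → K} (hz : SubVar Φ K w z) (hbr : BrodyDense z) :
    ∃ z' : Fin (M + 1) → MK, z' ≠ 0 ∧ (∀ e, val z' (Φ e) = 0) ∧
      ∀ H : MvPolynomial (Fin (M + 1)) ℂ, IsForm H → (val z' H = 0 ↔ val z H = 0) := by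
  obtain ⟨z', hz'⟩ := hbr.point
  refine ⟨z', ?_, fun e => (hz' _ (hΦ e)).2 (hz.mem e), hz'⟩
  rintro rfl
  apply hz.ne
  funext i
  have h1 := (hz' (MvPolynomial.X i) ⟨1, MvPolynomial.isHomogeneous_X ℂ i⟩).1 (by
    unfold Pool.Agent.W602.GT.val
    rw [MvPolynomial.aeval_X]
    rfl)
  unfold Pool.Agent.W602.GT.val at h1
  rwa [MvPolynomial.aeval_X] at h1

variable (hΨ : ∀ e, IsForm (Ψ e)) (hΥ : ∀ e, IsForm (Υ e)) (hG : Mor Ψ Φ G)
    (hon : Onto Ψ Φ G) (hperm : Permuted G g)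
    (ii : Fin N → Fin s) (b : Fin N → LineMap Υ) {A : Fin N → Finset ℂ} {mu : Fin N → ℂ → ℕ}
    (hb : ∀ q, (b q).Multiple (A q) (mu q)) (hwide : ∀ q, Wide s (A q) (mu q))

include hΨ hΥ hG hon hperm hb hwide

/-- **Brody-special subvarieties lie in the images of the fibres.** -/
theorem brody_sym (hΦ : ∀ e, IsForm (Φ e)) {K : Type} [Field K] [Algebra ℂ K] {w : ℕ}
    {z : Fin (M + 1) → K} (hz : SubVar Φ K w z) (hbr : BrodyDense z) :
    ∃ q : Fin N → Fin 2 → ℂ,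
      ∀ e, val z (fibreImage G (fun q => (b q).comp (g (ii q))) q e) = 0 := by
  obtain ⟨z', hz'0, hz'Φ, hz'⟩ := brody_point' hΦ hz hbr
  obtain ⟨y, t, hy0, hyΨ, hyG, ht, hconst⟩ :=
    mero_sym hΨ hΥ hG hon hperm ii b hb hwide hz'0 hz'Φ
  obtain ⟨q, hq⟩ := fibre_point (G := G) (b := fun q => (b q).comp (g (ii q)))
    (z := z') (c := 1) hy0 hyΨ (fun j => by
      rw [one_mul]
      exact (congrFun hyG j).symm) ht hconst
  exact ⟨q, fun e => (hz' _ e.2.1).1 (hq e)⟩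

/-- **Reduction to the images of the fibres.** -/
theorem campana_sym (hΦ : ∀ e, IsForm (Φ e))
    (h : ∀ q, CampanaFor (fibreImage G (fun q => (b q).comp (g (ii q))) q)) :
    CampanaFor Φ := by
  intro K _ _ w z hz
  constructor
  · intro hsp
    obtain ⟨q, hq⟩ := special_sym hΨ hΥ hG hon hperm ii b hb hwide hz hsp
    exact (h q K w z ⟨hz.ne, hq, hz.gen, hz.dim⟩).1 hsp
  · intro hbr
    obtain ⟨q, hq⟩ := brody_sym hΨ hΥ hG hon hperm ii b hb hwide hΦ hz hbr
    exact (h q K w z ⟨hz.ne, hq, hz.gen, hz.dim⟩).2 hbr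

/-- **The case of finite fibres.** -/
theorem point_sym (hΦ : ∀ e, IsForm (Φ e)) (hfin : FiniteFibres fun q => (b q).comp (g (ii q)))
    {K : Type} [Field K] [Algebra ℂ K] {w : ℕ} {z : Fin (M + 1) → K} (hz : SubVar Φ K w z)
    (h : Special ℂ K w (fun _ => False) ∨ BrodyDense z) :
    ∃ (l : Fin (M + 1)) (a : Fin (M + 1) → ℂ), z l ≠ 0 ∧ ∀ j, z j = algebraMap ℂ K (a j) * z l := by
  rcases h with hsp | hbr
  · obtain ⟨y, t, hy0, hyΨ, hyG, ht, hconst⟩ :=
      special_sym_const hΨ hΥ hG hon hperm ii b hb hwide hz hsp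
    exact coords_const_sym hΨ hG hfin hz.ne hy0 hyΨ hyG ht hconst
  · obtain ⟨z', hz'0, hz'Φ, hz'⟩ := brody_point' hΦ hz hbr
    obtain ⟨y, t, hy0, hyΨ, hyG, ht, hconst⟩ :=
      mero_sym hΨ hΥ hG hon hperm ii b hb hwide hz'0 hz'Φ
    obtain ⟨l, a, hl, ha⟩ := coords_const_sym hΨ hG hfin hz'0 hy0 hyΨ hyG ht hconst
    refine ⟨l, a, fun h0 => hl ?_, fun j => ?_⟩
    · have h1 := (hz' (MvPolynomial.X l) ⟨1, MvPolynomial.isHomogeneous_X ℂ l⟩).2 (by
        unfold Pool.Agent.W602.GT.val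
        rw [MvPolynomial.aeval_X, h0])
      unfold Pool.Agent.W602.GT.val at h1
      rwa [MvPolynomial.aeval_X] at h1
    · have h1 := (hz' (MvPolynomial.X j - MvPolynomial.C (a j) * MvPolynomial.X l) ⟨1,
        (MvPolynomial.isHomogeneous_X ℂ j).sub (by
          have := (MvPolynomial.isHomogeneous_C (Fin (M + 1)) (a j)).mul
            (MvPolynomial.isHomogeneous_X ℂ l)
          rwa [zero_add] at this)⟩).1 (by
        unfold Pool.Agent.W602.GT.val
        rw [map_sub, map_mul, MvPolynomial.aeval_X, MvPolynomial.aeval_X, MvPolynomial.aeval_C,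
          ha j, sub_self])
      unfold Pool.Agent.W602.GT.val at h1
      rw [map_sub, map_mul, MvPolynomial.aeval_X, MvPolynomial.aeval_X, MvPolynomial.aeval_C,
        sub_eq_zero] at h1
      exact h1

end Pool.Agent.K4H65.DM
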