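import Pool.Agent.K4H65.DM.SymDefs

/-!
The symmetric powers of projective varieties, as varieties of products of linear forms.
-/

set_option autoImplicit false

open FF Pool.Agent.W602.GT

namespace Pool.Agent.K4H65.DM

/-- The number of monomials of degree `s` in the variables `T 0, ..., T l`, minus one. -/
def symDim (l s : ℕ) : ℕ := Fintype.card (Sym (Fin (l + 1)) s) - 1

theorem symDim_eq (l s : ℕ) : symDim l s + 1 = Fintype.card (Sym (Fin (l + 1)) s) :=
  Nat.sub_add_cancel (Fintype.card_pos_iff.2 ⟨Sym.replicate s 0⟩)

/-- A numbering of the monomials of degree `s` in the variables `T 0, ..., T l`; monomials are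
multisets of `s` variables. -/
noncomputable def symEquiv (l s : ℕ) : Fin (symDim l s + 1) ≃ Sym (Fin (l + 1)) s :=
  (finCongr (symDim_eq l s)).trans (Fintype.equivFin _).symm

/-- The form `∑ z j T ^ (j-th monomial)` of degree `s` with the coefficients `z`. -/
noncomputable def toForm {l s : ℕ} (z : Fin (symDim l s + 1) → ℂ) :
    MvPolynomial (Fin (l + 1)) ℂ :=
  ∑ j, MvPolynomial.monomial (Multiset.toFinsupp (symEquiv l s j : Multiset (Fin (l + 1)))) (z j)

/-- The linear form `∑ v a T a`. -/
noncomputable def linForm {l : ℕ} (v : Fin (l + 1) → ℂ) : MvPolynomial (Fin (l + 1)) ℂ :=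
  ∑ a, MvPolynomial.C (v a) * MvPolynomial.X a

/-- The symmetric power `Sym^s (V)` of the projective variety `V = {Υ = 0}`, in the projective space
of the forms of degree `s` in `T 0, ..., T l`: the unordered tuple of the points
`v 1, ..., v s` of `V` corresponds to the product of the linear forms with the coefficients
`v 1, ..., v s`. Here are all equations of this variety, see `mem_symEqs`. -/
def symEqs {l : ℕ} {υ : Type} (Υ : υ → MvPolynomial (Fin (l + 1)) ℂ) (s : ℕ) :
    {H : MvPolynomial (Fin (symDim l s + 1)) ℂ // IsForm H ∧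
      ∀ (v : Fin s → Fin (l + 1) → ℂ) (z : Fin (symDim l s + 1) → ℂ), (∀ i, v i ∈ Cone Υ) →
        toForm z = ∏ i, linForm (v i) → val z H = 0} → MvPolynomial (Fin (symDim l s + 1)) ℂ :=
  Subtype.val

end Pool.Agent.K4H65.DM
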