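import Pool.Agent.K4H65.DM.SymCamp
import Pool.Agent.K4H65.DM.OffDefs

/-!
Multivalued maps to varieties with multiple fibres, with an exceptional set.
-/

set_option autoImplicit false
set_option linter.overlappingInstances false
set_option linter.unusedSectionVars false

open FF IntermediateField Filter

namespace Pool.Agent.K4H65.DM

open Pool.Agent.W602.GT Pool.Agent.Y221.FQ Pool.Agent.TH143.EL Pool.Agent.TH466.QG

variable {m l M s N : ℕ} {κ υ μ ι : Type} {Ψ : κ → MvPolynomial (Fin (m + 1)) ℂ}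
  {Υ : υ → MvPolynomial (Fin (l + 1)) ℂ}
  {Φ : μ → MvPolynomial (Fin (M + 1)) ℂ} {G : Fin (M + 1) → MvPolynomial (Fin (m + 1)) ℂ}
  {g : Fin s → PMap Ψ Υ} {Θ : ι → MvPolynomial (Fin (m + 1)) ℂ}

/-- the forms which vanish on the image of a closed subset -/
def closedImage (G : Fin (M + 1) → MvPolynomial (Fin (m + 1)) ℂ)
    (Ψ : κ → MvPolynomial (Fin (m + 1)) ℂ) (Θ : ι → MvPolynomial (Fin (m + 1)) ℂ) :
    {H : MvPolynomial (Fin (M + 1)) ℂ // IsForm H ∧ ∀ x ∈ Cone Ψ, (∀ e, val x (Θ e) = 0) →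
      val (im G x) H = 0} → MvPolynomial (Fin (M + 1)) ℂ :=
  Subtype.val

theorem cone_sum {x : Fin (m + 1) → ℂ} :
    x ∈ Cone (Sum.elim Ψ Θ) ↔ x ∈ Cone Ψ ∧ ∀ e, val x (Θ e) = 0 := by
  constructor
  · rintro ⟨h0, h⟩
    exact ⟨⟨h0, fun e => h (Sum.inl e)⟩, fun e => h (Sum.inr e)⟩
  · rintro ⟨⟨h0, h⟩, h'⟩
    refine ⟨h0, ?_⟩
    rintro (e | e)
    · exact h e
    · exact h' e

theorem closed_off (hΨ : ∀ e, IsForm (Ψ e)) (hΘ : ∀ e, IsForm (Θ e)) (hG : Mor Ψ Φ G)
    {z : Fin (M + 1) → ℂ} (hz : z ∈ Cone (closedImage G Ψ Θ)) :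
    ∃ x ∈ Cone Ψ, (∀ e, val x (Θ e) = 0) ∧ im G x = z := by
  obtain ⟨e, he, hGe⟩ := hG.form
  obtain ⟨x, hx, hxz⟩ := surj (F := Sum.elim Ψ Θ) (G := G) (by
      rintro (a | a)
      · exact hΨ a
      · exact hΘ a)
    (fun x hx0 hx => hG.noBase x hx0 fun a => hx (Sum.inl a)) he hGe (Ω := ℂ) (z := z)
    (fun H hHf hH' => hz.2 ⟨H, hHf, fun x hx hbx => hH' x (cone_sum.2 ⟨hx, hbx⟩)⟩)
  have hx0 : x ≠ 0 := by
    rintro rfl
    apply hz.1
    rw [← hxz]
    have h2 : (0 : Fin (m + 1) → ℂ) = fun i => (0 : ℂ) * (0 : Fin (m + 1) → ℂ) i := by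
      funext i
      simp
    rw [h2, im_smul hGe, zero_pow (by omega)]
    funext j
    simp
  obtain ⟨h1, h2⟩ := cone_sum.1 ⟨hx0, hx⟩
  exact ⟨x, h1, h2, hxz⟩

/-- the image of a point of the closed subset -/
theorem off_point {K Ω : Type} [Field K] [Field Ω] [Algebra ℂ K] [Algebra ℂ Ω] [Algebra K Ω]
    [IsScalarTower ℂ K Ω] {z : Fin (M + 1) → K} {y : Fin (m + 1) → Ω}
    (hy0 : y ≠ 0) (hyΨ : ∀ e, val y (Ψ e) = 0) (hyG : im G y = fun j => algebraMap K Ω (z j))
    (hyΘ : ∀ e, val y (Θ e) = 0) (e) : val z (closedImage G Ψ Θ e) = 0 := by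
  obtain ⟨H, hHf, hH⟩ := e
  change val z H = 0
  refine val_prop (v := im G y) (c := 1) (fun j => by rw [one_mul, hyG]) hHf ?_
  rw [val_im]
  refine van_of_cone (Φ := Sum.elim Ψ Θ) hy0 (by
    rintro (a | a)
    · exact hyΨ a
    · exact hyΘ a) fun x hx => ?_
  rw [← val_im]
  exact hH x (cone_sum.1 hx).1 (cone_sum.1 hx).2

/-- the point is constant if the values are constant -/
theorem coords_const_at (hΨ : ∀ e, IsForm (Ψ e)) (hG : Mor Ψ Φ G) {n : ℕ}
    {K Ω : Type} [Field K] [Field Ω] [Algebra ℂ K] [Algebra ℂ Ω] [Algebra K Ω]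
    [IsScalarTower ℂ K Ω] {z : Fin (M + 1) → K} (hz : z ≠ 0) {y : Fin (m + 1) → Ω}
    (hy0 : y ≠ 0) (hyG : im G y = fun j => algebraMap K Ω (z j))
    {t : Fin n → Fin 2 → Ω}
    (halg : ∀ i j, y j ≠ 0 →
      IsAlgebraic (IntermediateField.adjoin ℂ (Set.range fun p => t p 0 / t p 1)) (y i / y j))
    (hconst : ∀ q, ∃ c : ℂ, t q 0 / t q 1 = algebraMap ℂ Ω c) :
    ∃ (l : Fin (M + 1)) (a : Fin (M + 1) → ℂ), z l ≠ 0 ∧ ∀ j, z j = algebraMap ℂ K (a j) * z l := by
  classical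
  obtain ⟨i0, hi0'⟩ := Function.ne_iff.1 hy0
  have hi0 : y i0 ≠ 0 := hi0'
  obtain ⟨e, -, hGe⟩ := hG.form
  have hbot : IntermediateField.adjoin ℂ (Set.range fun p => t p 0 / t p 1) = ⊥ := by
    rw [eq_bot_iff, IntermediateField.adjoin_le_iff]
    rintro _ ⟨p, rfl⟩
    obtain ⟨c, hc⟩ := hconst p
    change t p 0 / t p 1 ∈ _
    rw [hc]
    exact (⊥ : IntermediateField ℂ Ω).algebraMap_mem c
  have h2 : ∀ i, ∃ a : ℂ, algebraMap ℂ Ω a = y i / y i0 := by
    intro i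
    have h3 := halg i i0 hi0
    rw [hbot] at h3
    exact alg_mem h3
  choose a ha using h2
  have hya : y = fun i => y i0 * algebraMap ℂ Ω (a i) := by
    funext i
    rw [ha i]
    field_simp
  have h3 : ∀ j, im G y j = y i0 ^ e * algebraMap ℂ Ω (im G a j) := by
    intro j
    have h4 := val_map (Algebra.ofId ℂ Ω) (G j) a
    have h5 := congrFun (im_smul hGe (y i0) fun i => algebraMap ℂ Ω (a i)) j
    have h6 : im G y j = im G (fun i => y i0 * algebraMap ℂ Ω (a i)) j :=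
      congrArg (fun w => im G w j) hya
    refine h6.trans (h5.trans ?_)
    exact congrArg (fun x => y i0 ^ e * x) h4.symm
  have hce : y i0 ^ e ≠ 0 := pow_ne_zero _ hi0
  have hcz : ∀ j, algebraMap K Ω (z j) = y i0 ^ e * algebraMap ℂ Ω (im G a j) := fun j => by
    rw [← h3, hyG]
  obtain ⟨l, hl'⟩ := Function.ne_iff.1 hz
  have hl : z l ≠ 0 := hl'
  have hlE : algebraMap K Ω (z l) ≠ 0 := by
    rw [Ne, map_eq_zero]
    exact hl
  have hul : im G a l ≠ 0 := by
    intro h0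
    have h4 := hcz l
    rw [h0, map_zero, mul_zero] at h4
    exact hlE h4
  refine ⟨l, fun j => im G a j / im G a l, hl, fun j => ?_⟩
  apply (algebraMap K Ω).injective
  have hul' : algebraMap ℂ Ω (im G a l) ≠ 0 := by
    rw [Ne, map_eq_zero]
    exact hul
  rw [map_mul, ← IsScalarTower.algebraMap_apply ℂ K Ω, hcz, hcz, map_div₀]
  field_simp

variable (hΨ : ∀ e, IsForm (Ψ e)) (hΥ : ∀ e, IsForm (Υ e)) (hG : Mor Ψ Φ G)
    (hon : Onto Ψ Φ G) (hperm : Permuted G g)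
    (ii : Fin N → Fin s) (b : Fin N → LineMap Υ) {A : Fin N → Finset ℂ} {mu : Fin N → ℂ → ℕ}
    (hb : ∀ q, (b q).Multiple (A q) (mu q)) (hwide : ∀ q, Wide s (A q) (mu q))

include hΨ hΥ hG hon hperm hb hwide

/-- **Entire curves lie in the exceptional set.** -/
theorem entire_sym_off (hfin : FiniteOff (fun q => (b q).comp (g (ii q))) Θ)
    {f : ℂ → Fin (M + 1) → ℂ} (hf : Entire Φ f) : Entire (closedImage G Ψ Θ) f := by
  obtain ⟨z, hz0, hzΦ, hvz⟩ := entire_point hf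
  obtain ⟨y, t, hy0, hyΨ, hyG, ht, hconst⟩ :=
    mero_sym hΨ hΥ hG hon hperm ii b hb hwide hz0 hzΦ
  by_cases hyΘ : ∃ e, val y (Θ e) ≠ 0
  · exfalso
    obtain ⟨l, a, hl, ha⟩ := coords_const_at hΨ hG hz0 hy0 hyG
      (hfin _ y t hy0 hyΨ hyΘ ht) hconst
    obtain ⟨t1, t2, hli⟩ := hf.nonconst
    rw [LinearIndependent.pair_iff] at hli
    have h5 : ∀ t i, f t i = a i * f t l := by
      intro t i
      have h1 := (hvz (MvPolynomial.X i - MvPolynomial.C (a i) * MvPolynomial.X l)).1 (by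
        unfold Pool.Agent.W602.GT.val
        rw [map_sub, map_mul, MvPolynomial.aeval_X, MvPolynomial.aeval_X, MvPolynomial.aeval_C,
          ha i, sub_self]) t
      unfold Pool.Agent.W602.GT.val at h1
      rw [map_sub, map_mul, MvPolynomial.aeval_X, MvPolynomial.aeval_X, MvPolynomial.aeval_C,
        sub_eq_zero] at h1
      exact h1
    have h6 := hli (f t2 l) (-(f t1 l)) (by
      funext i
      simp only [Pi.add_apply, Pi.smul_apply, smul_eq_mul, Pi.zero_apply]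
      rw [h5 t1 i, h5 t2 i]
      ring)
    apply (hf.mem t2).1
    funext i
    rw [h5 t2 i, h6.1, mul_zero]
    rfl
  · push Not at hyΘ
    exact ⟨hf.hol, fun s => ⟨(hf.mem s).1, fun e =>
      (hvz _).1 (off_point hy0 hyΨ hyG hyΘ e) s⟩, hf.nonconst⟩

/-- **Subvarieties outside the exceptional set are of general type.** -/
theorem general_sym_off (hfin : FiniteOff (fun q => (b q).comp (g (ii q))) Θ)
    {K : Type} [Field K] [Algebra ℂ K] {w : ℕ} {z : Fin (M + 1) → K}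
    (hz : SubVar Φ K w z) (hzΘ : ¬ ∀ e, val z (closedImage G Ψ Θ e) = 0) :
    GeneralType ℂ K w := by
  classical
  obtain ⟨y, t, hy0, hyΨ, hyG, ht, hE⟩ := lift_vals hΨ hΥ hG hon hperm ii b hb hz.ne hz.mem
  obtain ⟨L, hLf, hLg, τ, γ, hτ, hγ, hsum, hct⟩ := gal_setup hwide
    (t := fun q => t q 0 / t q 1) hE
  obtain ⟨i0, hi0'⟩ := Function.ne_iff.1 hy0
  have hi0 : y i0 ≠ 0 := hi0'
  obtain ⟨e, -, hGe⟩ := hG.form
  have hyΘ : ∃ e, val y (Θ e) ≠ 0 := by
    by_contra hcon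
    push Not at hcon
    exact hzΘ fun e => off_point hy0 hyΨ hyG hcon e
  refine general_of_log (multi_gt (L := L) hz.dim τ (fun y' => ?_) A mu γ hγ hsum _
    (fun P _ _ j c hc h => hct P j c hc h))
  apply alg_down L τ
  have hr : (fun q => (τ q : AlgebraicClosure K)) = fun q => t q 0 / t q 1 :=
    funext fun q => (hτ q).symm
  rw [hr]
  let F1 : IntermediateField (IntermediateField.adjoin ℂ (Set.range fun q => t q 0 / t q 1))
    (AlgebraicClosure K) := algebraicClosure _ _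
  have h1 : ∀ i, y i / y i0 ∈ F1 := fun i =>
    mem_algebraicClosure_iff.2 (hfin _ y t hy0 hyΨ hyΘ ht i i0 hi0)
  let F2 : IntermediateField ℂ (AlgebraicClosure K) := F1.restrictScalars ℂ
  let F3 : IntermediateField ℂ K := F2.comap (IsScalarTower.toAlgHom ℂ K (AlgebraicClosure K))
  have h2 : ∀ p : MvPolynomial (Fin (m + 1)) ℂ, val (fun i => y i / y i0) p ∈ F2 := by
    intro p
    unfold Pool.Agent.W602.GT.val
    induction p using MvPolynomial.induction_on with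
    | C a =>
      rw [MvPolynomial.aeval_C]
      exact F2.algebraMap_mem a
    | add p q hp hq =>
      rw [map_add]
      exact F2.add_mem hp hq
    | mul_X p i hp =>
      rw [map_mul, MvPolynomial.aeval_X]
      exact F2.mul_mem hp (h1 i)
  have h3 : coords ℂ z ≤ F3 := by
    unfold Pool.Agent.W602.GT.coords
    rw [IntermediateField.adjoin_le_iff]
    rintro _ ⟨i, j, hj, rfl⟩
    change algebraMap K (AlgebraicClosure K) (z i / z j) ∈ F2
    have h4 : ∀ a, algebraMap K (AlgebraicClosure K) (z a) =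
        y i0 ^ e * im G (fun i => y i / y i0) a := by
      intro a
      have h5 : (fun i => y i / y i0) = fun i => (y i0)⁻¹ * y i := by
        funext i
        rw [div_eq_mul_inv, mul_comm]
      rw [h5, im_smul hGe]
      change _ = y i0 ^ e * ((y i0)⁻¹ ^ e * im G y a)
      rw [← mul_assoc, ← mul_pow, mul_inv_cancel₀ hi0, one_pow, one_mul, congrFun hyG a]
    rw [map_div₀, h4, h4, mul_div_mul_left _ _ (pow_ne_zero _ hi0)]
    exact F2.div_mem (h2 _) (h2 _)
  rw [hz.gen] at h3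
  have h4 : y' ∈ F3 := h3 IntermediateField.mem_top
  exact mem_algebraicClosure_iff.1 h4

end Pool.Agent.K4H65.DM
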