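import Pool.Agent.K4H65.DM.SymDefs
import Pool.Agent.K4H65.DM.Defs

/-!
Iterated fibrations with multiple fibres, and multivalued maps.
-/

set_option autoImplicit false

open FF Pool.Agent.W602.GT

namespace Pool.Agent.K4H65.DM

open Pool.Agent.Y221.FQ

variable {m l M n : ℕ} {κ υ : Type} {Ψ : κ → MvPolynomial (Fin (m + 1)) ℂ}
  {Υ : υ → MvPolynomial (Fin (l + 1)) ℂ}

/-- The morphism `g` from `{Ψ = 0}` to `{Υ = 0}` has at most `r` values on the fibres of the
morphism `G`: among the images `v 0, ..., v r` under `g` of any `r + 1` points of `{Ψ = 0}` with the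
same image under `G` two are equal. -/
def ValuesLe (G : Fin (M + 1) → MvPolynomial (Fin (m + 1)) ℂ) (g : PMap Ψ Υ) (r : ℕ) : Prop :=
  ∀ (x : Fin (r + 1) → Fin (m + 1) → ℂ) (v : Fin (r + 1) → Fin (l + 1) → ℂ),
    (∀ i, x i ∈ Cone Ψ) → (∀ i, g.At (x i) (v i)) →
      (∀ i j, ∃ c : ℂ, im G (x i) = c • im G (x j)) → ∃ i j, i ≠ j ∧ ∃ c : ℂ, v i = c • v j

/-- Let `V'` be the fibre of `(b 0, ..., b (p - 1))` which contains the point `x` of `{Υ = 0}`. The
arcs in `V'` meet the fibre of `b p` over `c ∈ A` with contact order at least `mu c`, unless they do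
not meet it or are contained in it. An arc in `V'` is a point `u` of `{Υ = 0}` with coordinates in a
field `F ⊃ ℂ` with a discrete valuation `P` which is trivial on `ℂ`, with the same images as `x`
under `b 0, ..., b (p - 1)`. (If `V'` is smooth this means that all components of the fibre have
multiplicity at least `mu c`.) -/
def FibreMultiple (b : Fin n → LineMap Υ) (p : Fin n) (x : Fin (l + 1) → ℂ) (A : Finset ℂ)
    (mu : ℂ → ℕ) : Prop :=
  ∀ (F : Type) [Field F] [Algebra ℂ F] (P : Place ℂ F) (u : Fin (l + 1) → F) (t : Fin 2 → F),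
    u ≠ 0 → (∀ e, val u (Υ e) = 0) →
      (∀ j < p, ∀ q : Fin 2 → ℂ, (b j).At x q → (b j).At u fun i => algebraMap ℂ F (q i)) →
      (b p).At u t → ∀ c ∈ A, t 1 ≠ 0 → t 0 / t 1 ≠ algebraMap ℂ F c →
        0 < P.ord (t 0 / t 1 - algebraMap ℂ F c) →
          (mu c : ℤ) ≤ P.ord (t 0 / t 1 - algebraMap ℂ F c)

/-- All fibres of `(b 0, ..., b (p - 1))`, for all `p`, have multiple fibres with respect to `b p`,
over some finite sets `A` of points of the line with multiplicities `mu` which are wide in degree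
`r`; these points and multiplicities can be different for the different fibres. -/
def Iterated (r : ℕ) (b : Fin n → LineMap Υ) : Prop :=
  ∀ x ∈ Cone Υ, ∀ p, ∃ (A : Finset ℂ) (mu : ℂ → ℕ), Wide r A mu ∧ FibreMultiple b p x A mu

end Pool.Agent.K4H65.DM
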