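import Pool.Agent.K4H65.DM.SymOff
import Pool.Agent.K4H65.DM.TowDefs

/-!
Iterated fibrations with multiple fibres.
-/

set_option autoImplicit false
set_option linter.overlappingInstances false
set_option linter.unusedSectionVars false

open FF IntermediateField Filter

namespace Pool.Agent.K4H65.DM

open Pool.Agent.W602.GT Pool.Agent.Y221.FQ Pool.Agent.TH143.EL Pool.Agent.TH466.QG

variable {m l M n N r : ℕ} {κ υ μ : Type} {Ψ : κ → MvPolynomial (Fin (m + 1)) ℂ}
  {Υ : υ → MvPolynomial (Fin (l + 1)) ℂ}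
  {Φ : μ → MvPolynomial (Fin (M + 1)) ℂ} {G : Fin (M + 1) → MvPolynomial (Fin (m + 1)) ℂ}

/-- functions with wide multiplicities are constant -/
def Rigid (r : ℕ) (E : Type) [Field E] [Algebra ℂ E] : Prop :=
  ∀ (τ : E) (A : Finset ℂ) (mu : ℂ → ℕ), Wide r A mu →
    (∀ c ∈ A, ∀ Q : Place ℂ E, τ ≠ algebraMap ℂ E c → 0 < Q.ord (τ - algebraMap ℂ E c) →
      (mu c : ℤ) ≤ Q.ord (τ - algebraMap ℂ E c)) → ∃ c : ℂ, τ = algebraMap ℂ E c

/-- two images are multiples -/
theorem line_unique {b : LineMap Υ} {E : Type} [Field E] [Algebra ℂ E] {u : Fin (l + 1) → E}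
    (hu : u ≠ 0) (huΥ : ∀ e, val u (Υ e) = 0) {t t' : Fin 2 → E} (ht : b.At u t)
    (ht' : b.At u t') : t 0 * t' 1 = t 1 * t' 0 := by
  have h1 : ∃ h ∈ b.pairs, val u h.1 ≠ 0 ∨ val u h.2 ≠ 0 := by
    by_contra hcon
    push Not at hcon
    obtain ⟨j, hj⟩ := Function.ne_iff.1 hu
    obtain ⟨x, hx, hx0⟩ := specialise (k := ℂ) u (MvPolynomial.X j) (by
      rw [MvPolynomial.aeval_X]
      exact hj)
    rw [MvPolynomial.aeval_X] at hx
    have hxc : x ∈ Cone Υ := ⟨fun h0 => hx (congrFun h0 j), fun e => hx0 _ (huΥ e)⟩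
    obtain ⟨h, hh, h2⟩ := b.base x hxc
    rcases h2 with h2 | h2
    · exact h2 (hx0 _ (hcon h hh).1)
    · exact h2 (hx0 _ (hcon h hh).2)
  obtain ⟨h, hh, h2⟩ := h1
  have e1 := ht.eq h hh
  have e2 := ht'.eq h hh
  rcases h2 with h2 | h2
  · have h3 : val u h.1 * (t 0 * t' 1 - t 1 * t' 0) = 0 := by
      linear_combination -t 0 * e2 + t' 0 * e1
    exact sub_eq_zero.1 ((mul_eq_zero.1 h3).resolve_left h2)
  · have h3 : val u h.2 * (t 0 * t' 1 - t 1 * t' 0) = 0 := by
      linear_combination t' 1 * e1 - t 1 * e2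
    exact sub_eq_zero.1 ((mul_eq_zero.1 h3).resolve_left h2)

/-- images which are multiples -/
theorem line_mul {b : LineMap Υ} {E : Type} [Field E] [Algebra ℂ E] {u : Fin (l + 1) → E}
    {t t' : Fin 2 → E} (ht : b.At u t) (ht' : t' ≠ 0) (h : t 0 * t' 1 = t 1 * t' 0) :
    b.At u t' := by
  refine ⟨ht', fun f hf => ?_⟩
  have e1 := ht.eq f hf
  by_cases h0 : t 0 = 0
  · have h1 : t 1 ≠ 0 := by
      intro h1
      apply ht.ne
      funext i
      fin_cases i
      · exact h0
      · exact h1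
    rw [h0, zero_mul] at h e1
    have h2 : t' 0 = 0 := (mul_eq_zero.1 h.symm).resolve_left h1
    have h3 : val u f.1 = 0 := (mul_eq_zero.1 e1.symm).resolve_left h1
    rw [h2, h3]
    ring
  · apply mul_left_cancel₀ h0
    linear_combination t' 0 * e1 - val u f.1 * h

/-- **The values of iterated fibrations are constant.** -/
theorem iterated_const {b : Fin n → LineMap Υ} (hit : Iterated r b) {E : Type} [Field E]
    [Algebra ℂ E] (hE : Rigid r E) {u : Fin (l + 1) → E} (hu : u ≠ 0)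
    (huΥ : ∀ e, val u (Υ e) = 0) (p : Fin n) :
    ∃ q : Fin 2 → ℂ, (b p).At u fun i => algebraMap ℂ E (q i) := by
  classical
  induction p using WellFoundedLT.induction with
  | ind p ih =>
    have ih' : ∀ j, ∃ q : Fin 2 → ℂ, j < p → (b j).At u fun i => algebraMap ℂ E (q i) := by
      intro j
      by_cases hj : j < p
      · obtain ⟨q, hq⟩ := ih j hj
        exact ⟨q, fun _ => hq⟩
      · exact ⟨0, fun h => absurd h hj⟩
    choose q hq using ih'
    obtain ⟨j0, hj0⟩ := Function.ne_iff.1 hu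
    obtain ⟨x, hx, hx0⟩ := specialise (k := ℂ) u (MvPolynomial.X j0) (by
      rw [MvPolynomial.aeval_X]
      exact hj0)
    rw [MvPolynomial.aeval_X] at hx
    have hxc : x ∈ Cone Υ := ⟨fun h0 => hx (congrFun h0 j0), fun e => hx0 _ (huΥ e)⟩
    have hxq : ∀ j < p, (b j).At x (q j) := by
      intro j hj
      refine ⟨fun h0 => (hq j hj).ne ?_, fun h hh => ?_⟩
      · funext i
        rw [h0]
        exact map_zero _
      · have h1 := hx0 (MvPolynomial.C (q j 0) * h.2 - MvPolynomial.C (q j 1) * h.1) (by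
          rw [map_sub, map_mul, map_mul, MvPolynomial.aeval_C, MvPolynomial.aeval_C,
            sub_eq_zero]
          exact (hq j hj).eq h hh)
        rw [map_sub, map_mul, map_mul, MvPolynomial.aeval_C, MvPolynomial.aeval_C,
          sub_eq_zero] at h1
        exact h1
    obtain ⟨A, mu, hw, hmul⟩ := hit x hxc p
    obtain ⟨t, ht⟩ := exists_at (b p) hu huΥ
    have hsame : ∀ j < p, ∀ q' : Fin 2 → ℂ, (b j).At x q' →
        (b j).At u fun i => algebraMap ℂ E (q' i) := by
      intro j hj q' hq'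
      have h1 := line_unique hxc.1 hxc.2 (hxq j hj) hq'
      refine line_mul (hq j hj) (fun h0 => hq'.ne ?_) ?_
      · funext i
        have h2 := congrFun h0 i
        exact (map_eq_zero (algebraMap ℂ E)).1 h2
      · change algebraMap ℂ E (q j 0) * algebraMap ℂ E (q' 1) =
          algebraMap ℂ E (q j 1) * algebraMap ℂ E (q' 0)
        rw [← map_mul, ← map_mul, h1]
    by_cases ht1 : t 1 = 0
    · have ht0 : t 0 ≠ 0 := by
        intro h0
        apply ht.ne
        funext i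
        fin_cases i
        · exact h0
        · exact ht1
      refine ⟨![1, 0], line_mul ht (fun h0 => ?_) ?_⟩
      · have h2 := congrFun h0 0
        simp at h2
      · simp [ht1]
    · obtain ⟨c, hc⟩ := hE (t 0 / t 1) A mu hw (fun c hc Q h1 h2 =>
        hmul E Q u t hu huΥ hsame ht c hc ht1 h1 h2)
      refine ⟨![c, 1], line_mul ht (fun h0 => ?_) ?_⟩
      · have h2 := congrFun h0 1
        simp at h2
      · rw [div_eq_iff ht1] at hc
        simp only [Matrix.cons_val_zero, Matrix.cons_val_one, map_one]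
        rw [hc]
        ring

/-- the values on the fibres over extension fields -/
theorem valuesLe_ext {g : PMap Ψ Υ} (hval : ValuesLe G g r) (hG : NoBase Ψ G)
    {K : Type} [Field K] [Algebra ℂ K] {y : Fin (r + 1) → Fin (m + 1) → K}
    {v : Fin (r + 1) → Fin (l + 1) → K} (hy : ∀ i, y i ≠ 0)
    (hyΨ : ∀ i e, val (y i) (Ψ e) = 0) (hv : ∀ i, g.At (y i) (v i))
    (hyG : ∀ i j a b, im G (y i) a * im G (y j) b = im G (y i) b * im G (y j) a) :
    ∃ i j, i ≠ j ∧ ∀ a b, v i a * v j b = v i b * v j a := by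
  classical
  by_contra hcon
  push Not at hcon
  have hcon2 : ∀ p : Fin (r + 1) × Fin (r + 1), ∃ a b, p.1 ≠ p.2 →
      v p.1 a * v p.2 b ≠ v p.1 b * v p.2 a := by
    intro p
    by_cases hp : p.1 = p.2
    · exact ⟨0, 0, fun h => absurd hp h⟩
    · obtain ⟨a, b, hab⟩ := hcon p.1 p.2 hp
      exact ⟨a, b, fun _ => hab⟩
  choose q1 q2 hq using hcon2
  have hya : ∀ i, ∃ a, y i a ≠ 0 := fun i => Function.ne_iff.1 (hy i)
  choose α hα using hya
  have hvc : ∀ i, ∃ a, v i a ≠ 0 := fun i => Function.ne_iff.1 (hv i).ne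
  choose γ hγ using hvc
  let σ : Type := (Fin (r + 1) × Fin (m + 1)) ⊕ (Fin (r + 1) × Fin (l + 1))
  let z : σ → K := Sum.elim (fun p => y p.1 p.2) fun p => v p.1 p.2
  let T : ∀ (i : Fin (r + 1)), MvPolynomial (Fin (m + 1)) ℂ →ₐ[ℂ] MvPolynomial σ ℂ := fun i =>
    MvPolynomial.aeval fun l => MvPolynomial.X (Sum.inl (i, l))
  let X' : Fin (r + 1) → Fin (l + 1) → MvPolynomial σ ℂ := fun i l =>
    MvPolynomial.X (Sum.inr (i, l))
  have hT : ∀ (L : Type) [Field L] [Algebra ℂ L] (u : σ → L) (i : Fin (r + 1))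
      (p : MvPolynomial (Fin (m + 1)) ℂ),
      MvPolynomial.aeval u (T i p) = val (fun l => u (Sum.inl (i, l))) p := by
    intro L _ _ u i p
    have h3 : (MvPolynomial.aeval u : MvPolynomial σ ℂ →ₐ[ℂ] L).comp (T i) =
        MvPolynomial.aeval fun l => u (Sum.inl (i, l)) := by
      apply MvPolynomial.algHom_ext
      intro l
      simp only [T]
      rw [AlgHom.comp_apply, MvPolynomial.aeval_X, MvPolynomial.aeval_X, MvPolynomial.aeval_X]
    exact DFunLike.congr_fun h3 p
  have hX : ∀ (L : Type) [Field L] [Algebra ℂ L] (u : σ → L) (i : Fin (r + 1))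
      (a : Fin (l + 1)), MvPolynomial.aeval u (X' i a) = u (Sum.inr (i, a)) := fun L _ _ u i a =>
    MvPolynomial.aeval_X _ _
  have hz1 : ∀ i, (fun l => z (Sum.inl (i, l))) = y i := fun i => rfl
  have hz2 : ∀ i l, z (Sum.inr (i, l)) = v i l := fun i l => rfl
  let H : MvPolynomial σ ℂ := (∏ p : Fin (r + 1) × Fin (r + 1), if p.1 = p.2 then 1 else
    (X' p.1 (q1 p) * X' p.2 (q2 p) - X' p.1 (q2 p) * X' p.2 (q1 p))) *
      ((∏ i, MvPolynomial.X (Sum.inl (i, α i))) * ∏ i, X' i (γ i))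
  have hH : MvPolynomial.aeval z H ≠ 0 := by
    simp only [H]
    rw [map_mul, map_prod, map_mul, map_prod, map_prod]
    refine mul_ne_zero (Finset.prod_ne_zero_iff.2 fun p _ => ?_)
      (mul_ne_zero (Finset.prod_ne_zero_iff.2 fun i _ => ?_)
        (Finset.prod_ne_zero_iff.2 fun i _ => ?_))
    · by_cases hp : p.1 = p.2
      · rw [if_pos hp, map_one]
        exact one_ne_zero
      · rw [if_neg hp, map_sub, map_mul, map_mul, hX, hX, hX, hX]
        exact sub_ne_zero.2 (hq p hp)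
    · rw [MvPolynomial.aeval_X]
      exact hα i
    · rw [hX]
      exact hγ i
  obtain ⟨z0, hz0', hrel⟩ := specialise z H hH
  simp only [H] at hz0'
  rw [map_mul, map_prod, map_mul, map_prod, map_prod] at hz0'
  have h3 := Finset.prod_ne_zero_iff.1 (left_ne_zero_of_mul hz0')
  have h4 := Finset.prod_ne_zero_iff.1 (left_ne_zero_of_mul (right_ne_zero_of_mul hz0'))
  have h5 := Finset.prod_ne_zero_iff.1 (right_ne_zero_of_mul (right_ne_zero_of_mul hz0'))
  let x : Fin (r + 1) → Fin (m + 1) → ℂ := fun i l => z0 (Sum.inl (i, l))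
  let w : Fin (r + 1) → Fin (l + 1) → ℂ := fun i l => z0 (Sum.inr (i, l))
  have hx : ∀ i, x i ∈ Cone Ψ := by
    intro i
    refine ⟨fun h0 => ?_, fun e => ?_⟩
    · have h6 := h4 i (Finset.mem_univ _)
      rw [MvPolynomial.aeval_X] at h6
      exact h6 (congrFun h0 (α i))
    · have h6 := hrel (T i (Ψ e)) (by rw [hT, hz1]; exact hyΨ i e)
      rw [hT] at h6
      exact h6
  have hw : ∀ i, g.At (x i) (w i) := by
    intro i
    refine ⟨fun h0 => ?_, fun h hh a b => ?_⟩
    · have h6 := h5 i (Finset.mem_univ _)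
      rw [hX] at h6
      exact h6 (congrFun h0 (γ i))
    · have h6 := hrel (X' i a * T i (h b) - X' i b * T i (h a)) (by
        rw [map_sub, map_mul, map_mul, hT, hT, hX, hX, hz1, hz2, hz2]
        exact sub_eq_zero.2 ((hv i).eq h hh a b))
      rw [map_sub, map_mul, map_mul, hT, hT, hX, hX] at h6
      exact sub_eq_zero.1 h6
  obtain ⟨i, j, hij, c, hc⟩ := hval x w hx hw (fun i j => by
    obtain ⟨b, hb⟩ := hG (x j) (hx j).1 (hx j).2
    have h6 : ∀ l, im G (x i) l * im G (x j) b = im G (x i) b * im G (x j) l := by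
      intro l
      have h7 := hrel (T i (G l) * T j (G b) - T i (G b) * T j (G l)) (by
        rw [map_sub, map_mul, map_mul, hT, hT, hT, hT, hz1, hz1]
        exact sub_eq_zero.2 (hyG i j l b))
      rw [map_sub, map_mul, map_mul, hT, hT, hT, hT] at h7
      exact sub_eq_zero.1 h7
    refine ⟨im G (x i) b / im G (x j) b, ?_⟩
    funext l
    have hb' : im G (x j) b ≠ 0 := hb
    rw [Pi.smul_apply, smul_eq_mul]
    field_simp
    linear_combination h6 l)
  have h6 := h3 (i, j) (Finset.mem_univ _)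
  rw [if_neg hij, map_sub, map_mul, map_mul, hX, hX, hX, hX] at h6
  apply h6
  have h7 : ∀ l, w i l = c * w j l := fun l => congrFun hc l
  change w i (q1 (i, j)) * w j (q2 (i, j)) - w i (q2 (i, j)) * w j (q1 (i, j)) = 0
  rw [h7, h7]
  ring

section

variable {Ω E0 : Type} [Field Ω] [Field E0] [Algebra ℂ E0] [Algebra ℂ Ω] [Algebra E0 Ω]
    [IsScalarTower ℂ E0 Ω] [IsAlgClosed Ω] [Algebra.IsAlgebraic E0 Ω]

/-- **The degree of the values.** -/
theorem val_deg' {g : PMap Ψ Υ} (hval : ValuesLe G g r) (hG : NoBase Ψ G)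
    {z : Fin (M + 1) → E0} {y : Fin (m + 1) → Ω} (hy : y ≠ 0)
    (hyΨ : ∀ e, val y (Ψ e) = 0) (hyG : im G y = fun j => algebraMap E0 Ω (z j))
    {v : Fin (l + 1) → Ω} (hv : g.At y v) {a0 : Fin (l + 1)} (ha0 : v a0 ≠ 0) :
    FiniteDimensional E0 (IntermediateField.adjoin E0 (Set.range fun a => v a / v a0)) ∧
      Module.finrank E0 (IntermediateField.adjoin E0 (Set.range fun a => v a / v a0)) ≤ r := by
  classical
  have hch : CharZero E0 := charZero_of_injective_algebraMap (algebraMap ℂ E0).injective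
  obtain ⟨E, hE⟩ : ∃ E, E = IntermediateField.adjoin E0
      (Set.range fun a => v a / v a0) := ⟨_, rfl⟩
  rw [← hE]
  have hfin : FiniteDimensional E0 E := by
    rw [hE]
    exact IntermediateField.finiteDimensional_adjoin fun x _ =>
      (Algebra.IsAlgebraic.isAlgebraic (R := E0) x).isIntegral
  refine ⟨hfin, ?_⟩
  by_contra hcon
  push Not at hcon
  have hmem : ∀ a, v a / v a0 ∈ E := fun a => by
    rw [hE]
    exact IntermediateField.subset_adjoin E0 _ ⟨a, rfl⟩
  have hcard : Fintype.card (Fin (r + 1)) ≤ Fintype.card (E →ₐ[E0] Ω) := by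
    rw [AlgHom.card, Fintype.card_fin]
    exact hcon
  obtain ⟨σ⟩ := Function.Embedding.nonempty_of_card_le hcard
  have hnorm : Normal E0 Ω := by
    have : IsAlgClosure E0 Ω := ⟨inferInstance, inferInstance⟩
    exact IsAlgClosure.normal E0 Ω
  let τ : Fin (r + 1) → Ω →ₐ[E0] Ω := fun q => (σ q).liftNormal Ω
  have hτ : ∀ q (x : E), τ q (x : Ω) = σ q x := fun q x => (σ q).liftNormal_commutes Ω x
  let τk : Fin (r + 1) → Ω →ₐ[ℂ] Ω := fun q => (τ q).restrictScalars ℂ
  have him : ∀ q a, im G (fun c => τk q (y c)) a = im G y a := by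
    intro q a
    have h2 : im G (fun c => τk q (y c)) a = τk q (im G y a) := by
      unfold Pool.Agent.Y221.FQ.im
      rw [val_map]
    rw [h2, hyG]
    exact (τ q).commutes (z a)
  obtain ⟨q, q', hqq, hvv⟩ := valuesLe_ext hval hG (y := fun q c => τk q (y c))
    (v := fun q c => τk q (v c)) (fun q h0 => hy (by
      funext c
      exact (map_eq_zero (τk q)).1 (congrFun h0 c))) (fun q e => by
      rw [← val_map, hyΨ, map_zero]) (fun q => at_map (τk q) hv) (fun i j a b => by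
      rw [him, him, him, him]
      ring)
  apply hqq
  apply σ.injective
  have key2 : ∀ a, τk q (v a / v a0) = τk q' (v a / v a0) := by
    intro a
    have h2 := hvv a a0
    have h3 : ∀ q, τk q (v a0) ≠ 0 := fun q h3 => ha0 ((map_eq_zero (τk q)).1 h3)
    rw [map_div₀, map_div₀, div_eq_div_iff (h3 q) (h3 q'), h2]
    ring
  refine IntermediateField.algHom_ext_of_eq_adjoin E0 hE ?_
  rintro _ ⟨a, rfl⟩
  have h1 := key2 a
  have h2 := hτ q ⟨_, hmem a⟩
  have h3 := hτ q' ⟨_, hmem a⟩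
  change σ q ⟨_, hmem a⟩ = σ q' ⟨_, hmem a⟩
  rw [← h2, ← h3]
  exact h1

end

/-- **The values are constant.** -/
theorem lift_iterated (hΨ : ∀ e, IsForm (Ψ e)) (hΥ : ∀ e, IsForm (Υ e)) (hG : Mor Ψ Φ G)
    (hon : Onto Ψ Φ G) {g : Fin N → PMap Ψ Υ} (hval : ∀ i, ValuesLe G (g i) r)
    {b : Fin n → LineMap Υ} (hit : Iterated r b) {E0 : Type} [Field E0] [Algebra ℂ E0]
    (hR : ∀ E : IntermediateField E0 (AlgebraicClosure E0), FiniteDimensional E0 E →
      Module.finrank E0 E ≤ r → Rigid r E)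
    {z : Fin (M + 1) → E0} (hz : z ≠ 0) (hzΦ : ∀ e, val z (Φ e) = 0) :
    ∃ (y : Fin (m + 1) → AlgebraicClosure E0) (t : Fin (N * n) → Fin 2 → AlgebraicClosure E0),
      y ≠ 0 ∧ (∀ e, val y (Ψ e) = 0) ∧
      (im G y = fun j => algebraMap E0 (AlgebraicClosure E0) (z j)) ∧
      (∀ q, (values b g q).At y (t q)) ∧
      ∀ q, ∃ c : ℂ, t q 0 / t q 1 = algebraMap ℂ (AlgebraicClosure E0) c := by
  classical
  obtain ⟨e, he, hGe⟩ := hG.form
  obtain ⟨y, hyΨ, hyG⟩ := surj hΨ hG.noBase he hGe (Ω := AlgebraicClosure E0)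
    (z := fun j => algebraMap E0 (AlgebraicClosure E0) (z j)) (by
    intro H hH hH2
    have h1 : val z H = 0 := van_of_cone hz hzΦ fun q hq => by
      obtain ⟨x, hx, rfl⟩ := hon q hq
      exact hH2 x hx
    have h2 := val_map (IsScalarTower.toAlgHom ℂ E0 (AlgebraicClosure E0)) H z
    rw [h1, map_zero] at h2
    exact h2.symm)
  have hy0 : y ≠ 0 := by
    intro h0
    obtain ⟨b, hb⟩ := Function.ne_iff.1 hz
    have h1 := congrFun hyG b
    have h2 : y = fun i => (0 : AlgebraicClosure E0) * y i := by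
      rw [h0]
      funext i
      simp
    rw [h2, im_smul hGe, zero_pow (by omega)] at h1
    simp only [zero_mul] at h1
    exact hb ((map_eq_zero _).1 h1.symm)
  have hkey : ∀ q, ∃ t : Fin 2 → AlgebraicClosure E0, (values b g q).At y t ∧
      ∃ c : ℂ, t 0 / t 1 = algebraMap ℂ (AlgebraicClosure E0) c := by
    intro q
    obtain ⟨i, hi⟩ : ∃ i, i = (finProdFinEquiv.symm q).1 := ⟨_, rfl⟩
    obtain ⟨p, hp⟩ : ∃ p, p = (finProdFinEquiv.symm q).2 := ⟨_, rfl⟩
    have hq : values b g q = (b p).comp (g i) := by rw [hi, hp]; rfl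
    rw [hq]
    obtain ⟨h, hh, h0⟩ := exists_tuple (g i) hy0 hyΨ
    have hvAt := im_at (g i) hy0 hyΨ hh h0
    have hvΥ0 := im_mem (g i) hΥ hy0 hyΨ hh h0
    obtain ⟨w, hw⟩ : ∃ w, w = im h y := ⟨_, rfl⟩
    rw [← hw] at hvAt hvΥ0 h0
    obtain ⟨a0, ha0'⟩ := Function.ne_iff.1 h0
    have ha0 : w a0 ≠ 0 := ha0'
    obtain ⟨hfd, hrk⟩ := val_deg' (hval i) hG.noBase hy0 hyΨ hyG hvAt ha0
    obtain ⟨E, hE⟩ : ∃ E, E = IntermediateField.adjoin E0
      (Set.range fun a => w a / w a0) := ⟨_, rfl⟩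
    rw [← hE] at hfd hrk
    have hmem : ∀ a, w a / w a0 ∈ E := fun a => by
      rw [hE]
      exact IntermediateField.subset_adjoin E0 _ ⟨a, rfl⟩
    let v : Fin (l + 1) → E := fun a => ⟨w a / w a0, hmem a⟩
    have hv0 : v a0 = 1 := Subtype.ext (div_self ha0)
    have hvne : v ≠ 0 := by
      intro h0
      rw [h0] at hv0
      exact zero_ne_one hv0
    let φ : E →ₐ[ℂ] AlgebraicClosure E0 := E.val.restrictScalars ℂ
    have hφ : (fun a => φ (v a)) = fun a => (w a0)⁻¹ * w a := by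
      funext a
      change w a / w a0 = _
      rw [div_eq_mul_inv, mul_comm]
    have hvΥ : ∀ e, val v (Υ e) = 0 := by
      intro e'
      apply φ.injective
      change φ _ = φ _
      obtain ⟨d, hd⟩ := hΥ e'
      rw [val_map, hφ, val_smul hd, hvΥ0 e', mul_zero, map_zero]
    obtain ⟨c, hc⟩ := iterated_const hit (hR E hfd hrk) hvne hvΥ p
    refine ⟨fun i => φ (algebraMap ℂ E (c i)), At_comp hvAt (At_scale φ hc (c := w a0)
      fun a => ?_), c 0 / c 1, ?_⟩
    · change _ = _ * (w a / w a0)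
      field_simp
    · change φ (algebraMap ℂ E (c 0)) / φ (algebraMap ℂ E (c 1)) = _
      rw [φ.commutes, φ.commutes, map_div₀]
  choose t ht hE using hkey
  exact ⟨y, t, hy0, hyΨ, hyG, ht, hE⟩

/-- the field of meromorphic functions -/
theorem rigid_mero (E : IntermediateField MK (AlgebraicClosure MK))
    (hfd : FiniteDimensional MK E) (hrk : Module.finrank MK E ≤ r) : Rigid r E := by
  intro τ A mu hw hm
  refine algebroid_const hrk (a := fun i => (A.equivFin.symm i : ℂ))
    (fun i i' h => A.equivFin.symm.injective (Subtype.ext h))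
    (m := fun i => mu (A.equivFin.symm i : ℂ))
    (fun i => hw.1 _ (A.equivFin.symm i).2) (fun g s hg hs hgs => ?_) _
    (fun Q i h1 h2 => ?_)
  · rw [← sum_equivFin A (fun c => 1 - 1 / (cdiv (mu c) g : ℝ))]
    exact hw.2 g s hg hs hgs
  · exact hm _ (A.equivFin.symm i).2 Q h1 h2

/-- special fields -/
theorem rigid_special {K : Type} [Field K] [Algebra ℂ K] {w : ℕ}
    (hsp : Special ℂ K w (fun _ => False)) (E : IntermediateField K (AlgebraicClosure K))
    (hfd : FiniteDimensional K E) (hrk : Module.finrank K E ≤ r) : Rigid r E := by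
  intro τ A mu hw hm
  by_contra hcon
  refine bog_field (K := K) (E := E) hrk (fun _ : Fin 1 => τ) ⟨0, fun halg => ?_⟩ (fun _ => A)
    (fun _ => mu) (fun _ => hw) (fun p c hc Q h1 h2 => hm c hc Q h1 h2) hsp
  obtain ⟨c, hc⟩ := const_of_algebraic halg
  exact hcon ⟨c, hc⟩

section

variable (hΨ : ∀ e, IsForm (Ψ e)) (hΥ : ∀ e, IsForm (Υ e)) (hG : Mor Ψ Φ G)
    (hon : Onto Ψ Φ G) {g : Fin N → PMap Ψ Υ} (hval : ∀ i, ValuesLe G (g i) r)
    {b : Fin n → LineMap Υ} (hit : Iterated r b)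

include hΨ hΥ hG hon hval hit

/-- **Entire curves lie in the images of the fibres.** -/
theorem entire_iterated {f : ℂ → Fin (M + 1) → ℂ} (hf : Entire Φ f) :
    ∃ q : Fin (N * n) → Fin 2 → ℂ, Entire (fibreImage G (values b g) q) f := by
  obtain ⟨z, hz0, hzΦ, hvz⟩ := entire_point hf
  obtain ⟨y, t, hy0, hyΨ, hyG, ht, hconst⟩ :=
    lift_iterated hΨ hΥ hG hon hval hit (fun E => rigid_mero E) hz0 hzΦ
  obtain ⟨q, hq⟩ := fibre_point (G := G) (b := values b g)
    (z := z) (c := 1) hy0 hyΨ (fun j => by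
      rw [one_mul]
      exact (congrFun hyG j).symm) ht hconst
  exact ⟨q, hf.hol, fun s => ⟨(hf.mem s).1, fun e => (hvz _).1 (hq e) s⟩, hf.nonconst⟩

/-- **Special subvarieties lie in the images of the fibres.** -/
theorem special_iterated {K : Type} [Field K] [Algebra ℂ K] {w : ℕ} {z : Fin (M + 1) → K}
    (hz : SubVar Φ K w z) (hsp : Special ℂ K w (fun _ => False)) :
    ∃ q : Fin (N * n) → Fin 2 → ℂ, ∀ e, val z (fibreImage G (values b g) q e) = 0 := by
  obtain ⟨y, t, hy0, hyΨ, hyG, ht, hconst⟩ :=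
    lift_iterated hΨ hΥ hG hon hval hit (fun E => rigid_special hsp E) hz.ne hz.mem
  exact fibre_point (G := G) (b := values b g)
    (z := z) (c := 1) hy0 hyΨ (fun j => by
      rw [one_mul]
      exact (congrFun hyG j).symm) ht hconst

variable {ι : Type} {Θ : ι → MvPolynomial (Fin (m + 1)) ℂ}

/-- **Entire curves lie in the exceptional set.** -/
theorem entire_iterated_off (hfin : FiniteOff (values b g) Θ)
    {f : ℂ → Fin (M + 1) → ℂ} (hf : Entire Φ f) : Entire (closedImage G Ψ Θ) f := by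
  obtain ⟨z, hz0, hzΦ, hvz⟩ := entire_point hf
  obtain ⟨y, t, hy0, hyΨ, hyG, ht, hconst⟩ :=
    lift_iterated hΨ hΥ hG hon hval hit (fun E => rigid_mero E) hz0 hzΦ
  by_cases hyΘ : ∃ e, val y (Θ e) ≠ 0
  · exfalso
    obtain ⟨l, a, hl, ha⟩ := coords_const_at hΨ hG hz0 hy0 hyG
      (hfin _ y t hy0 hyΨ hyΘ ht) hconst
    obtain ⟨t1, t2, hli⟩ := hf.nonconst
    rw [LinearIndependent.pair_iff] at hli
    have h5 : ∀ t i, f t i = a i * f t l := by
      intro t i
      have h1 := (hvz (MvPolynomial.X i - MvPolynomial.C (a i) * MvPolynomial.X l)).1 (by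
        unfold Pool.Agent.W602.GT.val
        rw [map_sub, map_mul, MvPolynomial.aeval_X, MvPolynomial.aeval_X, MvPolynomial.aeval_C,
          ha i, sub_self]) t
      unfold Pool.Agent.W602.GT.val at h1
      rw [map_sub, map_mul, MvPolynomial.aeval_X, MvPolynomial.aeval_X, MvPolynomial.aeval_C,
        sub_eq_zero] at h1
      exact h1
    have h6 := hli (f t2 l) (-(f t1 l)) (by
      funext i
      simp only [Pi.add_apply, Pi.smul_apply, smul_eq_mul, Pi.zero_apply]
      rw [h5 t1 i, h5 t2 i]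
      ring)
    apply (hf.mem t2).1
    funext i
    rw [h5 t2 i, h6.1, mul_zero]
    rfl
  · push Not at hyΘ
    exact ⟨hf.hol, fun s => ⟨(hf.mem s).1, fun e =>
      (hvz _).1 (off_point hy0 hyΨ hyG hyΘ e) s⟩, hf.nonconst⟩

/-- **Special subvarieties lie in the exceptional set.** -/
theorem special_iterated_off (hfin : FiniteOff (values b g) Θ)
    {K : Type} [Field K] [Algebra ℂ K] {w : ℕ} {z : Fin (M + 1) → K}
    (hz : SubVar Φ K w z) (hw : 1 ≤ w) (hsp : Special ℂ K w (fun _ => False)) (e) :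
    val z (closedImage G Ψ Θ e) = 0 := by
  obtain ⟨y, t, hy0, hyΨ, hyG, ht, hconst⟩ :=
    lift_iterated hΨ hΥ hG hon hval hit (fun E => rigid_special hsp E) hz.ne hz.mem
  by_cases hyΘ : ∃ e, val y (Θ e) ≠ 0
  · exfalso
    obtain ⟨l, a, hl, ha⟩ := coords_const_at hΨ hG hz.ne hy0 hyG
      (hfin _ y t hy0 hyΨ hyΘ ht) hconst
    have := (point_bot hz hl ha).2
    omega
  · push Not at hyΘ
    exact off_point hy0 hyΨ hyG hyΘ e

end

end Pool.Agent.K4H65.DM
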