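import Pool.Agent.K4H65.DM.Defs
import Pool.Agent.TH466.QG.Spz

/-!
Specializations of points of closed subsets of `P^N × P^1 × ... × P^1`.
-/

set_option autoImplicit false
set_option linter.overlappingInstances false
set_option linter.unusedSectionVars false

open FF Pool.Agent.TH466.QG

namespace Pool.Agent.K4H65.DM

variable {k : Type} [Field k]

theorem aeval_scale {N n : ℕ} {F : Type} [Field F] [Algebra k F] {G : MPoly k N n} {d : ℕ}
    {D : Fin n → ℕ} (hG : ∀ s ∈ G.support,
      ∑ i, s (Sum.inl i) = d ∧ ∀ p, ∑ l, s (Sum.inr (p, l)) = D p)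
    (a : Fin (N + 1) → F) (b : Fin n → Fin 2 → F) (u : F) (v : Fin n → F) :
    MvPolynomial.aeval (Sum.elim (fun i => u * a i) fun w => v w.1 * b w.1 w.2) G =
      u ^ d * (∏ p, v p ^ D p) * MvPolynomial.aeval (Sum.elim a fun w => b w.1 w.2) G := by
  classical
  rw [MvPolynomial.aeval_eq_eval₂Hom, MvPolynomial.aeval_eq_eval₂Hom, MvPolynomial.coe_eval₂Hom,
    MvPolynomial.coe_eval₂Hom, MvPolynomial.eval₂_eq', MvPolynomial.eval₂_eq', Finset.mul_sum]
  refine Finset.sum_congr rfl fun s hs => ?_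
  obtain ⟨h1, h2⟩ := hG s hs
  rw [Fintype.prod_sum_type, Fintype.prod_sum_type]
  simp only [Sum.elim_inl, Sum.elim_inr, mul_pow, Finset.prod_mul_distrib]
  have h3 : ∏ i, u ^ s (Sum.inl i) = u ^ d := by
    rw [Finset.prod_pow_eq_pow_sum, h1]
  have h4 : ∏ w : Fin n × Fin 2, v w.1 ^ s (Sum.inr w) = ∏ p, v p ^ D p := by
    rw [Fintype.prod_prod_type]
    refine Finset.prod_congr rfl fun p _ => ?_
    change ∏ l, v p ^ s (Sum.inr (p, l)) = _
    rw [Finset.prod_pow_eq_pow_sum, h2 p]
  rw [h3, h4]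
  ring

variable {N n : ℕ} (V : ProdSet k N n)

theorem ProdSet.Mem.scale {V : ProdSet k N n} {F : Type} [Field F] [Algebra k F]
    {a : Fin (N + 1) → F} {b : Fin n → Fin 2 → F} (h : V.Mem a b) {u : F} (hu : u ≠ 0)
    {v : Fin n → F} (hv : ∀ p, v p ≠ 0) :
    V.Mem (fun i => u * a i) (fun p l => v p * b p l) where
  a_ne := by
    obtain ⟨i, hi⟩ := Function.ne_iff.1 h.a_ne
    exact Function.ne_iff.2 ⟨i, mul_ne_zero hu hi⟩
  b_ne := by
    intro p
    obtain ⟨i, hi⟩ := Function.ne_iff.1 (h.b_ne p)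
    exact Function.ne_iff.2 ⟨i, mul_ne_zero (hv p) hi⟩
  eq := by
    intro G hG
    obtain ⟨d, D, hD⟩ := V.hom G hG
    have h1 := aeval_scale hD a b u v
    rw [h.eq G hG, mul_zero] at h1
    exact h1

theorem sp_aeval {k K K'' : Type} [Field k] [Field K] [Field K''] [Algebra k K] [Algebra k K'']
    (S : Sp k K K'') {σ : Type} [Finite σ] {y : σ → K} {y' : σ → K''}
    (h : ∀ i, S.T (y i) (y' i)) (G : MvPolynomial σ k) :
    S.T (MvPolynomial.aeval y G) (MvPolynomial.aeval y' G) := by
  have : Fintype σ := Fintype.ofFinite σ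
  rw [MvPolynomial.aeval_eq_eval₂Hom, MvPolynomial.aeval_eq_eval₂Hom, MvPolynomial.coe_eval₂Hom,
    MvPolynomial.coe_eval₂Hom, MvPolynomial.eval₂_eq', MvPolynomial.eval₂_eq']
  exact S.sum _ fun α _ => S.mul (S.const _) (S.prod _ fun i _ => S.pow (h i) _)

/-- the normalized coordinates of a point of the lines -/
noncomputable def nb {F : Type} [Field F] [DecidableEq F] (b : Fin n → Fin 2 → F) :
    Fin n → Fin 2 → F :=
  fun p => if b p 1 = 0 then ![1, 0] else ![b p 0 / b p 1, 1]

/-- the elements which have to be regular -/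
noncomputable def theta {F : Type} [Field F] [Algebra k F] [DecidableEq F] (R : MPoly k N n)
    (a : Fin (N + 1) → F) (b : Fin n → Fin 2 → F) (i0 : Fin (N + 1)) : Set F :=
  (Set.range fun i => a i / a i0) ∪
    {(MvPolynomial.aeval (Sum.elim (fun i => a i / a i0) fun w => nb b w.1 w.2) R)⁻¹}

theorem theta_finite {F : Type} [Field F] [Algebra k F] [DecidableEq F] (R : MPoly k N n)
    (a : Fin (N + 1) → F) (b : Fin n → Fin 2 → F) (i0 : Fin (N + 1)) :
    (theta R a b i0).Finite :=
  (Set.finite_range _).union (Set.finite_singleton _)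

theorem nb_eq {F : Type} [Field F] [DecidableEq F] (b : Fin n → Fin 2 → F)
    (hb : ∀ p, b p ≠ 0) : ∃ v : Fin n → F, (∀ p, v p ≠ 0) ∧ ∀ p l, nb b p l = v p * b p l := by
  refine ⟨fun p => if b p 1 = 0 then (b p 0)⁻¹ else (b p 1)⁻¹, fun p => ?_, fun p l => ?_⟩
  · by_cases h0 : b p 1 = 0
    · simp only [h0, if_true]
      refine inv_ne_zero fun h2 => hb p ?_
      funext l
      fin_cases l
      · exact h2
      · exact h0
    · simp only [h0, if_false]
      exact inv_ne_zero h0
  · unfold nb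
    by_cases h0 : b p 1 = 0
    · have h2 : b p 0 ≠ 0 := by
        intro h2
        apply hb p
        funext l
        fin_cases l
        · exact h2
        · exact h0
      simp only [h0, if_true]
      fin_cases l
      · simp [h2]
      · simp [h0]
    · simp only [h0, if_false]
      fin_cases l
      · simp only [Fin.zero_eta, Matrix.cons_val_zero]
        rw [div_eq_mul_inv, mul_comm]
      · simp only [Fin.mk_one, Matrix.cons_val_one, Matrix.cons_val_zero]
        rw [inv_mul_cancel₀ h0]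

/-- **Specializations have the same multiplicities.** -/
theorem spec_mult {V : ProdSet k N n} {R : MPoly k N n} (hRh : MHom R) {A : Fin n → Finset k}
    {m : Fin n → k → ℕ}
    (hV : MultipleFibres V R A m) {K' : Type} [Field K'] [Algebra k K'] [DecidableEq K']
    {a : Fin (N + 1) → K'}
    {b : Fin n → Fin 2 → K'} (hab : V.Mem a b)
    (hR : MvPolynomial.aeval (Sum.elim a fun v => b v.1 v.2) R ≠ 0) {i0 : Fin (N + 1)}
    (hi0 : a i0 ≠ 0)
    {E : Type} [Field E] [Algebra k E] (S : Sp k K' E)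
    (hS : ∀ ϑ ∈ theta R a b i0, ∃ z, S.T ϑ z) {t' : Fin n → E}
    (ht' : ∀ p, S.T (b p 0 / b p 1) (t' p)) (p : Fin n) {c : k} (hc : c ∈ A p) (Q : Place k E)
    (hne : t' p ≠ algebraMap k E c) (hpos : 0 < Q.ord (t' p - algebraMap k E c)) :
    (m p c : ℤ) ≤ Q.ord (t' p - algebraMap k E c) := by
  classical
  have hS1 : ∀ i, ∃ z, S.T (a i / a i0) z := fun i => hS _ (Or.inl ⟨i, rfl⟩)
  choose a' ha' using hS1
  obtain ⟨v, hv0, hv⟩ := nb_eq b hab.b_ne
  have hia : ∀ i, a i / a i0 = (a i0)⁻¹ * a i := fun i => by rw [div_eq_mul_inv, mul_comm]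
  have hnorm : V.Mem (fun i => a i / a i0) (nb b) := by
    have h1 := hab.scale (u := (a i0)⁻¹) (inv_ne_zero hi0) hv0
    convert h1 using 1
    · funext i
      exact hia i
    · funext p l
      exact hv p l
  have hRn : MvPolynomial.aeval (Sum.elim (fun i => a i / a i0) fun w => nb b w.1 w.2) R ≠ 0 := by
    obtain ⟨d, D, hD⟩ := hRh
    have h1 := aeval_scale hD a b (a i0)⁻¹ v
    have h2 : (fun i => (a i0)⁻¹ * a i) = fun i => a i / a i0 := funext fun i => (hia i).symm
    have h3 : (fun w : Fin n × Fin 2 => v w.1 * b w.1 w.2) = fun w => nb b w.1 w.2 :=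
      funext fun w => (hv w.1 w.2).symm
    rw [h2, h3] at h1
    rw [h1]
    exact mul_ne_zero (mul_ne_zero (pow_ne_zero _ (inv_ne_zero hi0))
      (Finset.prod_ne_zero_iff.2 fun p _ => pow_ne_zero _ (hv0 p))) hR
  let b' : Fin n → Fin 2 → E := fun p => if b p 1 = 0 then ![1, 0] else ![t' p, 1]
  have hsp : ∀ G : MPoly k N n, S.T
      (MvPolynomial.aeval (Sum.elim (fun i => a i / a i0) fun w => nb b w.1 w.2) G)
      (MvPolynomial.aeval (Sum.elim a' fun w => b' w.1 w.2) G) := by
    intro G
    refine sp_aeval S ?_ G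
    rintro (i | ⟨q, l⟩)
    · exact ha' i
    · simp only [Sum.elim_inr]
      unfold nb
      by_cases hq : b q 1 = 0
      · simp only [b', hq, if_true]
        fin_cases l
        · exact S.one
        · exact S.zero
      · simp only [b', hq, if_false]
        fin_cases l
        · exact ht' q
        · exact S.one
  have hmem : V.Mem a' b' := by
    refine ⟨?_, ?_, ?_⟩
    · intro h0
      have h1 := ha' i0
      rw [div_self hi0] at h1
      have h2 : a' i0 = 1 := S.ext h1 S.one
      rw [h0] at h2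
      exact zero_ne_one h2
    · intro q h0
      by_cases hq : b q 1 = 0
      · have h1 := congrFun h0 0
        simp only [b', hq, if_true] at h1
        simp at h1
      · have h1 := congrFun h0 1
        simp only [b', hq, if_false] at h1
        simp at h1
    · intro G hG
      exact S.eq_zero (hsp G) (hnorm.eq G hG)
  have hR' : MvPolynomial.aeval (Sum.elim a' fun w => b' w.1 w.2) R ≠ 0 :=
    S.ne_zero (hsp R) (hS _ (Or.inr rfl)) hRn
  by_cases hp : b p 1 = 0
  · exfalso
    have h1 := ht' p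
    rw [hp, div_zero] at h1
    have h2 : t' p = 0 := S.ext h1 S.zero
    rw [h2, zero_sub, Q.ord_neg] at hpos
    have h3 : c ≠ 0 := by
      rintro rfl
      apply hne
      rw [h2, map_zero]
    rw [Q.ord_const h3] at hpos
    exact lt_irrefl _ hpos
  · have h1 : b' p 0 / b' p 1 = t' p := by
      simp only [b', hp, if_false]
      simp
    have h2 : b' p 1 ≠ 0 := by
      simp only [b', hp, if_false]
      simp
    have h3 := hV E Q a' b' hmem hR' p c hc h2 (by rw [h1]; exact hne) (by rw [h1]; exact hpos)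
    rwa [h1] at h3

end Pool.Agent.K4H65.DM
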