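import Pool.Agent.K4H65.DM.FinDefs

/-!
Multivalued maps between projective varieties, for instance the points of symmetric powers.
-/

set_option autoImplicit false

open FF Pool.Agent.W602.GT

namespace Pool.Agent.K4H65.DM

open Pool.Agent.Y221.FQ

variable {m l M s : ℕ} {κ υ : Type}

/-- A morphism from the projective variety `{Ψ = 0}` to the projective variety `{Υ = 0}`: at every
point it is given by some of a set of tuples of forms of the same degree. -/
structure PMap (Ψ : κ → MvPolynomial (Fin (m + 1)) ℂ) (Υ : υ → MvPolynomial (Fin (l + 1)) ℂ) where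
  tuples : Set (Fin (l + 1) → MvPolynomial (Fin (m + 1)) ℂ)
  form : ∀ h ∈ tuples, ∃ d, ∀ a, (h a).IsHomogeneous d
  base : ∀ x ∈ Cone Ψ, ∃ h ∈ tuples, im h x ≠ 0
  glue : ∀ h ∈ tuples, ∀ h' ∈ tuples, ∀ x ∈ Cone Ψ, ∀ a b,
    val x (h a) * val x (h' b) = val x (h b) * val x (h' a)
  maps : ∀ h ∈ tuples, ∀ x ∈ Cone Ψ, im h x ≠ 0 → im h x ∈ Cone Υ

variable {Ψ : κ → MvPolynomial (Fin (m + 1)) ℂ} {Υ : υ → MvPolynomial (Fin (l + 1)) ℂ}

/-- `v` are homogeneous coordinates of the image of the point `u` of `{Ψ = 0}` (with coordinates in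
a field `E ⊃ ℂ`). -/
structure PMap.At (g : PMap Ψ Υ) {E : Type} [Field E] [Algebra ℂ E] (u : Fin (m + 1) → E)
    (v : Fin (l + 1) → E) : Prop where
  ne : v ≠ 0
  eq : ∀ h ∈ g.tuples, ∀ a b, v a * val u (h b) = v b * val u (h a)

/-- The morphisms `g 1, ..., g s` from `{Ψ = 0}` to `{Υ = 0}` define an `s`-valued map on the image
of `{Ψ = 0}` under the morphism `G`: if two points `x`, `x'` have the same image under `G`, then
each of the points `g 1 (x), ..., g s (x)` is one of the points `g 1 (x'), ..., g s (x')`. -/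
def Permuted (G : Fin (M + 1) → MvPolynomial (Fin (m + 1)) ℂ) (g : Fin s → PMap Ψ Υ) : Prop :=
  ∀ x ∈ Cone Ψ, ∀ x' ∈ Cone Ψ, (∃ c : ℂ, im G x = c • im G x') →
    ∀ i v, (g i).At x v → ∃ j, (g j).At x' v

/-- the composition of a form with the forms of a morphism -/
theorem val_comp {E : Type} [Field E] [Algebra ℂ E]
    (g : Fin (l + 1) → MvPolynomial (Fin (m + 1)) ℂ) (H : MvPolynomial (Fin (l + 1)) ℂ)
    (u : Fin (m + 1) → E) : val u (MvPolynomial.aeval g H) = val (im g u) H := by
  unfold Pool.Agent.W602.GT.val Pool.Agent.Y221.FQ.im Pool.Agent.W602.GT.val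
  have h : ((MvPolynomial.aeval u : MvPolynomial (Fin (m + 1)) ℂ →ₐ[ℂ] E).comp
      (MvPolynomial.aeval g : MvPolynomial (Fin (l + 1)) ℂ →ₐ[ℂ] _)) =
      MvPolynomial.aeval fun j => MvPolynomial.aeval u (g j) := by
    apply MvPolynomial.algHom_ext
    intro i
    rw [AlgHom.comp_apply, MvPolynomial.aeval_X, MvPolynomial.aeval_X]
  exact DFunLike.congr_fun h H

/-- scaling -/
theorem val_scale {E : Type} [Field E] [Algebra ℂ E] {H : MvPolynomial (Fin (l + 1)) ℂ} {d : ℕ}
    (hH : H.IsHomogeneous d) (c : E) (u : Fin (l + 1) → E) :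
    val (fun i => c * u i) H = c ^ d * val u H := by
  unfold Pool.Agent.W602.GT.val
  rw [MvPolynomial.aeval_def, MvPolynomial.aeval_def, MvPolynomial.eval₂_eq',
    MvPolynomial.eval₂_eq', Finset.mul_sum]
  refine Finset.sum_congr rfl fun t ht => ?_
  have h1 : ∑ i, t i = d := by
    have h2 := hH (MvPolynomial.mem_support_iff.1 ht)
    rw [← h2, Finsupp.weight_apply, Finsupp.sum_fintype _ _ (fun _ => by simp)]
    simp
  simp only [mul_pow]
  rw [Finset.prod_mul_distrib, Finset.prod_pow_eq_pow_sum, h1]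
  ring

/-- The composition of a morphism `g` and a morphism `b` to the projective line. -/
noncomputable def LineMap.comp (b : LineMap Υ) (g : PMap Ψ Υ) : LineMap Ψ where
  pairs := {p | ∃ h ∈ g.tuples, ∃ f ∈ b.pairs,
    p = (MvPolynomial.aeval h f.1, MvPolynomial.aeval h f.2)}
  form := by
    rintro _ ⟨h, hh, f, hf, rfl⟩
    obtain ⟨d, h1, h2⟩ := b.form f hf
    obtain ⟨e, he⟩ := g.form h hh
    exact ⟨e * d, h1.aeval h he, h2.aeval h he⟩
  base := by
    intro x hx
    obtain ⟨h, hh, h1⟩ := g.base x hx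
    obtain ⟨f, hf, h2⟩ := b.base _ (g.maps h hh x hx h1)
    refine ⟨_, ⟨h, hh, f, hf, rfl⟩, ?_⟩
    rw [val_comp, val_comp]
    exact h2
  glue := by
    rintro _ ⟨h, hh, f, hf, rfl⟩ _ ⟨h', hh', f', hf', rfl⟩ x hx
    simp only [val_comp]
    obtain ⟨h0, hh0, h1⟩ := g.base x hx
    have h2 := g.maps h0 hh0 x hx h1
    obtain ⟨a0, ha0'⟩ := Function.ne_iff.1 h1
    have ha0 : val x (h0 a0) ≠ 0 := ha0'
    have key : ∀ h ∈ g.tuples, im h x =
        fun a => (val x (h a0) / val x (h0 a0)) * im h0 x a := by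
      intro h hh
      funext a
      have h3 := g.glue h hh h0 hh0 x hx a a0
      change val x (h a) = val x (h a0) / val x (h0 a0) * val x (h0 a)
      field_simp
      exact h3
    obtain ⟨d, h3, h4⟩ := b.form f hf
    obtain ⟨d', h3', h4'⟩ := b.form f' hf'
    rw [key h hh, key h' hh', val_scale h3, val_scale h4, val_scale h3', val_scale h4']
    linear_combination (val x (h a0) / val x (h0 a0)) ^ d *
      (val x (h' a0) / val x (h0 a0)) ^ d' * b.glue f hf f' hf' _ h2

/-- The compositions of all `n` morphisms `b p` to the projective line with all `s` morphisms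
`g i` (numbered by `Fin (s * n)` with the bijection `finProdFinEquiv`). -/
noncomputable def values {n : ℕ} (b : Fin n → LineMap Υ) (g : Fin s → PMap Ψ Υ) :
    Fin (s * n) → LineMap Ψ :=
  fun q => (b (finProdFinEquiv.symm q).2).comp (g (finProdFinEquiv.symm q).1)

end Pool.Agent.K4H65.DM
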