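import Pool.Agent.K4H65.DM.FinMain
import Pool.Agent.K4H65.DM.SymDefs

/-!
Lifting points of the image of a finite morphism, with multivalued maps.
-/

set_option autoImplicit false
set_option linter.overlappingInstances false
set_option linter.unusedSectionVars false

open FF IntermediateField Filter

namespace Pool.Agent.K4H65.DM

open Pool.Agent.W602.GT Pool.Agent.Y221.FQ Pool.Agent.TH143.EL Pool.Agent.TH466.QG

variable {m l M s : ℕ} {κ υ μ : Type} {Ψ : κ → MvPolynomial (Fin (m + 1)) ℂ}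
  {Υ : υ → MvPolynomial (Fin (l + 1)) ℂ}
  {Φ : μ → MvPolynomial (Fin (M + 1)) ℂ} {G : Fin (M + 1) → MvPolynomial (Fin (m + 1)) ℂ}
  {g : Fin s → PMap Ψ Υ}

/-- morphisms are defined at points with coordinates in extension fields -/
theorem exists_tuple (g : PMap Ψ Υ) {E : Type} [Field E] [Algebra ℂ E] {u : Fin (m + 1) → E}
    (hu : u ≠ 0) (huΨ : ∀ e, val u (Ψ e) = 0) : ∃ h ∈ g.tuples, im h u ≠ 0 := by
  by_contra hcon
  push Not at hcon
  obtain ⟨j, hj⟩ := Function.ne_iff.1 hu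
  obtain ⟨x, hx, hx0⟩ := specialise (k := ℂ) u (MvPolynomial.X j) (by
    rw [MvPolynomial.aeval_X]
    exact hj)
  rw [MvPolynomial.aeval_X] at hx
  have hxc : x ∈ Cone Ψ := ⟨fun h0 => hx (congrFun h0 j), fun e => hx0 _ (huΨ e)⟩
  obtain ⟨h, hh, h2⟩ := g.base x hxc
  apply h2
  funext a
  exact hx0 _ (congrFun (hcon h hh) a)

theorem im_at (g : PMap Ψ Υ) {E : Type} [Field E] [Algebra ℂ E] {u : Fin (m + 1) → E}
    (hu : u ≠ 0) (huΨ : ∀ e, val u (Ψ e) = 0) {h : Fin (l + 1) → MvPolynomial (Fin (m + 1)) ℂ}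
    (hh : h ∈ g.tuples) (h0 : im h u ≠ 0) : g.At u (im h u) := by
  refine ⟨h0, fun h' hh' a b => ?_⟩
  have h3 := van_of_cone hu huΨ (H := h a * h' b - h b * h' a) (fun x hx => by
    unfold Pool.Agent.W602.GT.val
    rw [map_sub, map_mul, map_mul, sub_eq_zero]
    exact g.glue h hh h' hh' x hx a b)
  unfold Pool.Agent.W602.GT.val at h3
  rw [map_sub, map_mul, map_mul, sub_eq_zero] at h3
  exact h3

theorem im_mem (g : PMap Ψ Υ) (hΥ : ∀ e, IsForm (Υ e)) {E : Type} [Field E] [Algebra ℂ E]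
    {u : Fin (m + 1) → E}
    (hu : u ≠ 0) (huΨ : ∀ e, val u (Ψ e) = 0) {h : Fin (l + 1) → MvPolynomial (Fin (m + 1)) ℂ}
    (hh : h ∈ g.tuples) (h0 : im h u ≠ 0) (e : υ) : val (im h u) (Υ e) = 0 := by
  obtain ⟨a, ha'⟩ := Function.ne_iff.1 h0
  have ha : val u (h a) ≠ 0 := ha'
  have h3 := van_of_cone hu huΨ (H := MvPolynomial.aeval h (Υ e) * h a) (fun x hx => by
    have h4 : val x (MvPolynomial.aeval h (Υ e) * h a) =
        val x (MvPolynomial.aeval h (Υ e)) * val x (h a) := by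
      unfold Pool.Agent.W602.GT.val
      rw [map_mul]
    rw [h4, val_comp]
    by_cases h5 : im h x = 0
    · have h6 : val x (h a) = 0 := congrFun h5 a
      rw [h6, mul_zero]
    · rw [(g.maps h hh x hx h5).2 e, zero_mul])
  have h4 : val u (MvPolynomial.aeval h (Υ e) * h a) =
      val u (MvPolynomial.aeval h (Υ e)) * val u (h a) := by
    unfold Pool.Agent.W602.GT.val
    rw [map_mul]
  rw [h4, val_comp] at h3
  exact (mul_eq_zero.1 h3).resolve_right ha

/-- the values of the tuples at a point are multiples of the coordinates of the image -/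
theorem at_mul {g : PMap Ψ Υ} {E : Type} [Field E] [Algebra ℂ E] {u : Fin (m + 1) → E}
    {v : Fin (l + 1) → E} (hv : g.At u v) {h : Fin (l + 1) → MvPolynomial (Fin (m + 1)) ℂ}
    (hh : h ∈ g.tuples) : ∃ k : E, ∀ a, val u (h a) = k * v a := by
  obtain ⟨a0, ha0'⟩ := Function.ne_iff.1 hv.ne
  have ha0 : v a0 ≠ 0 := ha0'
  refine ⟨val u (h a0) / v a0, fun a => ?_⟩
  have h1 := hv.eq h hh a0 a
  field_simp
  linear_combination h1

theorem At_comp {b : LineMap Υ} {g : PMap Ψ Υ} {E : Type} [Field E] [Algebra ℂ E]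
    {u : Fin (m + 1) → E} {v : Fin (l + 1) → E} {t : Fin 2 → E} (hv : g.At u v)
    (ht : b.At v t) : (b.comp g).At u t := by
  refine ⟨ht.ne, ?_⟩
  rintro _ ⟨h, hh, f, hf, rfl⟩
  obtain ⟨k, hk⟩ := at_mul hv hh
  obtain ⟨d, h1, h2⟩ := b.form f hf
  have h3 : im h u = fun a => k * v a := funext hk
  simp only [val_comp]
  rw [h3, val_scale h1, val_scale h2]
  linear_combination k ^ d * ht.eq f hf

theorem at_map {g : PMap Ψ Υ} {E F : Type} [Field E] [Algebra ℂ E] [Field F] [Algebra ℂ F]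
    (φ : E →ₐ[ℂ] F) {u : Fin (m + 1) → E} {v : Fin (l + 1) → E} (hv : g.At u v) :
    g.At (fun i => φ (u i)) (fun i => φ (v i)) := by
  refine ⟨fun h0 => hv.ne ?_, fun h hh a b => ?_⟩
  · funext i
    exact (map_eq_zero φ).1 (congrFun h0 i)
  · rw [← val_map, ← val_map, ← map_mul, ← map_mul, hv.eq h hh]

/-- two images of a point are multiples -/
theorem at_unique {g : PMap Ψ Υ} {E : Type} [Field E] [Algebra ℂ E] {u : Fin (m + 1) → E}
    (hu : u ≠ 0) (huΨ : ∀ e, val u (Ψ e) = 0) {v v' : Fin (l + 1) → E} (hv : g.At u v)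
    (hv' : g.At u v') (a b : Fin (l + 1)) : v a * v' b = v b * v' a := by
  obtain ⟨h, hh, h0⟩ := exists_tuple g hu huΨ
  obtain ⟨k, hk⟩ := at_mul hv hh
  obtain ⟨k', hk'⟩ := at_mul hv' hh
  have hk0 : k ≠ 0 := by
    rintro rfl
    apply h0
    funext a
    exact (hk a).trans (zero_mul _)
  have hk0' : k' ≠ 0 := by
    rintro rfl
    apply h0
    funext a
    exact (hk' a).trans (zero_mul _)
  have h1 : k * v a = k' * v' a := (hk a).symm.trans (hk' a)
  have h2 : k * v b = k' * v' b := (hk b).symm.trans (hk' b)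
  apply mul_left_cancel₀ (mul_ne_zero hk0 hk0')
  linear_combination k' * v' b * h1 - k' * v' a * h2

/-- points over extensions and multiples -/
theorem At_scale {b : LineMap Υ} {E F : Type} [Field E] [Field F] [Algebra ℂ E] [Algebra ℂ F]
    (φ : E →ₐ[ℂ] F) {v : Fin (l + 1) → E} {t : Fin 2 → E} (h : b.At v t) {u : Fin (l + 1) → F}
    {c : F} (hu : ∀ a, u a = c * φ (v a)) : b.At u (fun i => φ (t i)) := by
  have hu' : u = fun a => c * (fun a => φ (v a)) a := funext hu
  refine ⟨fun h0 => h.ne ?_, fun h' hh' => ?_⟩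
  · funext i
    have h1 := congrFun h0 i
    exact (map_eq_zero φ).1 h1
  · obtain ⟨d, h1, h2⟩ := b.form h' hh'
    rw [hu', val_smul h1, val_smul h2, ← val_map, ← val_map]
    have h3 := congrArg φ (h.eq h' hh')
    rw [map_mul, map_mul] at h3
    linear_combination c ^ d * h3

/-- the values over extension fields -/
theorem perm_ext (hperm : Permuted G g) (hG : NoBase Ψ G)
    {K : Type} [Field K] [Algebra ℂ K] {y y' : Fin (m + 1) → K} (hy : y ≠ 0) (hy' : y' ≠ 0)
    (hyΨ : ∀ e, val y (Ψ e) = 0) (hy'Ψ : ∀ e, val y' (Ψ e) = 0)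
    (hyG : ∀ a b, im G y a * im G y' b = im G y b * im G y' a) (i : Fin s)
    {v : Fin (l + 1) → K} (hv : (g i).At y v) :
    ∃ j, (g j).At y' v := by
  classical
  by_contra hcon
  push Not at hcon
  have hcon2 : ∀ j, ∃ h ∈ (g j).tuples, ∃ a b, v a * val y' (h b) ≠ v b * val y' (h a) := by
    intro j
    by_contra h0
    push Not at h0
    exact hcon j ⟨hv.ne, h0⟩
  choose hj hhj q1 q2 hq using hcon2
  obtain ⟨a, ha⟩ := Function.ne_iff.1 hy
  obtain ⟨a', ha'⟩ := Function.ne_iff.1 hy'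
  obtain ⟨c, hc⟩ := Function.ne_iff.1 hv.ne
  let σ : Type := (Fin 2 × Fin (m + 1)) ⊕ Fin (l + 1)
  let z : σ → K := Sum.elim (fun p => if p.1 = 0 then y p.2 else y' p.2) v
  let T : ∀ (i : Fin 2), MvPolynomial (Fin (m + 1)) ℂ →ₐ[ℂ] MvPolynomial σ ℂ := fun i =>
    MvPolynomial.aeval fun l => MvPolynomial.X (Sum.inl (i, l))
  let X' : Fin (l + 1) → MvPolynomial σ ℂ := fun l => MvPolynomial.X (Sum.inr l)
  have hT : ∀ (L : Type) [Field L] [Algebra ℂ L] (u : σ → L) (i : Fin 2)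
      (p : MvPolynomial (Fin (m + 1)) ℂ),
      MvPolynomial.aeval u (T i p) = val (fun l => u (Sum.inl (i, l))) p := by
    intro L _ _ u i p
    have h3 : (MvPolynomial.aeval u : MvPolynomial σ ℂ →ₐ[ℂ] L).comp (T i) =
        MvPolynomial.aeval fun l => u (Sum.inl (i, l)) := by
      apply MvPolynomial.algHom_ext
      intro l
      simp only [T]
      rw [AlgHom.comp_apply, MvPolynomial.aeval_X, MvPolynomial.aeval_X, MvPolynomial.aeval_X]
    exact DFunLike.congr_fun h3 p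
  have hX : ∀ (L : Type) [Field L] [Algebra ℂ L] (u : σ → L) (i : Fin (l + 1)),
      MvPolynomial.aeval u (X' i) = u (Sum.inr i) := fun L _ _ u i =>
    MvPolynomial.aeval_X _ _
  have hz0 : (fun l => z (Sum.inl (0, l))) = y := by
    funext l
    simp [z]
  have hz1 : (fun l => z (Sum.inl (1, l))) = y' := by
    funext l
    simp [z]
  have hz2 : ∀ l, z (Sum.inr l) = v l := fun l => rfl
  let H : MvPolynomial σ ℂ := (∏ j, (X' (q1 j) * T 1 (hj j (q2 j)) -
    X' (q2 j) * T 1 (hj j (q1 j)))) * (MvPolynomial.X (Sum.inl (0, a)) *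
      MvPolynomial.X (Sum.inl (1, a')) * X' c)
  have hH : MvPolynomial.aeval z H ≠ 0 := by
    simp only [H]
    rw [map_mul, map_prod, map_mul, map_mul, MvPolynomial.aeval_X, MvPolynomial.aeval_X, hX]
    refine mul_ne_zero (Finset.prod_ne_zero_iff.2 fun j _ => ?_)
      (mul_ne_zero (mul_ne_zero ?_ ?_) hc)
    · rw [map_sub, map_mul, map_mul, hT, hT, hX, hX, hz1, hz2, hz2]
      exact sub_ne_zero.2 (hq j)
    · exact (congrFun hz0 a).trans_ne ha
    · exact (congrFun hz1 a').trans_ne ha'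
  obtain ⟨z0, hz0', hrel⟩ := specialise z H hH
  simp only [H] at hz0'
  rw [map_mul, map_prod, map_mul, map_mul, MvPolynomial.aeval_X, MvPolynomial.aeval_X, hX] at hz0'
  have h3 := Finset.prod_ne_zero_iff.1 (left_ne_zero_of_mul hz0')
  have h4 := right_ne_zero_of_mul hz0'
  have h4c := right_ne_zero_of_mul h4
  have h4a := left_ne_zero_of_mul (left_ne_zero_of_mul h4)
  have h4b := right_ne_zero_of_mul (left_ne_zero_of_mul h4)
  let x : Fin (m + 1) → ℂ := fun l => z0 (Sum.inl (0, l))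
  let x' : Fin (m + 1) → ℂ := fun l => z0 (Sum.inl (1, l))
  let v0 : Fin (l + 1) → ℂ := fun l => z0 (Sum.inr l)
  have hx : x ∈ Cone Ψ := by
    refine ⟨fun h0 => h4a (congrFun h0 a), fun e => ?_⟩
    have h5 := hrel (T 0 (Ψ e)) (by rw [hT, hz0]; exact hyΨ e)
    rw [hT] at h5
    exact h5
  have hx' : x' ∈ Cone Ψ := by
    refine ⟨fun h0 => h4b (congrFun h0 a'), fun e => ?_⟩
    have h5 := hrel (T 1 (Ψ e)) (by rw [hT, hz1]; exact hy'Ψ e)
    rw [hT] at h5
    exact h5
  have hxG : ∃ c : ℂ, im G x = c • im G x' := by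
    obtain ⟨b, hb⟩ := hG x' hx'.1 hx'.2
    have h5 : ∀ l, im G x l * im G x' b = im G x b * im G x' l := by
      intro l
      have h6 := hrel (T 0 (G l) * T 1 (G b) - T 0 (G b) * T 1 (G l)) (by
        rw [map_sub, map_mul, map_mul, hT, hT, hT, hT, hz0, hz1]
        exact sub_eq_zero.2 (hyG l b))
      rw [map_sub, map_mul, map_mul, hT, hT, hT, hT] at h6
      exact sub_eq_zero.1 h6
    refine ⟨im G x b / im G x' b, ?_⟩
    funext l
    have hb' : im G x' b ≠ 0 := hb
    rw [Pi.smul_apply, smul_eq_mul]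
    field_simp
    linear_combination h5 l
  have hv0 : (g i).At x v0 := by
    refine ⟨fun h0 => h4c (congrFun h0 c), fun h hh a b => ?_⟩
    have h5 := hrel (X' a * T 0 (h b) - X' b * T 0 (h a)) (by
      rw [map_sub, map_mul, map_mul, hT, hT, hX, hX, hz0, hz2, hz2]
      exact sub_eq_zero.2 (hv.eq h hh a b))
    rw [map_sub, map_mul, map_mul, hT, hT, hX, hX] at h5
    exact sub_eq_zero.1 h5
  obtain ⟨j, hvj⟩ := hperm x hx x' hx' hxG i v0 hv0
  have h5 := h3 j (Finset.mem_univ _)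
  rw [map_sub, map_mul, map_mul, hT, hT, hX, hX] at h5
  exact h5 (sub_eq_zero.2 (hvj.eq (hj j) (hhj j) (q1 j) (q2 j)))

variable {Ω E0 : Type} [Field Ω] [Field E0] [Algebra ℂ E0] [Algebra ℂ Ω] [Algebra E0 Ω]
    [IsScalarTower ℂ E0 Ω] [IsAlgClosed Ω] [Algebra.IsAlgebraic E0 Ω]

/-- **The degree of the values.** -/
theorem val_deg (hperm : Permuted G g) (hG : NoBase Ψ G)
    {z : Fin (M + 1) → E0} {y : Fin (m + 1) → Ω} (hy : y ≠ 0)
    (hyΨ : ∀ e, val y (Ψ e) = 0) (hyG : im G y = fun j => algebraMap E0 Ω (z j)) (i : Fin s)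
    {v : Fin (l + 1) → Ω} (hv : (g i).At y v) {a0 : Fin (l + 1)} (ha0 : v a0 ≠ 0) :
    FiniteDimensional E0 (IntermediateField.adjoin E0 (Set.range fun a => v a / v a0)) ∧
      Module.finrank E0 (IntermediateField.adjoin E0 (Set.range fun a => v a / v a0)) ≤ s := by
  classical
  have hch : CharZero E0 := charZero_of_injective_algebraMap (algebraMap ℂ E0).injective
  obtain ⟨E, hE⟩ : ∃ E, E = IntermediateField.adjoin E0
      (Set.range fun a => v a / v a0) := ⟨_, rfl⟩
  rw [← hE]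
  have hfin : FiniteDimensional E0 E := by
    rw [hE]
    exact IntermediateField.finiteDimensional_adjoin fun x _ =>
      (Algebra.IsAlgebraic.isAlgebraic (R := E0) x).isIntegral
  refine ⟨hfin, ?_⟩
  by_contra hcon
  push Not at hcon
  have hmem : ∀ a, v a / v a0 ∈ E := fun a => by
    rw [hE]
    exact IntermediateField.subset_adjoin E0 _ ⟨a, rfl⟩
  have hcard : Fintype.card (Fin (s + 1)) ≤ Fintype.card (E →ₐ[E0] Ω) := by
    rw [AlgHom.card, Fintype.card_fin]
    exact hcon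
  obtain ⟨σ⟩ := Function.Embedding.nonempty_of_card_le hcard
  have hnorm : Normal E0 Ω := by
    have : IsAlgClosure E0 Ω := ⟨inferInstance, inferInstance⟩
    exact IsAlgClosure.normal E0 Ω
  let τ : Fin (s + 1) → Ω →ₐ[E0] Ω := fun q => (σ q).liftNormal Ω
  have hτ : ∀ q (x : E), τ q (x : Ω) = σ q x := fun q x => (σ q).liftNormal_commutes Ω x
  let τk : Fin (s + 1) → Ω →ₐ[ℂ] Ω := fun q => (τ q).restrictScalars ℂ
  have hj : ∀ q, ∃ j, (g j).At y (fun c => τk q (v c)) := by
    intro q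
    refine perm_ext hperm hG (y := fun c => τk q (y c)) (fun h0 => hy ?_) hy (fun e => ?_) hyΨ
      (fun a b => ?_) i (at_map (τk q) hv)
    · funext c
      have h1 := congrFun h0 c
      exact (map_eq_zero (τk q)).1 h1
    · rw [← val_map, hyΨ, map_zero]
    · have h1 : ∀ a, im G (fun c => τk q (y c)) a = im G y a := by
        intro a
        have h2 : im G (fun c => τk q (y c)) a = τk q (im G y a) := by
          unfold Pool.Agent.Y221.FQ.im
          rw [val_map]
        rw [h2, hyG]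
        exact (τ q).commutes (z a)
      rw [h1, h1]
      ring
  choose j hj using hj
  obtain ⟨q, q', hqq, hjj⟩ := Fintype.exists_ne_map_eq_of_card_lt j (by
    rw [Fintype.card_fin, Fintype.card_fin]
    omega)
  apply hqq
  apply σ.injective
  have key2 : ∀ a, τk q (v a / v a0) = τk q' (v a / v a0) := by
    intro a
    have h1 := hj q
    rw [hjj] at h1
    have h2 := at_unique hy hyΨ h1 (hj q') a a0
    have h3 : ∀ q, τk q (v a0) ≠ 0 := fun q h3 => ha0 ((map_eq_zero (τk q)).1 h3)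
    rw [map_div₀, map_div₀, div_eq_div_iff (h3 q) (h3 q'), h2]
    ring
  refine IntermediateField.algHom_ext_of_eq_adjoin E0 hE ?_
  rintro _ ⟨a, rfl⟩
  have h1 := key2 a
  have h2 := hτ q ⟨_, hmem a⟩
  have h3 := hτ q' ⟨_, hmem a⟩
  change σ q ⟨_, hmem a⟩ = σ q' ⟨_, hmem a⟩
  rw [← h2, ← h3]
  exact h1

end Pool.Agent.K4H65.DM
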