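import Pool.Agent.K4H65.DM.SymMain

/-!
The subvarieties of the varieties with multivalued maps to varieties with multiple fibres.
-/

set_option autoImplicit false
set_option linter.overlappingInstances false
set_option linter.unusedSectionVars false

open FF IntermediateField Filter

namespace Pool.Agent.K4H65.DM

open Pool.Agent.W602.GT Pool.Agent.Y221.FQ Pool.Agent.TH143.EL Pool.Agent.TH466.QG
open Pool.Agent.Y190.BV (ct)

/-- several functions in extensions of small degree, in one Galois extension -/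
theorem gal_setup {K Ω : Type} [Field K] [Field Ω] [Algebra ℂ K] [Algebra ℂ Ω] [Algebra K Ω]
    [IsScalarTower ℂ K Ω] [IsAlgClosed Ω] [Algebra.IsAlgebraic K Ω] {N s : ℕ}
    {A : Fin N → Finset ℂ} {mu : Fin N → ℂ → ℕ} (hwide : ∀ q, Wide s (A q) (mu q))
    {t : Fin N → Ω}
    (hE : ∀ q, ∃ (E : IntermediateField K Ω) (_ : FiniteDimensional K E)
        (x : E), Module.finrank K E ≤ s ∧ t q = (x : Ω) ∧
        ∀ c ∈ A q, ∀ Q : Place ℂ E, x ≠ algebraMap ℂ E c → 0 < Q.ord (x - algebraMap ℂ E c) →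
          (mu q c : ℤ) ≤ Q.ord (x - algebraMap ℂ E c)) :
    ∃ (L : IntermediateField K Ω) (_ : FiniteDimensional K L) (_ : IsGalois K L) (τ : Fin N → L)
      (γ : Fin N → ℕ), (∀ q, t q = (τ q : Ω)) ∧ (∀ q, 1 ≤ γ q) ∧
      (∀ q, 2 * ((minpoly K (τ q)).natDegree : ℝ) <
        ∑ c ∈ A q, (1 - 1 / (cdiv (mu q c) (γ q) : ℝ))) ∧
      ∀ (P : Place ℂ K) q, ∀ c ∈ A q, τ q ≠ algebraMap ℂ L c →
        ct P (minpoly K (τ q)) c = 0 ∨
          (mu q c ≠ 0 ∧ (cdiv (mu q c) (γ q) : ℤ) ≤ ct P (minpoly K (τ q)) c) := by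
  classical
  have hch : CharZero K := charZero_of_injective_algebraMap (algebraMap ℂ K).injective
  choose E hfd x hrk hx hmult using hE
  let E' : IntermediateField K Ω := ⨆ q, E q
  have hE' : FiniteDimensional K E' := IntermediateField.finiteDimensional_iSup_of_finite
  have hnorm : Normal K Ω := by
    have : IsAlgClosure K Ω := ⟨inferInstance, inferInstance⟩
    exact IsAlgClosure.normal K Ω
  let L : IntermediateField K Ω := IntermediateField.normalClosure K E' Ω
  have hLn : Normal K L := inferInstance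
  have hLf : FiniteDimensional K L := inferInstance
  have hLg : IsGalois K L := ⟨⟩
  have hle : ∀ q, E q ≤ L := fun q =>
    (le_iSup E q).trans (IntermediateField.le_normalClosure E')
  have hct := fun q => ct_of_mult (hrk q) (hwide q) (x q) fun c hc Q h1 h2 => hmult q c hc Q h1 h2
  choose γ hγ hsum hct using hct
  have hmp : ∀ q, minpoly K (⟨(x q : Ω), hle q (x q).2⟩ : L) = minpoly K (x q) := by
    intro q
    rw [← minpoly.algebraMap_eq (algebraMap L Ω).injective,
      ← minpoly.algebraMap_eq (algebraMap (E q) Ω).injective]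
    rfl
  refine ⟨L, hLf, hLg, fun q => ⟨(x q : Ω), hle q (x q).2⟩, γ, hx, hγ, fun q => ?_,
    fun P q c hc hne => ?_⟩
  · rw [hmp]
    exact hsum q
  · rw [hmp]
    refine hct q P c hc fun h0 => hne ?_
    apply Subtype.ext
    change (x q : Ω) = algebraMap ℂ Ω c
    rw [h0]
    rfl

/-- functions algebraic over a subfield of the algebraic closure -/
theorem alg_down {K Ω : Type} [Field K] [Field Ω] [Algebra ℂ K] [Algebra ℂ Ω] [Algebra K Ω]
    [IsScalarTower ℂ K Ω] {N : ℕ} (L : IntermediateField K Ω) (τ : Fin N → L)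
    {y : K} (h : IsAlgebraic (IntermediateField.adjoin ℂ (Set.range fun q => (τ q : Ω)))
      (algebraMap K Ω y)) : IsAlgebraic (Algebra.adjoin ℂ (Set.range τ)) (algebraMap K L y) := by
  rw [isAlgebraic_adjoin_field]
  let φ : L →ₐ[ℂ] Ω := L.val.restrictScalars ℂ
  refine alg_back φ ?_
  rw [IntermediateField.adjoin_map]
  have h1 : φ '' Set.range τ = Set.range fun q => (τ q : Ω) := by
    rw [← Set.range_comp]
    rfl
  rw [h1]
  exact h

variable {m l M s N : ℕ} {κ υ μ : Type} {Ψ : κ → MvPolynomial (Fin (m + 1)) ℂ}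
  {Υ : υ → MvPolynomial (Fin (l + 1)) ℂ}
  {Φ : μ → MvPolynomial (Fin (M + 1)) ℂ} {G : Fin (M + 1) → MvPolynomial (Fin (m + 1)) ℂ}
  {g : Fin s → PMap Ψ Υ}
  (hΨ : ∀ e, IsForm (Ψ e)) (hΥ : ∀ e, IsForm (Υ e)) (hG : Mor Ψ Φ G)
    (hon : Onto Ψ Φ G) (hperm : Permuted G g)
    (ii : Fin N → Fin s) (b : Fin N → LineMap Υ) {A : Fin N → Finset ℂ} {mu : Fin N → ℂ → ℕ}
    (hb : ∀ q, (b q).Multiple (A q) (mu q)) (hwide : ∀ q, Wide s (A q) (mu q))

include hΨ hΥ hG hon hperm hb hwide

/-- **Subvarieties are of general type.** -/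
theorem general_sym (hfin : FiniteFibres fun q => (b q).comp (g (ii q))) :
    AllGeneral Φ := by
  classical
  intro K _ _ w z hw hz
  obtain ⟨y, t, hy0, hyΨ, hyG, ht, hE⟩ := lift_vals hΨ hΥ hG hon hperm ii b hb hz.ne hz.mem
  obtain ⟨L, hLf, hLg, τ, γ, hτ, hγ, hsum, hct⟩ := gal_setup hwide
    (t := fun q => t q 0 / t q 1) hE
  obtain ⟨i0, hi0'⟩ := Function.ne_iff.1 hy0
  have hi0 : y i0 ≠ 0 := hi0'
  obtain ⟨e, -, hGe⟩ := hG.form
  refine general_of_log (multi_gt (L := L) hz.dim τ (fun y' => ?_) A mu γ hγ hsum _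
    (fun P _ _ j c hc h => hct P j c hc h))
  apply alg_down L τ
  have hr : (fun q => (τ q : AlgebraicClosure K)) = fun q => t q 0 / t q 1 :=
    funext fun q => (hτ q).symm
  rw [hr]
  let F1 : IntermediateField (IntermediateField.adjoin ℂ (Set.range fun q => t q 0 / t q 1))
    (AlgebraicClosure K) := algebraicClosure _ _
  have h1 : ∀ i, y i / y i0 ∈ F1 := fun i =>
    mem_algebraicClosure_iff.2 (hfin _ y t hy0 hyΨ ht i i0 hi0)
  let F2 : IntermediateField ℂ (AlgebraicClosure K) := F1.restrictScalars ℂ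
  let F3 : IntermediateField ℂ K := F2.comap (IsScalarTower.toAlgHom ℂ K (AlgebraicClosure K))
  have h2 : ∀ p : MvPolynomial (Fin (m + 1)) ℂ, val (fun i => y i / y i0) p ∈ F2 := by
    intro p
    unfold Pool.Agent.W602.GT.val
    induction p using MvPolynomial.induction_on with
    | C a =>
      rw [MvPolynomial.aeval_C]
      exact F2.algebraMap_mem a
    | add p q hp hq =>
      rw [map_add]
      exact F2.add_mem hp hq
    | mul_X p i hp =>
      rw [map_mul, MvPolynomial.aeval_X]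
      exact F2.mul_mem hp (h1 i)
  have h3 : coords ℂ z ≤ F3 := by
    unfold Pool.Agent.W602.GT.coords
    rw [IntermediateField.adjoin_le_iff]
    rintro _ ⟨i, j, hj, rfl⟩
    change algebraMap K (AlgebraicClosure K) (z i / z j) ∈ F2
    have h4 : ∀ a, algebraMap K (AlgebraicClosure K) (z a) =
        y i0 ^ e * im G (fun i => y i / y i0) a := by
      intro a
      have h5 : (fun i => y i / y i0) = fun i => (y i0)⁻¹ * y i := by
        funext i
        rw [div_eq_mul_inv, mul_comm]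
      rw [h5, im_smul hGe]
      change _ = y i0 ^ e * ((y i0)⁻¹ ^ e * im G y a)
      rw [← mul_assoc, ← mul_pow, mul_inv_cancel₀ hi0, one_pow, one_mul, congrFun hyG a]
    rw [map_div₀, h4, h4, mul_div_mul_left _ _ (pow_ne_zero _ hi0)]
    exact F2.div_mem (h2 _) (h2 _)
  rw [hz.gen] at h3
  have h4 : y' ∈ F3 := h3 IntermediateField.mem_top
  exact mem_algebraicClosure_iff.1 h4

/-- the values are constant on special subvarieties -/
theorem special_sym_const {K : Type} [Field K] [Algebra ℂ K] {w : ℕ} {z : Fin (M + 1) → K}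
    (hz : SubVar Φ K w z) (hsp : Special ℂ K w (fun _ => False)) :
    ∃ (y : Fin (m + 1) → AlgebraicClosure K) (t : Fin N → Fin 2 → AlgebraicClosure K),
      y ≠ 0 ∧ (∀ e, val y (Ψ e) = 0) ∧
      (im G y = fun j => algebraMap K (AlgebraicClosure K) (z j)) ∧
      (∀ q, ((b q).comp (g (ii q))).At y (t q)) ∧
      ∀ q, ∃ c : ℂ, t q 0 / t q 1 = algebraMap ℂ (AlgebraicClosure K) c := by
  classical
  obtain ⟨y, t, hy0, hyΨ, hyG, ht, hE⟩ := lift_vals hΨ hΥ hG hon hperm ii b hb hz.ne hz.mem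
  refine ⟨y, t, hy0, hyΨ, hyG, ht, ?_⟩
  by_contra hcon
  push Not at hcon
  obtain ⟨q, hq⟩ := hcon
  obtain ⟨L, hLf, hLg, τ, γ, hτ, hγ, hsum, hct⟩ := gal_setup hwide
    (t := fun q => t q 0 / t q 1) hE
  refine multi_bog (L := L) (w := w) τ ⟨q, fun halg => ?_⟩ A mu γ hγ hsum _
    (fun P _ _ j c hc h => hct P j c hc h) hsp
  obtain ⟨c, hc⟩ := const_of_algebraic halg
  apply hq c
  have h1 : t q 0 / t q 1 = (τ q : AlgebraicClosure K) := hτ q
  rw [h1, hc]
  rfl

/-- **Special subvarieties lie in the images of the fibres.** -/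
theorem special_sym {K : Type} [Field K] [Algebra ℂ K] {w : ℕ} {z : Fin (M + 1) → K}
    (hz : SubVar Φ K w z) (hsp : Special ℂ K w (fun _ => False)) :
    ∃ q : Fin N → Fin 2 → ℂ,
      ∀ e, val z (fibreImage G (fun q => (b q).comp (g (ii q))) q e) = 0 := by
  obtain ⟨y, t, hy0, hyΨ, hyG, ht, hconst⟩ :=
    special_sym_const hΨ hΥ hG hon hperm ii b hb hwide hz hsp
  exact fibre_point (G := G) (b := fun q => (b q).comp (g (ii q)))
    (z := z) (c := 1) hy0 hyΨ (fun j => by
      rw [one_mul]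
      exact (congrFun hyG j).symm) ht hconst

end Pool.Agent.K4H65.DM
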