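import Pool.Agent.K4H65.DM.Sym
import Pool.Agent.K4H65.DM.Multi
import Pool.Agent.K4H65.DM.CampFin

/-!
Hyperbolicity of the varieties with multivalued maps to varieties with multiple fibres.
-/

set_option autoImplicit false
set_option linter.overlappingInstances false
set_option linter.unusedSectionVars false

open FF IntermediateField Filter

namespace Pool.Agent.K4H65.DM

open Pool.Agent.W602.GT Pool.Agent.Y221.FQ Pool.Agent.TH143.EL Pool.Agent.TH466.QG

variable {m l M s N : ℕ} {κ υ μ : Type} {Ψ : κ → MvPolynomial (Fin (m + 1)) ℂ}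
  {Υ : υ → MvPolynomial (Fin (l + 1)) ℂ}
  {Φ : μ → MvPolynomial (Fin (M + 1)) ℂ} {G : Fin (M + 1) → MvPolynomial (Fin (m + 1)) ℂ}
  {g : Fin s → PMap Ψ Υ}

/-- the lifts of a point, with values in extensions of small degree -/
theorem lift_vals (hΨ : ∀ e, IsForm (Ψ e)) (hΥ : ∀ e, IsForm (Υ e)) (hG : Mor Ψ Φ G)
    (hon : Onto Ψ Φ G) (hperm : Permuted G g)
    (ii : Fin N → Fin s) (b : Fin N → LineMap Υ) {A : Fin N → Finset ℂ} {mu : Fin N → ℂ → ℕ}
    (hb : ∀ q, (b q).Multiple (A q) (mu q)) {E0 : Type} [Field E0] [Algebra ℂ E0]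
    {z : Fin (M + 1) → E0} (hz : z ≠ 0) (hzΦ : ∀ e, val z (Φ e) = 0) :
    ∃ (y : Fin (m + 1) → AlgebraicClosure E0) (t : Fin N → Fin 2 → AlgebraicClosure E0),
      y ≠ 0 ∧ (∀ e, val y (Ψ e) = 0) ∧
      (im G y = fun j => algebraMap E0 (AlgebraicClosure E0) (z j)) ∧
      (∀ q, ((b q).comp (g (ii q))).At y (t q)) ∧
      ∀ q, ∃ (E : IntermediateField E0 (AlgebraicClosure E0)) (_ : FiniteDimensional E0 E)
        (x : E), Module.finrank E0 E ≤ s ∧ t q 0 / t q 1 = (x : AlgebraicClosure E0) ∧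
        ∀ c ∈ A q, ∀ Q : Place ℂ E, x ≠ algebraMap ℂ E c → 0 < Q.ord (x - algebraMap ℂ E c) →
          (mu q c : ℤ) ≤ Q.ord (x - algebraMap ℂ E c) := by
  classical
  obtain ⟨e, he, hGe⟩ := hG.form
  obtain ⟨y, hyΨ, hyG⟩ := surj hΨ hG.noBase he hGe (Ω := AlgebraicClosure E0)
    (z := fun j => algebraMap E0 (AlgebraicClosure E0) (z j)) (by
    intro H hH hH2
    have h1 : val z H = 0 := van_of_cone hz hzΦ fun q hq => by
      obtain ⟨x, hx, rfl⟩ := hon q hq
      exact hH2 x hx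
    have h2 := val_map (IsScalarTower.toAlgHom ℂ E0 (AlgebraicClosure E0)) H z
    rw [h1, map_zero] at h2
    exact h2.symm)
  have hy0 : y ≠ 0 := by
    intro h0
    obtain ⟨b, hb⟩ := Function.ne_iff.1 hz
    have h1 := congrFun hyG b
    have h2 : y = fun i => (0 : AlgebraicClosure E0) * y i := by
      rw [h0]
      funext i
      simp
    rw [h2, im_smul hGe, zero_pow (by omega)] at h1
    simp only [zero_mul] at h1
    exact hb ((map_eq_zero _).1 h1.symm)
  have hkey : ∀ q, ∃ t : Fin 2 → AlgebraicClosure E0,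
      ((b q).comp (g (ii q))).At y t ∧
      ∃ (E : IntermediateField E0 (AlgebraicClosure E0)) (_ : FiniteDimensional E0 E)
        (x : E), Module.finrank E0 E ≤ s ∧ t 0 / t 1 = (x : AlgebraicClosure E0) ∧
        ∀ c ∈ A q, ∀ Q : Place ℂ E, x ≠ algebraMap ℂ E c → 0 < Q.ord (x - algebraMap ℂ E c) →
          (mu q c : ℤ) ≤ Q.ord (x - algebraMap ℂ E c) := by
    intro q
    obtain ⟨h, hh, h0⟩ := exists_tuple (g (ii q)) hy0 hyΨ
    have hvAt := im_at (g (ii q)) hy0 hyΨ hh h0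
    have hvΥ0 := im_mem (g (ii q)) hΥ hy0 hyΨ hh h0
    obtain ⟨w, hw⟩ : ∃ w, w = im h y := ⟨_, rfl⟩
    rw [← hw] at hvAt hvΥ0 h0
    obtain ⟨a0, ha0'⟩ := Function.ne_iff.1 h0
    have ha0 : w a0 ≠ 0 := ha0'
    obtain ⟨hfd, hrk⟩ := val_deg hperm hG.noBase hy0 hyΨ hyG (ii q) hvAt ha0
    obtain ⟨E, hE⟩ : ∃ E, E = IntermediateField.adjoin E0
      (Set.range fun a => w a / w a0) := ⟨_, rfl⟩
    rw [← hE] at hfd hrk
    have hmem : ∀ a, w a / w a0 ∈ E := fun a => by
      rw [hE]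
      exact IntermediateField.subset_adjoin E0 _ ⟨a, rfl⟩
    let v : Fin (l + 1) → E := fun a => ⟨w a / w a0, hmem a⟩
    have hv0 : v a0 = 1 := Subtype.ext (div_self ha0)
    have hvne : v ≠ 0 := by
      intro h0
      rw [h0] at hv0
      exact zero_ne_one hv0
    let φ : E →ₐ[ℂ] AlgebraicClosure E0 := E.val.restrictScalars ℂ
    have hφ : (fun a => φ (v a)) = fun a => (w a0)⁻¹ * w a := by
      funext a
      change w a / w a0 = _
      rw [div_eq_mul_inv, mul_comm]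
    have hvΥ : ∀ e, val v (Υ e) = 0 := by
      intro e'
      apply φ.injective
      change φ _ = φ _
      obtain ⟨d, hd⟩ := hΥ e'
      rw [val_map, hφ, val_smul hd, hvΥ0 e', mul_zero, map_zero]
    obtain ⟨t, ht⟩ := exists_at (b q) hvne hvΥ
    refine ⟨fun i => φ (t i), At_comp hvAt (At_scale φ ht (c := w a0) fun a => ?_), E,
      hfd, t 0 / t 1, hrk, (map_div₀ φ _ _).symm, fun c hc Q h1 h2 => ?_⟩
    · change _ = _ * (w a / w a0)
      field_simp
    · exact mult_at (hb q) hvne hvΥ ht hc Q h1 h2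
  choose t ht hE using hkey
  exact ⟨y, t, hy0, hyΨ, hyG, ht, hE⟩

/-- the point over the field of meromorphic functions of an entire curve -/
theorem entire_point {f : ℂ → Fin (M + 1) → ℂ} (hf : Entire Φ f) :
    ∃ z : Fin (M + 1) → MK, z ≠ 0 ∧ (∀ e, val z (Φ e) = 0) ∧
      ∀ T : MvPolynomial (Fin (M + 1)) ℂ, val z T = 0 ↔ ∀ t, val (f t) T = 0 := by
  obtain ⟨f', hf'⟩ : ∃ f' : Fin (M + 1) → ℂ → ℂ, ∀ i t, f' i t = f t i := ⟨_, fun _ _ => rfl⟩
  have hff : ∀ t, (fun i => f' i t) = f t := fun t => funext fun i => hf' i t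
  have hhol : ∀ i, Differentiable ℂ (f' i) := by
    intro i
    have : f' i = fun t => f t i := funext (hf' i)
    rw [this]
    exact hf.hol i
  have hmer : ∀ i, Meromorphic (f' i) := fun i t =>
    ((hhol i).analyticAt t).meromorphicAt
  obtain ⟨z, hzdef⟩ : ∃ z : Fin (M + 1) → MK, z = fun i => cl (f' i) (hmer i) := ⟨_, rfl⟩
  have hcont : ∀ T : MvPolynomial (Fin (M + 1)) ℂ,
      Continuous fun t => MvPolynomial.eval (fun i => f' i t) T := fun T =>
    (MvPolynomial.continuous_eval T).comp (continuous_pi fun i => (hhol i).continuous)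
  have hvz : ∀ T : MvPolynomial (Fin (M + 1)) ℂ, val z T = 0 ↔ ∀ t, val (f t) T = 0 := by
    intro T
    rw [hzdef, val_cl hmer T, cl_eq_zero]
    have h1 : ∀ t, MvPolynomial.eval (fun i => f' i t) T = val (f t) T := by
      intro t
      rw [hff]
      unfold Pool.Agent.W602.GT.val
      rw [MvPolynomial.aeval_eq_eval]
    constructor
    · intro h t
      rw [← h1]
      exact eq_of_codis (g := fun _ => 0) h (hcont T).continuousAt continuousAt_const
    · intro h
      exact Eventually.of_forall fun t => (h1 t).trans (h t)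
  refine ⟨z, ?_, fun e => (hvz _).2 fun t => (hf.mem t).2 e, hvz⟩
  intro h0
  apply (hf.mem 0).1
  funext i
  have h1 := (hvz (MvPolynomial.X i)).1 (by
    unfold Pool.Agent.W602.GT.val
    rw [MvPolynomial.aeval_X, h0]
    rfl) 0
  unfold Pool.Agent.W602.GT.val at h1
  rw [MvPolynomial.aeval_X] at h1
  exact h1

section

variable (hΨ : ∀ e, IsForm (Ψ e)) (hΥ : ∀ e, IsForm (Υ e)) (hG : Mor Ψ Φ G)
    (hon : Onto Ψ Φ G) (hperm : Permuted G g)
    (ii : Fin N → Fin s) (b : Fin N → LineMap Υ) {A : Fin N → Finset ℂ} {mu : Fin N → ℂ → ℕ}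
    (hb : ∀ q, (b q).Multiple (A q) (mu q)) (hwide : ∀ q, Wide s (A q) (mu q))

include hΨ hΥ hG hon hperm hb hwide

/-- the values are constant on the points over the field of meromorphic functions -/
theorem mero_sym {z : Fin (M + 1) → MK} (hz : z ≠ 0) (hzΦ : ∀ e, val z (Φ e) = 0) :
    ∃ (y : Fin (m + 1) → AlgebraicClosure MK) (t : Fin N → Fin 2 → AlgebraicClosure MK),
      y ≠ 0 ∧ (∀ e, val y (Ψ e) = 0) ∧
      (im G y = fun j => algebraMap MK (AlgebraicClosure MK) (z j)) ∧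
      (∀ q, ((b q).comp (g (ii q))).At y (t q)) ∧
      ∀ q, ∃ c : ℂ, t q 0 / t q 1 = algebraMap ℂ (AlgebraicClosure MK) c := by
  classical
  obtain ⟨y, t, hy0, hyΨ, hyG, ht, hE⟩ := lift_vals hΨ hΥ hG hon hperm ii b hb hz hzΦ
  refine ⟨y, t, hy0, hyΨ, hyG, ht, fun q => ?_⟩
  obtain ⟨E, hfd, x, hrk, hx, hmult⟩ := hE q
  have hconst : ∃ c : ℂ, x = algebraMap ℂ E c := by
    refine algebroid_const hrk (a := fun i => ((A q).equivFin.symm i : ℂ))
      (fun i i' h => (A q).equivFin.symm.injective (Subtype.ext h))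
      (m := fun i => mu q ((A q).equivFin.symm i : ℂ))
      (fun i => (hwide q).1 _ ((A q).equivFin.symm i).2) (fun g s hg hs hgs => ?_) _
      (fun Q i h1 h2 => ?_)
    · rw [← sum_equivFin (A q) (fun c => 1 - 1 / (cdiv (mu q c) g : ℝ))]
      exact (hwide q).2 g s hg hs hgs
    · exact hmult _ ((A q).equivFin.symm i).2 Q h1 h2
  obtain ⟨c, hc⟩ := hconst
  refine ⟨c, ?_⟩
  rw [hx, hc]
  rfl

/-- **Entire curves lie in the images of the fibres.** -/
theorem entire_sym {f : ℂ → Fin (M + 1) → ℂ} (hf : Entire Φ f) :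
    ∃ q : Fin N → Fin 2 → ℂ,
      Entire (fibreImage G (fun q => (b q).comp (g (ii q))) q) f := by
  obtain ⟨z, hz0, hzΦ, hvz⟩ := entire_point hf
  obtain ⟨y, t, hy0, hyΨ, hyG, ht, hconst⟩ :=
    mero_sym hΨ hΥ hG hon hperm ii b hb hwide hz0 hzΦ
  obtain ⟨q, hq⟩ := fibre_point (G := G) (b := fun q => (b q).comp (g (ii q)))
    (z := z) (c := 1) hy0 hyΨ (fun j => by
      rw [one_mul]
      exact (congrFun hyG j).symm) ht hconst
  exact ⟨q, hf.hol, fun s => ⟨(hf.mem s).1, fun e => (hvz _).1 (hq e) s⟩, hf.nonconst⟩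

/-- **There are no entire curves in the case of finite fibres.** -/
theorem entire_sym_fin (hfin : FiniteFibres fun q => (b q).comp (g (ii q)))
    {f : ℂ → Fin (M + 1) → ℂ} (hf : Entire Φ f) : False := by
  obtain ⟨z, hz0, hzΦ, hvz⟩ := entire_point hf
  obtain ⟨y, t, hy0, hyΨ, hyG, ht, hconst⟩ :=
    mero_sym hΨ hΥ hG hon hperm ii b hb hwide hz0 hzΦ
  obtain ⟨i0, hi0'⟩ := Function.ne_iff.1 hy0
  have hi0 : y i0 ≠ 0 := hi0'
  obtain ⟨e, -, hGe⟩ := hG.form
  obtain ⟨l, a, hl, ha⟩ := coords_const (G := G) (z := z) (u := fun i => (y i0)⁻¹ * y i)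
    (i0 := i0) (c := (y i0) ^ e) hfin hz0 (inv_mul_cancel₀ hi0) (fun e' => by
      obtain ⟨d, hd⟩ := hΨ e'
      rw [val_smul hd, hyΨ, mul_zero]) (fun j => by
      have h1 := congrFun hyG j
      rw [← h1, im_smul hGe]
      change _ = y i0 ^ e * ((y i0)⁻¹ ^ e * im G y j)
      rw [← mul_assoc, ← mul_pow, mul_inv_cancel₀ hi0, one_pow, one_mul]) (t := t) (fun q => by
      refine ⟨(ht q).ne, fun h' hh' => ?_⟩
      obtain ⟨d, h1, h2⟩ := ((b q).comp (g (ii q))).form h' hh'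
      rw [val_smul h1, val_smul h2]
      linear_combination ((y i0)⁻¹) ^ d * (ht q).eq h' hh') hconst
  obtain ⟨t1, t2, hli⟩ := hf.nonconst
  rw [LinearIndependent.pair_iff] at hli
  have h5 : ∀ t i, f t i = a i * f t l := by
    intro t i
    have h1 := (hvz (MvPolynomial.X i - MvPolynomial.C (a i) * MvPolynomial.X l)).1 (by
      unfold Pool.Agent.W602.GT.val
      rw [map_sub, map_mul, MvPolynomial.aeval_X, MvPolynomial.aeval_X, MvPolynomial.aeval_C,
        ha i, sub_self]) t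
    unfold Pool.Agent.W602.GT.val at h1
    rw [map_sub, map_mul, MvPolynomial.aeval_X, MvPolynomial.aeval_X, MvPolynomial.aeval_C,
      sub_eq_zero] at h1
    exact h1
  have h6 := hli (f t2 l) (-(f t1 l)) (by
    funext i
    simp only [Pi.add_apply, Pi.smul_apply, smul_eq_mul, Pi.zero_apply]
    rw [h5 t1 i, h5 t2 i]
    ring)
  apply (hf.mem t2).1
  funext i
  rw [h5 t2 i, h6.1, mul_zero]
  rfl

end

end Pool.Agent.K4H65.DM
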